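import Mathlib

/-! Preparations for leaf C3A (helper1): the perfect closure of a domain and its field of fractions -/

set_option autoImplicit false

open MvPolynomial

namespace Pool.Agent.K9h85.AH

theorem c3_perf (p : ℕ) [Fact p.Prime] (B : Type) [CommRing B] [IsDomain B] [CharP B p] :
    ∃ (B' : Type) (_ : CommRing B') (_ : IsDomain B') (_ : CharP B' p) (_ : PerfectRing B' p)
      (i0 : B →+* B'), Function.Injective i0 ∧ ∀ b : B', ∃ (j : ℕ) (c : B), b ^ p ^ j = i0 c := by
  have hinj : Function.Injective (PerfectClosure.of B p) := by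
    intro a b hab
    rw [PerfectClosure.of_apply, PerfectClosure.of_apply, PerfectClosure.eq_iff] at hab
    simpa using hab
  have hrad : ∀ b : PerfectClosure B p, ∃ (j : ℕ) (c : B), b ^ p ^ j = PerfectClosure.of B p c := by
    intro b
    refine PerfectClosure.induction_on b ?_
    rintro ⟨j, c⟩
    refine ⟨j, c, ?_⟩
    rw [← PerfectClosure.iterate_frobenius_mk, iterate_frobenius]
  have hdom : IsDomain (PerfectClosure B p) := by
    have hnt : Nontrivial (PerfectClosure B p) := hinj.nontrivial
    have : NoZeroDivisors (PerfectClosure B p) := by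
      refine ⟨fun {a b} hab => ?_⟩
      obtain ⟨i, c, hc⟩ := hrad a
      obtain ⟨j, d, hd⟩ := hrad b
      have h1 : PerfectClosure.of B p (c ^ p ^ j * d ^ p ^ i) = 0 := by
        rw [map_mul, map_pow, map_pow, ← hc, ← hd, ← pow_mul, ← pow_mul, mul_comm (p ^ j) (p ^ i),
          ← mul_pow, hab, zero_pow]
        exact mul_ne_zero (pow_ne_zero _ (Fact.out : p.Prime).ne_zero)
          (pow_ne_zero _ (Fact.out : p.Prime).ne_zero)
      rw [map_eq_zero_iff _ hinj] at h1
      rcases mul_eq_zero.1 h1 with h | h
      · left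
        have h2 : c = 0 := eq_zero_of_pow_eq_zero h
        rw [h2, map_zero] at hc
        exact eq_zero_of_pow_eq_zero hc
      · right
        have h2 : d = 0 := eq_zero_of_pow_eq_zero h
        rw [h2, map_zero] at hd
        exact eq_zero_of_pow_eq_zero hd
    exact NoZeroDivisors.to_isDomain _
  exact ⟨PerfectClosure B p, inferInstance, hdom, inferInstance, inferInstance,
    PerfectClosure.of B p, hinj, hrad⟩

theorem c3_frac_charP (p : ℕ) [Fact p.Prime] (B : Type) [CommRing B] [IsDomain B] [CharP B p] :
    CharP (FractionRing B) p :=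
  charP_of_injective_algebraMap (IsFractionRing.injective B (FractionRing B)) p

theorem c3_frac_perf (p : ℕ) [Fact p.Prime] (B : Type) [CommRing B] [IsDomain B] [CharP B p]
    [PerfectRing B p] [CharP (FractionRing B) p] : PerfectRing (FractionRing B) p := by
  refine PerfectRing.ofSurjective _ _ fun y => ?_
  obtain ⟨a, b, hb, rfl⟩ := IsFractionRing.div_surjective (A := B) y
  obtain ⟨a', ha'⟩ := (bijective_frobenius B p).2 a
  obtain ⟨b', hb'⟩ := (bijective_frobenius B p).2 b
  refine ⟨algebraMap B _ a' / algebraMap B _ b', ?_⟩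
  rw [map_div₀, ← RingHom.map_frobenius, ← RingHom.map_frobenius, ha', hb']

end Pool.Agent.K9h85.AH
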