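import Pool.Agent.K9h85.AH.Stm7

/-!
Leaf CB2 (helper51): combinatorics of walks in hypergraphs.
-/

set_option autoImplicit false

namespace Pool.Agent.K9h85.AH.CB2_

open Finset

variable {V : Type} [DecidableEq V]

/-- the vertices of the edges in `T`, with `b0` and `b1` -/
def U (b0 b1 : V) (T : Finset (Finset V)) : Finset V := T.biUnion id ∪ {b0, b1}

/-- the excess -/
def ff (r : ℕ) (b0 b1 : V) (T : Finset (Finset V)) : ℤ :=
  ((U b0 b1 T).card : ℤ) - ((r : ℤ) - 2) * (T.card : ℤ)

lemma U_insert (b0 b1 : V) (T : Finset (Finset V)) (u : Finset V) :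
    U b0 b1 (insert u T) = u ∪ U b0 b1 T := by
  unfold U
  rw [Finset.biUnion_insert, id, Finset.union_assoc]

lemma b0_mem (b0 b1 : V) (T : Finset (Finset V)) : b0 ∈ U b0 b1 T := by
  unfold U; simp

lemma b1_mem (b0 b1 : V) (T : Finset (Finset V)) : b1 ∈ U b0 b1 T := by
  unfold U; simp

lemma bj_mem (b0 b1 : V) (T : Finset (Finset V)) (j : ℕ) :
    (if j % 2 = 0 then b0 else b1) ∈ U b0 b1 T := by
  split_ifs
  · exact b0_mem _ _ _
  · exact b1_mem _ _ _

lemma mem_U {b0 b1 : V} {T : Finset (Finset V)} {u : Finset V} {x : V} (hu : u ∈ T) (hx : x ∈ u) :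
    x ∈ U b0 b1 T :=
  Finset.mem_union_left _ (Finset.mem_biUnion.2 ⟨u, hu, hx⟩)

lemma ff_insert {r : ℕ} {b0 b1 : V} {T : Finset (Finset V)} {u : Finset V} (hu : u ∉ T)
    (hr : u.card = r) (F : Finset V) (hF1 : F ⊆ u) (hF2 : F ⊆ U b0 b1 T) :
    ff r b0 b1 (insert u T) ≤ ff r b0 b1 T + 2 - F.card := by
  unfold ff
  rw [U_insert, Finset.card_insert_of_notMem hu]
  have h1 := Finset.card_union_add_card_inter u (U b0 b1 T)
  have h2 : F.card ≤ (u ∩ U b0 b1 T).card := Finset.card_le_card (Finset.subset_inter hF1 hF2)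
  rw [hr] at h1
  push_cast
  have h3 : ((u ∪ U b0 b1 T).card : ℤ) + ((u ∩ U b0 b1 T).card : ℤ) = r + (U b0 b1 T).card := by
    exact_mod_cast h1
  have h4 : (F.card : ℤ) ≤ ((u ∩ U b0 b1 T).card : ℤ) := by exact_mod_cast h2
  linarith

/-- the edges of `T` and the first `i` edges of the walk -/
def AA (T : Finset (Finset V)) (wP : ℕ → Finset V) (i : ℕ) : Finset (Finset V) :=
  T ∪ (range i).image wP

lemma AA_zero (T : Finset (Finset V)) (wP : ℕ → Finset V) : AA T wP 0 = T := by
  unfold AA; simp

lemma AA_succ (T : Finset (Finset V)) (wP : ℕ → Finset V) (i : ℕ) :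
    AA T wP (i + 1) = insert (wP i) (AA T wP i) := by
  unfold AA
  rw [Finset.range_add_one, Finset.image_insert, Finset.union_insert]

lemma mem_AA (T : Finset (Finset V)) (wP : ℕ → Finset V) {i j : ℕ} (h : j < i) :
    wP j ∈ AA T wP i :=
  Finset.mem_union_right _ (Finset.mem_image_of_mem _ (mem_range.2 h))

section

variable {r e : ℕ} {b0 b1 : V} (hb : b0 ≠ b1) {wP : ℕ → Finset V} {vP : ℕ → V}
  (hc : ∀ j ≤ e, (wP j).card = r)
  (hbj : ∀ j ≤ e, (if j % 2 = 0 then b0 else b1) ∈ wP j)
  (hv : ∀ j < e, vP j ∈ wP j ∧ vP j ∈ wP (j + 1) ∧ vP j ≠ b0 ∧ vP j ≠ b1)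
  (hvv : ∀ j, j + 1 < e → vP j ≠ vP (j + 1))

include hc hbj hv in
lemma L1 (T : Finset (Finset V)) : ∀ i ≤ e, (∀ i' < i, wP i' ∉ AA T wP i') →
    (AA T wP i).card = T.card + i ∧ ff r b0 b1 (AA T wP i) ≤ ff r b0 b1 T + 1 := by
  intro i
  induction i with
  | zero =>
    intro _ _
    rw [AA_zero]
    exact ⟨rfl, by linarith⟩
  | succ i ih =>
    intro hi h
    obtain ⟨h1, h2⟩ := ih (by omega) fun i' hi' => h i' (by omega)
    have h3 : wP i ∉ AA T wP i := h i (by omega)
    rw [AA_succ]
    refine ⟨by rw [Finset.card_insert_of_notMem h3, h1]; ring, ?_⟩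
    rcases Nat.eq_zero_or_pos i with h0 | h0
    · subst h0
      have h4 := ff_insert (b0 := b0) (b1 := b1) h3 (hc 0 (by omega)) {b0}
        (Finset.singleton_subset_iff.2 (by simpa using hbj 0 (by omega)))
        (Finset.singleton_subset_iff.2 (b0_mem _ _ _))
      rw [Finset.card_singleton] at h4
      rw [AA_zero] at h4 ⊢
      push_cast at h4
      linarith
    · obtain ⟨k, rfl⟩ : ∃ k, i = k + 1 := ⟨i - 1, by omega⟩
      obtain ⟨v1, v2, v3, v4⟩ := hv k (by omega)
      have h5 : vP k ≠ (if (k + 1) % 2 = 0 then b0 else b1) := by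
        split_ifs
        · exact v3
        · exact v4
      have h4 := ff_insert (b0 := b0) (b1 := b1) h3 (hc (k + 1) (by omega))
        {vP k, if (k + 1) % 2 = 0 then b0 else b1}
        (by
          intro x hx
          rcases Finset.mem_insert.1 hx with rfl | hx
          · exact v2
          · rw [Finset.mem_singleton.1 hx]
            exact hbj (k + 1) (by omega))
        (by
          intro x hx
          rcases Finset.mem_insert.1 hx with rfl | hx
          · exact mem_U (mem_AA T wP (Nat.lt_succ_self k)) v1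
          · rw [Finset.mem_singleton.1 hx]
            exact bj_mem _ _ _ _)
      rw [Finset.card_pair h5] at h4
      push_cast at h4
      linarith

include hb hc hbj hv hvv in
lemma L2 (T : Finset (Finset V)) (hT : ff r b0 b1 T ≤ 2) (i : ℕ) (hi : i < e)
    (h : ∀ i' < i, wP i' ∉ AA T wP i') (hw : wP i ∈ AA T wP i) :
    ff r b0 b1 (AA T wP i) ≤ 2 := by
  rcases Nat.eq_zero_or_pos i with h0 | h0
  · subst h0
    rwa [AA_zero]
  · obtain ⟨k, rfl⟩ : ∃ k, i = k + 1 := ⟨i - 1, by omega⟩
    obtain ⟨h1, h2⟩ := L1 (b0 := b0) (b1 := b1) hc hbj hv T k (by omega)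
      fun i' hi' => h i' (by omega)
    have h3 : wP k ∉ AA T wP k := h k (by omega)
    obtain ⟨v1, v2, v3, v4⟩ := hv k (by omega)
    have hbk := hbj k (by omega)
    have hbk1 := hbj (k + 1) (by omega)
    rw [AA_succ] at hw ⊢
    -- two elements of `wP k` in `U (AA T wP k)`
    obtain ⟨x, hx1, hx2, hx3, hx4⟩ : ∃ x, x ∈ wP k ∧ x ∈ U b0 b1 (AA T wP k) ∧
        x ≠ (if k % 2 = 0 then b0 else b1) ∧ (x = vP k ∨ x = b0 ∨ x = b1) := by
      rcases Finset.mem_insert.1 hw with h4 | h4
      · -- `wP (k + 1) = wP k`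
        refine ⟨if (k + 1) % 2 = 0 then b0 else b1, by rw [← h4]; exact hbk1, bj_mem _ _ _ _, ?_, ?_⟩
        · rcases Nat.mod_two_eq_zero_or_one k with h5 | h5
          · rw [if_neg (by omega), if_pos h5]
            exact hb.symm
          · rw [if_pos (by omega), if_neg (by omega)]
            exact hb
        · split_ifs
          · exact Or.inr (Or.inl rfl)
          · exact Or.inr (Or.inr rfl)
      · refine ⟨vP k, v1, mem_U h4 v2, ?_, Or.inl rfl⟩
        split_ifs
        · exact v3
        · exact v4
    rcases Nat.eq_zero_or_pos k with h5 | h5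
    · subst h5
      have h6 := ff_insert (b0 := b0) (b1 := b1) h3 (hc 0 (by omega))
        {x, if 0 % 2 = 0 then b0 else b1}
        (by
          intro y hy
          rcases Finset.mem_insert.1 hy with rfl | hy
          · exact hx1
          · rw [Finset.mem_singleton.1 hy]
            exact hbk)
        (by
          intro y hy
          rcases Finset.mem_insert.1 hy with rfl | hy
          · exact hx2
          · rw [Finset.mem_singleton.1 hy]
            exact bj_mem _ _ _ _)
      rw [Finset.card_pair hx3] at h6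
      rw [AA_zero] at h6 ⊢
      push_cast at h6
      linarith
    · obtain ⟨l, rfl⟩ : ∃ l, k = l + 1 := ⟨k - 1, by omega⟩
      obtain ⟨u1, u2, u3, u4⟩ := hv l (by omega)
      have huv := hvv l (by omega)
      have h7 : vP l ≠ x := by
        rcases hx4 with rfl | rfl | rfl
        · exact huv
        · exact u3
        · exact u4
      have h8 : vP l ≠ (if (l + 1) % 2 = 0 then b0 else b1) := by
        split_ifs
        · exact u3
        · exact u4
      have h6 := ff_insert (b0 := b0) (b1 := b1) h3 (hc (l + 1) (by omega))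
        {vP l, x, if (l + 1) % 2 = 0 then b0 else b1}
        (by
          intro y hy
          rcases Finset.mem_insert.1 hy with rfl | hy
          · exact u2
          · rcases Finset.mem_insert.1 hy with rfl | hy
            · exact hx1
            · rw [Finset.mem_singleton.1 hy]
              exact hbk)
        (by
          intro y hy
          rcases Finset.mem_insert.1 hy with rfl | hy
          · exact mem_U (mem_AA T wP (Nat.lt_succ_self l)) u1
          · rcases Finset.mem_insert.1 hy with rfl | hy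
            · exact hx2
            · rw [Finset.mem_singleton.1 hy]
              exact bj_mem _ _ _ _)
      rw [Finset.card_eq_three.2 ⟨vP l, x, _, h7, h8, hx3, rfl⟩] at h6
      push_cast at h6
      linarith

end

/-- LEAF CB2 -/
theorem cb2 : S_CB2 := by
  intro V _ r e hr b0 b1 hb Ps w v he hw0 hc hbj hv hvv
  rcases Nat.eq_zero_or_pos e with he0 | he0
  · subst he0
    exact ⟨∅, by simp, by simp, by simp⟩
  -- a set which is good enough
  have hfin : ∀ S : Finset (Finset V), S.card = e → ff r b0 b1 S ≤ 3 →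
      (S.biUnion id).card ≤ (r - 2) * e + 3 := by
    intro S hS hf
    have h1 : (S.biUnion id).card ≤ (U b0 b1 S).card :=
      Finset.card_le_card Finset.subset_union_left
    unfold ff at hf
    rw [hS] at hf
    have h2 : (((r - 2 : ℕ)) : ℤ) = (r : ℤ) - 2 := by
      rw [Nat.cast_sub (by omega)]
      norm_num
    have h3 : ((U b0 b1 S).card : ℤ) ≤ (((r - 2) * e + 3 : ℕ) : ℤ) := by
      push_cast
      rw [h2]
      linarith
    exact h1.trans (by exact_mod_cast h3)
  by_contra hcon
  push Not at hcon
  have key : ∀ Q : Finset (Finset V), Q ⊆ Ps → ∃ T : Finset (Finset V), T.card < e ∧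
      ff r b0 b1 T ≤ 2 ∧ Q ⊆ T ∧ ∀ u ∈ T, ∃ P ∈ Ps, ∃ j ≤ e, u = w P j := by
    intro Q
    induction Q using Finset.induction_on with
    | empty =>
      intro _
      refine ⟨∅, by simpa using he0, ?_, Finset.Subset.refl _, by simp⟩
      unfold ff U
      have : ((∅ : Finset (Finset V)).biUnion id ∪ {b0, b1}).card ≤ 2 := by
        rw [Finset.biUnion_empty, Finset.empty_union]
        exact Finset.card_le_two
      simp only [Finset.card_empty]
      push_cast
      have h3 : (((∅ : Finset (Finset V)).biUnion id ∪ {b0, b1}).card : ℤ) ≤ 2 := by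
        exact_mod_cast this
      linarith
    | insert P Q _ ih =>
      intro hQ
      obtain ⟨T, hT1, hT2, hT3, hT4⟩ := ih fun x hx => hQ (Finset.mem_insert_of_mem hx)
      have hP : P ∈ Ps := hQ (Finset.mem_insert_self _ _)
      have hwalk : ∀ i ≤ e, ∀ u ∈ AA T (w P) i, ∃ P ∈ Ps, ∃ j ≤ e, u = w P j := by
        intro i hi u hu
        rcases Finset.mem_union.1 hu with h | h
        · exact hT4 u h
        · obtain ⟨j, hj, rfl⟩ := Finset.mem_image.1 h
          exact ⟨P, hP, j, by have := mem_range.1 hj; omega, rfl⟩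
      by_cases hall : ∃ i, i < e - T.card ∧ w P i ∈ AA T (w P) i
      · classical
        have hspec := Nat.find_spec hall
        have hmin : ∀ i' < Nat.find hall, w P i' ∉ AA T (w P) i' := by
          intro i' hi' hmem
          exact Nat.find_min hall hi' ⟨by omega, hmem⟩
        set i := Nat.find hall with hidef
        have hie : i < e := by omega
        have h1 := L2 hb (hc P hP) (hbj P hP) (hv P hP) (hvv P hP) T hT2 i hie hmin hspec.2
        have h2 := (L1 (b0 := b0) (b1 := b1) (hc P hP) (hbj P hP) (hv P hP) T i hie.le hmin).1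
        refine ⟨AA T (w P) i, by omega, h1, ?_, hwalk i hie.le⟩
        intro x hx
        rcases Finset.mem_insert.1 hx with rfl | hx
        · rcases Nat.eq_zero_or_pos i with h0 | h0
          · have h3 := hspec.2
            rw [h0, hw0 x hP] at h3
            rw [h0]
            exact h3
          · have h3 := mem_AA T (w x) h0
            rw [hw0 x hP] at h3
            exact h3
        · exact Finset.mem_union_left _ (hT3 hx)
      · push Not at hall
        have h1 := L1 (b0 := b0) (b1 := b1) (hc P hP) (hbj P hP) (hv P hP) T (e - T.card)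
          (by omega) hall
        have h2 : (AA T (w P) (e - T.card)).card = e := by omega
        exfalso
        obtain ⟨u, hu, hno⟩ := hcon _ h2 (hfin _ h2 (by linarith [h1.2]))
        obtain ⟨P', hP', j, hj, huj⟩ := hwalk (e - T.card) (by omega) u hu
        exact hno P' hP' j hj huj
  obtain ⟨T, hT1, _, hT3, _⟩ := key Ps (Finset.Subset.refl _)
  have := Finset.card_le_card hT3
  omega

end Pool.Agent.K9h85.AH.CB2_
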