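import Pool.Agent.K9h85.AH.Stm8

/-!
# Leaf CHG (helper99): walks whose first bad edge is charged to it
-/

set_option autoImplicit false

namespace Pool.Agent.K9h85.AH

namespace CHG_

theorem aux (V : Type) [DecidableEq V] (r e : ℕ) (σ : V ≃ V) (G U : Finset (Finset V))
    (w : Finset V → ℕ → Finset V) (b : Finset V → V) (v : Finset V → ℕ → V)
    (hG : ∀ a a' : V, a ≠ a' → (G.filter fun g => a ∈ g ∧ a' ∈ g).card ≤ e)
    (h0 : ∀ u ∈ U, w u 0 = u) (hr : ∀ u ∈ U, ∀ j ≤ e, (w u j).card ≤ r)
    (hb : ∀ u ∈ U, ∀ j ≤ e, (if j % 2 = 0 then b u else σ (b u)) ∈ w u j)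
    (hv : ∀ u ∈ U, ∀ j < e, v u j ∈ w u j ∧ v u j ∈ w u (j + 1) ∧ v u j ≠ b u ∧ v u j ≠ σ (b u))
    (β : V) : ∀ j ≤ e, ∀ u' : Finset V,
      (U.filter fun u => w u j = u' ∧ b u = β ∧ ∀ i < j, w u i ∈ G).card ≤ (r * e) ^ j := by
  intro j
  induction j with
  | zero =>
    intro _ u'
    rw [pow_zero, Finset.card_le_one]
    intro x hx y hy
    rw [Finset.mem_filter] at hx hy
    rw [← h0 x hx.1, ← h0 y hy.1, hx.2.1, hy.2.1]
  | succ j ih =>
    intro hj u'
    rcases Finset.eq_empty_or_nonempty
      (U.filter fun u => w u (j + 1) = u' ∧ b u = β ∧ ∀ i < j + 1, w u i ∈ G) with he | ⟨u0, hu0⟩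
    · rw [he]
      simp
    have hcard : u'.card ≤ r := by
      rw [Finset.mem_filter] at hu0
      rw [← hu0.2.1]
      exact hr u0 hu0.1 (j + 1) hj
    let c : V := if j % 2 = 0 then β else σ β
    have hsub : (U.filter fun u => w u (j + 1) = u' ∧ b u = β ∧ ∀ i < j + 1, w u i ∈ G) ⊆
        (u'.filter fun a => a ≠ c).biUnion fun a => (G.filter fun g => a ∈ g ∧ c ∈ g).biUnion fun g =>
          U.filter fun u => w u j = g ∧ b u = β ∧ ∀ i < j, w u i ∈ G := by
      intro u hu
      rw [Finset.mem_filter] at hu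
      obtain ⟨hU, h1, h2, h3⟩ := hu
      obtain ⟨a1, a2, a3, a4⟩ := hv u hU j (by omega)
      have hc := hb u hU j (by omega)
      rw [Finset.mem_biUnion]
      refine ⟨v u j, ?_, ?_⟩
      · rw [Finset.mem_filter]
        refine ⟨h1 ▸ a2, ?_⟩
        by_cases hp : j % 2 = 0
        · simp only [c, hp, if_true]
          rw [← h2]
          exact a3
        · simp only [c, hp, if_false]
          rw [← h2]
          exact a4
      · rw [Finset.mem_biUnion]
        refine ⟨w u j, ?_, ?_⟩
        · rw [Finset.mem_filter]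
          refine ⟨h3 j (Nat.lt_succ_self j), a1, ?_⟩
          rw [h2] at hc
          exact hc
        · rw [Finset.mem_filter]
          exact ⟨hU, rfl, h2, fun i hi => h3 i (by omega)⟩
    calc (U.filter fun u => w u (j + 1) = u' ∧ b u = β ∧ ∀ i < j + 1, w u i ∈ G).card
        ≤ _ := Finset.card_le_card hsub
      _ ≤ ∑ a ∈ (u'.filter fun a => a ≠ c), e * (r * e) ^ j := by
          refine Finset.card_biUnion_le.trans (Finset.sum_le_sum fun a ha => ?_)
          refine Finset.card_biUnion_le.trans ?_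
          rw [Finset.mem_filter] at ha
          calc ∑ g ∈ (G.filter fun g => a ∈ g ∧ c ∈ g),
                (U.filter fun u => w u j = g ∧ b u = β ∧ ∀ i < j, w u i ∈ G).card
              ≤ ∑ g ∈ (G.filter fun g => a ∈ g ∧ c ∈ g), (r * e) ^ j :=
                Finset.sum_le_sum fun g _ => ih (by omega) g
            _ = (G.filter fun g => a ∈ g ∧ c ∈ g).card * (r * e) ^ j := by
                rw [Finset.sum_const, smul_eq_mul]
            _ ≤ e * (r * e) ^ j := Nat.mul_le_mul_right _ (hG a c ha.2)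
      _ = (u'.filter fun a => a ≠ c).card * (e * (r * e) ^ j) := by
          rw [Finset.sum_const, smul_eq_mul]
      _ ≤ r * (e * (r * e) ^ j) :=
          Nat.mul_le_mul_right _ ((Finset.card_filter_le _ _).trans hcard)
      _ = (r * e) ^ (j + 1) := by ring

end CHG_

theorem chg : S_CHG := by
  intro V _ r e σ G Bad U w b v hr1 he1 hG h0 hr hb hv hbad
  have hpos : 1 ≤ r * e := Nat.mul_pos hr1 he1
  have hsub : U ⊆ (Finset.range (e + 1)).biUnion fun j => Bad.biUnion fun u' =>
      U.filter fun u => w u j = u' ∧ ∀ i < j, w u i ∈ G := by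
    intro u hu
    obtain ⟨j, hj, h1, h2⟩ := hbad u hu
    rw [Finset.mem_biUnion]
    refine ⟨j, Finset.mem_range.2 (by omega), ?_⟩
    rw [Finset.mem_biUnion]
    refine ⟨w u j, h1, ?_⟩
    rw [Finset.mem_filter]
    exact ⟨hu, rfl, h2⟩
  have key : ∀ j ≤ e, ∀ u' : Finset V,
      (U.filter fun u => w u j = u' ∧ ∀ i < j, w u i ∈ G).card ≤ r * (r * e) ^ e := by
    intro j hj u'
    rcases Finset.eq_empty_or_nonempty (U.filter fun u => w u j = u' ∧ ∀ i < j, w u i ∈ G) with
      he | ⟨u0, hu0⟩
    · rw [he]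
      simp
    have hcard : u'.card ≤ r := by
      rw [Finset.mem_filter] at hu0
      rw [← hu0.2.1]
      exact hr u0 hu0.1 j hj
    let cand : Finset V := if j % 2 = 0 then u' else u'.image σ.symm
    have hcand : cand.card ≤ r := by
      by_cases hp : j % 2 = 0
      · simp only [cand, hp, if_true]
        exact hcard
      · simp only [cand, hp, if_false]
        exact Finset.card_image_le.trans hcard
    have hs : (U.filter fun u => w u j = u' ∧ ∀ i < j, w u i ∈ G) ⊆ cand.biUnion fun β =>
        U.filter fun u => w u j = u' ∧ b u = β ∧ ∀ i < j, w u i ∈ G := by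
      intro u hu
      rw [Finset.mem_filter] at hu
      obtain ⟨hU, h1, h2⟩ := hu
      have hc := hb u hU j hj
      rw [Finset.mem_biUnion]
      refine ⟨b u, ?_, ?_⟩
      · by_cases hp : j % 2 = 0
        · simp only [cand, hp, if_true]
          rw [if_pos hp, h1] at hc
          exact hc
        · simp only [cand, hp, if_false]
          rw [if_neg hp, h1] at hc
          rw [Finset.mem_image]
          exact ⟨σ (b u), hc, σ.symm_apply_apply _⟩
      · rw [Finset.mem_filter]
        exact ⟨hU, h1, rfl, h2⟩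
    calc (U.filter fun u => w u j = u' ∧ ∀ i < j, w u i ∈ G).card
        ≤ _ := Finset.card_le_card hs
      _ ≤ ∑ β ∈ cand, (r * e) ^ j :=
          Finset.card_biUnion_le.trans (Finset.sum_le_sum fun β _ =>
            CHG_.aux V r e σ G U w b v hG h0 hr hb hv β j hj u')
      _ = cand.card * (r * e) ^ j := by rw [Finset.sum_const, smul_eq_mul]
      _ ≤ r * (r * e) ^ e := Nat.mul_le_mul hcand (Nat.pow_le_pow_right hpos hj)
  calc U.card ≤ _ := Finset.card_le_card hsub
    _ ≤ ∑ j ∈ Finset.range (e + 1), Bad.card * (r * (r * e) ^ e) := by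
        refine Finset.card_biUnion_le.trans (Finset.sum_le_sum fun j hj => ?_)
        refine Finset.card_biUnion_le.trans ?_
        rw [Finset.mem_range] at hj
        calc ∑ u' ∈ Bad, (U.filter fun u => w u j = u' ∧ ∀ i < j, w u i ∈ G).card
            ≤ ∑ u' ∈ Bad, r * (r * e) ^ e := Finset.sum_le_sum fun u' _ => key j (by omega) u'
          _ = Bad.card * (r * (r * e) ^ e) := by rw [Finset.sum_const, smul_eq_mul]
    _ = (e + 1) * (r * (r * e) ^ e) * Bad.card := by
        rw [Finset.sum_const, smul_eq_mul, Finset.card_range]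
        ring

end Pool.Agent.K9h85.AH
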