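import Mathlib

/-!
# Project AH (helper85): all hypergraphs defined by polynomial equations (arbitrary systems)

FINAL THEOREM (helper85): for all `r ≥ 3`, `m`, `d`, `t`, `e` there is `C` such that for every finite field
`k` of characteristic `> C`, if `t` polynomials of degree at most `d` in the `r m` coordinates have more than
`C q ^ (2 m - 1)` common zeros in `(k ^ m) ^ r`, then some `e` common zeros span at most `(r - 2) e + 3`
vertices.
-/

set_option autoImplicit false

open MvPolynomial

namespace Pool.Agent.K9h85.AH

/-- LEAF X (file AH/X.lean, theorem `x : S_X`).  `L` is finite over `M`, `τ : M → L[[X]]` lifts the inclusion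
`M → L`; then `τ` extends to `L`.
Proof.  Primitive element `θ` of `L / M` (`Field.exists_primitive_element`, characteristic 0), `g = minpoly M θ`
separable; `g.map τ` has modulo `X` the simple root `θ`; Hensel (starting file Pool/Agent/H470/Hensel.lean,
`Pool.Agent.H470.hensel`, or AH/Ift.lean `ift : S_IFT` with `ν = Unit`) gives a root `Θ` with constant
coefficient `θ`; with `τ.toAlgebra` as local `Algebra M (PowerSeries L)` use the power basis of `L = M⟮θ⟯`
(`Field.powerBasisOfFiniteOfSeparable`, `PowerBasis.lift`), and `constantCoeff ∘ σ = id` by
`PowerBasis.algHom_ext`-type uniqueness.  Algebraicity of `σ a`: it is algebraic over the subring of the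
elements of `PowerSeries L` algebraic over `Polynomial L` (map everything into `FractionRing (PowerSeries L)` or
`LaurentSeries L`, a field, use `algebraicClosure`/transitivity; cf. the proof of `solve` in AH/HM2.lean). -/
def S_X : Prop :=
  ∀ (M L : Type) [Field M] [Field L] [CharZero L] [Algebra M L] [FiniteDimensional M L]
    (τ : M →+* PowerSeries L),
    (∀ a, PowerSeries.constantCoeff (τ a) = algebraMap M L a) →
    (∀ a, IsAlgebraic (Polynomial L) (τ a)) →
    ∃ σ : L →+* PowerSeries L, (∀ a : M, σ (algebraMap M L a) = τ a) ∧
      (∀ a, PowerSeries.constantCoeff (σ a) = a) ∧ ∀ a, IsAlgebraic (Polynomial L) (σ a)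

/-- LEAF T (file AH/T.lean, theorem `t (hx : S_X) : S_T`).
Proof.  `M := FractionRing (MvPolynomial s A)`.  `aeval (fun v : s => x v) : MvPolynomial s A → L` is injective
(`AlgebraicIndependent`), so it extends to `M → L` (`IsFractionRing.lift`), take it as `Algebra M L`
(`RingHom.toAlgebra`, local instance).  `eval₂ (PowerSeries.C ∘ algebraMap A L) b : MvPolynomial s A → L[[X]]`: its
composition with `constantCoeff` is `aeval x` (injective), so every nonzero polynomial goes to a power series
with nonzero constant coefficient, a unit; `IsLocalization.lift` gives `τ : M → L[[X]]`.  `constantCoeff ∘ τ =`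
the inclusion (`IsLocalization.ringHom_ext`); `τ a` algebraic over `L[X]`: quotients of elements of the
`Polynomial L`-subalgebra of algebraic elements (the inverse of a unit of `PowerSeries L` which is algebraic is
algebraic: go to a field containing `PowerSeries L`).  `L` is finite dimensional over `M`: it is generated as a
field by the finitely many `x v`, all algebraic over `M` (`IsTranscendenceBasis.isAlgebraic`,
`IntermediateField.finiteDimensional_adjoin`).  Apply `hx`. -/
def S_T : Prop :=
  ∀ (A L : Type) [CommRing A] [IsDomain A] [Field L] [CharZero L] [Algebra A L],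
    Function.Injective (algebraMap A L) → ∀ (V : Type) [Finite V] (x : V → L),
    (∀ a : L, ∃ f g : MvPolynomial V A, aeval x g ≠ 0 ∧ a * aeval x g = aeval x f) →
    ∀ s : Set V, IsTranscendenceBasis A (fun v : s => x v) → ∀ b : s → PowerSeries L,
    (∀ v, PowerSeries.constantCoeff (b v) = x v) → (∀ v, IsAlgebraic (Polynomial L) (b v)) →
    ∃ σ : L →+* PowerSeries L,
      (∀ a : A, σ (algebraMap A L a) = PowerSeries.C (algebraMap A L a)) ∧
      (∀ a, PowerSeries.constantCoeff (σ a) = a) ∧ (∀ v : s, σ (x v) = b v) ∧
      ∀ a, IsAlgebraic (Polynomial L) (σ a)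

/-- LEAF D (file AH/D.lean, theorem `d : S_D`).  A derivation which vanishes on a transcendence basis
vanishes (characteristic 0).
Proof.  `D = 0` on `A₁ = Algebra.adjoin A (Set.range x)` (`Derivation.eqOn_adjoin`), `L` is algebraic over
`A₁` (`IsTranscendenceBasis.isAlgebraic`); for `a` in `L` take a nonzero polynomial `p` over `A₁` of least degree
with `aeval a p = 0`; `0 = D (aeval a p) = aeval a p.derivative * D a`, and `aeval a p.derivative ≠ 0` by
minimality (`p.derivative ≠ 0` in characteristic 0, as `p` is not a constant). -/
def S_D : Prop :=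
  ∀ (A L : Type) [CommRing A] [IsDomain A] [Field L] [CharZero L] [Algebra A L] (ι : Type)
    (x : ι → L), Function.Injective (algebraMap A L) → IsTranscendenceBasis A x →
    ∀ D : Derivation A L L, (∀ i, D (x i) = 0) → D = 0

/-- LEAF SZ (file AH/SZ.lean, theorem `sz : S_SZ`).  Schwartz-Zippel for any finite set of variables (from
`MvPolynomial.schwartz_zippel_totalDegree`, or from a starting file). -/
def S_SZ : Prop :=
  ∀ (k : Type) [Field k] [Fintype k] [DecidableEq k] (V : Type) [Fintype V] [DecidableEq V]
    (f : MvPolynomial V k), f ≠ 0 →
    (Finset.univ.filter fun y : V → k => eval y f = 0).card * Fintype.card k ≤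
      f.totalDegree * Fintype.card k ^ Fintype.card V

/-- LEAF UN (file AH/UN.lean, theorem `un : S_UN`).  The universal family: arbitrary sets `G` of polynomials
of degree at most `d` come from one finitely generated ideal `Q` over one Noetherian ring `R`.
Proof.  `N = (d + 1) ^ |V|` (or `N = Fintype.card (V → Fin (d + 1))`), `R = MvPolynomial (Fin N × (V → Fin (d + 1))) ℤ`,
`Q` the ideal generated by the `N` universal polynomials `univ a = ∑ g, monomial g (X (a, g))` (`a : Fin N`; compare
`univ` and `nondeg_rich` in AH/Unif.lean).  Given `k` and `G`: the span of `G` lies in the space of the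
polynomials with exponents at most `d`, which has dimension at most `N`, so there are `F : Fin N → MvPolynomial V k`
in `insert 0 G` with the same span (e.g. a basis of the span chosen in `G`: `exists_linearIndependent`), hence with the
same common zeros; `φ` maps `X (a, g)` to the coefficient of `F a` at `g`. -/
def S_UN : Prop :=
  ∀ (V : Type) [Fintype V] [DecidableEq V] (d : ℕ), ∃ (R : Type) (_ : CommRing R)
    (_ : IsNoetherianRing R) (Q : Ideal (MvPolynomial V R)), ∀ (k : Type) [Field k]
    (G : Set (MvPolynomial V k)), (∀ f ∈ G, f.totalDegree ≤ d) → ∃ φ : R →+* k,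
      ∀ y : V → k, (∀ f ∈ Q, eval₂ φ y f = 0) ↔ ∀ f ∈ G, eval y f = 0

end Pool.Agent.K9h85.AH
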