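import Pool.Agent.K9h85.AH.Def3
import Pool.Agent.K9h85.AH.Stm3

/-! The zigzag for a field generated by the coordinates of a generic point -/

set_option autoImplicit false

open MvPolynomial

namespace Pool.Agent.K9h85.AH

section

variable {A L : Type} [CommRing A] [Field L] [Algebra A L]

/-- the derivation given by the coefficients of `X` -/
noncomputable def jet (σ : L →+* PowerSeries L)
    (hA : ∀ a : A, σ (algebraMap A L a) = PowerSeries.C (algebraMap A L a))
    (hc : ∀ a, PowerSeries.constantCoeff (σ a) = a) : Derivation A L L :=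
  Derivation.mk' (R := A)
    { toFun := fun a => PowerSeries.coeff 1 (σ a)
      map_add' := fun a b => by rw [map_add, map_add]
      map_smul' := fun a b => by
        rw [Algebra.smul_def, map_mul, hA, PowerSeries.coeff_C_mul, RingHom.id_apply,
          Algebra.smul_def] }
    (fun a b => by
      show PowerSeries.coeff 1 (σ (a * b)) = a • PowerSeries.coeff 1 (σ b) + b • PowerSeries.coeff 1 (σ a)
      rw [map_mul, PowerSeries.coeff_one_mul, hc, hc, smul_eq_mul, smul_eq_mul]
      ring)

theorem jet_apply (σ : L →+* PowerSeries L)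
    (hA : ∀ a : A, σ (algebraMap A L a) = PowerSeries.C (algebraMap A L a))
    (hc : ∀ a, PowerSeries.constantCoeff (σ a) = a) (a : L) :
    jet σ hA hc a = PowerSeries.coeff 1 (σ a) := rfl

end

theorem algC' {K : Type} [Field K] (a : K) :
    IsAlgebraic (Polynomial K) (PowerSeries.C a : PowerSeries K) := by
  have h : PowerSeries.C a = algebraMap (Polynomial K) (PowerSeries K) (Polynomial.C a) := by
    rw [PowerSeries.algebraMap_apply', Polynomial.coe_C]
    simp
  rw [h]
  exact isAlgebraic_algebraMap _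

theorem algX' {K : Type} [Field K] :
    IsAlgebraic (Polynomial K) (PowerSeries.X : PowerSeries K) := by
  have h : (PowerSeries.X : PowerSeries K) =
      algebraMap (Polynomial K) (PowerSeries K) Polynomial.X := by
    rw [PowerSeries.algebraMap_apply', Polynomial.coe_X]
    simp
  rw [h]
  exact isAlgebraic_algebraMap _

/-- the block solved for after the `i`-th point -/
def lb' (i : ℕ) : Fin 3 := if i % 2 = 0 then 2 else 0

theorem zig (ht : S_T) (hd : S_D) (n m : ℕ) (c0 : Fin m) {A L : Type} [CommRing A] [IsDomain A]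
    [Field L] [CharZero L] [Algebra A L] (hinj : Function.Injective (algebraMap A L))
    (x : Fin (n + 3) × Fin m → L)
    (hx : ∀ a : L, ∃ f g : MvPolynomial (Fin (n + 3) × Fin m) A,
      aeval x g ≠ 0 ∧ a * aeval x g = aeval x f)
    (htb : ∀ i : Fin 3, IsTranscendenceBasis A (fun v : pr n m i => x v)) :
    ∃ W : ℕ → (L →+* PowerSeries L),
      (∀ i (a : A), W i (algebraMap A L a) = PowerSeries.C (algebraMap A L a)) ∧
      (∀ i a, PowerSeries.constantCoeff (W i a) = a) ∧
      (∀ i a, IsAlgebraic (Polynomial L) (W i a)) ∧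
      (∀ i c, W i (x (pa n 1, c)) = PowerSeries.C (x (pa n 1, c)) +
        if i % 2 = 1 ∧ c = c0 then PowerSeries.X else 0) ∧
      (∀ j c, W (2 * j + 1) (x (pa n 0, c)) = W (2 * j) (x (pa n 0, c))) ∧
      (∀ j c, W (2 * j + 2) (x (pa n 2, c)) = W (2 * j + 1) (x (pa n 2, c))) ∧
      ∃ c1, Function.Injective fun j => W (2 * j) (x (pa n 0, c1)) := by
  classical
  obtain ⟨y, hy⟩ : ∃ y : ℕ → Fin m → PowerSeries L, y = fun i c => PowerSeries.C (x (pa n 1, c)) +
        if i % 2 = 1 ∧ c = c0 then PowerSeries.X else 0 := ⟨_, rfl⟩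
  have hyc : ∀ i c, PowerSeries.constantCoeff (y i c) = x (pa n 1, c) := by
    intro i c
    rw [hy]
    simp only
    rw [map_add, PowerSeries.constantCoeff_C]
    split_ifs
    · rw [PowerSeries.constantCoeff_X, add_zero]
    · rw [map_zero, add_zero]
  have hya : ∀ i c, IsAlgebraic (Polynomial L) (y i c) := by
    intro i c
    rw [hy]
    simp only
    split_ifs
    · exact (algC' _).add algX'
    · rw [add_zero]
      exact algC' _
  let St := {σ : L →+* PowerSeries L // (∀ a : A, σ (algebraMap A L a) =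
    PowerSeries.C (algebraMap A L a)) ∧ (∀ a, PowerSeries.constantCoeff (σ a) = a) ∧
    ∀ a, IsAlgebraic (Polynomial L) (σ a)}
  have hstep : ∀ (i : ℕ) (σ : St), ∃ σ' : St, ∀ v : pr n m (lb' i),
      σ'.1 (x v) = if v.1.1 = pa n 1 then y (i + 1) v.1.2 else σ.1 (x v) := by
    intro i σ
    obtain ⟨σ', h1, h2, h3, h4⟩ := ht A L hinj (Fin (n + 3) × Fin m) x hx (pr n m (lb' i)) (htb _)
      (fun v => if v.1.1 = pa n 1 then y (i + 1) v.1.2 else σ.1 (x v)) (by
        intro v
        split_ifs with h
        · rw [hyc, ← h]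
        · exact σ.2.2.1 _) (by
        intro v
        split_ifs with h
        · exact hya _ _
        · exact σ.2.2.2 _)
    exact ⟨⟨σ', h1, h2, h4⟩, h3⟩
  choose nxt hnxt using hstep
  let s0 : St := ⟨PowerSeries.C, fun a => rfl, fun a => PowerSeries.constantCoeff_C a,
    fun a => algC' a⟩
  let W : ℕ → St := fun i => Nat.rec s0 nxt i
  have hW : ∀ i (j : Fin 3), j ≠ lb' i → ∀ c, (W (i + 1)).1 (x (pa n j, c)) =
      if j = 1 then y (i + 1) c else (W i).1 (x (pa n j, c)) := by
    intro i j hj c
    have h1 := hnxt i (W i) ⟨(pa n j, c), pa_mem hj c⟩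
    refine h1.trans ?_
    by_cases h : j = 1
    · exact (if_pos (congrArg (pa n) h)).trans (if_pos h).symm
    · rw [if_neg (fun h2 => h (pa_inj h2)), if_neg h]
  have hy1 : ∀ i c, (W i).1 (x (pa n 1, c)) = y i c := by
    intro i c
    cases i with
    | zero =>
      show PowerSeries.C (x (pa n 1, c)) = y 0 c
      rw [hy]
      simp
    | succ i =>
      rw [hW i 1 (by rw [lb']; split_ifs <;> decide) c, if_pos rfl]
  have hx0 : ∀ j c, (W (2 * j + 1)).1 (x (pa n 0, c)) = (W (2 * j)).1 (x (pa n 0, c)) := by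
    intro j c
    rw [hW (2 * j) 0 (by rw [lb', if_pos (by omega)]; decide) c, if_neg (by decide)]
  have hx2 : ∀ j c, (W (2 * j + 2)).1 (x (pa n 2, c)) = (W (2 * j + 1)).1 (x (pa n 2, c)) := by
    intro j c
    rw [hW (2 * j + 1) 2 (by rw [lb', if_neg (by omega)]; decide) c, if_neg (by decide)]
  refine ⟨fun i => (W i).1, fun i => (W i).2.1, fun i => (W i).2.2.1, fun i => (W i).2.2.2,
    fun i c => by rw [hy1, hy], hx0, hx2, ?_⟩
  -- the first coefficients
  obtain ⟨κ, hκ⟩ : ∃ κ : ℕ → Derivation A L L, ∀ i a, κ i a = PowerSeries.coeff 1 ((W i).1 a) :=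
    ⟨fun i => jet (W i).1 (W i).2.1 (W i).2.2.1, fun i a => rfl⟩
  have hκy : ∀ i c, κ i (x (pa n 1, c)) = if i % 2 = 1 ∧ c = c0 then 1 else 0 := by
    intro i c
    rw [hκ, hy1, hy]
    simp only
    rw [map_add, PowerSeries.coeff_C, if_neg one_ne_zero, zero_add]
    split_ifs
    · exact PowerSeries.coeff_one_X
    · exact map_zero _
  have hκ00 : ∀ a, κ 0 a = 0 := by
    intro a
    rw [hκ]
    show PowerSeries.coeff 1 (PowerSeries.C a) = 0
    rw [PowerSeries.coeff_C, if_neg one_ne_zero]
  have hκ0 : ∀ j c, κ (2 * j + 1) (x (pa n 0, c)) = κ (2 * j) (x (pa n 0, c)) := by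
    intro j c
    rw [hκ, hκ, hx0]
  have hκ2 : ∀ j c, κ (2 * j + 2) (x (pa n 2, c)) = κ (2 * j + 1) (x (pa n 2, c)) := by
    intro j c
    rw [hκ, hκ, hx2]
  have hvan : ∀ (l : Fin 3) (D : Derivation A L L), (∀ j : Fin 3, j ≠ l → ∀ c,
      D (x (pa n j, c)) = 0) → D = 0 := by
    intro l D hD
    refine hd A L _ _ hinj (htb l) D ?_
    rintro ⟨v, hv⟩
    obtain ⟨j, hj, c, rfl⟩ := (mem_pr v).1 hv
    exact hD j hj c
  have hmain : ∀ j : ℕ, κ (2 * j) = j • κ 2 ∧ κ (2 * j + 1) = j • κ 2 + κ 1 := by
    have hodd : ∀ j : ℕ, κ (2 * j) = j • κ 2 → κ (2 * j + 1) = j • κ 2 + κ 1 := by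
      intro j hj
      rw [← sub_eq_zero]
      apply hvan 2
      intro l hl c
      have hl' : l = 0 ∨ l = 1 := by
        fin_cases l
        · exact Or.inl rfl
        · exact Or.inr rfl
        · exact absurd rfl hl
      rcases hl' with rfl | rfl
      · rw [Derivation.sub_apply, Derivation.add_apply, hκ0, hj]
        have h1 := hκ0 0 c
        rw [mul_zero, zero_add, hκ00] at h1
        rw [h1]
        ring
      · rw [Derivation.sub_apply, Derivation.add_apply, Derivation.smul_apply, hκy, hκy, hκy]
        by_cases hc : c = c0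
        · rw [if_pos ⟨by omega, hc⟩, if_neg (by omega), if_pos ⟨by omega, hc⟩]
          simp
        · rw [if_neg (fun h => hc h.2), if_neg (fun h => hc h.2), if_neg (fun h => hc h.2)]
          simp
    intro j
    induction j with
    | zero =>
      have h0 : κ (2 * 0) = 0 • κ 2 := by
        rw [zero_smul]
        exact Derivation.ext fun a => by
          rw [mul_zero, hκ00]
          rfl
      exact ⟨h0, hodd 0 h0⟩
    | succ j ih =>
      have h2 : κ (2 * (j + 1)) = (j + 1) • κ 2 := by
        rw [← sub_eq_zero]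
        apply hvan 0
        intro l hl c
        have hl' : l = 1 ∨ l = 2 := by
          fin_cases l
          · exact absurd rfl hl
          · exact Or.inl rfl
          · exact Or.inr rfl
        rcases hl' with rfl | rfl
        · rw [Derivation.sub_apply, Derivation.smul_apply, hκy, hκy, if_neg (by omega),
            if_neg (by omega)]
          simp
        · rw [Derivation.sub_apply, show 2 * (j + 1) = 2 * j + 2 by ring, hκ2, ih.2,
            Derivation.add_apply, Derivation.smul_apply, Derivation.smul_apply]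
          have h1 := hκ2 0 c
          rw [mul_zero, zero_add, zero_add] at h1
          rw [← h1, add_smul, one_smul, sub_self]
      exact ⟨h2, hodd (j + 1) h2⟩
  have h10 : ∀ c, κ 1 (x (pa n 0, c)) = 0 := by
    intro c
    have h1 := hκ0 0 c
    rw [mul_zero, zero_add, hκ00] at h1
    exact h1
  have h12 : ∀ c, κ 2 (x (pa n 2, c)) = κ 1 (x (pa n 2, c)) := by
    intro c
    have h1 := hκ2 0 c
    rw [mul_zero, zero_add, zero_add] at h1
    exact h1
  obtain ⟨c1, hc1⟩ : ∃ c1, κ 2 (x (pa n 0, c1)) ≠ 0 := by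
    by_contra hcon
    push Not at hcon
    have h2 : κ 2 = 0 := by
      apply hvan 2
      intro l hl c
      have hl' : l = 0 ∨ l = 1 := by
        fin_cases l
        · exact Or.inl rfl
        · exact Or.inr rfl
        · exact absurd rfl hl
      rcases hl' with rfl | rfl
      · exact hcon c
      · rw [hκy, if_neg (by omega)]
    have h3 : κ 1 = 0 := by
      apply hvan 1
      intro l hl c
      have hl' : l = 0 ∨ l = 2 := by
        fin_cases l
        · exact Or.inl rfl
        · exact absurd rfl hl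
        · exact Or.inr rfl
      rcases hl' with rfl | rfl
      · exact h10 c
      · rw [← h12, h2]
        rfl
    have h4 := hκy 1 c0
    rw [h3, if_pos ⟨rfl, rfl⟩] at h4
    exact zero_ne_one h4
  refine ⟨c1, fun i j hij => ?_⟩
  have h2 := congrArg (PowerSeries.coeff 1) hij
  simp only at h2
  rw [← hκ, ← hκ, (hmain i).1, (hmain j).1, Derivation.smul_apply, Derivation.smul_apply,
    nsmul_eq_mul, nsmul_eq_mul] at h2
  exact_mod_cast mul_right_cancel₀ hc1 h2

end Pool.Agent.K9h85.AH
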