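import Pool.Agent.K9h85.AH.Eng
import Pool.Agent.K9h85.AH.Zig

/-! Configurations through the specialisations of a generic point -/

set_option autoImplicit false

open MvPolynomial

namespace Pool.Agent.K9h85.AH

theorem card_factor' {α β : Type} [DecidableEq β] (s : Finset α) (f : α → β) (key : α → ℕ)
    (N : ℕ) (hN : ∀ a ∈ s, key a < N) (h : ∀ a ∈ s, ∀ b ∈ s, key a = key b → f a = f b) :
    (s.image f).card ≤ N := by
  classical
  rcases isEmpty_or_nonempty α with hα | hα
  · have : s = ∅ := Finset.eq_empty_of_isEmpty s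
    rw [this, Finset.image_empty, Finset.card_empty]
    exact Nat.zero_le _
  have h1 : ∀ y ∈ s.image f, ∃ a ∈ s, f a = y := fun y hy => Finset.mem_image.1 hy
  choose! g hg1 hg2 using h1
  have h2 : (s.image f).card ≤ (Finset.range N).card := by
    refine Finset.card_le_card_of_injOn (fun y => key (g y)) ?_ ?_
    · intro y hy
      exact Finset.mem_coe.2 (Finset.mem_range.2 (hN _ (hg1 y hy)))
    · intro y hy y' hy' hyy
      rw [← hg2 y hy, ← hg2 y' hy']
      exact h _ (hg1 y hy) _ (hg1 y' hy') hyy
  rwa [Finset.card_range] at h2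

/-- bound for the number of vertices -/
theorem nv_le {n m : ℕ} {k : Type} [DecidableEq k] (S : Finset (Fin (n + 3) × Fin m → k)) (e : ℕ)
    (hS : S.card ≤ e) :
    nv S ≤ (S.image fun x => fun c => x (pa n 0, c)).card +
      ((S.image fun x => fun c => x (pa n 1, c)).card +
        ((S.image fun x => fun c => x (pa n 2, c)).card + n * e)) := by
  rw [nv, Fin.sum_univ_succ, Fin.sum_univ_succ, Fin.sum_univ_succ]
  have h4 : ∑ t : Fin n, (S.image fun x => fun c => x (t.succ.succ.succ, c)).card ≤ n * e := by
    refine (Finset.sum_le_card_nsmul _ _ e fun t _ => Finset.card_image_le.trans hS).trans ?_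
    rw [Finset.card_univ, Fintype.card_fin, smul_eq_mul]
  have h0 : (0 : Fin (n + 3)) = pa n 0 := Fin.ext (by simp [pa])
  have h1 : (Fin.succ (0 : Fin (n + 2))) = pa n 1 := Fin.ext (by simp [pa])
  have h2 : (Fin.succ (Fin.succ (0 : Fin (n + 1)))) = pa n 2 := Fin.ext (by simp [pa])
  rw [h0, h1, h2]
  omega

theorem nv_fibre {n m : ℕ} {k : Type} [DecidableEq k] (S : Finset (Fin (n + 3) × Fin m → k)) (e : ℕ)
    (hS : S.card ≤ e) (i : Fin 3) (hi : ∀ y ∈ S, ∀ y' ∈ S, ∀ v ∈ pr n m i, y v = y' v) :
    nv S ≤ (n + 1) * e + 3 := by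
  have h1 := nv_le S e hS
  have h2 : ∀ j : Fin 3, j ≠ i → (S.image fun x => fun c => x (pa n j, c)).card ≤ 1 := by
    intro j hj
    rw [Finset.card_le_one]
    intro a ha b hb
    rw [Finset.mem_image] at ha hb
    obtain ⟨y, hy, rfl⟩ := ha
    obtain ⟨y', hy', rfl⟩ := hb
    funext c
    exact hi y hy y' hy' _ (pa_mem hj c)
  have h3 : ∀ j : Fin 3, (S.image fun x => fun c => x (pa n j, c)).card ≤ e :=
    fun j => Finset.card_image_le.trans hS
  have h4 : (n + 1) * e = n * e + e := by ring
  have hi' : i = 0 ∨ i = 1 ∨ i = 2 := by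
    fin_cases i
    · exact Or.inl rfl
    · exact Or.inr (Or.inl rfl)
    · exact Or.inr (Or.inr rfl)
  rcases hi' with rfl | rfl | rfl
  · have := h2 1 (by decide)
    have := h2 2 (by decide)
    have := h3 0
    omega
  · have := h2 0 (by decide)
    have := h2 2 (by decide)
    have := h3 1
    omega
  · have := h2 0 (by decide)
    have := h2 1 (by decide)
    have := h3 2
    omega

/-- the conclusion of the two lemmas -/
def HasConf (n m e : ℕ) (A B : Type) [CommRing A] [CommRing B] [Algebra A B]
    (x : Fin (n + 3) × Fin m → B) : Prop :=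
  ∃ D : B, D ≠ 0 ∧ ∃ C : ℕ, ∀ (k : Type) [Field k] [Fintype k] [DecidableEq k] (φ : B →+* k),
    φ D ≠ 0 → C ≤ Fintype.card k → ∃ S : Finset (Fin (n + 3) × Fin m → k), S.card = e ∧
      nv S ≤ (n + 1) * e + 3 ∧ ∀ y ∈ S, ∀ f : MvPolynomial (Fin (n + 3) × Fin m) A,
        aeval x f = 0 → eval₂ (φ.comp (algebraMap A B)) y f = 0

theorem conf_a (ht : S_T) (hd : S_D) {n m : ℕ} (c0 : Fin m) (e : ℕ) {A B : Type} [CommRing A]
    [IsDomain A] [CommRing B] [IsDomain B] [CharZero B] [Algebra A B]
    (hinj : Function.Injective (algebraMap A B)) (x : Fin (n + 3) × Fin m → B)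
    (hx : ∀ a : FractionRing B, ∃ f g : MvPolynomial (Fin (n + 3) × Fin m) A,
      aeval (fun v => algebraMap B (FractionRing B) (x v)) g ≠ 0 ∧
        a * aeval (fun v => algebraMap B (FractionRing B) (x v)) g =
          aeval (fun v => algebraMap B (FractionRing B) (x v)) f)
    (htb : ∀ i : Fin 3, IsTranscendenceBasis A
      (fun v : pr n m i => algebraMap B (FractionRing B) (x v))) :
    HasConf n m e A B x := by
  classical
  have hinj0 : Function.Injective (algebraMap B (FractionRing B)) := IsFractionRing.injective B _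
  have hCZ : CharZero (FractionRing B) := charZero_of_injective_algebraMap hinj0
  have hinjL : Function.Injective (algebraMap A (FractionRing B)) := by
    rw [IsScalarTower.algebraMap_eq A B (FractionRing B)]
    exact hinj0.comp hinj
  obtain ⟨W, hWA, hWc, hWa, hW1, hW0, hW2, c1, hWi⟩ := zig ht hd n m c0 hinjL
    (fun v => algebraMap B (FractionRing B) (x v)) hx htb
  obtain ⟨D, hD, C, hC⟩ := engine (A := A) x (fun i : Fin e => W i) (fun i => hWA i)
    (fun i => hWa i) ((Finset.univ.filter
      (fun ij : Fin e × Fin e => (ij.1 : ℕ) / 2 ≠ (ij.2 : ℕ) / 2)).image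
        fun ij => (ij.1, ij.2, (pa n 0, c1))) (by
      intro t ht
      rw [Finset.mem_image] at ht
      obtain ⟨⟨i, j⟩, hij, rfl⟩ := ht
      rw [Finset.mem_filter] at hij
      intro h
      apply hij.2
      have hW0' : ∀ i : ℕ, W i (algebraMap B (FractionRing B) (x (pa n 0, c1))) =
          W (2 * (i / 2)) (algebraMap B (FractionRing B) (x (pa n 0, c1))) := by
        intro i
        rcases Nat.even_or_odd' i with ⟨j, rfl | rfl⟩
        · rw [show 2 * (2 * j / 2) = 2 * j by omega]
        · rw [show 2 * ((2 * j + 1) / 2) = 2 * j by omega]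
          exact hW0 j c1
      simp only at h
      rw [hW0' i, hW0' j] at h
      exact hWi h)
  refine ⟨D, hD, C, ?_⟩
  intro k _ _ _ φ hφ hq
  obtain ⟨T, hT, hTs⟩ := hC k φ hφ hq
  have hTne : T.Nonempty := by
    rw [← Finset.card_pos]
    rcases Nat.eq_zero_or_pos T.card with h | h
    · rw [h, mul_zero] at hT
      have := Fintype.card_pos (α := k)
      omega
    · exact h
  obtain ⟨s, hs⟩ := hTne
  obtain ⟨hs0, y, hy1, hy2, hy3, hy4, hy5⟩ := hTs s hs
  have hyc : ∀ i : Fin e, y i (pa n 1, c0) = φ (x (pa n 1, c0)) + if (i : ℕ) % 2 = 1 then s else 0 := by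
    intro i
    by_cases hi : (i : ℕ) % 2 = 1
    · rw [if_pos hi]
      apply hy5
      rw [hW1, if_pos ⟨hi, rfl⟩]
    · rw [if_neg hi, add_zero]
      apply hy4
      rw [hW1, if_neg (fun h => hi h.1), add_zero]
  have hyinj : Function.Injective y := by
    intro i j hij
    by_cases hdd : (i : ℕ) / 2 = (j : ℕ) / 2
    · have h1 := congrFun hij (pa n 1, c0)
      rw [hyc, hyc] at h1
      have h2 := add_left_cancel h1
      apply Fin.ext
      by_cases hi : (i : ℕ) % 2 = 1 <;> by_cases hj : (j : ℕ) % 2 = 1
      · omega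
      · rw [if_pos hi, if_neg hj] at h2
        exact absurd h2 hs0
      · rw [if_neg hi, if_pos hj] at h2
        exact absurd h2.symm hs0
      · omega
    · exfalso
      refine hy2 (i, j, (pa n 0, c1)) ?_ (congrFun hij (pa n 0, c1))
      exact Finset.mem_image.2 ⟨(i, j), Finset.mem_filter.2 ⟨Finset.mem_univ _, hdd⟩, rfl⟩
  refine ⟨Finset.univ.image y, ?_, ?_, ?_⟩
  · rw [Finset.card_image_of_injective _ hyinj, Finset.card_univ, Fintype.card_fin]
  · have hc0 : (((Finset.univ.image y).image fun w => fun c => w (pa n 0, c)).card) ≤ (e + 1) / 2 := by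
      rw [Finset.image_image]
      refine card_factor' _ _ (fun i : Fin e => (i : ℕ) / 2) _ (fun i _ => ?_) (fun i _ j _ hij => ?_)
      · have := i.2
        omega
      · funext c
        simp only [Function.comp_apply]
        apply hy3
        have hW0' : ∀ i : ℕ, W i (algebraMap B (FractionRing B) (x (pa n 0, c))) =
            W (2 * (i / 2)) (algebraMap B (FractionRing B) (x (pa n 0, c))) := by
          intro i
          rcases Nat.even_or_odd' i with ⟨j, rfl | rfl⟩
          · rw [show 2 * (2 * j / 2) = 2 * j by omega]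
          · rw [show 2 * ((2 * j + 1) / 2) = 2 * j by omega]
            exact hW0 j c
        rw [hW0' i, hW0' j]
        rw [hij]
    have hc1 : (((Finset.univ.image y).image fun w => fun c => w (pa n 1, c)).card) ≤ 2 := by
      rw [Finset.image_image]
      refine card_factor' _ _ (fun i : Fin e => (i : ℕ) % 2) _ (fun i _ => ?_) (fun i _ j _ hij => ?_)
      · omega
      · funext c
        simp only [Function.comp_apply]
        apply hy3
        rw [hW1, hW1, hij]
    have hc2 : (((Finset.univ.image y).image fun w => fun c => w (pa n 2, c)).card) ≤ e / 2 + 1 := by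
      rw [Finset.image_image]
      refine card_factor' _ _ (fun i : Fin e => ((i : ℕ) + 1) / 2) _ (fun i _ => ?_)
        (fun i _ j _ hij => ?_)
      · have := i.2
        omega
      · funext c
        simp only [Function.comp_apply]
        apply hy3
        have hW2' : ∀ i : ℕ, W i (algebraMap B (FractionRing B) (x (pa n 2, c))) =
            W (2 * ((i + 1) / 2)) (algebraMap B (FractionRing B) (x (pa n 2, c))) := by
          intro i
          rcases Nat.even_or_odd' i with ⟨j, rfl | rfl⟩
          · rw [show 2 * ((2 * j + 1) / 2) = 2 * j by omega]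
          · rw [show 2 * ((2 * j + 1 + 1) / 2) = 2 * j + 2 by omega]
            exact (hW2 j c).symm
        rw [hW2' i, hW2' j]
        rw [hij]
    have h1 := nv_le (Finset.univ.image y) e (by
      refine Finset.card_image_le.trans ?_
      rw [Finset.card_univ, Fintype.card_fin])
    have h5 : (n + 1) * e = n * e + e := by ring
    omega
  · intro w hw f hf
    rw [Finset.mem_image] at hw
    obtain ⟨i, -, rfl⟩ := hw
    exact hy1 i f hf

theorem conf_b (ht : S_T) {n m : ℕ} (e : ℕ) {A B : Type} [CommRing A]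
    [IsDomain A] [CommRing B] [IsDomain B] [CharZero B] [Algebra A B]
    (hinj : Function.Injective (algebraMap A B)) (x : Fin (n + 3) × Fin m → B)
    (hx : ∀ a : FractionRing B, ∃ f g : MvPolynomial (Fin (n + 3) × Fin m) A,
      aeval (fun v => algebraMap B (FractionRing B) (x v)) g ≠ 0 ∧
        a * aeval (fun v => algebraMap B (FractionRing B) (x v)) g =
          aeval (fun v => algebraMap B (FractionRing B) (x v)) f)
    (i : Fin 3) (h1 : AlgebraicIndependent A
      (fun v : pr n m i => algebraMap B (FractionRing B) (x v)))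
    (h2 : ¬ IsTranscendenceBasis A (fun v : pr n m i => algebraMap B (FractionRing B) (x v))) :
    HasConf n m e A B x := by
  classical
  have hinj0 : Function.Injective (algebraMap B (FractionRing B)) := IsFractionRing.injective B _
  have hCZ : CharZero (FractionRing B) := charZero_of_injective_algebraMap hinj0
  have hinjL : Function.Injective (algebraMap A (FractionRing B)) := by
    rw [IsScalarTower.algebraMap_eq A B (FractionRing B)]
    exact hinj0.comp hinj
  obtain ⟨s, hs, hsb⟩ := exists_basis (fun v => algebraMap B (FractionRing B) (x v)) hx _ h1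
  obtain ⟨v1, hv1, hv1'⟩ : ∃ v1 ∈ s, v1 ∉ pr n m i := by
    by_contra hcon
    push Not at hcon
    have h3 : s = pr n m i := Set.Subset.antisymm hcon hs
    subst h3
    exact h2 hsb
  obtain ⟨σ, hσA, hσc, hσb, hσa⟩ := ht A (FractionRing B) hinjL (Fin (n + 3) × Fin m)
    (fun v => algebraMap B (FractionRing B) (x v)) hx s hsb
    (fun v => PowerSeries.C (algebraMap B (FractionRing B) (x v)) +
      if (v : Fin (n + 3) × Fin m) = v1 then PowerSeries.X else 0) (by
      intro v
      rw [map_add, PowerSeries.constantCoeff_C]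
      split_ifs
      · rw [PowerSeries.constantCoeff_X, add_zero]
      · rw [map_zero, add_zero]) (by
      intro v
      split_ifs
      · exact (algC' _).add algX'
      · rw [add_zero]
        exact algC' _)
  obtain ⟨D, hD, C, hC⟩ := engine (A := A) x (fun _ : Unit => σ) (fun _ => hσA)
    (fun _ => hσa) ∅ (fun t ht => absurd ht (Finset.notMem_empty _))
  refine ⟨D, hD, C + C * e, ?_⟩
  intro k _ _ _ φ hφ hq
  obtain ⟨T, hT, hTs⟩ := hC k φ hφ (by
    have : C ≤ C + C * e := Nat.le_add_right _ _
    omega)
  have hTe : e ≤ T.card := by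
    by_contra hcon
    push Not at hcon
    rcases Nat.eq_zero_or_pos C with h | h
    · rw [h, zero_mul] at hT
      have := Fintype.card_pos (α := k)
      omega
    · have h3 : C * T.card < C * e := Nat.mul_lt_mul_of_pos_left hcon h
      have : C * e ≤ C + C * e := Nat.le_add_left _ _
      omega
  obtain ⟨T', hT', hTc⟩ := Finset.exists_subset_card_eq hTe
  have hex : ∀ s ∈ T', ∃ y : Fin (n + 3) × Fin m → k,
      (∀ f : MvPolynomial (Fin (n + 3) × Fin m) A, aeval x f = 0 →
        eval₂ (φ.comp (algebraMap A B)) y f = 0) ∧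
      (∀ v ∈ pr n m i, y v = φ (x v)) ∧ y v1 = φ (x v1) + s := by
    intro a ha
    obtain ⟨-, y, hy1, -, -, hy4, hy5⟩ := hTs a (hT' ha)
    refine ⟨y (), hy1 (), fun v hv => hy4 () v ?_, hy5 () v1 ?_⟩
    · have h3 := hσb ⟨v, hs hv⟩
      simp only at h3
      rw [h3, if_neg, add_zero]
      rintro rfl
      exact hv1' hv
    · have h3 := hσb ⟨v1, hv1⟩
      rw [h3]
      simp
  choose! y hy using hex
  have hyinj : Set.InjOn y T' := by
    intro a ha b hb hab
    have h3 := (hy a ha).2.2
    rw [hab, (hy b hb).2.2] at h3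
    exact (add_left_cancel h3).symm
  refine ⟨T'.image y, ?_, ?_, ?_⟩
  · rw [Finset.card_image_of_injOn hyinj, hTc]
  · refine nv_fibre _ e (Finset.card_image_le.trans hTc.le) i ?_
    intro a ha b hb v hv
    rw [Finset.mem_image] at ha hb
    obtain ⟨a', ha', rfl⟩ := ha
    obtain ⟨b', hb', rfl⟩ := hb
    rw [(hy a' ha').2.1 v hv, (hy b' hb').2.1 v hv]
  · intro w hw f hf
    rw [Finset.mem_image] at hw
    obtain ⟨a, ha, rfl⟩ := hw
    exact (hy a ha).1 f hf

end Pool.Agent.K9h85.AH
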