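import Pool.Agent.K9h85.AH.Conf

/-! Edges of tuples of vertices -/

set_option autoImplicit false

namespace Pool.Agent.K9h85.AH

/-- the edge of a tuple of vertices: the vertices are the pairs of a label and a point of `k ^ m`, the
labels of the tuple are `lam` -/
def edge {r m l : ℕ} {k : Type} [DecidableEq k] (lam : Fin r → Fin l) (z : Fin r × Fin m → k) :
    Finset (Fin l × (Fin m → k)) :=
  Finset.univ.image fun p => (lam p, fun c => z (p, c))

section

variable {r m l : ℕ} {k : Type} [DecidableEq k] (lam : Fin r → Fin l)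

theorem edge_card (z : Fin r × Fin m → k)
    (h : ∀ p p', p ≠ p' → lam p = lam p' → ∃ c, z (p, c) ≠ z (p', c)) : (edge lam z).card = r := by
  rw [edge, Finset.card_image_of_injective, Finset.card_univ, Fintype.card_fin]
  intro p p' hpp
  by_contra hne
  have h1 := Prod.mk.inj hpp
  obtain ⟨c, hc⟩ := h p p' hne h1.1
  exact hc (congrFun h1.2 c)

theorem edge_card_inj (z : Fin r × Fin m → k) (h : (edge lam z).card = r) :
    ∀ p p', p ≠ p' → lam p = lam p' → ∃ c, z (p, c) ≠ z (p', c) := by
  intro p p' hne hl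
  by_contra hcon
  push Not at hcon
  have h1 : Set.InjOn (fun p => (lam p, fun c => z (p, c))) (Finset.univ : Finset (Fin r)) := by
    rw [← Finset.card_image_iff, Finset.card_univ, Fintype.card_fin]
    exact h
  apply hne
  apply h1 (Finset.mem_coe.2 (Finset.mem_univ _)) (Finset.mem_coe.2 (Finset.mem_univ _))
  exact Prod.ext hl (funext hcon)

theorem union_le (Ys : Finset (Fin r × Fin m → k)) :
    ((Ys.image (edge lam)).biUnion id).card ≤ nv Ys := by
  classical
  have h1 : (Ys.image (edge lam)).biUnion id ⊆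
      (Finset.univ : Finset (Fin r)).biUnion fun p =>
        (Ys.image fun x => fun c => x (p, c)).image fun w => (lam p, w) := by
    intro a ha
    rw [Finset.mem_biUnion] at ha
    obtain ⟨u, hu, hau⟩ := ha
    rw [Finset.mem_image] at hu
    obtain ⟨z, hz, rfl⟩ := hu
    rw [id, edge, Finset.mem_image] at hau
    obtain ⟨p, -, rfl⟩ := hau
    rw [Finset.mem_biUnion]
    exact ⟨p, Finset.mem_univ _, Finset.mem_image_of_mem _ (Finset.mem_image_of_mem _ hz)⟩
  refine (Finset.card_le_card h1).trans (Finset.card_biUnion_le.trans ?_)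
  rw [nv]
  exact Finset.sum_le_sum fun p _ => Finset.card_image_le

/-- a tuple is determined by its edge up to `r ^ r` possibilities -/
theorem card_tuples (Ys : Finset (Fin r × Fin m → k)) (u : Finset (Fin l × (Fin m → k)))
    (hu : u.card = r) (h : ∀ z ∈ Ys, edge lam z = u) : Ys.card ≤ r ^ r := by
  classical
  have h1 : Ys.card ≤ (Fintype.piFinset fun _ : Fin r => u).card := by
    refine Finset.card_le_card_of_injOn (fun z => fun p => (lam p, fun c => z (p, c))) ?_ ?_
    · intro z hz
      rw [Finset.mem_coe, Fintype.mem_piFinset]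
      intro p
      rw [← h z hz, edge]
      exact Finset.mem_image_of_mem _ (Finset.mem_univ _)
    · intro z _ z' _ hzz
      funext v
      have h2 := congrFun hzz v.1
      exact congrFun (Prod.mk.inj h2).2 v.2
  rw [Fintype.card_piFinset, Finset.prod_const, hu, Finset.card_univ, Fintype.card_fin] at h1
  exact h1

theorem many_edges (Ys : Finset (Fin r × Fin m → k)) (h : ∀ z ∈ Ys, (edge lam z).card = r) :
    Ys.card ≤ r ^ r * (Ys.image (edge lam)).card := by
  classical
  refine Finset.card_le_mul_card_image _ _ ?_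
  intro u hu
  rw [Finset.mem_image] at hu
  obtain ⟨z, hz, rfl⟩ := hu
  exact card_tuples lam _ (edge lam z) (h z hz) fun z' hz' => (Finset.mem_filter.1 hz').2

/-- few tuples give a set of edges -/
theorem choose_tuples [Nonempty k] (Ys : Finset (Fin r × Fin m → k)) (e : ℕ)
    (he : e ≤ (Ys.image (edge lam)).card) :
    ∃ Ys' ⊆ Ys, (Ys'.image (edge lam)).card = e ∧ Ys'.card ≤ e := by
  classical
  obtain ⟨S, hS, hSc⟩ := Finset.exists_subset_card_eq he
  have h1 : ∀ u ∈ S, ∃ z ∈ Ys, edge lam z = u := fun u hu => Finset.mem_image.1 (hS hu)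
  choose! g hg1 hg2 using h1
  refine ⟨S.image g, ?_, ?_, ?_⟩
  · intro z hz
    rw [Finset.mem_image] at hz
    obtain ⟨u, hu, rfl⟩ := hz
    exact hg1 u hu
  · rw [Finset.image_image]
    have h2 : S.image (edge lam ∘ g) = S := by
      ext u
      rw [Finset.mem_image]
      constructor
      · rintro ⟨u', hu', rfl⟩
        rw [Function.comp_apply, hg2 u' hu']
        exact hu'
      · intro hu
        exact ⟨u, hu, hg2 u hu⟩
    rw [h2, hSc]
  · exact Finset.card_image_le.trans hSc.le

end

/-- a large fibre over a pair of parts -/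
theorem fibre_conf {n m l : ℕ} {k : Type} [DecidableEq k] [Nonempty k] (lam : Fin (n + 3) → Fin l)
    (Ys : Finset (Fin (n + 3) × Fin m → k)) (h : ∀ z ∈ Ys, (edge lam z).card = n + 3) (i : Fin 3)
    (hi : ∀ y ∈ Ys, ∀ y' ∈ Ys, ∀ v ∈ pr n m i, y v = y' v) (e : ℕ)
    (he : e * (n + 3) ^ (n + 3) ≤ Ys.card) :
    ∃ Ys' ⊆ Ys, (Ys'.image (edge lam)).card = e ∧
      ((Ys'.image (edge lam)).biUnion id).card ≤ (n + 1) * e + 3 := by
  have h1 := many_edges lam Ys h
  have h2 : e ≤ (Ys.image (edge lam)).card := by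
    have h3 : (n + 3) ^ (n + 3) * e ≤ (n + 3) ^ (n + 3) * (Ys.image (edge lam)).card := by
      rw [mul_comm _ e]
      exact he.trans h1
    exact Nat.le_of_mul_le_mul_left h3 (by positivity)
  obtain ⟨Ys', hY1, hY2, hY3⟩ := choose_tuples lam Ys e h2
  refine ⟨Ys', hY1, hY2, (union_le lam Ys').trans ?_⟩
  exact nv_fibre Ys' e hY3 i fun y hy y' hy' v hv => hi y (hY1 hy) y' (hY1 hy') v hv

end Pool.Agent.K9h85.AH
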