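import Pool.Agent.K9h85.AH.Zig2
import Pool.Agent.K9h85.AH.Edge

/-! Configurations through the specialisations of a generic point: edges with labels -/

set_option autoImplicit false

open MvPolynomial

namespace Pool.Agent.K9h85.AH

/-- the conclusion of the two lemmas -/
def HasConf2 (n m s l e : ℕ) (lam : Fin (n + 3) → Fin l) (A B : Type) [CommRing A] [CommRing B]
    [Algebra A B] (x : (Fin (n + 3) × Fin m) ⊕ Fin s → B) : Prop :=
  ∃ D : B, D ≠ 0 ∧ ∃ C : ℕ, ∀ (k : Type) [Field k] [Fintype k] [DecidableEq k] (φ : B →+* k),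
    φ D ≠ 0 → C ≤ Fintype.card k → ∃ S : Finset (Finset (Fin l × (Fin m → k))), S.card = e ∧
      (S.biUnion id).card ≤ (n + 1) * e + 3 ∧ ∀ u ∈ S, u.card = n + 3 ∧
        ∃ y : (Fin (n + 3) × Fin m) ⊕ Fin s → k, u = edge lam (fun v => y (Sum.inl v)) ∧
          ∀ f : MvPolynomial ((Fin (n + 3) × Fin m) ⊕ Fin s) A,
            aeval x f = 0 → eval₂ (φ.comp (algebraMap A B)) y f = 0

theorem conf_a2 (ht : S_T) {n m s l : ℕ} (lam : Fin (n + 3) → Fin l) (c0 : Fin m) (e : ℕ)
    {A B : Type} [CommRing A] [IsDomain A] [CommRing B] [IsDomain B] [CharZero B] [Algebra A B]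
    (hinj : Function.Injective (algebraMap A B)) (x : (Fin (n + 3) × Fin m) ⊕ Fin s → B)
    (hx : ∀ a : FractionRing B, ∃ f g : MvPolynomial ((Fin (n + 3) × Fin m) ⊕ Fin s) A,
      aeval (fun v => algebraMap B (FractionRing B) (x v)) g ≠ 0 ∧
        a * aeval (fun v => algebraMap B (FractionRing B) (x v)) g =
          aeval (fun v => algebraMap B (FractionRing B) (x v)) f)
    (hdis : ∀ p p', p ≠ p' → lam p = lam p' → ∃ c, x (Sum.inl (p, c)) ≠ x (Sum.inl (p', c)))
    (hI : ∀ i : Fin 3, AlgebraicIndependent A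
      (fun v : (Sum.inl '' pr n m i : Set ((Fin (n + 3) × Fin m) ⊕ Fin s)) =>
        algebraMap B (FractionRing B) (x v)))
    (hal : ∀ (i : Fin 3) (v : Fin (n + 3) × Fin m),
      IsAlgebraic (Algebra.adjoin A ((fun v => algebraMap B (FractionRing B) (x v)) ''
        (Sum.inl '' pr n m i))) (algebraMap B (FractionRing B) (x (Sum.inl v)))) :
    HasConf2 n m s l e lam A B x := by
  classical
  have hinj0 : Function.Injective (algebraMap B (FractionRing B)) := IsFractionRing.injective B _
  have hCZ : CharZero (FractionRing B) := charZero_of_injective_algebraMap hinj0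
  have hinjL : Function.Injective (algebraMap A (FractionRing B)) := by
    rw [IsScalarTower.algebraMap_eq A B (FractionRing B)]
    exact hinj0.comp hinj
  obtain ⟨W, hWA, hWc, hWa, hW1, hW0, hW2, c1, hWi⟩ := zig2 ht n m s c0 hinjL
    (fun v => algebraMap B (FractionRing B) (x v)) hx hI hal
  have hdis' : ∀ p p', ∃ c : Fin m, p ≠ p' → lam p = lam p' →
      x (Sum.inl (p, c)) ≠ x (Sum.inl (p', c)) := by
    intro p p'
    by_cases h : p ≠ p' ∧ lam p = lam p'
    · obtain ⟨c, hc⟩ := hdis p p' h.1 h.2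
      exact ⟨c, fun _ _ => hc⟩
    · exact ⟨c0, fun h1 h2 => absurd ⟨h1, h2⟩ h⟩
  choose cc hcc using hdis'
  obtain ⟨D, hD, C, hC⟩ := engine2 (A := A) x (fun i : Fin e => W i) (fun i => hWA i)
    (fun i => hWa i)
    (((Finset.univ.filter
      (fun ij : Fin e × Fin e => (ij.1 : ℕ) / 2 ≠ (ij.2 : ℕ) / 2)).image
        fun ij => ((ij.1, Sum.inl (pa n 0, c1)), (ij.2, Sum.inl (pa n 0, c1)))) ∪
      ((Finset.univ.filter (fun q : (Fin e × Fin e) × (Fin (n + 3) × Fin (n + 3)) =>
        q.2.1 ≠ q.2.2 ∧ lam q.2.1 = lam q.2.2)).image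
        fun q => ((q.1.1, Sum.inl (q.2.1, cc q.2.1 q.2.2)),
          (q.1.2, Sum.inl (q.2.2, cc q.2.1 q.2.2))))) (by
      intro t ht
      rw [Finset.mem_union, Finset.mem_image, Finset.mem_image] at ht
      rcases ht with ⟨⟨i, j⟩, hij, rfl⟩ | ⟨⟨⟨i, j⟩, ⟨p, p'⟩⟩, hq, rfl⟩
      · rw [Finset.mem_filter] at hij
        intro h
        apply hij.2
        have hW0' : ∀ i : ℕ, W i (algebraMap B (FractionRing B) (x (Sum.inl (pa n 0, c1)))) =
            W (2 * (i / 2)) (algebraMap B (FractionRing B) (x (Sum.inl (pa n 0, c1)))) := by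
          intro i
          rcases Nat.even_or_odd' i with ⟨j, rfl | rfl⟩
          · rw [show 2 * (2 * j / 2) = 2 * j by omega]
          · rw [show 2 * ((2 * j + 1) / 2) = 2 * j by omega]
            exact hW0 j c1
        simp only at h
        rw [hW0' i, hW0' j] at h
        exact hWi h
      · rw [Finset.mem_filter] at hq
        intro h
        have h1 := congrArg (PowerSeries.constantCoeff (R := FractionRing B)) h
        rw [hWc, hWc] at h1
        exact hcc p p' hq.2.1 hq.2.2 (hinj0 h1))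
  refine ⟨D, hD, C, ?_⟩
  intro k _ _ _ φ hφ hq
  obtain ⟨T, hT, hTs⟩ := hC k φ hφ hq
  have hTne : T.Nonempty := by
    rw [← Finset.card_pos]
    rcases Nat.eq_zero_or_pos T.card with h | h
    · rw [h, mul_zero] at hT
      have := Fintype.card_pos (α := k)
      omega
    · exact h
  obtain ⟨s, hs⟩ := hTne
  obtain ⟨hs0, y, hy1, hy2, hy3, hy4, hy5⟩ := hTs s hs
  have hyc : ∀ i : Fin e, y i (Sum.inl (pa n 1, c0)) =
      φ (x (Sum.inl (pa n 1, c0))) + if (i : ℕ) % 2 = 1 then s else 0 := by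
    intro i
    by_cases hi : (i : ℕ) % 2 = 1
    · rw [if_pos hi]
      apply hy5
      rw [hW1, if_pos ⟨hi, rfl⟩]
    · rw [if_neg hi, add_zero]
      apply hy4
      rw [hW1, if_neg (fun h => hi h.1), add_zero]
  obtain ⟨z, hz⟩ : ∃ z : Fin e → Fin (n + 3) × Fin m → k, z = fun i v => y i (Sum.inl v) := ⟨_, rfl⟩
  have hzy : ∀ i v, z i v = y i (Sum.inl v) := fun i v => by rw [hz]
  have hzinj : Function.Injective z := by
    intro i j hij
    by_cases hdd : (i : ℕ) / 2 = (j : ℕ) / 2
    · have h1 := congrFun hij (pa n 1, c0)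
      rw [hzy, hzy, hyc, hyc] at h1
      have h2 := add_left_cancel h1
      apply Fin.ext
      by_cases hi : (i : ℕ) % 2 = 1 <;> by_cases hj : (j : ℕ) % 2 = 1
      · omega
      · rw [if_pos hi, if_neg hj] at h2
        exact absurd h2 hs0
      · rw [if_neg hi, if_pos hj] at h2
        exact absurd h2.symm hs0
      · omega
    · exfalso
      refine hy2 ((i, Sum.inl (pa n 0, c1)), (j, Sum.inl (pa n 0, c1))) ?_ ?_
      · refine Finset.mem_union_left _ (Finset.mem_image.2 ⟨(i, j), ?_, rfl⟩)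
        exact Finset.mem_filter.2 ⟨Finset.mem_univ _, hdd⟩
      · have h1 := congrFun hij (pa n 0, c1)
        rw [hzy, hzy] at h1
        exact h1
  have hzd : ∀ (i j : Fin e) (p p' : Fin (n + 3)), p ≠ p' → lam p = lam p' →
      ∃ c, z i (p, c) ≠ z j (p', c) := by
    intro i j p p' hp hl
    refine ⟨cc p p', ?_⟩
    rw [hzy, hzy]
    refine hy2 ((i, Sum.inl (p, cc p p')), (j, Sum.inl (p', cc p p'))) ?_
    refine Finset.mem_union_right _ (Finset.mem_image.2 ⟨((i, j), (p, p')), ?_, rfl⟩)
    exact Finset.mem_filter.2 ⟨Finset.mem_univ _, hp, hl⟩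
  have hedge : Function.Injective (edge lam ∘ z) := by
    intro i j hij
    apply hzinj
    funext v
    obtain ⟨p, c⟩ := v
    have h1 : (lam p, fun c => z i (p, c)) ∈ edge lam (z j) := by
      have h2 : edge lam (z i) = edge lam (z j) := hij
      rw [← h2, edge]
      exact Finset.mem_image_of_mem _ (Finset.mem_univ p)
    rw [edge, Finset.mem_image] at h1
    obtain ⟨p', -, hp'⟩ := h1
    obtain ⟨h3, h4⟩ := Prod.mk.inj hp'
    by_cases hpp : p' = p
    · subst hpp
      exact (congrFun h4 c).symm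
    · exfalso
      obtain ⟨c', hc'⟩ := hzd j i p' p hpp h3
      exact hc' (congrFun h4 c')
  refine ⟨(Finset.univ.image z).image (edge lam), ?_, ?_, ?_⟩
  · rw [Finset.image_image, Finset.card_image_of_injective _ hedge, Finset.card_univ,
      Fintype.card_fin]
  · refine (union_le lam _).trans ?_
    have hc0 : (((Finset.univ.image z).image fun w => fun c => w (pa n 0, c)).card) ≤ (e + 1) / 2 := by
      rw [Finset.image_image]
      refine card_factor' _ _ (fun i : Fin e => (i : ℕ) / 2) _ (fun i _ => ?_) (fun i _ j _ hij => ?_)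
      · have := i.2
        omega
      · funext c
        simp only [Function.comp_apply]
        rw [hzy, hzy]
        apply hy3
        have hW0' : ∀ i : ℕ, W i (algebraMap B (FractionRing B) (x (Sum.inl (pa n 0, c)))) =
            W (2 * (i / 2)) (algebraMap B (FractionRing B) (x (Sum.inl (pa n 0, c)))) := by
          intro i
          rcases Nat.even_or_odd' i with ⟨j, rfl | rfl⟩
          · rw [show 2 * (2 * j / 2) = 2 * j by omega]
          · rw [show 2 * ((2 * j + 1) / 2) = 2 * j by omega]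
            exact hW0 j c
        rw [hW0' i, hW0' j]
        rw [hij]
    have hc1 : (((Finset.univ.image z).image fun w => fun c => w (pa n 1, c)).card) ≤ 2 := by
      rw [Finset.image_image]
      refine card_factor' _ _ (fun i : Fin e => (i : ℕ) % 2) _ (fun i _ => ?_) (fun i _ j _ hij => ?_)
      · omega
      · funext c
        simp only [Function.comp_apply]
        rw [hzy, hzy]
        apply hy3
        rw [hW1, hW1, hij]
    have hc2 : (((Finset.univ.image z).image fun w => fun c => w (pa n 2, c)).card) ≤ e / 2 + 1 := by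
      rw [Finset.image_image]
      refine card_factor' _ _ (fun i : Fin e => ((i : ℕ) + 1) / 2) _ (fun i _ => ?_)
        (fun i _ j _ hij => ?_)
      · have := i.2
        omega
      · funext c
        simp only [Function.comp_apply]
        rw [hzy, hzy]
        apply hy3
        have hW2' : ∀ i : ℕ, W i (algebraMap B (FractionRing B) (x (Sum.inl (pa n 2, c)))) =
            W (2 * ((i + 1) / 2)) (algebraMap B (FractionRing B) (x (Sum.inl (pa n 2, c)))) := by
          intro i
          rcases Nat.even_or_odd' i with ⟨j, rfl | rfl⟩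
          · rw [show 2 * ((2 * j + 1) / 2) = 2 * j by omega]
          · rw [show 2 * ((2 * j + 1 + 1) / 2) = 2 * j + 2 by omega]
            exact (hW2 j c).symm
        rw [hW2' i, hW2' j]
        rw [hij]
    have h1 := nv_le (Finset.univ.image z) e (by
      refine Finset.card_image_le.trans ?_
      rw [Finset.card_univ, Fintype.card_fin])
    have h5 : (n + 1) * e = n * e + e := by ring
    omega
  · intro u hu
    rw [Finset.mem_image] at hu
    obtain ⟨w, hw, rfl⟩ := hu
    rw [Finset.mem_image] at hw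
    obtain ⟨i, -, rfl⟩ := hw
    refine ⟨edge_card lam _ fun p p' hp hl => hzd i i p p' hp hl, y i, ?_, fun f hf => hy1 i f hf⟩
    congr 1
    funext v
    exact hzy i v

theorem conf_b2 (ht : S_T) {n m s l : ℕ} (lam : Fin (n + 3) → Fin l) (c0 : Fin m) (e : ℕ)
    {A B : Type} [CommRing A] [IsDomain A] [CommRing B] [IsDomain B] [CharZero B] [Algebra A B]
    (hinj : Function.Injective (algebraMap A B)) (x : (Fin (n + 3) × Fin m) ⊕ Fin s → B)
    (hx : ∀ a : FractionRing B, ∃ f g : MvPolynomial ((Fin (n + 3) × Fin m) ⊕ Fin s) A,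
      aeval (fun v => algebraMap B (FractionRing B) (x v)) g ≠ 0 ∧
        a * aeval (fun v => algebraMap B (FractionRing B) (x v)) g =
          aeval (fun v => algebraMap B (FractionRing B) (x v)) f)
    (hdis : ∀ p p', p ≠ p' → lam p = lam p' → ∃ c, x (Sum.inl (p, c)) ≠ x (Sum.inl (p', c)))
    (i : Fin 3) (h1 : AlgebraicIndependent A
      (fun v : (Sum.inl '' pr n m i : Set ((Fin (n + 3) × Fin m) ⊕ Fin s)) =>
        algebraMap B (FractionRing B) (x v)))
    (v1 : Fin (n + 3) × Fin m)
    (h2 : ¬ IsAlgebraic (Algebra.adjoin A ((fun v => algebraMap B (FractionRing B) (x v)) ''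
        (Sum.inl '' pr n m i))) (algebraMap B (FractionRing B) (x (Sum.inl v1)))) :
    HasConf2 n m s l e lam A B x := by
  classical
  have hinj0 : Function.Injective (algebraMap B (FractionRing B)) := IsFractionRing.injective B _
  have hCZ : CharZero (FractionRing B) := charZero_of_injective_algebraMap hinj0
  have hinjL : Function.Injective (algebraMap A (FractionRing B)) := by
    rw [IsScalarTower.algebraMap_eq A B (FractionRing B)]
    exact hinj0.comp hinj
  have h1' : AlgebraicIndepOn A (fun v => algebraMap B (FractionRing B) (x v))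
      (insert (Sum.inl v1) (Sum.inl '' pr n m i)) := AlgebraicIndepOn.insert h1 h2
  have hv1' : v1 ∉ pr n m i := by
    intro h
    apply h2
    exact isAlgebraic_algebraMap (⟨_, Algebra.subset_adjoin ⟨Sum.inl v1, ⟨v1, h, rfl⟩, rfl⟩⟩ :
      Algebra.adjoin A ((fun v => algebraMap B (FractionRing B) (x v)) '' (Sum.inl '' pr n m i)))
  obtain ⟨sb, hs, hsb⟩ := exists_basis (fun v => algebraMap B (FractionRing B) (x v)) hx _ h1'
  have hv1 : Sum.inl v1 ∈ sb := hs (Set.mem_insert _ _)
  have hdis' : ∀ p p', ∃ c : Fin m, p ≠ p' → lam p = lam p' →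
      x (Sum.inl (p, c)) ≠ x (Sum.inl (p', c)) := by
    intro p p'
    by_cases h : p ≠ p' ∧ lam p = lam p'
    · obtain ⟨c, hc⟩ := hdis p p' h.1 h.2
      exact ⟨c, fun _ _ => hc⟩
    · exact ⟨c0, fun h1 h2 => absurd ⟨h1, h2⟩ h⟩
  choose cc hcc using hdis'
  obtain ⟨σ, hσA, hσc, hσb, hσa⟩ := ht A (FractionRing B) hinjL _
    (fun v => algebraMap B (FractionRing B) (x v)) hx sb hsb
    (fun v => PowerSeries.C (algebraMap B (FractionRing B) (x v)) +
      if (v : (Fin (n + 3) × Fin m) ⊕ Fin s) = Sum.inl v1 then PowerSeries.X else 0) (by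
      intro v
      rw [map_add, PowerSeries.constantCoeff_C]
      split_ifs
      · rw [PowerSeries.constantCoeff_X, add_zero]
      · rw [map_zero, add_zero]) (by
      intro v
      split_ifs
      · exact (algC' _).add algX'
      · rw [add_zero]
        exact algC' _)
  obtain ⟨D, hD, C, hC⟩ := engine2 (A := A) x (fun _ : Unit => σ) (fun _ => hσA)
    (fun _ => hσa)
    ((Finset.univ.filter (fun q : Fin (n + 3) × Fin (n + 3) =>
        q.1 ≠ q.2 ∧ lam q.1 = lam q.2)).image
        fun q => (((), Sum.inl (q.1, cc q.1 q.2)), ((), Sum.inl (q.2, cc q.1 q.2)))) (by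
      intro t ht
      rw [Finset.mem_image] at ht
      obtain ⟨⟨p, p'⟩, hq, rfl⟩ := ht
      rw [Finset.mem_filter] at hq
      intro h
      have h1 := congrArg (PowerSeries.constantCoeff (R := FractionRing B)) h
      rw [hσc, hσc] at h1
      exact hcc p p' hq.2.1 hq.2.2 (hinj0 h1))
  obtain ⟨N, hN⟩ : ∃ N : ℕ, N = e * (n + 3) ^ (n + 3) := ⟨_, rfl⟩
  refine ⟨D, hD, C + C * N, ?_⟩
  intro k _ _ _ φ hφ hq
  obtain ⟨T, hT, hTs⟩ := hC k φ hφ (by
    have : C ≤ C + C * N := Nat.le_add_right _ _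
    omega)
  have hTe : N ≤ T.card := by
    by_contra hcon
    push Not at hcon
    rcases Nat.eq_zero_or_pos C with h | h
    · rw [h, zero_mul] at hT
      have := Fintype.card_pos (α := k)
      omega
    · have h3 : C * T.card < C * N := Nat.mul_lt_mul_of_pos_left hcon h
      have : C * N ≤ C + C * N := Nat.le_add_left _ _
      omega
  have hex : ∀ s' ∈ T, ∃ y : (Fin (n + 3) × Fin m) ⊕ Fin s → k,
      (∀ f : MvPolynomial ((Fin (n + 3) × Fin m) ⊕ Fin s) A, aeval x f = 0 →
        eval₂ (φ.comp (algebraMap A B)) y f = 0) ∧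
      (∀ v ∈ pr n m i, y (Sum.inl v) = φ (x (Sum.inl v))) ∧
      y (Sum.inl v1) = φ (x (Sum.inl v1)) + s' ∧
      ∀ p p', p ≠ p' → lam p = lam p' → ∃ c, y (Sum.inl (p, c)) ≠ y (Sum.inl (p', c)) := by
    intro a ha
    obtain ⟨-, y, hy1, hy2, -, hy4, hy5⟩ := hTs a ha
    refine ⟨y (), hy1 (), fun v hv => hy4 () (Sum.inl v) ?_, hy5 () (Sum.inl v1) ?_, ?_⟩
    · have h3 := hσb ⟨Sum.inl v, hs (Set.mem_insert_of_mem _ ⟨v, hv, rfl⟩)⟩
      simp only at h3
      rw [h3, if_neg, add_zero]
      intro h4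
      have h5 := Sum.inl_injective h4
      subst h5
      exact hv1' hv
    · have h3 := hσb ⟨Sum.inl v1, hv1⟩
      rw [h3]
      simp
    · intro p p' hp hl
      refine ⟨cc p p', hy2 (((), Sum.inl (p, cc p p')), ((), Sum.inl (p', cc p p'))) ?_⟩
      exact Finset.mem_image.2 ⟨(p, p'), Finset.mem_filter.2 ⟨Finset.mem_univ _, hp, hl⟩, rfl⟩
  choose! y hy using hex
  obtain ⟨z, hz⟩ : ∃ z : k → Fin (n + 3) × Fin m → k, z = fun a v => y a (Sum.inl v) := ⟨_, rfl⟩
  have hzy : ∀ a v, z a v = y a (Sum.inl v) := fun a v => by rw [hz]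
  have hzinj : Set.InjOn z T := by
    intro a ha b hb hab
    have h3 := (hy a ha).2.2.1
    rw [← hzy, hab, hzy, (hy b hb).2.2.1] at h3
    exact (add_left_cancel h3).symm
  obtain ⟨Ys', hY1, hY2, hY3⟩ := fibre_conf lam (T.image z) (by
    intro w hw
    rw [Finset.mem_image] at hw
    obtain ⟨a, ha, rfl⟩ := hw
    refine edge_card lam _ fun p p' hp hl => ?_
    obtain ⟨c, hc⟩ := (hy a ha).2.2.2 p p' hp hl
    refine ⟨c, ?_⟩
    rw [hzy, hzy]
    exact hc) i (by
    intro w hw w' hw' v hv
    rw [Finset.mem_image] at hw hw'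
    obtain ⟨a, ha, rfl⟩ := hw
    obtain ⟨b, hb, rfl⟩ := hw'
    rw [hzy, hzy, (hy a ha).2.1 v hv, (hy b hb).2.1 v hv]) e (by
    rw [Finset.card_image_of_injOn hzinj, ← hN]
    exact hTe)
  refine ⟨Ys'.image (edge lam), hY2, hY3, ?_⟩
  intro u hu
  rw [Finset.mem_image] at hu
  obtain ⟨w, hw, rfl⟩ := hu
  have hw' := hY1 hw
  rw [Finset.mem_image] at hw'
  obtain ⟨a, ha, rfl⟩ := hw'
  refine ⟨?_, y a, ?_, (hy a ha).1⟩
  · refine edge_card lam _ fun p p' hp hl => ?_
    obtain ⟨c, hc⟩ := (hy a ha).2.2.2 p p' hp hl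
    refine ⟨c, ?_⟩
    rw [hzy, hzy]
    exact hc
  · congr 1
    funext v
    exact hzy a v

end Pool.Agent.K9h85.AH
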