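import Mathlib

/-! Irreducibility over the algebraic closure of the minimal polynomial of a power series -/

set_option autoImplicit false

open Polynomial

namespace Pool.Agent.K9h85.AH

section LD

variable {K L : Type} [Field K] [Field L] [Algebra K L]

/-- a linear map of the coefficients, applied to a power series -/
noncomputable def cmap (π : L →ₗ[K] K) (u : PowerSeries L) : PowerSeries K :=
  PowerSeries.mk fun n => π (PowerSeries.coeff n u)

theorem cmap_add (π : L →ₗ[K] K) (u v : PowerSeries L) : cmap π (u + v) = cmap π u + cmap π v := by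
  ext n
  simp [cmap]

theorem cmap_zero (π : L →ₗ[K] K) : cmap π 0 = 0 := by
  ext n
  simp [cmap]

theorem cmap_sum (π : L →ₗ[K] K) {ι : Type} (s : Finset ι) (f : ι → PowerSeries L) :
    cmap π (∑ i ∈ s, f i) = ∑ i ∈ s, cmap π (f i) := by
  classical
  induction s using Finset.induction_on with
  | empty => simp [cmap_zero]
  | insert a s ha ih => rw [Finset.sum_insert ha, Finset.sum_insert ha, cmap_add, ih]

theorem cmap_mul (π : L →ₗ[K] K) (c : PowerSeries L) (u : PowerSeries K) :
    cmap π (c * PowerSeries.map (algebraMap K L) u) = cmap π c * u := by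
  ext n
  simp only [cmap, PowerSeries.coeff_mk, PowerSeries.coeff_mul, map_sum, PowerSeries.coeff_map]
  refine Finset.sum_congr rfl fun p _ => ?_
  rw [mul_comm (PowerSeries.coeff p.1 c), ← Algebra.smul_def, map_smul, smul_eq_mul, mul_comm]

/-- the same for polynomials -/
noncomputable def pmap (π : L →ₗ[K] K) (p : L[X]) : K[X] :=
  ∑ i ∈ p.support, monomial i (π (p.coeff i))

theorem pmap_coeff (π : L →ₗ[K] K) (p : L[X]) (n : ℕ) : (pmap π p).coeff n = π (p.coeff n) := by
  rw [pmap, finsetSum_coeff]
  simp only [coeff_monomial]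
  rw [Finset.sum_ite_eq']
  split_ifs with h
  · rfl
  · rw [notMem_support_iff.1 h, map_zero]

theorem coe_pmap (π : L →ₗ[K] K) (p : L[X]) : ((pmap π p : K[X]) : PowerSeries K) = cmap π p := by
  ext n
  simp [cmap, pmap_coeff]

/-- **Linear disjointness.** A relation of the powers of `θ` over `L[X]` gives one over `K[X]`. -/
theorem lin_disj (θ : PowerSeries K) (g : L[X][X]) (hg : g ≠ 0)
    (h : ∑ j ∈ Finset.range (g.natDegree + 1), ((g.coeff j : L[X]) : PowerSeries L) *
      (PowerSeries.map (algebraMap K L) θ) ^ j = 0) :
    ∃ g' : K[X][X], g' ≠ 0 ∧ g'.natDegree ≤ g.natDegree ∧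
      ∑ j ∈ Finset.range (g.natDegree + 1), ((g'.coeff j : K[X]) : PowerSeries K) * θ ^ j = 0 := by
  have hlc : g.leadingCoeff ≠ 0 := leadingCoeff_ne_zero.2 hg
  have hlc2 : g.leadingCoeff.leadingCoeff ≠ 0 := leadingCoeff_ne_zero.2 hlc
  obtain ⟨π, hπ⟩ : ∃ π : L →ₗ[K] K, π g.leadingCoeff.leadingCoeff ≠ 0 := by
    by_contra hcon
    push Not at hcon
    exact hlc2 ((Module.forall_dual_apply_eq_zero_iff K _).1 hcon)
  refine ⟨∑ j ∈ Finset.range (g.natDegree + 1), monomial j (pmap π (g.coeff j)), ?_, ?_, ?_⟩
  · intro h0
    have h1 := congrArg (fun p => p.coeff g.natDegree) h0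
    simp only [finsetSum_coeff, coeff_monomial, coeff_zero] at h1
    rw [Finset.sum_ite_eq', if_pos (Finset.self_mem_range_succ _)] at h1
    have h2 := congrArg (fun p => p.coeff g.leadingCoeff.natDegree) h1
    simp only [pmap_coeff, coeff_zero] at h2
    exact hπ h2
  · refine natDegree_sum_le_of_forall_le _ _ fun j hj => ?_
    exact (natDegree_monomial_le _).trans (by rw [Finset.mem_range] at hj; omega)
  · have h2 := congrArg (cmap π) h
    rw [cmap_zero, cmap_sum] at h2
    rw [← h2]
    refine Finset.sum_congr rfl fun j hj => ?_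
    rw [← map_pow, cmap_mul, ← coe_pmap]
    congr 2
    rw [finsetSum_coeff]
    simp only [coeff_monomial]
    rw [Finset.sum_ite_eq', if_pos hj]

end LD

section Irr

variable {A : Type} [CommRing A] [IsDomain A]

/-- **The minimal polynomial of a power series over `A[X]` is absolutely irreducible.** -/
theorem irr_of_min (K L : Type) [Field K] [Algebra A K] [IsFractionRing A K] [Field L] [Algebra K L]
    (θ : PowerSeries K) (f : A[X][X]) (hf : f.Monic) (hn : 0 < f.natDegree)
    (hroot : f.eval₂ (algebraMap A[X] (PowerSeries K)) θ = 0)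
    (hmin : ∀ g : A[X][X], g ≠ 0 → g.eval₂ (algebraMap A[X] (PowerSeries K)) θ = 0 →
      f.natDegree ≤ g.natDegree) :
    Irreducible (f.map (mapRingHom ((algebraMap K L).comp (algebraMap A K)))) := by
  classical
  set fL := f.map (mapRingHom ((algebraMap K L).comp (algebraMap A K))) with hfL
  have hfm : fL.Monic := hf.map _
  have hfd : fL.natDegree = f.natDegree := hf.natDegree_map _
  -- no polynomial of smaller degree over `L[X]`
  have key : ∀ g : L[X][X], g ≠ 0 → g.eval₂ (Polynomial.coeToPowerSeries.ringHom : L[X] →+* PowerSeries L)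
      (PowerSeries.map (algebraMap K L) θ) = 0 → f.natDegree ≤ g.natDegree := by
    intro g hg h0
    rw [eval₂_eq_sum_range] at h0
    obtain ⟨g', hg'0, hg'd, hg'⟩ := lin_disj (K := K) (L := L) θ g hg (by
      simpa using h0)
    -- clear denominators
    have hinj : Function.Injective (mapRingHom (algebraMap A K)) :=
      map_injective _ (IsFractionRing.injective A K)
    obtain ⟨b, hb⟩ := IsLocalization.exist_integer_multiples_of_finset (nonZeroDivisors A)
      (S := K) ((Finset.range (g.natDegree + 1)).biUnion fun j => (g'.coeff j).support.image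
        fun i => (g'.coeff j).coeff i)
    have hb0 : algebraMap A K b ≠ 0 := IsLocalization.to_map_ne_zero_of_mem_nonZeroDivisors K le_rfl b.2
    have hlift : ∀ j, j ∈ Finset.range (g.natDegree + 1) → ∃ p : A[X],
        p.map (algebraMap A K) = C (algebraMap A K b) * g'.coeff j := by
      intro j hj
      have : C (algebraMap A K b) * g'.coeff j ∈ lifts (algebraMap A K) := by
        rw [lifts_iff_coeff_lifts]
        intro i
        rw [coeff_C_mul]
        by_cases hi : i ∈ (g'.coeff j).support
        · obtain ⟨a, ha⟩ := hb ((g'.coeff j).coeff i) (by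
            rw [Finset.mem_biUnion]
            exact ⟨j, hj, Finset.mem_image_of_mem _ hi⟩)
          refine ⟨a, ?_⟩
          rw [ha, Algebra.smul_def]
        · rw [notMem_support_iff.1 hi, mul_zero]
          exact ⟨0, map_zero _⟩
      obtain ⟨p, hp⟩ := (mem_lifts _).1 this
      exact ⟨p, hp⟩
    choose! P hP using hlift
    set G : A[X][X] := ∑ j ∈ Finset.range (g.natDegree + 1), monomial j (P j) with hG
    have hGc : ∀ j ∈ Finset.range (g.natDegree + 1), G.coeff j = P j := by
      intro j hj
      rw [hG, finsetSum_coeff]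
      simp only [coeff_monomial]
      rw [Finset.sum_ite_eq', if_pos hj]
    have hGd : G.natDegree ≤ g.natDegree :=
      natDegree_sum_le_of_forall_le _ _ fun j hj =>
        (natDegree_monomial_le _).trans (by rw [Finset.mem_range] at hj; omega)
    refine (hmin G ?_ ?_).trans hGd
    · intro h0
      apply hg'0
      ext1 j
      by_cases hj : j ∈ Finset.range (g.natDegree + 1)
      · have h1 := hP j hj
        rw [← hGc j hj, h0, coeff_zero, Polynomial.map_zero] at h1
        rw [coeff_zero]
        have h2 : C (algebraMap A K b) ≠ (0 : K[X]) := C_ne_zero.2 hb0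
        exact (mul_eq_zero.1 h1.symm).resolve_left h2
      · rw [coeff_zero]
        exact coeff_eq_zero_of_natDegree_lt (by rw [Finset.mem_range] at hj; omega)
    · rw [eval₂_eq_sum_range' _ (Nat.lt_succ_of_le hGd)]
      have h3 : ∀ j ∈ Finset.range (g.natDegree + 1),
          (algebraMap A[X] (PowerSeries K)) (G.coeff j) * θ ^ j =
          PowerSeries.C (algebraMap A K b) * (((g'.coeff j : K[X]) : PowerSeries K) * θ ^ j) := by
        intro j hj
        rw [hGc j hj, PowerSeries.algebraMap_apply', ← mul_assoc]
        congr 1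
        have h4 := congrArg (fun p : K[X] => (p : PowerSeries K)) (hP j hj)
        simp only [Polynomial.coe_mul, Polynomial.coe_C] at h4
        rw [← h4]
        ext n
        simp
      rw [Finset.sum_congr rfl h3, ← Finset.mul_sum, hg', mul_zero]
  rw [hfm.irreducible_iff_natDegree]
  constructor
  · intro h1
    rw [h1, natDegree_one] at hfd
    omega
  · intro u v hu hv huv
    by_contra hcon
    push Not at hcon
    have hdeg := congrArg natDegree huv
    rw [hu.natDegree_mul hv, hfd] at hdeg
    have hev : (u * v).eval₂ (Polynomial.coeToPowerSeries.ringHom : L[X] →+* PowerSeries L)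
        (PowerSeries.map (algebraMap K L) θ) = 0 := by
      rw [huv, hfL, eval₂_map]
      have h5 := congrArg (PowerSeries.map (algebraMap K L)) hroot
      rw [hom_eval₂, map_zero] at h5
      rw [← h5]
      congr 1
      refine RingHom.ext fun p => ?_
      simp only [RingHom.comp_apply, PowerSeries.algebraMap_apply']
      ext n
      simp
    rw [eval₂_mul, mul_eq_zero] at hev
    rcases hev with h6 | h6
    · have := key u hu.ne_zero h6
      omega
    · have := key v hv.ne_zero h6
      omega

end Irr

end Pool.Agent.K9h85.AH
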