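import Mathlib

/-! A primitive element for finitely many algebraic power series -/

set_option autoImplicit false

open Polynomial

namespace Pool.Agent.K9h85.AH

section gen

variable {R Om : Type} [CommRing R] [IsDomain R] [CharZero R] [Field Om] [Algebra R Om]
  [FaithfulSMul R Om]

/-- primitive element, with cleared denominators -/
theorem prim_elt {ι : Type} [Finite ι] (w : ι → Om) (hw : ∀ i, IsAlgebraic R (w i)) :
    ∃ θ : Om, IsAlgebraic R θ ∧ ∀ i, ∃ b : R, b ≠ 0 ∧ ∃ P : R[X],
      algebraMap R Om b * w i = aeval θ P := by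
  let _ : Algebra (FractionRing R) Om := FractionRing.liftAlgebra R Om
  have _ : IsScalarTower R (FractionRing R) Om := FractionRing.isScalarTower_liftAlgebra R Om
  have hw' : ∀ i, IsAlgebraic (FractionRing R) (w i) := fun i =>
    (IsFractionRing.isAlgebraic_iff R (FractionRing R) Om).1 (hw i)
  set E := IntermediateField.adjoin (FractionRing R) (Set.range w) with hE
  have _ : FiniteDimensional (FractionRing R) E :=
    IntermediateField.finiteDimensional_adjoin (by
      rintro _ ⟨i, rfl⟩
      exact (hw' i).isIntegral)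
  have _ : CharZero (FractionRing R) :=
    charZero_of_injective_algebraMap (IsFractionRing.injective R (FractionRing R))
  set pb := Field.powerBasisOfFiniteOfSeparable (FractionRing R) E with hpb
  refine ⟨(pb.gen : Om), ?_, fun i => ?_⟩
  · rw [IsFractionRing.isAlgebraic_iff R (FractionRing R) Om]
    have h1 : IsAlgebraic (FractionRing R) pb.gen := Algebra.IsAlgebraic.isAlgebraic _
    exact (isAlgebraic_algebraMap_iff (A := Om) (algebraMap E Om).injective).2 h1
  · have hi : w i ∈ E := IntermediateField.subset_adjoin _ _ ⟨i, rfl⟩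
    obtain ⟨p, hp⟩ := pb.exists_eq_aeval' (⟨w i, hi⟩ : E)
    obtain ⟨b, hb⟩ := IsLocalization.integerNormalization_map_to_map (nonZeroDivisors R) p
    refine ⟨b, nonZeroDivisors.coe_ne_zero b, IsLocalization.integerNormalization (nonZeroDivisors R) p, ?_⟩
    have h2 : w i = aeval (pb.gen : Om) p := by
      have h3 := congrArg (algebraMap E Om) hp
      rw [← aeval_algebraMap_apply] at h3
      exact h3
    rw [← aeval_map_algebraMap (FractionRing R), hb, ← algebraMap_smul (FractionRing R) (b : R) p,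
      map_smul, ← h2, Algebra.smul_def, ← IsScalarTower.algebraMap_apply]

/-- a multiple with a monic minimal polynomial -/
theorem monic_mult (θ : Om) (hθ : IsAlgebraic R θ) :
    ∃ b : R, b ≠ 0 ∧ ∃ f : R[X], f.Monic ∧ 0 < f.natDegree ∧
      aeval (algebraMap R Om b * θ) f = 0 ∧
      ∀ g : R[X], g ≠ 0 → aeval (algebraMap R Om b * θ) g = 0 → f.natDegree ≤ g.natDegree := by
  classical
  have hex : ∃ n, ∃ g : R[X], g ≠ 0 ∧ aeval θ g = 0 ∧ g.natDegree = n := by
    obtain ⟨g, hg, h0⟩ := hθ
    exact ⟨_, g, hg, h0, rfl⟩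
  obtain ⟨g, hg, hg0, hgn⟩ := Nat.find_spec hex
  have hmin : ∀ g' : R[X], g' ≠ 0 → aeval θ g' = 0 → g.natDegree ≤ g'.natDegree := by
    intro g' h1 h2
    rw [hgn]
    exact Nat.find_min' hex ⟨g', h1, h2, rfl⟩
  have hinj : Function.Injective (algebraMap R Om) := FaithfulSMul.algebraMap_injective R Om
  have hlc : g.leadingCoeff ≠ 0 := leadingCoeff_ne_zero.2 hg
  refine ⟨g.leadingCoeff, hlc, integralNormalization g, monic_integralNormalization hg, ?_, ?_, ?_⟩
  · rw [natDegree_integralNormalization]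
    by_contra hcon
    have h1 : g.natDegree = 0 := by omega
    rw [eq_C_of_natDegree_eq_zero h1, aeval_C] at hg0
    have h2 : g.coeff 0 = 0 := hinj (by rw [hg0, map_zero])
    apply hg
    rw [eq_C_of_natDegree_eq_zero h1, h2, C_0]
  · have := integralNormalization_aeval_eq_zero hg0 (fun x hx => hinj (by rw [hx, map_zero]))
    exact this
  · intro g' h1 h2
    rw [natDegree_integralNormalization]
    have h3 : (g'.comp (C g.leadingCoeff * X)).natDegree = g'.natDegree := by
      rw [natDegree_comp, natDegree_C_mul_X _ hlc, mul_one]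
    rw [← h3]
    refine hmin _ ?_ ?_
    · intro h4
      rw [comp_C_mul_X_eq_zero_iff] at h4
      · exact h1 h4
      · exact mem_nonZeroDivisors_of_ne_zero hlc
    · rw [aeval_comp]
      simpa using h2

end gen

section ps

variable {A : Type} [CommRing A] [IsDomain A] [CharZero A]

theorem alg_inj {K : Type} [Field K] [Algebra A K] [IsFractionRing A K] :
    Function.Injective (algebraMap A[X] (PowerSeries K)) := by
  intro p q h
  rw [PowerSeries.algebraMap_apply', PowerSeries.algebraMap_apply'] at h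
  ext n
  have := congrArg (PowerSeries.coeff n) h
  simpa using IsFractionRing.injective A K (by simpa using this)

/-- **Primitive element for algebraic power series.** -/
theorem pe (K : Type) [Field K] [Algebra A K] [IsFractionRing A K] {ι : Type} [Finite ι]
    (w : ι → PowerSeries K) (hw : ∀ i, IsAlgebraic A[X] (w i)) :
    ∃ θ : PowerSeries K, ∃ f : A[X][X], f.Monic ∧ 0 < f.natDegree ∧
      aeval θ f = 0 ∧ (∀ g : A[X][X], g ≠ 0 → aeval θ g = 0 → f.natDegree ≤ g.natDegree) ∧
      ∃ b : A[X], b ≠ 0 ∧ ∀ i, ∃ P : A[X][X],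
        algebraMap A[X] (PowerSeries K) b * w i = aeval θ P := by
  classical
  cases nonempty_fintype ι
  have _ : FaithfulSMul A[X] (PowerSeries K) := (faithfulSMul_iff_algebraMap_injective _ _).2 alg_inj
  set Om := FractionRing (PowerSeries K) with hOm
  have hinj : Function.Injective (algebraMap (PowerSeries K) Om) := IsFractionRing.injective _ _
  have _ : FaithfulSMul A[X] Om := by
    rw [faithfulSMul_iff_algebraMap_injective, IsScalarTower.algebraMap_eq A[X] (PowerSeries K) Om]
    exact hinj.comp alg_inj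
  obtain ⟨θ0, hθ0, hP0⟩ := prim_elt (R := A[X]) (fun i => algebraMap (PowerSeries K) Om (w i))
    (fun i => (hw i).algebraMap)
  -- a multiple which is a power series
  obtain ⟨N, θ1, hθ1⟩ : ∃ (N : ℕ) (θ1 : PowerSeries K),
      algebraMap A[X] Om (X ^ N) * θ0 = algebraMap (PowerSeries K) Om θ1 := by
    obtain ⟨u, v, hv, huv⟩ := IsFractionRing.div_surjective (A := PowerSeries K) θ0
    have hv0 : v ≠ 0 := nonZeroDivisors.ne_zero hv
    obtain ⟨N, c, hc⟩ : ∃ (N : ℕ) (c : (PowerSeries K)ˣ), v = PowerSeries.X ^ N * (c : PowerSeries K) := by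
      refine ⟨v.order.toNat, PowerSeries.Unit_of_divided_by_X_pow_order v, ?_⟩
      rw [PowerSeries.Unit_of_divided_by_X_pow_order_nonzero hv0]
      exact (PowerSeries.X_pow_order_mul_divXPowOrder).symm
    refine ⟨N, u * ((c⁻¹ : (PowerSeries K)ˣ) : PowerSeries K), ?_⟩
    rw [← huv, IsScalarTower.algebraMap_apply A[X] (PowerSeries K) Om]
    have h1 : algebraMap (PowerSeries K) Om v ≠ 0 := by
      rw [Ne, map_eq_zero_iff _ hinj]
      exact hv0
    have h2 : algebraMap A[X] (PowerSeries K) (X ^ N) = PowerSeries.X ^ N := by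
      rw [PowerSeries.algebraMap_apply']
      simp
    rw [h2]
    rw [← mul_div_assoc, div_eq_iff h1, ← map_mul, ← map_mul]
    congr 1
    rw [hc]
    have h3 : (c : PowerSeries K) * ((c⁻¹ : (PowerSeries K)ˣ) : PowerSeries K) = 1 := Units.mul_inv c
    linear_combination (PowerSeries.X ^ N * u) * (-1) * h3
  have hXN : (X ^ N : A[X]) ≠ 0 := pow_ne_zero _ X_ne_zero
  have hθ1a : IsAlgebraic A[X] (algebraMap (PowerSeries K) Om θ1) := by
    rw [← hθ1]
    exact (isAlgebraic_algebraMap _).mul hθ0
  obtain ⟨b, hb, f, hf, hfd, hfr, hfm⟩ := monic_mult _ hθ1a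
  set θ : PowerSeries K := algebraMap A[X] (PowerSeries K) b * θ1 with hθ
  have hθΩ : algebraMap A[X] Om b * algebraMap (PowerSeries K) Om θ1 = algebraMap (PowerSeries K) Om θ := by
    rw [hθ, map_mul, ← IsScalarTower.algebraMap_apply]
  have haev : ∀ g : A[X][X], aeval (algebraMap (PowerSeries K) Om θ) g =
      algebraMap (PowerSeries K) Om (aeval θ g) := fun g => aeval_algebraMap_apply _ _ _
  rw [hθΩ] at hfr hfm
  -- `θ = c θ0`
  have hc : algebraMap (PowerSeries K) Om θ = algebraMap A[X] Om (b * X ^ N) * θ0 := by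
    rw [← hθΩ, ← hθ1, map_mul, mul_assoc]
  have hcc : ∀ i, ∃ b' : A[X], b' ≠ 0 ∧ ∃ P : A[X][X],
      algebraMap A[X] (PowerSeries K) b' * w i = aeval θ P := by
    intro i
    obtain ⟨b0, hb0, P, hP⟩ := hP0 i
    refine ⟨(b * X ^ N) ^ P.natDegree * b0, mul_ne_zero (pow_ne_zero _ (mul_ne_zero hb hXN)) hb0,
      P.scaleRoots (b * X ^ N), ?_⟩
    apply hinj
    rw [← haev, hc, aeval_def, scaleRoots_eval₂_mul, ← aeval_def, ← hP, map_mul,
      ← IsScalarTower.algebraMap_apply, map_mul, map_pow, mul_assoc]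
  choose bb hbb PP hPP using hcc
  refine ⟨θ, f, hf, hfd, ?_, ?_, ∏ i, bb i, Finset.prod_ne_zero_iff.2 fun i _ => hbb i, ?_⟩
  · apply hinj
    rw [← haev, hfr, map_zero]
  · intro g hg h0
    refine hfm g hg ?_
    rw [haev, h0, map_zero]
  · intro i
    refine ⟨C (∏ j ∈ Finset.univ.erase i, bb j) * PP i, ?_⟩
    rw [map_mul, aeval_C, ← hPP i, ← mul_assoc, ← map_mul,
      ← Finset.mul_prod_erase _ bb (Finset.mem_univ i)]
    congr 2
    ring

end ps

end Pool.Agent.K9h85.AH
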