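import Pool.Agent.K9h85.AH.Stm
import Pool.Agent.K9h85.AH.G1
import Pool.Agent.K9h85.AH.G2
import Pool.Agent.R410.LW.BN1

/-! Specialisation of algebraic power series to finite fields -/

set_option autoImplicit false

open Polynomial

namespace Pool.Agent.K9h85.AH

/-- points of a plane curve outside of a set of first coordinates -/
theorem count {k : Type} [Field k] [Fintype k] [DecidableEq k] (f : k[X][X]) (hf : f.Monic)
    (hn : 0 < f.natDegree) (a b : k[X][X]) (D : k[X]) (hab : a * f + b * derivative f = C D)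
    (hD : D ≠ 0) (δ d : ℕ) (hδ : D.natDegree ≤ δ) (hd : ∀ i, (f.coeff i).natDegree ≤ d)
    (hirr : Irreducible (f.map (mapRingHom (algebraMap k (AlgebraicClosure k)))))
    (Z : Finset k) :
    (Fintype.card k : ℝ) - (Pool.Agent.R410.PW.WC f.natDegree d δ : ℕ) * √(Fintype.card k : ℝ) ≤
      f.natDegree * (((Finset.univ.filter fun s : k => s ∉ Z ∧ ∃ y, evalEval s y f = 0).card : ℝ) +
        Z.card) := by
  classical
  have h := Pool.Agent.R410.PW.weil (F := k) (AlgebraicClosure k) hf hn hab hD hδ hd hirr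
  rw [Nat.card_eq_fintype_card] at h
  set T := Finset.univ.filter fun s : k => s ∉ Z ∧ ∃ y, evalEval s y f = 0 with hT
  have hpts : {z : k × k | evalEval z.1 z.2 f = 0}.ncard ≤ f.natDegree * (T ∪ Z).card := by
    have hsub : {z : k × k | evalEval z.1 z.2 f = 0} ⊆
        (((T ∪ Z).biUnion fun s => ((f.map (evalRingHom s)).roots.toFinset.image
          fun y => (s, y)) : Finset (k × k)) : Set (k × k)) := by
      rintro ⟨s, y⟩ hz
      simp only [Set.mem_ofPred_eq] at hz
      rw [Finset.mem_coe, Finset.mem_biUnion]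
      refine ⟨s, ?_, ?_⟩
      · rw [Finset.mem_union, hT, Finset.mem_filter]
        by_cases hsZ : s ∈ Z
        · exact Or.inr hsZ
        · exact Or.inl ⟨Finset.mem_univ _, hsZ, y, hz⟩
      · rw [Finset.mem_image]
        refine ⟨y, ?_, rfl⟩
        rw [Multiset.mem_toFinset, mem_roots (hf.map _).ne_zero, IsRoot.def, eval_map,
          eval₂_evalRingHom]
        exact hz
    have h1 := Set.ncard_le_ncard hsub (Finset.finite_toSet _)
    rw [Set.ncard_coe_finset] at h1
    refine h1.trans (Finset.card_biUnion_le.trans ?_)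
    rw [mul_comm, ← smul_eq_mul]
    refine Finset.sum_le_card_nsmul _ _ _ fun s _ => ?_
    refine Finset.card_image_le.trans ((Multiset.toFinset_card_le _).trans ((card_roots' _).trans ?_))
    rw [hf.natDegree_map]
  have hu : (T ∪ Z).card ≤ T.card + Z.card := Finset.card_union_le _ _
  have h2 : ({z : k × k | evalEval z.1 z.2 f = 0}.ncard : ℝ) ≤ f.natDegree * ((T.card : ℝ) + Z.card) := by
    have : {z : k × k | evalEval z.1 z.2 f = 0}.ncard ≤ f.natDegree * (T.card + Z.card) :=
      hpts.trans (Nat.mul_le_mul_left _ hu)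
    exact_mod_cast this
  have h3 := (abs_le.1 h).1
  linarith

/-- clearing denominators -/
theorem clear_den {A : Type} [CommRing A] [IsDomain A] (K : Type) [Field K] [Algebra A K]
    [IsFractionRing A K] (P : K[X][X]) : ∃ b : A, b ≠ 0 ∧ ∃ P' : A[X][X],
      P'.map (mapRingHom (algebraMap A K)) = C (C (algebraMap A K b)) * P := by
  classical
  obtain ⟨b, hb⟩ := IsLocalization.exist_integer_multiples_of_finset (nonZeroDivisors A)
    (S := K) ((Finset.range (P.natDegree + 1)).biUnion fun j => (P.coeff j).support.image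
      fun i => (P.coeff j).coeff i)
  have hlift : ∀ j, j ∈ Finset.range (P.natDegree + 1) → ∃ p : A[X],
      p.map (algebraMap A K) = C (algebraMap A K b) * P.coeff j := by
    intro j hj
    have : C (algebraMap A K b) * P.coeff j ∈ lifts (algebraMap A K) := by
      rw [lifts_iff_coeff_lifts]
      intro i
      rw [coeff_C_mul]
      by_cases hi : i ∈ (P.coeff j).support
      · obtain ⟨a, ha⟩ := hb ((P.coeff j).coeff i) (by
          rw [Finset.mem_biUnion]
          exact ⟨j, hj, Finset.mem_image_of_mem _ hi⟩)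
        refine ⟨a, ?_⟩
        rw [ha, Algebra.smul_def]
      · rw [notMem_support_iff.1 hi, mul_zero]
        exact ⟨0, map_zero _⟩
    obtain ⟨p, hp⟩ := (mem_lifts _).1 this
    exact ⟨p, hp⟩
  choose! Q hQ using hlift
  refine ⟨b, nonZeroDivisors.coe_ne_zero b, ∑ j ∈ Finset.range (P.natDegree + 1), monomial j (Q j), ?_⟩
  ext1 j
  rw [coeff_map, finsetSum_coeff, coeff_C_mul]
  simp only [coeff_monomial]
  rw [Finset.sum_ite_eq']
  split_ifs with hj
  · rw [coe_mapRingHom, hQ j hj]
  · rw [map_zero, coeff_eq_zero_of_natDegree_lt (p := P) (by rw [Finset.mem_range] at hj; omega), mul_zero]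

theorem isAlg {A : Type} [CommRing A] [IsDomain A] (K : Type) [Field K] [Algebra A K]
    [IsFractionRing A K] (u : PowerSeries K) (hu : IsAlgebraic K[X] u) : IsAlgebraic A[X] u := by
  obtain ⟨P, hP0, hP⟩ := hu
  obtain ⟨b, hb, P', hP'⟩ := clear_den (A := A) K P
  have hb0 : algebraMap A K b ≠ 0 := by
    rw [Ne, map_eq_zero_iff _ (IsFractionRing.injective A K)]
    exact hb
  refine ⟨P', ?_, ?_⟩
  · rintro rfl
    rw [Polynomial.map_zero] at hP'
    have h1 : C (C (algebraMap A K b)) ≠ (0 : K[X][X]) := C_ne_zero.2 (C_ne_zero.2 hb0)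
    exact hP0 ((mul_eq_zero.1 hP'.symm).resolve_left h1)
  · have h2 := congrArg (aeval u) hP'
    rw [map_mul, hP, mul_zero] at h2
    rw [← h2, aeval_def, aeval_def, eval₂_map]
    congr 1
    refine RingHom.ext fun p => ?_
    simp only [RingHom.comp_apply, PowerSeries.algebraMap_apply']
    ext n
    simp


/-- **Specialisation of algebraic power series to finite fields.** -/
theorem g : S_G := by
  intro A _ _ _ ι _ w hw S hS h hh hh0
  classical
  have hw' : ∀ i, IsAlgebraic A[X] (w i) := fun i => isAlg (FractionRing A) (w i) (hw i)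
  obtain ⟨θ, f, hf, hn, hroot, hmin, b, hb, hP⟩ := pe (FractionRing A) w hw'
  choose P hP using hP
  set j : A[X] →+* PowerSeries (FractionRing A) := algebraMap A[X] (PowerSeries (FractionRing A)) with hj
  have hjinj : Function.Injective j := alg_inj
  have hjC : ∀ a : A, j (C a) = PowerSeries.C (algebraMap A (FractionRing A) a) := by
    intro a
    rw [hj, PowerSeries.algebraMap_apply']
    simp
  have hjX : j X = PowerSeries.X := by
    rw [hj, PowerSeries.algebraMap_apply']
    simp
  let Th : AdjoinRoot f →+* PowerSeries (FractionRing A) := AdjoinRoot.lift j θ (by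
    rw [hj, ← aeval_def]; exact hroot)
  have hThmk : ∀ q : A[X][X], Th (AdjoinRoot.mk f q) = aeval θ q := fun q => AdjoinRoot.lift_mk _ _
  have hThof : ∀ q : A[X], Th (AdjoinRoot.of f q) = j q := fun q => AdjoinRoot.lift_of _
  have hTinj : Function.Injective Th := by
    rw [injective_iff_map_eq_zero]
    intro x hx
    obtain ⟨q, rfl⟩ := AdjoinRoot.mk_surjective x
    rw [hThmk] at hx
    have h1 : aeval θ (q %ₘ f) = 0 := by
      have h2 := modByMonic_add_div q f
      have h3 := congrArg (aeval θ) h2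
      rw [map_add, map_mul, hroot, zero_mul, add_zero, hx] at h3
      exact h3
    rw [AdjoinRoot.mk_eq_zero, ← (modByMonic_eq_zero_iff_dvd hf)]
    by_contra hne
    have h4 := hmin _ hne h1
    have h5 := natDegree_modByMonic_lt q hf (by
      rintro rfl
      simp at hn)
    omega
  have hdom : IsDomain (AdjoinRoot f) := hTinj.isDomain Th
  have hfin : Module.Finite A[X] (AdjoinRoot f) := hf.finite_adjoinRoot
  -- cofactors
  have cof : ∀ r : AdjoinRoot f, r ≠ 0 → ∃ N : A[X], N ≠ 0 ∧ ∃ r' : AdjoinRoot f,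
      AdjoinRoot.of f N = r * r' := by
    intro r hr
    have h1 : IsIntegral A[X] r := Algebra.IsIntegral.isIntegral r
    have h2 : IsAlgebraic A[X] r := h1.isAlgebraic
    obtain ⟨N, hN, r', hr'⟩ := h2.exists_nonzero_dvd (mem_nonZeroDivisors_of_ne_zero hr)
    exact ⟨N, hN, r', hr'⟩
  -- separability
  obtain ⟨w0, hw0, u0, v0, huv⟩ : ∃ w0 : A[X], w0 ≠ 0 ∧ ∃ u0 v0 : A[X][X],
      u0 * f + v0 * derivative f = C w0 := by
    have hd0 : derivative f ≠ 0 := by
      intro h0
      have := natDegree_eq_zero_of_derivative_eq_zero h0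
      omega
    have h1 : AdjoinRoot.mk f (derivative f) ≠ 0 := by
      intro h0
      have h2 := congrArg Th h0
      rw [hThmk, map_zero] at h2
      have h3 := hmin _ hd0 h2
      have h4 := natDegree_derivative_lt (p := f) (by omega)
      omega
    obtain ⟨w0, hw0, r', hr'⟩ := cof _ h1
    obtain ⟨v0, rfl⟩ := AdjoinRoot.mk_surjective r'
    have h5 : AdjoinRoot.mk f (C w0 - derivative f * v0) = 0 := by
      rw [map_sub, map_mul, ← hr', AdjoinRoot.mk_C, sub_self]
    rw [AdjoinRoot.mk_eq_zero] at h5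
    obtain ⟨u0, hu0⟩ := h5
    refine ⟨w0, hw0, u0, v0, ?_⟩
    linear_combination -hu0
  -- Bertini and Noether
  obtain ⟨D1, hD1, hirr⟩ := Pool.Agent.R410.LW.bn_poly (A := A) (k := FractionRing A)
    (kb := AlgebraicClosure (FractionRing A)) f hf hn
    (irr_of_min (FractionRing A) (AlgebraicClosure (FractionRing A)) θ f hf hn
      (by rw [← aeval_def]; exact hroot) (fun g hg h0 => hmin g hg (by rw [aeval_def]; exact h0)))
  -- the localisation
  set Om := FractionRing (PowerSeries (FractionRing A)) with hOm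
  set κ : PowerSeries (FractionRing A) →+* Om := algebraMap _ _ with hκ
  have hκinj : Function.Injective κ := IsFractionRing.injective _ _
  set b' : AdjoinRoot f := AdjoinRoot.of f b with hb'
  have hThb : κ (Th b') ≠ 0 := by
    rw [hb', hThof, Ne, map_eq_zero_iff _ hκinj, map_eq_zero_iff _ hjinj]
    exact hb
  have hb'0 : b' ≠ 0 := by
    intro h0
    rw [h0, map_zero, map_zero] at hThb
    exact hThb rfl
  let Rl := Localization.Away b'
  have hunit : IsUnit ((κ.comp Th) b') := IsUnit.mk0 _ hThb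
  let Tl : Rl →+* Om := IsLocalization.Away.lift b' hunit
  have hTlalg : ∀ x : AdjoinRoot f, Tl (algebraMap _ Rl x) = κ (Th x) := fun x =>
    IsLocalization.Away.lift_eq b' hunit x
  have hTlinj : Function.Injective Tl := by
    rw [injective_iff_map_eq_zero]
    intro x hx
    obtain ⟨n, a, ha⟩ := IsLocalization.Away.surj b' x
    have h1 := congrArg Tl ha
    rw [map_mul, hx, zero_mul, hTlalg] at h1
    have h2 : a = 0 := hTinj (hκinj (by rw [← h1, map_zero, map_zero]))
    rw [h2, map_zero] at ha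
    have h3 : IsUnit (algebraMap (AdjoinRoot f) Rl b') := IsLocalization.Away.algebraMap_isUnit b'
    exact (h3.pow n).mul_left_eq_zero.1 ha
  have hSsub : ∀ u ∈ S, κ u ∈ Tl.range := by
    intro u hu
    have h1 : S ≤ Tl.range.comap κ := by
      rw [hS, Subring.closure_le]
      rintro v ((⟨a, rfl⟩ | hv) | ⟨i, rfl⟩)
      · exact ⟨algebraMap _ Rl (AdjoinRoot.of f (C a)), by rw [hTlalg, hThof, hjC]⟩
      · rw [Set.mem_singleton_iff] at hv
        subst hv
        exact ⟨algebraMap _ Rl (AdjoinRoot.of f X), by rw [hTlalg, hThof, hjX]⟩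
      · refine ⟨IsLocalization.Away.invSelf b' * algebraMap _ Rl (AdjoinRoot.mk f (P i)), ?_⟩
        have h2 : Tl (algebraMap _ Rl b') * Tl (IsLocalization.Away.invSelf b') = 1 := by
          rw [← map_mul, IsLocalization.Away.mul_invSelf, map_one]
        rw [hTlalg] at h2
        rw [map_mul, hTlalg, hThmk, ← hP i, map_mul]
        have h3 : κ (Th b') = κ (j b) := by rw [hb', hThof]
        rw [h3] at h2
        rw [← mul_assoc, mul_comm (Tl _), h2, one_mul]
    exact h1 hu
  -- the numerator of `h`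
  obtain ⟨N, hN, m, r, r', hr, hrr⟩ : ∃ N : A[X], N ≠ 0 ∧ ∃ (m : ℕ) (r r' : AdjoinRoot f),
      κ h * κ (Th b') ^ m = κ (Th r) ∧ AdjoinRoot.of f N = r * r' := by
    obtain ⟨x, hx⟩ := hSsub h hh
    obtain ⟨m, r, hmr⟩ := IsLocalization.Away.surj b' x
    have h1 := congrArg Tl hmr
    rw [map_mul, hx, map_pow, hTlalg, hTlalg] at h1
    have h2 : r ≠ 0 := by
      rintro rfl
      rw [map_zero, map_zero, mul_eq_zero, map_eq_zero_iff _ hκinj] at h1
      rcases h1 with h1 | h1
      · exact hh0 h1
      · exact pow_ne_zero m hThb h1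
    obtain ⟨N, hN, r', hr'⟩ := cof r h2
    exact ⟨N, hN, m, r, r', h1, hr'⟩
  -- the constants
  obtain ⟨dm, hdm⟩ : ∃ dm : ℕ, ∀ i, (f.coeff i).natDegree ≤ dm := by
    refine ⟨(Finset.range (f.natDegree + 1)).sup fun i => (f.coeff i).natDegree, fun i => ?_⟩
    by_cases hi : i ∈ Finset.range (f.natDegree + 1)
    · exact Finset.le_sup (f := fun i => (f.coeff i).natDegree) hi
    · rw [coeff_eq_zero_of_natDegree_lt (by rw [Finset.mem_range] at hi; omega), natDegree_zero]
      exact Nat.zero_le _
  obtain ⟨W, hW⟩ : ∃ W : ℕ, W = Pool.Agent.R410.PW.WC f.natDegree dm w0.natDegree := ⟨_, rfl⟩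
  refine ⟨D1 * b.leadingCoeff * N.leadingCoeff * w0.leadingCoeff,
    mul_ne_zero (mul_ne_zero (mul_ne_zero hD1 (leadingCoeff_ne_zero.2 hb))
      (leadingCoeff_ne_zero.2 hN)) (leadingCoeff_ne_zero.2 hw0),
    16 * W ^ 2 + 4 * (f.natDegree * (b.natDegree + N.natDegree)) + 2 * f.natDegree, ?_⟩
  intro k _ _ _ φ hφ hq
  rw [map_mul, map_mul, map_mul, mul_ne_zero_iff, mul_ne_zero_iff, mul_ne_zero_iff] at hφ
  obtain ⟨⟨⟨hφ1, hφb⟩, hφN⟩, hφw⟩ := hφ
  have map_ne : ∀ p : A[X], φ p.leadingCoeff ≠ 0 → p.map φ ≠ 0 := by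
    intro p hp h0
    apply hp
    have := congrArg (fun q => q.coeff p.natDegree) h0
    simpa using this
  obtain ⟨fk, hfk⟩ : ∃ fk, fk = f.map (mapRingHom φ) := ⟨_, rfl⟩
  have hfkm : fk.Monic := by rw [hfk]; exact hf.map _
  have hfkd : fk.natDegree = f.natDegree := by rw [hfk]; exact hf.natDegree_map _
  obtain ⟨Z, hZ⟩ : ∃ Z : Finset k, Z = (b.map φ).roots.toFinset ∪ (N.map φ).roots.toFinset := ⟨_, rfl⟩
  have hZc : Z.card ≤ b.natDegree + N.natDegree := by
    rw [hZ]
    refine (Finset.card_union_le _ _).trans (add_le_add ?_ ?_)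
    · exact (Multiset.toFinset_card_le _).trans ((card_roots' _).trans natDegree_map_le)
    · exact (Multiset.toFinset_card_le _).trans ((card_roots' _).trans natDegree_map_le)
  have hcnt := count fk hfkm (by rw [hfkd]; exact hn) (u0.map (mapRingHom φ)) (v0.map (mapRingHom φ))
    (w0.map φ) (by
      have := congrArg (Polynomial.map (mapRingHom φ)) huv
      rw [Polynomial.map_add, Polynomial.map_mul, Polynomial.map_mul, map_C, coe_mapRingHom] at this
      rw [hfk, ← this, derivative_map]) (map_ne w0 hφw) w0.natDegree dm natDegree_map_le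
    (by
      intro i
      rw [hfk, coeff_map, coe_mapRingHom]
      exact natDegree_map_le.trans (hdm i))
    (by
      have h1 := hirr (AlgebraicClosure k) ((algebraMap k (AlgebraicClosure k)).comp φ) (by
        rw [RingHom.comp_apply, Ne, map_eq_zero_iff _ (algebraMap k (AlgebraicClosure k)).injective]
        exact hφ1)
      rw [hfk, Polynomial.map_map]
      convert h1 using 2
      rw [mapRingHom_comp]) Z
  rw [hfkd, ← hW] at hcnt
  refine ⟨Finset.univ.filter fun s : k => s ∉ Z ∧ ∃ y, evalEval s y fk = 0, ?_, ?_⟩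
  · -- the numbers
    obtain ⟨t, ht⟩ : ∃ t, t = (Finset.univ.filter fun s : k => s ∉ Z ∧ ∃ y, evalEval s y fk = 0).card :=
      ⟨_, rfl⟩
    rw [← ht] at hcnt ⊢
    obtain ⟨q, hqq⟩ : ∃ q, q = Fintype.card k := ⟨_, rfl⟩
    rw [← hqq] at hcnt hq ⊢
    have hs : √(q : ℝ) * √(q : ℝ) = q := Real.mul_self_sqrt (Nat.cast_nonneg _)
    have hs0 : 0 ≤ √(q : ℝ) := Real.sqrt_nonneg _
    have hq' : (16 * (W : ℝ) ^ 2 + 4 * (f.natDegree * (b.natDegree + N.natDegree)) + 2 * f.natDegree : ℝ) ≤ q := by
      exact_mod_cast hq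
    have hW1 : 4 * (W : ℝ) ≤ √(q : ℝ) := by
      apply Real.le_sqrt_of_sq_le
      have : (0 : ℝ) ≤ 4 * (f.natDegree * (b.natDegree + N.natDegree)) + 2 * f.natDegree := by positivity
      nlinarith
    have hW2 : 4 * ((W : ℝ) * √(q : ℝ)) ≤ q := by nlinarith
    have hZ2 : (f.natDegree : ℝ) * Z.card ≤ f.natDegree * (b.natDegree + N.natDegree) := by
      have : (Z.card : ℝ) ≤ b.natDegree + N.natDegree := by exact_mod_cast hZc
      exact mul_le_mul_of_nonneg_left this (Nat.cast_nonneg _)
    have h4 : 4 * ((f.natDegree : ℝ) * (b.natDegree + N.natDegree)) ≤ q := by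
      have : (0 : ℝ) ≤ 16 * (W : ℝ) ^ 2 + 2 * f.natDegree := by positivity
      linarith
    have h5 : (q : ℝ) ≤ 2 * f.natDegree * t := by nlinarith
    have h6 : q ≤ 2 * f.natDegree * t := by exact_mod_cast h5
    refine h6.trans (Nat.mul_le_mul_right _ ?_)
    omega
  · intro s hs
    rw [Finset.mem_filter] at hs
    obtain ⟨-, hsZ, y, hy⟩ := hs
    rw [hZ, Finset.mem_union, not_or, Multiset.mem_toFinset, Multiset.mem_toFinset,
      mem_roots (map_ne b hφb), mem_roots (map_ne N hφN), IsRoot.def, IsRoot.def] at hsZ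
    obtain ⟨hbs, hNs⟩ := hsZ
    let Ph : AdjoinRoot f →+* k := AdjoinRoot.lift (eval₂RingHom φ s) y (by
      rw [hfk, ← eval₂_evalRingHom, eval₂_map] at hy
      rw [← hy]
      congr 1
      refine ringHom_ext (fun a => ?_) ?_
      · simp
      · simp)
    have hPhof : ∀ p : A[X], Ph (AdjoinRoot.of f p) = (p.map φ).eval s := by
      intro p
      rw [eval_map]
      exact AdjoinRoot.lift_of _
    have hPhb : IsUnit (Ph b') := IsUnit.mk0 _ (by rw [hb', hPhof]; exact hbs)
    let Pl : Rl →+* k := IsLocalization.Away.lift b' hPhb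
    have hPlalg : ∀ x : AdjoinRoot f, Pl (algebraMap _ Rl x) = Ph x := fun x =>
      IsLocalization.Away.lift_eq b' hPhb x
    let rho : S →+* Tl.range := (κ.comp S.subtype).codRestrict Tl.range fun u => hSsub u.1 u.2
    let e : Rl ≃+* Tl.range := RingEquiv.ofBijective Tl.rangeRestrict
      ⟨fun x y hxy => hTlinj (congrArg Subtype.val hxy), Tl.rangeRestrict_surjective⟩
    have hkey : ∀ (g : S) (x : Rl), κ (g : PowerSeries (FractionRing A)) = Tl x →
        Pl (e.symm (rho g)) = Pl x := by
      intro g x hgx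
      congr 1
      rw [RingEquiv.symm_apply_eq]
      apply Subtype.ext
      exact hgx
    refine ⟨Pl.comp (e.symm.toRingHom.comp rho), ?_, ?_, ?_⟩
    · intro a g hg
      have h1 := hkey g (algebraMap _ Rl (AdjoinRoot.of f (C a))) (by
        rw [hTlalg, hThof, hjC, hg])
      have h2 : Pl (algebraMap _ Rl (AdjoinRoot.of f (C a))) = φ a := by
        rw [hPlalg, hPhof]
        simp
      exact h1.trans h2
    · intro g hg
      have h1 := hkey g (algebraMap _ Rl (AdjoinRoot.of f X)) (by
        rw [hTlalg, hThof, hjX, hg])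
      have h2 : Pl (algebraMap _ Rl (AdjoinRoot.of f X)) = s := by
        rw [hPlalg, hPhof]
        simp
      exact h1.trans h2
    · intro g hg h0
      obtain ⟨x, hx⟩ := hSsub h hh
      have h1 := hkey g x (by rw [hg, hx])
      have h2 : Pl x = 0 := by rw [← h1]; exact h0
      have h3 : x * (algebraMap _ Rl b') ^ m = algebraMap _ Rl r := by
        apply hTlinj
        rw [map_mul, map_pow, hx, hTlalg, hTlalg, hr]
      have h4 := congrArg Pl h3
      rw [map_mul, h2, zero_mul, hPlalg] at h4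
      have h5 := congrArg Ph hrr
      rw [map_mul, ← h4, zero_mul, hPhof] at h5
      exact hNs h5

end Pool.Agent.K9h85.AH
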