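import Pool.Agent.K9h85.AH.Stm3

/-!
# A derivation which vanishes on a transcendence basis vanishes (leaf D of project AH, helper44)
-/

set_option autoImplicit false

namespace Pool.Agent.K9h85.AH

open Polynomial in
theorem d_aux (B L : Type) [CommRing B] [IsDomain B] [Field L] [CharZero L] [Algebra B L]
    (hB : Function.Injective (algebraMap B L)) (D : Derivation B L L) (a : L)
    (p : B[X]) (hp : p ≠ 0) (hpa : aeval a p = 0)
    (hmin : ∀ r : B[X], r ≠ 0 → aeval a r = 0 → p.natDegree ≤ r.natDegree) : D a = 0 := by
  have h1 := D.map_aeval p a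
  rw [hpa, map_zero] at h1
  have hBz : CharZero B := by
    refine ⟨fun m n h => ?_⟩
    have h2 : ((m : B) : B) = (n : B) := h
    have h3 := congrArg (algebraMap B L) h2
    rw [map_natCast, map_natCast] at h3
    exact_mod_cast h3
  rw [smul_eq_mul] at h1
  rcases mul_eq_zero.1 h1.symm with h2 | h2
  · exfalso
    have hdeg : p.natDegree ≠ 0 := by
      intro h0
      rw [Polynomial.eq_C_of_natDegree_eq_zero h0, aeval_C] at hpa
      have h3 : p.coeff 0 = 0 := hB (by rw [hpa, map_zero])
      apply hp
      rw [Polynomial.eq_C_of_natDegree_eq_zero h0, h3, map_zero]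
    have hd : derivative p ≠ 0 := by
      intro h0
      exact hdeg (Polynomial.natDegree_eq_zero_of_derivative_eq_zero h0)
    have h3 := hmin _ hd h2
    have h4 := Polynomial.natDegree_derivative_lt hdeg
    omega
  · exact h2

theorem d : S_D := by
  intro A L _ _ _ _ _ ι x hinj hx D hD
  classical
  have halg := hx.isAlgebraic
  have hzero : ∀ b ∈ Algebra.adjoin A (Set.range x), D b = 0 := by
    intro b hb
    have h1 : Set.EqOn D (0 : Derivation A L L) (Set.range x) := by
      rintro _ ⟨i, rfl⟩
      simpa using hD i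
    have h2 := Derivation.eqOn_adjoin h1 hb
    simpa using h2
  let D' : Derivation (Algebra.adjoin A (Set.range x)) L L := Derivation.mk'
    { toFun := D
      map_add' := map_add D
      map_smul' := by
        intro b a
        have h1 : b • a = (b : L) * a := rfl
        have h2 : b • D a = (b : L) * D a := rfl
        rw [h1, RingHom.id_apply, h2, D.leibniz, hzero b b.2]
        simp }
    (by
      intro a b
      exact D.leibniz a b)
  have hD' : ∀ a, D' a = D a := fun _ => rfl
  ext a
  rw [Derivation.zero_apply, ← hD']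
  obtain ⟨p, hp, hpa⟩ := halg.isAlgebraic a
  have hex : ∃ n : ℕ, ∃ r : Polynomial (Algebra.adjoin A (Set.range x)),
      r ≠ 0 ∧ Polynomial.aeval a r = 0 ∧ r.natDegree = n := ⟨_, p, hp, hpa, rfl⟩
  obtain ⟨r, hr, hra, hrn⟩ := Nat.find_spec hex
  refine d_aux _ L ?_ D' a r hr hra ?_
  · exact Subtype.val_injective
  · intro s hs hsa
    rw [hrn]
    exact Nat.find_min' hex ⟨s, hs, hsa, rfl⟩

end Pool.Agent.K9h85.AH
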