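import Pool.Agent.K9h85.AH.Stm6

/-!
# Leaf DC: double counting for at most five edges
-/

set_option autoImplicit false

namespace Pool.Agent.K9h85.AH

open Finset

namespace DC_

/-- double counting of a subfamily of the union -/
theorem dcount {V : Type} [DecidableEq V] (S : Finset (Finset V)) (U : Finset V)
    (g : Finset V → Finset V) (hg : ∀ u ∈ S, g u ⊆ U) :
    ∑ v ∈ U, (S.filter fun u => v ∈ g u).card = ∑ u ∈ S, (g u).card := by
  simp only [card_filter]
  rw [sum_comm]
  refine sum_congr rfl fun u hu => ?_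
  rw [← card_filter, filter_mem_eq_inter, inter_eq_right.2 (hg u hu)]

end DC_

theorem dc : S_DC := by
  intro V _ r e S hr hS hr3 he3 he5 hU
  by_contra hcon
  push Not at hcon
  have hbig : ∀ u ∈ S, (r - 2) * (e - 1) + 4 ≤ ((S.erase u).biUnion id).card := by
    intro u hu
    have := hcon (S.erase u) (erase_subset u S) (by rw [card_erase_of_mem hu, hS])
    omega
  obtain ⟨U, hUdef⟩ : ∃ U, U = S.biUnion id := ⟨_, rfl⟩
  rw [← hUdef] at hU
  have hsub : ∀ u ∈ S, (S.erase u).biUnion id ⊆ U := by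
    intro u _
    rw [hUdef]
    exact biUnion_subset_biUnion_of_subset_left _ (erase_subset u S)
  have hsub' : ∀ u ∈ S, id u ⊆ U := by
    intro u hu
    rw [hUdef]
    exact subset_biUnion_of_mem id hu
  have h1 := DC_.dcount S U (fun u => (S.erase u).biUnion id) hsub
  have h2 := DC_.dcount S U id hsub'
  have h3 : ∑ u ∈ S, (id u : Finset V).card = e * r := by
    rw [sum_congr rfl fun u hu => show (id u : Finset V).card = r from hr u hu, sum_const, hS,
      smul_eq_mul]
  have h4 : e * ((r - 2) * (e - 1) + 4) ≤ ∑ u ∈ S, ((S.erase u).biUnion id).card := by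
    rw [← hS, ← smul_eq_mul, ← sum_const]
    rw [hS]
    exact sum_le_sum fun u hu => hbig u hu
  -- pointwise
  have h5 : ∀ v ∈ U, (S.filter fun u => v ∈ (S.erase u).biUnion id).card + 2 ≤
      e + (S.filter fun u => v ∈ id u).card := by
    intro v hv
    rw [hUdef, mem_biUnion] at hv
    obtain ⟨u₀, hu₀, hvu⟩ := hv
    have hmem : u₀ ∈ S.filter fun u => v ∈ id u := mem_filter.2 ⟨hu₀, hvu⟩
    have hpos : 0 < (S.filter fun u => v ∈ id u).card := card_pos.2 ⟨u₀, hmem⟩
    rcases Nat.lt_or_ge 1 (S.filter fun u => v ∈ id u).card with h | h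
    · have := card_filter_le S (fun u => v ∈ (S.erase u).biUnion id)
      omega
    · have hone : ∀ u ∈ S, v ∈ u → u = u₀ := by
        intro u hu hvu'
        exact card_le_one.1 h u (mem_filter.2 ⟨hu, hvu'⟩) u₀ hmem
      have hss : (S.filter fun u => v ∈ (S.erase u).biUnion id) ⊆ S.erase u₀ := by
        intro u hu
        rw [mem_filter, mem_biUnion] at hu
        obtain ⟨huS, u', hu', hvu'⟩ := hu
        rw [mem_erase] at hu'
        rw [mem_erase]
        refine ⟨?_, huS⟩
        rintro rfl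
        exact hu'.1 (hone u' hu'.2 hvu')
      have := card_le_card hss
      rw [card_erase_of_mem hu₀, hS] at this
      omega
  have h6 : ∑ v ∈ U, ((S.filter fun u => v ∈ (S.erase u).biUnion id).card + 2) ≤
      ∑ v ∈ U, (e + (S.filter fun u => v ∈ id u).card) := sum_le_sum h5
  rw [sum_add_distrib, sum_add_distrib, h1, h2, h3, sum_const, sum_const, smul_eq_mul,
    smul_eq_mul] at h6
  -- arithmetic
  obtain ⟨q, rfl⟩ : ∃ q, r = q + 2 := ⟨r - 2, by omega⟩
  simp only [Nat.add_sub_cancel] at h4 hU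
  have h7 : (U.card : ℤ) ≤ q * e + 3 := by exact_mod_cast hU
  have h8 : (e : ℤ) * (q * (e - 1) + 4) + U.card * 2 ≤ U.card * e + e * (q + 2) := by
    have h9 := (Nat.add_le_add_right h4 (U.card * 2)).trans h6
    have h10 : ((e - 1 : ℕ) : ℤ) = (e : ℤ) - 1 := by omega
    have h11 : ((e * (q * (e - 1) + 4) + U.card * 2 : ℕ) : ℤ) ≤
      ((U.card * e + e * (q + 2) : ℕ) : ℤ) := by exact_mod_cast h9
    push_cast [h10] at h11
    exact h11
  have h12 : ((e : ℤ) - 2) * U.card ≤ (e - 2) * (q * e + 3) :=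
    mul_le_mul_of_nonneg_left h7 (by omega)
  nlinarith

end Pool.Agent.K9h85.AH
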