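import Mathlib

/-!
# Hypergraphs defined by polynomial equations over finite fields: definitions (general version)
-/

set_option autoImplicit false

namespace Pool.Agent.K9h85.AH

/-- the number of vertices of a set `S` of points of `(k ^ m) ^ r`: the sum over the parts `p` of the
number of the values of the component `x (p, ·)` on `S` -/
def nv {r m : ℕ} {k : Type} [DecidableEq k] (S : Finset (Fin r × Fin m → k)) : ℕ :=
  ∑ p, (S.image fun x => fun c => x (p, c)).card

/-- the parts `0, 1, 2` -/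
def pa (n : ℕ) (i : Fin 3) : Fin (n + 3) := ⟨i.val, by omega⟩

/-- the coordinates of the first three parts except the `i`-th -/
def pr (n m : ℕ) (i : Fin 3) : Set (Fin (n + 3) × Fin m) := {v | v.1.val < 3 ∧ v.1.val ≠ i.val}

theorem mem_pr {n m : ℕ} {i : Fin 3} (v : Fin (n + 3) × Fin m) :
    v ∈ pr n m i ↔ ∃ j : Fin 3, j ≠ i ∧ ∃ c, v = (pa n j, c) := by
  constructor
  · rintro ⟨h1, h2⟩
    refine ⟨⟨v.1.val, h1⟩, fun h => h2 (congrArg Fin.val h), v.2, ?_⟩
    exact Prod.ext (Fin.ext rfl) rfl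
  · rintro ⟨j, hj, c, rfl⟩
    exact ⟨j.2, fun h => hj (Fin.ext h)⟩

theorem pa_mem {n m : ℕ} {i j : Fin 3} (h : j ≠ i) (c : Fin m) : (pa n j, c) ∈ pr n m i :=
  (mem_pr _).2 ⟨j, h, c, rfl⟩

theorem pa_inj {n : ℕ} {i j : Fin 3} (h : pa n i = pa n j) : i = j := by
  have h1 : (pa n i).val = (pa n j).val := congrArg Fin.val h
  exact Fin.ext h1

end Pool.Agent.K9h85.AH
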