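import Mathlib

/-!
# Hypergraphs definable over finite fields: definitions

The vertices are the pairs of a label in `Fin l` and a point of `k ^ m`.
-/

set_option autoImplicit false

namespace Pool.Agent.K9h85.AH

/-- the edge `{(λ 0, x 0), …, (λ (r - 1), x (r - 1))}`, where `x p` is the point
`(y (p, 0), …, y (p, m - 1))` of `k ^ m` -/
def edgeOf {r m s l : ℕ} {k : Type} [DecidableEq k] (lam : Fin r → Fin l)
    (y : (Fin r × Fin m) ⊕ Fin s → k) : Finset (Fin l × (Fin m → k)) :=
  Finset.univ.image fun p => (lam p, fun c => y (Sum.inl (p, c)))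

/-- The edges of the hypergraph given by the sets `G λ` of polynomials: all the sets of `r` vertices
`{(λ 0, x 0), …, (λ (r - 1), x (r - 1))}` such that there are `t 0, …, t (s - 1)` in `k` for which all the
polynomials of `G λ` vanish at `(x, t)`. -/
def Edges {r m s l : ℕ} {k : Type} [Field k] [DecidableEq k]
    (G : (Fin r → Fin l) → Set (MvPolynomial ((Fin r × Fin m) ⊕ Fin s) k)) :
    Set (Finset (Fin l × (Fin m → k))) :=
  {u | u.card = r ∧ ∃ (lam : Fin r → Fin l) (y : (Fin r × Fin m) ⊕ Fin s → k),
    (∀ f ∈ G lam, MvPolynomial.eval y f = 0) ∧ u = edgeOf lam y}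

end Pool.Agent.K9h85.AH
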