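import Pool.Agent.K9h85.AH.Def3
import Pool.Agent.K9h85.AH.G3

/-! The engine: ring homomorphisms to power series specialise to finite fields -/

set_option autoImplicit false

open MvPolynomial

namespace Pool.Agent.K9h85.AH

theorem exists_basis {A L V : Type} [CommRing A] [IsDomain A] [Field L] [Algebra A L] [Finite V]
    (x : V → L)
    (hgen : ∀ a : L, ∃ f g : MvPolynomial V A, aeval x g ≠ 0 ∧ a * aeval x g = aeval x f)
    (s0 : Set V) (h0 : AlgebraicIndependent A (fun v : s0 => x v)) :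
    ∃ s : Set V, s0 ⊆ s ∧ IsTranscendenceBasis A (fun v : s => x v) := by
  classical
  obtain ⟨s, hs⟩ : ∃ s : Set V, Maximal (fun s : Set V => s0 ⊆ s ∧ AlgebraicIndepOn A x s) s := by
    apply Set.Finite.exists_maximal
    · exact Set.toFinite _
    · exact ⟨s0, subset_rfl, h0⟩
  have hind : AlgebraicIndependent A (fun v : s => x v) := hs.1.2
  refine ⟨s, hs.1.1, ?_⟩
  rw [hind.isTranscendenceBasis_iff_isAlgebraic]
  rw [← Set.image_eq_range]
  have hxv : ∀ v, IsAlgebraic (Algebra.adjoin A (x '' s)) (x v) := by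
    intro v
    by_contra hcon
    have h1 : AlgebraicIndepOn A x (insert v s) := hs.1.2.insert hcon
    have h2 := hs.2 ⟨hs.1.1.trans (Set.subset_insert v s), h1⟩ (Set.subset_insert v s)
    have h3 : v ∈ s := h2 (Set.mem_insert v s)
    apply hcon
    exact isAlgebraic_algebraMap
      (⟨x v, Algebra.subset_adjoin ⟨v, h3, rfl⟩⟩ : Algebra.adjoin A (x '' s))
  have hf : ∀ f : MvPolynomial V A, IsAlgebraic (Algebra.adjoin A (x '' s)) (aeval x f) := by
    intro f
    induction f using MvPolynomial.induction_on with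
    | C a =>
      rw [aeval_C, IsScalarTower.algebraMap_apply A (Algebra.adjoin A (x '' s)) L]
      exact isAlgebraic_algebraMap _
    | add p q hp hq =>
      rw [map_add]
      exact hp.add hq
    | mul_X p v hp =>
      rw [map_mul, aeval_X]
      exact hp.mul (hxv v)
  constructor
  intro a
  obtain ⟨f, g, hg, hfg⟩ := hgen a
  have h1 : a = aeval x f * (aeval x g)⁻¹ := by
    rw [← hfg, mul_assoc, mul_inv_cancel₀ hg, mul_one]
  rw [h1]
  exact (hf f).mul (hf g).inv

theorem engine {A B : Type} [CommRing A] [CommRing B] [IsDomain B] [CharZero B] [Algebra A B]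
    {V : Type} [Finite V] (x : V → B) {ι : Type} [Finite ι]
    (σ : ι → (FractionRing B →+* PowerSeries (FractionRing B)))
    (hA : ∀ i (a : A), σ i (algebraMap A (FractionRing B) a) =
      PowerSeries.C (algebraMap A (FractionRing B) a))
    (halg : ∀ i a, IsAlgebraic (Polynomial (FractionRing B)) (σ i a))
    (pairs : Finset (ι × ι × V)) (hpairs : ∀ t ∈ pairs,
      σ t.1 (algebraMap B (FractionRing B) (x t.2.2)) ≠
        σ t.2.1 (algebraMap B (FractionRing B) (x t.2.2))) :
    ∃ D : B, D ≠ 0 ∧ ∃ C : ℕ, ∀ (k : Type) [Field k] [Fintype k] [DecidableEq k] (φ : B →+* k),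
      φ D ≠ 0 → C ≤ Fintype.card k → ∃ T : Finset k, Fintype.card k ≤ C * T.card ∧ ∀ s ∈ T, s ≠ 0 ∧
        ∃ y : ι → V → k,
          (∀ i, ∀ f : MvPolynomial V A, aeval x f = 0 → eval₂ (φ.comp (algebraMap A B)) (y i) f = 0) ∧
          (∀ t ∈ pairs, y t.1 t.2.2 ≠ y t.2.1 t.2.2) ∧
          (∀ i j v, σ i (algebraMap B (FractionRing B) (x v)) =
            σ j (algebraMap B (FractionRing B) (x v)) → y i v = y j v) ∧
          (∀ i v, σ i (algebraMap B (FractionRing B) (x v)) =
            PowerSeries.C (algebraMap B (FractionRing B) (x v)) → y i v = φ (x v)) ∧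
          (∀ i v, σ i (algebraMap B (FractionRing B) (x v)) =
            PowerSeries.C (algebraMap B (FractionRing B) (x v)) + PowerSeries.X →
              y i v = φ (x v) + s) := by
  classical
  set L := FractionRing B with hL
  set i0 : B →+* L := algebraMap B L with hi0
  set cA : B →+* PowerSeries L := (PowerSeries.C (R := L)).comp i0 with hcA
  obtain ⟨S, hS⟩ : ∃ S : Subring (PowerSeries L), S = Subring.closure
      (Set.range (fun a : B => PowerSeries.C (algebraMap B L a)) ∪ {PowerSeries.X} ∪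
        Set.range fun iv : ι × V => σ iv.1 (i0 (x iv.2))) := ⟨_, rfl⟩
  have hpS : ∀ (i : ι) v, σ i (i0 (x v)) ∈ S := by
    intro i v
    rw [hS]
    exact Subring.subset_closure (Or.inr ⟨(i, v), rfl⟩)
  have hXS : (PowerSeries.X : PowerSeries L) ∈ S := by
    rw [hS]
    exact Subring.subset_closure (Or.inl (Or.inr rfl))
  have hAS : ∀ a, cA a ∈ S := by
    intro a
    rw [hS]
    exact Subring.subset_closure (Or.inl (Or.inl ⟨a, rfl⟩))
  let iS : B →+* S := cA.codRestrict S hAS
  let ps : ι → V → S := fun i v => ⟨σ i (i0 (x v)), hpS i v⟩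
  have hzero : ∀ (i : ι) (f : MvPolynomial V A), aeval x f = 0 →
      eval₂ (iS.comp (algebraMap A B)) (ps i) f = 0 := by
    intro i f hf
    apply S.subtype_injective
    rw [map_zero, eval₂_comp_left]
    have h1 : eval₂ ((σ i).comp (i0.comp (algebraMap A B))) (fun v => σ i (i0 (x v))) f = 0 := by
      have h2 : σ i (i0 (aeval x f)) = 0 := by rw [hf, map_zero, map_zero]
      rw [aeval_def, eval₂_comp_left, eval₂_comp_left] at h2
      exact h2
    have h4 : S.subtype.comp (iS.comp (algebraMap A B)) =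
        (σ i).comp (i0.comp (algebraMap A B)) := by
      refine RingHom.ext fun a => ?_
      have h3 := hA i a
      rw [IsScalarTower.algebraMap_apply A B (FractionRing B)] at h3
      exact h3.symm
    rw [h4]
    exact h1
  -- the element `h`
  obtain ⟨hel, hhel⟩ : ∃ hel : S, hel = (⟨PowerSeries.X, hXS⟩ : S) *
      ∏ t ∈ pairs, (ps t.1 t.2.2 - ps t.2.1 t.2.2) := ⟨_, rfl⟩
  have hne : hel ≠ 0 := by
    rw [hhel]
    refine mul_ne_zero ?_ ?_
    · intro h1
      exact PowerSeries.X_ne_zero (congrArg Subtype.val h1)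
    · rw [Finset.prod_ne_zero_iff]
      intro t ht h1
      apply hpairs t ht
      have h3 := congrArg Subtype.val h1
      exact sub_eq_zero.1 h3
  obtain ⟨D, hD, C, hC⟩ := g B (ι × V) (fun iv => σ iv.1 (i0 (x iv.2)))
    (fun iv => halg iv.1 _) S hS hel.1 hel.2 (fun h1 => hne (Subtype.ext h1))
  refine ⟨D, hD, C, ?_⟩
  intro k _ _ _ φ hφ hq
  obtain ⟨T0, hT0, hψ⟩ := hC k φ hφ hq
  refine ⟨T0, hT0, fun s hs => ?_⟩
  obtain ⟨ψ, hψA, hψX, hψh⟩ := hψ s hs
  have hψi : ψ.comp iS = φ := RingHom.ext fun a => hψA a (iS a) rfl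
  have hψhel : ψ hel ≠ 0 := hψh hel rfl
  rw [hhel, map_mul, map_prod, mul_ne_zero_iff, Finset.prod_ne_zero_iff] at hψhel
  obtain ⟨hs0, hdif⟩ := hψhel
  rw [hψX ⟨PowerSeries.X, hXS⟩ rfl] at hs0
  refine ⟨hs0, fun i v => ψ (ps i v), ?_, ?_, ?_, ?_, ?_⟩
  · intro i f hf
    have h1 := hzero i f hf
    have h2 : ψ (eval₂ (iS.comp (algebraMap A B)) (ps i) f) = 0 := by rw [h1, map_zero]
    rw [eval₂_comp_left, ← RingHom.comp_assoc, hψi] at h2
    exact h2
  · intro t ht h1
    apply hdif t ht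
    rw [map_sub, sub_eq_zero]
    exact h1
  · intro i j v hij
    show ψ (ps i v) = ψ (ps j v)
    congr 1
    exact Subtype.ext hij
  · intro i v hi
    show ψ (ps i v) = _
    have h1 : ps i v = iS (x v) := Subtype.ext hi
    rw [h1, hψA _ (iS _) rfl]
  · intro i v hi
    show ψ (ps i v) = _
    have h1 : ps i v = iS (x v) + ⟨PowerSeries.X, hXS⟩ := Subtype.ext hi
    rw [h1, map_add, hψX ⟨PowerSeries.X, hXS⟩ rfl, hψA _ (iS _) rfl]

end Pool.Agent.K9h85.AH
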