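import Pool.Agent.K9h85.AH.Stm7

/-! The engine in characteristic `p` (leaf ENG3) -/

set_option autoImplicit false

open MvPolynomial

namespace Pool.Agent.K9h85.AH

theorem eng3 (hg : S_G3) : S_ENG3 := by
  classical
  intro p hpf A B B' _ _ _ _ _ _ _ _ i0 hi0 hrad P _ _ _ _ 𝔭 V _ x ι _ σ hA hGd pairs hpairs
  set N := FractionRing B' with hN
  set iN : B' →+* N := algebraMap B' N with hiN
  set cA : B' →+* PowerSeries N := (PowerSeries.C (R := N)).comp iN with hcA
  -- one exponent `J`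
  have hz : ∀ iv : ι × V, ∃ (j : ℕ) (f : PowerSeries N),
      (σ iv.1 (iN (i0 (x iv.2)))) ^ p ^ j = 𝔭.ι f ∧ IsAlgebraic (Polynomial N) f :=
    fun iv => hGd iv.1 _
  choose j0 f0 hf0 hf0' using hz
  have : Fintype (ι × V) := Fintype.ofFinite _
  obtain ⟨J, hJ⟩ : ∃ J : ℕ, ∀ iv, j0 iv ≤ J :=
    ⟨Finset.univ.sup j0, fun iv => Finset.le_sup (Finset.mem_univ iv)⟩
  obtain ⟨w, hw⟩ : ∃ w : ι × V → PowerSeries N, w = fun iv => f0 iv ^ p ^ (J - j0 iv) := ⟨_, rfl⟩
  have hwz : ∀ iv, 𝔭.ι (w iv) = (σ iv.1 (iN (i0 (x iv.2)))) ^ p ^ J := by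
    intro iv
    rw [hw]
    simp only
    rw [map_pow, ← hf0, ← pow_mul, ← pow_add, Nat.add_sub_cancel' (hJ iv)]
  have hwa : ∀ iv, IsAlgebraic (Polynomial N) (w iv) := by
    intro iv
    rw [hw]
    exact (hf0' iv).pow _
  obtain ⟨S, hS⟩ : ∃ S : Subring (PowerSeries N), S = Subring.closure
      (Set.range (fun a : B' => PowerSeries.C (algebraMap B' N a)) ∪ {PowerSeries.X} ∪
        Set.range w) := ⟨_, rfl⟩
  have hwS : ∀ iv, w iv ∈ S := by
    intro iv
    rw [hS]
    exact Subring.subset_closure (Or.inr ⟨iv, rfl⟩)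
  have hXS : (PowerSeries.X : PowerSeries N) ∈ S := by
    rw [hS]
    exact Subring.subset_closure (Or.inl (Or.inr rfl))
  have hAS : ∀ a, cA a ∈ S := by
    intro a
    rw [hS]
    exact Subring.subset_closure (Or.inl (Or.inl ⟨a, rfl⟩))
  let iS : B' →+* S := cA.codRestrict S hAS
  let ps : ι × V → S := fun iv => ⟨w iv, hwS iv⟩
  let θ : A →+* B' := (iterateFrobenius B' p J).comp (i0.comp (algebraMap A B))
  have hfrobP := iterateFrobenius_inj P p J
  have hzero : ∀ (i : ι) (f : MvPolynomial V A), aeval x f = 0 →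
      eval₂ (iS.comp θ) (fun v => ps (i, v)) f = 0 := by
    intro i f hf
    apply S.subtype_injective
    apply 𝔭.inj
    rw [map_zero, map_zero, eval₂_comp_left, eval₂_comp_left]
    have h1 : iterateFrobenius P p J (σ i (iN (i0 (aeval x f)))) = 0 := by
      rw [hf, map_zero, map_zero, map_zero, map_zero]
    rw [aeval_def, eval₂_comp_left, eval₂_comp_left, eval₂_comp_left, eval₂_comp_left] at h1
    have h2 : (𝔭.ι.comp (S.subtype.comp (iS.comp θ))) =
        (iterateFrobenius P p J).comp ((σ i).comp (iN.comp (i0.comp (algebraMap A B)))) := by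
      refine RingHom.ext fun a => ?_
      show 𝔭.ι (cA (θ a)) = iterateFrobenius P p J (σ i (iN (i0 (algebraMap A B a))))
      rw [hA i a]
      show 𝔭.ι (cA (iterateFrobenius B' p J (i0 (algebraMap A B a)))) = _
      rw [iterateFrobenius_def, iterateFrobenius_def, map_pow, map_pow]
      rfl
    have h3 : (⇑𝔭.ι ∘ ⇑S.subtype ∘ fun v => ps (i, v)) =
        ⇑(iterateFrobenius P p J) ∘ ⇑(σ i) ∘ ⇑iN ∘ ⇑i0 ∘ x := by
      funext v
      show 𝔭.ι (w (i, v)) = iterateFrobenius P p J (σ i (iN (i0 (x v))))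
      rw [iterateFrobenius_def, hwz]
    rw [h2]
    rw [h3]
    exact h1
  -- the element `h`
  obtain ⟨hel, hhel⟩ : ∃ hel : S, hel = (⟨PowerSeries.X, hXS⟩ : S) *
      ∏ t ∈ pairs, (ps t.1 - ps t.2) := ⟨_, rfl⟩
  have hne : hel ≠ 0 := by
    rw [hhel]
    refine mul_ne_zero ?_ ?_
    · intro h1
      exact PowerSeries.X_ne_zero (congrArg Subtype.val h1)
    · rw [Finset.prod_ne_zero_iff]
      intro t ht h1
      apply hpairs t ht
      have h3 : w t.1 = w t.2 := sub_eq_zero.1 (congrArg Subtype.val h1)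
      have h4 := congrArg 𝔭.ι h3
      rw [hwz, hwz] at h4
      apply hfrobP
      rw [iterateFrobenius_def, iterateFrobenius_def]
      exact h4
  obtain ⟨D', hD', C, hC⟩ := hg p B' (ι × V) w hwa S hS hel.1 hel.2
    (fun h1 => hne (Subtype.ext h1))
  obtain ⟨jD, D, hD⟩ := hrad D'
  refine ⟨D, ?_, C, ?_⟩
  · intro h
    rw [h, map_zero] at hD
    exact hD' ((pow_eq_zero_iff (pow_ne_zero _ hpf.out.ne_zero)).1 hD)
  intro k _ _ _ φ hφ hq
  have hpB : (p : B) = 0 := by
    apply hi0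
    rw [map_natCast, map_zero, CharP.cast_eq_zero]
  have hpk : (p : k) = 0 := by
    rw [← map_natCast φ, hpB, map_zero]
  have hck : CharP k p := by
    obtain ⟨q, hq2⟩ := CharP.exists k
    have h1 : q ∣ p := (CharP.cast_eq_zero_iff k q p).1 hpk
    have h2 : q = p := by
      rcases (Nat.dvd_prime hpf.out).1 h1 with h | h
      · exact absurd h (CharP.char_ne_one k q)
      · exact h
    rwa [h2] at hq2
  have hcB : CharP B p := by
    refine (RingHom.charP i0 hi0 p)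
  have hpr : IsPRadical i0 p :=
    ⟨fun b => by
      obtain ⟨j, c, h⟩ := hrad b
      exact ⟨j, c, h.symm⟩, by
      rw [(RingHom.injective_iff_ker_eq_bot i0).1 hi0]
      exact bot_le⟩
  obtain ⟨φ', hφ'⟩ : ∃ φ' : B' →+* k, ∀ b, φ' (i0 b) = φ b :=
    ⟨PerfectRing.lift i0 φ p, fun b => PerfectRing.lift_comp_apply i0 φ p b⟩
  have hφD : φ' D' ≠ 0 := by
    intro h
    apply hφ
    rw [← hφ', ← hD, map_pow, h, zero_pow (pow_ne_zero _ hpf.out.ne_zero)]
  have hfrobk := iterateFrobenius_inj k p J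
  obtain ⟨T0, hT0, hψ⟩ := hC k φ' hφD hq
  refine ⟨T0, hT0, fun s hs => ?_⟩
  obtain ⟨ψ, hψA, hψX, hψh⟩ := hψ s hs
  have hψi : ∀ a, ψ (iS a) = φ' a := fun a => hψA a (iS a) rfl
  have hψhel : ψ hel ≠ 0 := hψh hel rfl
  rw [hhel, map_mul, map_prod, mul_ne_zero_iff, Finset.prod_ne_zero_iff] at hψhel
  obtain ⟨hs0, hdif⟩ := hψhel
  rw [hψX ⟨PowerSeries.X, hXS⟩ rfl] at hs0
  obtain ⟨y, hy⟩ : ∃ y : ι → V → k, ∀ i v, iterateFrobenius k p J (y i v) = ψ (ps (i, v)) := by
    refine ⟨fun i v => (iterateFrobeniusEquiv k p J).symm (ψ (ps (i, v))), fun i v => ?_⟩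
    exact (iterateFrobeniusEquiv k p J).apply_symm_apply _
  refine ⟨hs0, y, ?_, ?_, ?_, ?_, ?_⟩
  · intro i f hf
    have h1 := hzero i f hf
    have h2 : ψ (eval₂ (iS.comp θ) (fun v => ps (i, v)) f) = 0 := by rw [h1, map_zero]
    apply hfrobk
    rw [map_zero, eval₂_comp_left]
    rw [eval₂_comp_left] at h2
    have h3 : ψ.comp (iS.comp θ) =
        (iterateFrobenius k p J).comp (φ.comp (algebraMap A B)) := by
      refine RingHom.ext fun a => ?_
      show ψ (iS (θ a)) = iterateFrobenius k p J (φ (algebraMap A B a))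
      rw [hψi]
      show φ' (iterateFrobenius B' p J (i0 (algebraMap A B a))) = _
      rw [iterateFrobenius_def, iterateFrobenius_def, map_pow, hφ']
    have h4 : (⇑ψ ∘ fun v => ps (i, v)) = ⇑(iterateFrobenius k p J) ∘ y i := by
      funext v
      exact (hy i v).symm
    rw [h3, h4] at h2
    exact h2
  · intro t ht h1
    apply hdif t ht
    rw [map_sub, sub_eq_zero]
    have h2 := congrArg (iterateFrobenius k p J) h1
    rwa [hy, hy] at h2
  · intro i j v hij
    apply hfrobk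
    rw [hy, hy]
    congr 1
    apply Subtype.ext
    apply 𝔭.inj
    show 𝔭.ι (w (i, v)) = 𝔭.ι (w (j, v))
    rw [hwz, hwz]
    exact congrArg (fun z => z ^ p ^ J) hij
  · intro i v hi
    apply hfrobk
    rw [hy]
    have h1 : ps (i, v) = (iS (i0 (x v))) ^ p ^ J := by
      apply Subtype.ext
      apply 𝔭.inj
      show 𝔭.ι (w (i, v)) = 𝔭.ι ((cA (i0 (x v))) ^ p ^ J)
      rw [hwz, map_pow]
      exact congrArg (fun z => z ^ p ^ J) hi
    rw [h1, map_pow, hψi, hφ', iterateFrobenius_def]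
  · intro i v hi
    apply hfrobk
    rw [hy]
    have h1 : ps (i, v) = (iS (i0 (x v)) + ⟨PowerSeries.X, hXS⟩) ^ p ^ J := by
      apply Subtype.ext
      apply 𝔭.inj
      show 𝔭.ι (w (i, v)) = 𝔭.ι ((cA (i0 (x v)) + PowerSeries.X) ^ p ^ J)
      rw [hwz, map_pow]
      exact congrArg (fun z => z ^ p ^ J) hi
    rw [h1, map_pow, map_add, hψi, hφ', hψX ⟨PowerSeries.X, hXS⟩ rfl, iterateFrobenius_def]

end Pool.Agent.K9h85.AH
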