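import Pool.Agent.K9h85.AH.Stm3

/-!
# Schwartz-Zippel for any finite index type (leaf SZ of project AH, helper44)
-/

set_option autoImplicit false

open MvPolynomial

namespace Pool.Agent.K9h85.AH

theorem sz : S_SZ := by
  intro k _ _ _ V _ _ f hf
  classical
  obtain ⟨n, ⟨e⟩⟩ : ∃ n : ℕ, Nonempty (V ≃ Fin n) := ⟨_, ⟨Fintype.equivFin V⟩⟩
  have hcard : Fintype.card V = n := by
    rw [Fintype.card_congr e, Fintype.card_fin]
  have hg : rename e f ≠ 0 := by
    intro h
    exact hf (rename_injective e e.injective (by rw [h, map_zero]))
  have hdeg : (rename e f).totalDegree ≤ f.totalDegree := totalDegree_rename_le _ _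
  have h := schwartz_zippel_totalDegree hg (Finset.univ : Finset k)
  have hq : 0 < Fintype.card k := Fintype.card_pos
  have hset : ((Fintype.piFinset fun _ : Fin n => (Finset.univ : Finset k)).filter
      fun x => eval x (rename e f) = 0).card =
      (Finset.univ.filter fun y : V → k => eval y f = 0).card := by
    symm
    apply Finset.card_bij (fun (y : V → k) _ => y ∘ e.symm)
    · intro y hy
      rw [Finset.mem_filter] at hy ⊢
      refine ⟨Fintype.mem_piFinset.2 fun _ => Finset.mem_univ _, ?_⟩
      rw [eval_rename]
      have : (y ∘ e.symm) ∘ e = y := by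
        funext v
        simp
      rw [this]
      exact hy.2
    · intro y _ z _ hyz
      funext v
      have := congrFun hyz (e v)
      simpa using this
    · intro x hx
      rw [Finset.mem_filter] at hx
      refine ⟨x ∘ e, ?_, ?_⟩
      · rw [Finset.mem_filter]
        refine ⟨Finset.mem_univ _, ?_⟩
        rw [← eval_rename]
        exact hx.2
      · funext i
        simp
  rw [hset, Finset.card_univ] at h
  have hqn : (0 : ℚ≥0) < (Fintype.card k : ℚ≥0) := by exact_mod_cast hq
  rw [div_le_div_iff₀ (by positivity) hqn] at h
  have h2 : (Finset.univ.filter fun y : V → k => eval y f = 0).card * Fintype.card k ≤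
      (rename e f).totalDegree * Fintype.card k ^ n := by
    exact_mod_cast h
  rw [hcard]
  exact h2.trans (Nat.mul_le_mul_right _ hdeg)

end Pool.Agent.K9h85.AH
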