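import Pool.Agent.K9h85.AH.Stm3

set_option autoImplicit false

/-!
# LEAF T: lifting the field generated by algebraically independent elements
-/

open MvPolynomial

namespace Pool.Agent.K9h85.AH

namespace T_

/-- quotients of algebraic power series -/
theorem alg_quot {L : Type} [Field L] (a u c : PowerSeries L) (hu : IsAlgebraic (Polynomial L) u)
    (hc : IsAlgebraic (Polynomial L) c) (h0 : PowerSeries.constantCoeff u ≠ 0) (h : a * u = c) :
    IsAlgebraic (Polynomial L) a := by
  have h1 : u * u⁻¹ = 1 := PowerSeries.mul_inv_cancel u h0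
  let _ : Invertible u := ⟨u⁻¹, by rw [mul_comm]; exact h1, h1⟩
  have h2 : a = c * ⅟u := by rw [← h, mul_assoc, mul_invOf_self, mul_one]
  rw [h2]
  exact hc.mul hu.invOf

/-- the polynomial ring -/
theorem alg_eval {A L : Type} [CommRing A] [Field L] [Algebra A L] {s : Type}
    (b : s → PowerSeries L) (hb : ∀ v, IsAlgebraic (Polynomial L) (b v)) (p : MvPolynomial s A) :
    IsAlgebraic (Polynomial L) (eval₂Hom ((PowerSeries.C (R := L)).comp (algebraMap A L)) b p) := by
  induction p using MvPolynomial.induction_on with
  | C a =>
    rw [coe_eval₂Hom, eval₂_C]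
    have h1 : ((PowerSeries.C (R := L)).comp (algebraMap A L)) a =
        algebraMap (Polynomial L) (PowerSeries L) (Polynomial.C (algebraMap A L a)) := by
      rw [RingHom.comp_apply, PowerSeries.algebraMap_apply', Polynomial.coe_C, PowerSeries.map_C]
      rfl
    rw [h1]
    exact isAlgebraic_algebraMap _
  | add p q hp hq => rw [map_add]; exact hp.add hq
  | mul_X p v hp =>
    rw [map_mul]
    refine hp.mul ?_
    rw [coe_eval₂Hom, eval₂_X]
    exact hb v

end T_

open T_

theorem t (hx : S_X) : S_T := by
  intro A L _ _ _ _ _ hinj V _ x hgen s hs b hb0 hbalg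
  set P := MvPolynomial s A with hP
  let φ : P →ₐ[A] L := aeval (fun v : s => x v)
  have hφ : Function.Injective φ := hs.1
  have hφC : ∀ a : A, φ (C a) = algebraMap A L a := fun a => aeval_C _ a
  have hφX : ∀ v : s, φ (X v) = x v := fun v => aeval_X _ v
  let M := FractionRing P
  have hφ' : Function.Injective (φ : P →+* L) := hφ
  let _ : Algebra P L := (φ : P →+* L).toAlgebra
  let _ : Algebra M L := (IsFractionRing.lift hφ' : M →+* L).toAlgebra
  have hML : ∀ p : P, algebraMap M L (algebraMap P M p) = φ p := fun p => IsFractionRing.lift_algebraMap hφ' p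
  have htow : IsScalarTower P M L := IsScalarTower.of_algebraMap_eq fun p => (hML p).symm
  -- the lift
  let ψ : P →+* PowerSeries L := eval₂Hom ((PowerSeries.C (R := L)).comp (algebraMap A L)) b
  have hψC : ∀ a : A, ψ (C a) = PowerSeries.C (algebraMap A L a) := fun a => eval₂Hom_C _ _ a
  have hψX : ∀ v : s, ψ (X v) = b v := fun v => eval₂Hom_X' _ _ v
  have hψφ : ∀ p : P, PowerSeries.constantCoeff (ψ p) = φ p := by
    have h1 : (PowerSeries.constantCoeff (R := L)).comp ψ = (φ : P →+* L) := by
      apply MvPolynomial.ringHom_ext
      · intro a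
        rw [RingHom.comp_apply, hψC, PowerSeries.constantCoeff_C]
        exact (hφC a).symm
      · intro v
        rw [RingHom.comp_apply, hψX, hb0]
        exact (hφX v).symm
    intro p
    exact congrArg (fun f : P →+* L => f p) h1
  have hψ0 : ∀ p : P, p ≠ 0 → PowerSeries.constantCoeff (ψ p) ≠ 0 := by
    intro p hp h
    rw [hψφ] at h
    exact hp (hφ (by rw [h, map_zero]))
  have hunit : ∀ y : nonZeroDivisors P, IsUnit (ψ y) := by
    intro y
    rw [PowerSeries.isUnit_iff_constantCoeff, isUnit_iff_ne_zero]
    exact hψ0 y (nonZeroDivisors.coe_ne_zero y)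
  let τ : M →+* PowerSeries L := IsLocalization.lift (M := nonZeroDivisors P) hunit
  have hτ : ∀ p : P, τ (algebraMap P M p) = ψ p := fun p => IsLocalization.lift_eq hunit p
  have hτc : ∀ a : M, PowerSeries.constantCoeff (τ a) = algebraMap M L a := by
    have h1 : (PowerSeries.constantCoeff (R := L)).comp τ = algebraMap M L := by
      apply IsLocalization.ringHom_ext (nonZeroDivisors P)
      ext p
      · simp only [RingHom.comp_apply, hτ, hψφ, hML]
      · simp only [RingHom.comp_apply, hτ, hψφ, hML]
    intro a
    exact congrArg (fun f : M →+* L => f a) h1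
  have hτa : ∀ a : M, IsAlgebraic (Polynomial L) (τ a) := by
    intro a
    obtain ⟨⟨p, q⟩, hpq⟩ := IsLocalization.surj (nonZeroDivisors P) a
    have h1 : τ a * ψ q = ψ p := by
      rw [← hτ, ← hτ, ← map_mul]
      exact congrArg τ hpq
    exact alg_quot (τ a) (ψ q) (ψ p) (alg_eval b hbalg _) (alg_eval b hbalg _)
      (hψ0 q (nonZeroDivisors.coe_ne_zero q)) h1
  -- finite dimension
  have halg : ∀ y : L, IsAlgebraic M y := by
    intro y
    have h1 := hs.isAlgebraic
    obtain ⟨p, hp0, hp⟩ := h1.isAlgebraic y
    let e := hs.1.aevalEquiv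
    let p' : Polynomial P := p.map (e.symm : _ →+* P)
    have hp' : p' ≠ 0 := by
      rw [Ne, Polynomial.map_eq_zero_iff e.symm.injective]
      exact hp0
    have hev : Polynomial.aeval y p' = 0 := by
      have h2 : (algebraMap P L).comp (e.symm : _ →+* P) = algebraMap (Algebra.adjoin A (Set.range fun v : s => x v)) L := by
        ext z
        obtain ⟨w, rfl⟩ := e.surjective z
        change φ (e.symm (e w)) = _
        rw [AlgEquiv.symm_apply_apply]
        exact (AlgebraicIndependent.algebraMap_aevalEquiv hs.1 w).symm
      rw [Polynomial.aeval_def, Polynomial.eval₂_map, h2]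
      exact hp
    refine ⟨p'.map (algebraMap P M), ?_, ?_⟩
    · rw [Ne, Polynomial.map_eq_zero_iff (IsFractionRing.injective P M)]
      exact hp'
    · rw [Polynomial.aeval_map_algebraMap]
      exact hev
  have hfin : FiniteDimensional M L := by
    have h1 : FiniteDimensional M (IntermediateField.adjoin M (Set.range x)) := by
      have : Finite (Set.range x) := Set.finite_range x
      exact IntermediateField.finiteDimensional_adjoin fun y _ => (halg y).isIntegral
    have h2 : IntermediateField.adjoin M (Set.range x) = ⊤ := by
      rw [eq_top_iff]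
      intro a _
      have hin : ∀ f : MvPolynomial V A, aeval x f ∈ IntermediateField.adjoin M (Set.range x) := by
        intro f
        induction f using MvPolynomial.induction_on with
        | C c =>
          rw [aeval_C]
          have h3 : algebraMap A L c = algebraMap M L (algebraMap P M (C c)) := by
            rw [hML, hφC]
          rw [h3]
          exact IntermediateField.algebraMap_mem _ _
        | add p q hp hq => rw [map_add]; exact add_mem hp hq
        | mul_X p v hp =>
          rw [map_mul, aeval_X]
          exact mul_mem hp (IntermediateField.subset_adjoin M _ (Set.mem_range_self v))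
      obtain ⟨f, g, hg, hfg⟩ := hgen a
      have h3 : a = aeval x f / aeval x g := by
        rw [eq_div_iff hg]; exact hfg
      rw [h3]
      exact div_mem (hin f) (hin g)
    rw [h2] at h1
    exact IntermediateField.topEquiv.toLinearEquiv.finiteDimensional
  obtain ⟨σ, hσ1, hσ2, hσ3⟩ := hx M L τ hτc hτa
  refine ⟨σ, fun a => ?_, hσ2, fun v => ?_, hσ3⟩
  · have h3 : algebraMap A L a = algebraMap M L (algebraMap P M (C a)) := by
      rw [hML, hφC]
    have h4 : σ (algebraMap A L a) = ψ (C a) := by rw [h3, hσ1, hτ]
    rw [h4, hψC]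
  · have h3 : x v = algebraMap M L (algebraMap P M (X v)) := by
      rw [hML, hφX]
    rw [h3, hσ1, hτ, hψX]

end Pool.Agent.K9h85.AH
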