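import Pool.Agent.K9h85.AH.Stm3

/-!
# Leaf UN of the project AH (helper32): the universal family of systems of polynomials
-/

set_option autoImplicit false

open MvPolynomial

namespace Pool.Agent.K9h85.AH.UNx

/-- exponents at most `d` -/
noncomputable def ex {V : Type} [Fintype V] {d : ℕ} (g : V → Fin (d + 1)) : V →₀ ℕ :=
  Finsupp.equivFunOnFinite.symm fun v => (g v : ℕ)

theorem expand {V : Type} [Fintype V] [DecidableEq V] {k : Type} [Field k] {d : ℕ} (f : MvPolynomial V k)
    (hf : f.totalDegree ≤ d) : f = ∑ g : V → Fin (d + 1), monomial (ex g) (coeff (ex g) f) := by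
  classical
  ext mon
  rw [coeff_sum]
  simp only [coeff_monomial]
  by_cases hmon : ∀ v, mon v ≤ d
  · rw [Finset.sum_eq_single (fun v => ⟨mon v, by have := hmon v; omega⟩)]
    · rw [if_pos]
      · congr 1
        ext v
        simp [ex]
      · ext v
        simp [ex]
    · intro g _ hg
      rw [if_neg]
      intro h2
      apply hg
      funext v
      apply Fin.ext
      have := DFunLike.congr_fun h2 v
      simpa [ex] using this
    · intro h
      exact absurd (Finset.mem_univ _) h
  · push Not at hmon
    obtain ⟨v, hv⟩ := hmon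
    rw [Finset.sum_eq_zero]
    · apply coeff_eq_zero_of_totalDegree_lt
      refine lt_of_le_of_lt hf (lt_of_lt_of_le hv ?_)
      by_cases hvs : v ∈ mon.support
      · exact Finset.single_le_sum (f := fun i => mon i) (fun i _ => Nat.zero_le _) hvs
      · rw [Finsupp.notMem_support_iff.1 hvs]
        exact Nat.zero_le _
    · intro g _
      rw [if_neg]
      intro h2
      have := DFunLike.congr_fun h2 v
      have h3 := (g v).2
      simp [ex] at this
      omega

/-- evaluation as a linear form of the coefficients -/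
noncomputable def E {V : Type} [Fintype V] [DecidableEq V] {k : Type} [Field k] (d : ℕ) (y : V → k) :
    ((V → Fin (d + 1)) → k) →ₗ[k] k where
  toFun w := ∑ g, w g * ∏ v, y v ^ (g v : ℕ)
  map_add' w w' := by
    simp only [Pi.add_apply, add_mul, Finset.sum_add_distrib]
  map_smul' c w := by
    simp only [Pi.smul_apply, smul_eq_mul, RingHom.id_apply, Finset.mul_sum, mul_assoc]

theorem eval_E {V : Type} [Fintype V] [DecidableEq V] {k : Type} [Field k] {d : ℕ} (f : MvPolynomial V k)
    (hf : f.totalDegree ≤ d) (y : V → k) : eval y f = E d y (fun g => coeff (ex g) f) := by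
  conv_lhs => rw [expand f hf]
  rw [map_sum]
  show _ = ∑ g, _
  refine Finset.sum_congr rfl fun g _ => ?_
  rw [eval_monomial]
  congr 1
  rw [Finsupp.prod_fintype _ _ (by intro i; simp)]
  rfl

theorem un0 : S_UN := by
  classical
  intro V _ _ d
  let ι := V → Fin (d + 1)
  let u : ι → MvPolynomial V (MvPolynomial (ι × ι) ℤ) := fun a =>
    ∑ g : ι, monomial (ex g) (X (a, g))
  refine ⟨MvPolynomial (ι × ι) ℤ, inferInstance, inferInstance, Ideal.span (Set.range u), ?_⟩
  intro k _ G hG
  let W : Submodule k (ι → k) := Submodule.span k ((fun f : MvPolynomial V k => fun g => coeff (ex g) f) '' G)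
  obtain ⟨p, hp⟩ := W.subtype.exists_leftInverse_of_injective (by simp)
  have hpw : ∀ w ∈ W, ((p w : W) : ι → k) = w := by
    intro w hw
    have h1 := LinearMap.congr_fun hp ⟨w, hw⟩
    have h2 : p w = ⟨w, hw⟩ := h1
    rw [h2]
  let φ : MvPolynomial (ι × ι) ℤ →+* k := eval₂Hom (Int.castRingHom k)
    (fun ag : ι × ι => (p (Pi.single ag.1 1) : ι → k) ag.2)
  refine ⟨φ, fun y => ?_⟩
  have h1 : ∀ a : ι, eval₂ φ y (u a) = E d y (p (Pi.single a 1) : ι → k) := by
    intro a
    show eval₂ φ y (∑ g : ι, monomial (ex g) (X (a, g))) = ∑ g, _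
    rw [eval₂_sum]
    refine Finset.sum_congr rfl fun g _ => ?_
    rw [eval₂_monomial, Finsupp.prod_fintype _ _ (by intro i; simp)]
    congr 1
    simp [φ]
  have h2 : (∀ f ∈ Ideal.span (Set.range u), eval₂ φ y f = 0) ↔ ∀ a, eval₂ φ y (u a) = 0 := by
    constructor
    · exact fun h a => h _ (Ideal.subset_span ⟨a, rfl⟩)
    · intro h f hf
      have h3 : Ideal.span (Set.range u) ≤ RingHom.ker (eval₂Hom φ y) := by
        rw [Ideal.span_le]
        rintro _ ⟨a, rfl⟩
        exact h a
      exact h3 hf
  have h3 : (∀ f ∈ G, eval y f = 0) ↔ ∀ w ∈ W, E d y w = 0 := by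
    constructor
    · intro h w hw
      have h4 : W ≤ LinearMap.ker (E d y) := by
        rw [Submodule.span_le]
        rintro _ ⟨f, hf, rfl⟩
        show E d y _ = 0
        rw [← eval_E f (hG f hf) y]
        exact h f hf
      exact h4 hw
    · intro h f hf
      rw [eval_E f (hG f hf) y]
      exact h _ (Submodule.subset_span ⟨f, hf, rfl⟩)
  rw [h2, h3]
  constructor
  · intro h w hw
    have h5 : w = ∑ a : ι, w a • ((p (Pi.single a 1) : W) : ι → k) := by
      have h6 : w = ∑ a : ι, w a • (Pi.single a (1 : k) : ι → k) := by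
        funext b
        rw [Finset.sum_apply]
        refine Eq.symm ((Finset.sum_eq_single b (fun x _ hx => ?_) (by simp)).trans ?_)
        · simp [Ne.symm hx]
        · simp
      conv_lhs => rw [← hpw w hw, h6]
      rw [map_sum]
      simp only [map_smul, Submodule.coe_sum, Submodule.coe_smul]
    rw [h5, map_sum]
    refine Finset.sum_eq_zero fun a _ => ?_
    rw [map_smul, ← h1 a, h a, smul_zero]
  · intro h a
    rw [h1 a]
    exact h _ (p (Pi.single a 1)).2

end Pool.Agent.K9h85.AH.UNx

namespace Pool.Agent.K9h85.AH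

theorem un : S_UN := UNx.un0

end Pool.Agent.K9h85.AH
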