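import Pool.Agent.K9h85.AH.Stm3

/-!
# Leaf X of the project AH (helper32): extension of a lift to a finite extension
-/

set_option autoImplicit false

open Polynomial

namespace Pool.Agent.K9h85.AH

theorem x : S_X := by
  intro M L _ _ _ _ _ τ hτ hal
  have hchar : CharZero M := (algebraMap M L).charZero_iff (algebraMap M L).injective |>.mpr inferInstance
  let pb := Field.powerBasisOfFiniteOfSeparable M L
  have hint : IsIntegral M pb.gen := Algebra.IsIntegral.isIntegral _
  have hgm : (minpoly M pb.gen).Monic := minpoly.monic hint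
  have hsep : (minpoly M pb.gen).Separable := Algebra.IsSeparable.isSeparable M pb.gen
  have hcc : (PowerSeries.constantCoeff (R := L)).comp τ = algebraMap M L := RingHom.ext hτ
  have hev : ∀ (h : M[X]) (b : PowerSeries L), PowerSeries.constantCoeff ((h.map τ).eval b) =
      aeval (PowerSeries.constantCoeff b) h := by
    intro h b
    rw [eval_map, hom_eval₂, hcc]
    rfl
  -- Hensel
  have hH : HenselianRing (PowerSeries L) (Ideal.span {(PowerSeries.X : PowerSeries L)}) :=
    IsAdicComplete.henselianRing _ _
  obtain ⟨Θ, hroot, hΘ⟩ := hH.is_henselian ((minpoly M pb.gen).map τ) (hgm.map τ)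
    (PowerSeries.C pb.gen) (by
      rw [Ideal.mem_span_singleton, PowerSeries.X_dvd_iff, hev, PowerSeries.constantCoeff_C]
      exact minpoly.aeval M pb.gen) (by
      refine IsUnit.map _ ?_
      rw [PowerSeries.isUnit_iff_constantCoeff, derivative_map, hev, PowerSeries.constantCoeff_C]
      exact (hsep.aeval_derivative_ne_zero (minpoly.aeval M pb.gen)).isUnit)
  have hΘc : PowerSeries.constantCoeff Θ = pb.gen := by
    rw [Ideal.mem_span_singleton, PowerSeries.X_dvd_iff, map_sub, PowerSeries.constantCoeff_C,
      sub_eq_zero] at hΘ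
    exact hΘ
  letI : Algebra M (PowerSeries L) := τ.toAlgebra
  have hΘr : aeval Θ (minpoly M pb.gen) = 0 := by
    rw [IsRoot.def, eval_map] at hroot
    exact hroot
  let σ : L →ₐ[M] PowerSeries L := pb.lift Θ hΘr
  have hσ1 : ∀ a : M, σ (algebraMap M L a) = τ a := fun a => σ.commutes a
  have hσg : σ pb.gen = Θ := pb.lift_gen Θ hΘr
  have hσc : ∀ a : L, PowerSeries.constantCoeff (σ a) = a := by
    let φ : L →ₐ[M] L :=
      { toRingHom := (PowerSeries.constantCoeff (R := L)).comp (σ : L →+* PowerSeries L)
        commutes' := fun a => by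
          show PowerSeries.constantCoeff (σ (algebraMap M L a)) = algebraMap M L a
          rw [hσ1, hτ] }
    have h1 : φ = AlgHom.id M L := by
      apply pb.algHom_ext
      show PowerSeries.constantCoeff (σ pb.gen) = pb.gen
      rw [hσg, hΘc]
    intro a
    exact congrArg (fun f : L →ₐ[M] L => f a) h1
  refine ⟨(σ : L →+* PowerSeries L), hσ1, hσc, ?_⟩
  intro a
  -- algebraicity
  let B := Subalgebra.algebraicClosure (Polynomial L) (PowerSeries L)
  have hB : ∀ m : M, τ m ∈ B := fun m => hal m
  let τB : M →+* B := τ.codRestrict B hB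
  have hia : IsIntegral M a := Algebra.IsIntegral.isIntegral a
  have h2 : IsIntegral B (σ a) := by
    refine ⟨(minpoly M a).map τB, (minpoly.monic hia).map _, ?_⟩
    rw [eval₂_map]
    have h3 : (algebraMap B (PowerSeries L)).comp τB = τ := by
      ext1 m
      rfl
    rw [h3]
    have h4 : aeval (σ a) (minpoly M a) = 0 := by
      rw [aeval_algHom_apply, minpoly.aeval, map_zero]
    exact h4
  exact IsAlgebraic.restrictScalars (Polynomial L) h2.isAlgebraic

end Pool.Agent.K9h85.AH
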