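import Pool.Agent.K9h85.AH.Stm7
import Pool.Agent.K9h85.AH.G1
import Pool.Agent.K9h85.AH.G3

/-! Leaf G3P: specialisation of algebraic power series to finite fields, perfect domains of characteristic `p` -/

set_option autoImplicit false

open Polynomial

namespace Pool.Agent.K9h85.AH.G3P_

open Pool.Agent.K9h85.AH

section gen

variable {R Om : Type} [CommRing R] [IsDomain R] [Field Om] [Algebra R Om] [FaithfulSMul R Om]

/-- primitive element, with cleared denominators -/
theorem prim_elt {ι : Type} [Finite ι] (w : ι → Om)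
    (hw : ∀ i, ∃ F : R[X], aeval (w i) F = 0 ∧ aeval (w i) (derivative F) ≠ 0) :
    ∃ θ : Om, IsAlgebraic R θ ∧ (∀ i, ∃ b : R, b ≠ 0 ∧ ∃ P : R[X],
      algebraMap R Om b * w i = aeval θ P) ∧
      ∀ c : R, ∃ G : R[X], aeval (algebraMap R Om c * θ) G = 0 ∧
        aeval (algebraMap R Om c * θ) (derivative G) ≠ 0 := by
  let _ : Algebra (FractionRing R) Om := FractionRing.liftAlgebra R Om
  have _ : IsScalarTower R (FractionRing R) Om := FractionRing.isScalarTower_liftAlgebra R Om
  have hw0 : ∀ i, IsAlgebraic R (w i) := by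
    intro i
    obtain ⟨F, h1, h2⟩ := hw i
    refine ⟨F, ?_, h1⟩
    rintro rfl
    simp at h2
  have hw' : ∀ i, IsAlgebraic (FractionRing R) (w i) := fun i =>
    (IsFractionRing.isAlgebraic_iff R (FractionRing R) Om).1 (hw0 i)
  have hsep : ∀ i, IsSeparable (FractionRing R) (w i) := by
    intro i
    obtain ⟨F, h1, h2⟩ := hw i
    have hirr := minpoly.irreducible (hw' i).isIntegral
    refine (separable_iff_derivative_ne_zero hirr).2 fun h0 => ?_
    have h3 : aeval (w i) (F.map (algebraMap R (FractionRing R))) = 0 := by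
      rw [aeval_map_algebraMap, h1]
    obtain ⟨q, hq⟩ := minpoly.dvd (FractionRing R) (w i) h3
    apply h2
    rw [← aeval_map_algebraMap (FractionRing R), ← derivative_map, hq, derivative_mul, h0, zero_mul,
      zero_add, map_mul, minpoly.aeval, zero_mul]
  set E := IntermediateField.adjoin (FractionRing R) (Set.range w) with hE
  have _ : FiniteDimensional (FractionRing R) E :=
    IntermediateField.finiteDimensional_adjoin (by
      rintro _ ⟨i, rfl⟩
      exact (hw' i).isIntegral)
  have _ : Algebra.IsSeparable (FractionRing R) E := by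
    rw [hE, IntermediateField.isSeparable_adjoin_iff_isSeparable]
    rintro _ ⟨i, rfl⟩
    exact hsep i
  have hint : ∀ (y : Om) (p : (FractionRing R)[X]), ∃ b : R, b ≠ 0 ∧ ∃ G : R[X],
      aeval y G = algebraMap R Om b * aeval y p ∧
      aeval y (derivative G) = algebraMap R Om b * aeval y (derivative p) := by
    intro y p
    obtain ⟨b, hb⟩ := IsLocalization.integerNormalization_map_to_map (nonZeroDivisors R) p
    refine ⟨b, nonZeroDivisors.coe_ne_zero b, IsLocalization.integerNormalization (nonZeroDivisors R) p, ?_, ?_⟩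
    · rw [← aeval_map_algebraMap (FractionRing R), hb, ← algebraMap_smul (FractionRing R) (b : R) p,
        map_smul, Algebra.smul_def, ← IsScalarTower.algebraMap_apply]
    · rw [← aeval_map_algebraMap (FractionRing R), ← derivative_map, hb,
        ← algebraMap_smul (FractionRing R) (b : R) p, derivative_smul,
        map_smul, Algebra.smul_def, ← IsScalarTower.algebraMap_apply]
  set pb := Field.powerBasisOfFiniteOfSeparable (FractionRing R) E with hpb
  have hinj : Function.Injective (algebraMap R Om) := FaithfulSMul.algebraMap_injective R Om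
  refine ⟨(pb.gen : Om), ?_, fun i => ?_, fun c => ?_⟩
  · rw [IsFractionRing.isAlgebraic_iff R (FractionRing R) Om]
    have h1 : IsAlgebraic (FractionRing R) pb.gen := Algebra.IsAlgebraic.isAlgebraic _
    exact (isAlgebraic_algebraMap_iff (A := Om) (algebraMap E Om).injective).2 h1
  · have hi : w i ∈ E := IntermediateField.subset_adjoin _ _ ⟨i, rfl⟩
    obtain ⟨p, hp⟩ := pb.exists_eq_aeval' (⟨w i, hi⟩ : E)
    obtain ⟨b, hb, G, hG, -⟩ := hint (pb.gen : Om) p
    refine ⟨b, hb, G, ?_⟩
    have h2 : w i = aeval (pb.gen : Om) p := by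
      have h3 := congrArg (algebraMap E Om) hp
      rw [← aeval_algebraMap_apply] at h3
      exact h3
    rw [hG, ← h2]
  · obtain ⟨y, hy⟩ : ∃ y : E, algebraMap E Om y = algebraMap R Om c * (pb.gen : Om) := by
      refine ⟨algebraMap (FractionRing R) E (algebraMap R (FractionRing R) c) * pb.gen, ?_⟩
      rw [map_mul, ← IsScalarTower.algebraMap_apply (FractionRing R) E Om,
        ← IsScalarTower.algebraMap_apply R (FractionRing R) Om]
      rfl
    have hs : (minpoly (FractionRing R) y).Separable := Algebra.IsSeparable.isSeparable _ y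
    obtain ⟨b, hb, G, hG1, hG2⟩ := hint (algebraMap E Om y) (minpoly (FractionRing R) y)
    rw [← hy]
    refine ⟨G, ?_, ?_⟩
    · rw [hG1, aeval_algebraMap_apply, minpoly.aeval, map_zero, mul_zero]
    · rw [hG2, aeval_algebraMap_apply]
      refine mul_ne_zero ?_ ?_
      · rw [Ne, map_eq_zero_iff _ hinj]
        exact hb
      · rw [Ne, map_eq_zero_iff _ (algebraMap E Om).injective]
        exact hs.aeval_derivative_ne_zero (minpoly.aeval _ _)

/-- a multiple with a monic minimal polynomial -/
theorem monic_mult (θ : Om) (hθ : IsAlgebraic R θ) :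
    ∃ b : R, b ≠ 0 ∧ ∃ f : R[X], f.Monic ∧ 0 < f.natDegree ∧
      aeval (algebraMap R Om b * θ) f = 0 ∧
      ∀ g : R[X], g ≠ 0 → aeval (algebraMap R Om b * θ) g = 0 → f.natDegree ≤ g.natDegree := by
  classical
  have hex : ∃ n, ∃ g : R[X], g ≠ 0 ∧ aeval θ g = 0 ∧ g.natDegree = n := by
    obtain ⟨g, hg, h0⟩ := hθ
    exact ⟨_, g, hg, h0, rfl⟩
  obtain ⟨g, hg, hg0, hgn⟩ := Nat.find_spec hex
  have hmin : ∀ g' : R[X], g' ≠ 0 → aeval θ g' = 0 → g.natDegree ≤ g'.natDegree := by
    intro g' h1 h2
    rw [hgn]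
    exact Nat.find_min' hex ⟨g', h1, h2, rfl⟩
  have hinj : Function.Injective (algebraMap R Om) := FaithfulSMul.algebraMap_injective R Om
  have hlc : g.leadingCoeff ≠ 0 := leadingCoeff_ne_zero.2 hg
  refine ⟨g.leadingCoeff, hlc, integralNormalization g, monic_integralNormalization hg, ?_, ?_, ?_⟩
  · rw [natDegree_integralNormalization]
    by_contra hcon
    have h1 : g.natDegree = 0 := by omega
    rw [eq_C_of_natDegree_eq_zero h1, aeval_C] at hg0
    have h2 : g.coeff 0 = 0 := hinj (by rw [hg0, map_zero])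
    apply hg
    rw [eq_C_of_natDegree_eq_zero h1, h2, C_0]
  · have := integralNormalization_aeval_eq_zero hg0 (fun x hx => hinj (by rw [hx, map_zero]))
    exact this
  · intro g' h1 h2
    rw [natDegree_integralNormalization]
    have h3 : (g'.comp (C g.leadingCoeff * X)).natDegree = g'.natDegree := by
      rw [natDegree_comp, natDegree_C_mul_X _ hlc, mul_one]
    rw [← h3]
    refine hmin _ ?_ ?_
    · intro h4
      rw [comp_C_mul_X_eq_zero_iff] at h4
      · exact h1 h4
      · exact mem_nonZeroDivisors_of_ne_zero hlc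
    · rw [aeval_comp]
      simpa using h2

end gen

section ps

variable {A : Type} [CommRing A] [IsDomain A]

theorem alg_inj {K : Type} [Field K] [Algebra A K] [IsFractionRing A K] :
    Function.Injective (algebraMap A[X] (PowerSeries K)) := by
  intro p q h
  rw [PowerSeries.algebraMap_apply', PowerSeries.algebraMap_apply'] at h
  ext n
  have := congrArg (PowerSeries.coeff n) h
  simpa using IsFractionRing.injective A K (by simpa using this)

/-- **Primitive element for algebraic power series.** -/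
theorem pe (K : Type) [Field K] [Algebra A K] [IsFractionRing A K] {ι : Type} [Finite ι]
    (w : ι → PowerSeries K)
    (hw : ∀ i, ∃ F : A[X][X], aeval (w i) F = 0 ∧ aeval (w i) (derivative F) ≠ 0) :
    ∃ θ : PowerSeries K, ∃ f : A[X][X], f.Monic ∧ 0 < f.natDegree ∧
      aeval θ f = 0 ∧ (∀ g : A[X][X], g ≠ 0 → aeval θ g = 0 → f.natDegree ≤ g.natDegree) ∧
      (∃ G : A[X][X], aeval θ G = 0 ∧ aeval θ (derivative G) ≠ 0) ∧
      ∃ b : A[X], b ≠ 0 ∧ ∀ i, ∃ P : A[X][X],
        algebraMap A[X] (PowerSeries K) b * w i = aeval θ P := by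
  classical
  cases nonempty_fintype ι
  have _ : FaithfulSMul A[X] (PowerSeries K) := (faithfulSMul_iff_algebraMap_injective _ _).2 alg_inj
  set Om := FractionRing (PowerSeries K) with hOm
  have hinj : Function.Injective (algebraMap (PowerSeries K) Om) := IsFractionRing.injective _ _
  have _ : FaithfulSMul A[X] Om := by
    rw [faithfulSMul_iff_algebraMap_injective, IsScalarTower.algebraMap_eq A[X] (PowerSeries K) Om]
    exact hinj.comp alg_inj
  have haev0 : ∀ (u : PowerSeries K) (g : A[X][X]), aeval (algebraMap (PowerSeries K) Om u) g =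
      algebraMap (PowerSeries K) Om (aeval u g) := fun u g => aeval_algebraMap_apply _ _ _
  obtain ⟨θ0, hθ0, hP0, hsep0⟩ := prim_elt (R := A[X]) (fun i => algebraMap (PowerSeries K) Om (w i))
    (fun i => by
      obtain ⟨F, h1, h2⟩ := hw i
      refine ⟨F, ?_, ?_⟩
      · rw [haev0, h1, map_zero]
      · rw [haev0, Ne, map_eq_zero_iff _ hinj]
        exact h2)
  -- a multiple which is a power series
  obtain ⟨N, θ1, hθ1⟩ : ∃ (N : ℕ) (θ1 : PowerSeries K),
      algebraMap A[X] Om (X ^ N) * θ0 = algebraMap (PowerSeries K) Om θ1 := by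
    obtain ⟨u, v, hv, huv⟩ := IsFractionRing.div_surjective (A := PowerSeries K) θ0
    have hv0 : v ≠ 0 := nonZeroDivisors.ne_zero hv
    obtain ⟨N, c, hc⟩ : ∃ (N : ℕ) (c : (PowerSeries K)ˣ), v = PowerSeries.X ^ N * (c : PowerSeries K) := by
      refine ⟨v.order.toNat, PowerSeries.Unit_of_divided_by_X_pow_order v, ?_⟩
      rw [PowerSeries.Unit_of_divided_by_X_pow_order_nonzero hv0]
      exact (PowerSeries.X_pow_order_mul_divXPowOrder).symm
    refine ⟨N, u * ((c⁻¹ : (PowerSeries K)ˣ) : PowerSeries K), ?_⟩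
    rw [← huv, IsScalarTower.algebraMap_apply A[X] (PowerSeries K) Om]
    have h1 : algebraMap (PowerSeries K) Om v ≠ 0 := by
      rw [Ne, map_eq_zero_iff _ hinj]
      exact hv0
    have h2 : algebraMap A[X] (PowerSeries K) (X ^ N) = PowerSeries.X ^ N := by
      rw [PowerSeries.algebraMap_apply']
      simp
    rw [h2]
    rw [← mul_div_assoc, div_eq_iff h1, ← map_mul, ← map_mul]
    congr 1
    rw [hc]
    have h3 : (c : PowerSeries K) * ((c⁻¹ : (PowerSeries K)ˣ) : PowerSeries K) = 1 := Units.mul_inv c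
    linear_combination (PowerSeries.X ^ N * u) * (-1) * h3
  have hXN : (X ^ N : A[X]) ≠ 0 := pow_ne_zero _ X_ne_zero
  have hθ1a : IsAlgebraic A[X] (algebraMap (PowerSeries K) Om θ1) := by
    rw [← hθ1]
    exact (isAlgebraic_algebraMap _).mul hθ0
  obtain ⟨b, hb, f, hf, hfd, hfr, hfm⟩ := monic_mult _ hθ1a
  set θ : PowerSeries K := algebraMap A[X] (PowerSeries K) b * θ1 with hθ
  have hθΩ : algebraMap A[X] Om b * algebraMap (PowerSeries K) Om θ1 = algebraMap (PowerSeries K) Om θ := by
    rw [hθ, map_mul, ← IsScalarTower.algebraMap_apply]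
  have haev : ∀ g : A[X][X], aeval (algebraMap (PowerSeries K) Om θ) g =
      algebraMap (PowerSeries K) Om (aeval θ g) := fun g => aeval_algebraMap_apply _ _ _
  rw [hθΩ] at hfr hfm
  -- `θ = c θ0`
  have hc : algebraMap (PowerSeries K) Om θ = algebraMap A[X] Om (b * X ^ N) * θ0 := by
    rw [← hθΩ, ← hθ1, map_mul, mul_assoc]
  have hcc : ∀ i, ∃ b' : A[X], b' ≠ 0 ∧ ∃ P : A[X][X],
      algebraMap A[X] (PowerSeries K) b' * w i = aeval θ P := by
    intro i
    obtain ⟨b0, hb0, P, hP⟩ := hP0 i
    refine ⟨(b * X ^ N) ^ P.natDegree * b0, mul_ne_zero (pow_ne_zero _ (mul_ne_zero hb hXN)) hb0,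
      P.scaleRoots (b * X ^ N), ?_⟩
    apply hinj
    rw [← haev, hc, aeval_def, scaleRoots_eval₂_mul, ← aeval_def, ← hP, map_mul,
      ← IsScalarTower.algebraMap_apply, map_mul, map_pow, mul_assoc]
  choose bb hbb PP hPP using hcc
  refine ⟨θ, f, hf, hfd, ?_, ?_, ?_, ∏ i, bb i, Finset.prod_ne_zero_iff.2 fun i _ => hbb i, ?_⟩
  · apply hinj
    rw [← haev, hfr, map_zero]
  · intro g hg h0
    refine hfm g hg ?_
    rw [haev, h0, map_zero]
  · obtain ⟨G, hG1, hG2⟩ := hsep0 (b * X ^ N)
    rw [← hc, haev] at hG1 hG2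
    refine ⟨G, hinj (by rw [hG1, map_zero]), fun h0 => hG2 (by rw [h0, map_zero])⟩
  · intro i
    refine ⟨C (∏ j ∈ Finset.univ.erase i, bb j) * PP i, ?_⟩
    rw [map_mul, aeval_C, ← hPP i, ← mul_assoc, ← map_mul,
      ← Finset.mul_prod_erase _ bb (Finset.mem_univ i)]
    congr 2
    ring

/-- a simple root over `K[X]` is a simple root over `A[X]` -/
theorem simple_root (K : Type) [Field K] [Algebra A K] [IsFractionRing A K] (u : PowerSeries K)
    (hu : ∃ F : K[X][X], aeval u F = 0 ∧ aeval u (derivative F) ≠ 0) :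
    ∃ F : A[X][X], aeval u F = 0 ∧ aeval u (derivative F) ≠ 0 := by
  obtain ⟨P, hP0, hP⟩ := hu
  obtain ⟨b, hb, P', hP'⟩ := clear_den (A := A) K P
  have hb0 : algebraMap A K b ≠ 0 := by
    rw [Ne, map_eq_zero_iff _ (IsFractionRing.injective A K)]
    exact hb
  have hev : ∀ q : A[X][X], aeval u (q.map (mapRingHom (algebraMap A K))) = aeval u q := by
    intro q
    rw [aeval_def, aeval_def, eval₂_map]
    congr 1
    refine RingHom.ext fun p => ?_
    simp only [RingHom.comp_apply, PowerSeries.algebraMap_apply']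
    ext n
    simp
  refine ⟨P', ?_, ?_⟩
  · rw [← hev, hP', map_mul, hP0, mul_zero]
  · rw [← hev, ← derivative_map, hP', derivative_C_mul, map_mul, aeval_C]
    refine mul_ne_zero ?_ hP
    rw [PowerSeries.algebraMap_apply']
    simpa using hb0

/-- the fraction field of a perfect domain is perfect -/
theorem perfect_frac (p : ℕ) [Fact p.Prime] (B : Type) [CommRing B] [IsDomain B] [CharP B p]
    [PerfectRing B p] : ∃ _ : CharP (FractionRing B) p, PerfectRing (FractionRing B) p := by
  have h1 : CharP (FractionRing B) p :=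
    charP_of_injective_algebraMap (IsFractionRing.injective B (FractionRing B)) p
  refine ⟨h1, PerfectRing.ofSurjective _ _ fun y => ?_⟩
  obtain ⟨u, v, hv, rfl⟩ := IsFractionRing.div_surjective (A := B) y
  obtain ⟨u', hu'⟩ := (PerfectRing.bijective_frobenius (R := B) (p := p)).2 u
  obtain ⟨v', hv'⟩ := (PerfectRing.bijective_frobenius (R := B) (p := p)).2 v
  refine ⟨algebraMap B (FractionRing B) u' / algebraMap B (FractionRing B) v', ?_⟩
  have hu2 : u' ^ p = u := hu'
  have hv2 : v' ^ p = v := hv'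
  rw [map_div₀, frobenius_def, frobenius_def, ← map_pow, ← map_pow, hu2, hv2]

end ps

/-- **Specialisation of algebraic power series to finite fields.** -/
theorem g3p (hsep : S_SEP) : S_G3 := by
  intro p _ A _ _ _ _ ι _ w hw S hS h hh hh0
  classical
  obtain ⟨hcp, hpf⟩ := perfect_frac p A
  have hw' : ∀ i, ∃ F : A[X][X], aeval (w i) F = 0 ∧ aeval (w i) (derivative F) ≠ 0 := fun i =>
    simple_root (FractionRing A) (w i) (hsep p (FractionRing A) (w i) (hw i))
  obtain ⟨θ, f, hf, hn, hroot, hmin, ⟨G0, hG01, hG02⟩, b, hb, hP⟩ := pe (FractionRing A) w hw'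
  choose P hP using hP
  set j : A[X] →+* PowerSeries (FractionRing A) := algebraMap A[X] (PowerSeries (FractionRing A)) with hj
  have hjinj : Function.Injective j := alg_inj
  have hjC : ∀ a : A, j (C a) = PowerSeries.C (algebraMap A (FractionRing A) a) := by
    intro a
    rw [hj, PowerSeries.algebraMap_apply']
    simp
  have hjX : j X = PowerSeries.X := by
    rw [hj, PowerSeries.algebraMap_apply']
    simp
  let Th : AdjoinRoot f →+* PowerSeries (FractionRing A) := AdjoinRoot.lift j θ (by
    rw [hj, ← aeval_def]; exact hroot)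
  have hThmk : ∀ q : A[X][X], Th (AdjoinRoot.mk f q) = aeval θ q := fun q => AdjoinRoot.lift_mk _ _
  have hThof : ∀ q : A[X], Th (AdjoinRoot.of f q) = j q := fun q => AdjoinRoot.lift_of _
  have hTinj : Function.Injective Th := by
    rw [injective_iff_map_eq_zero]
    intro x hx
    obtain ⟨q, rfl⟩ := AdjoinRoot.mk_surjective x
    rw [hThmk] at hx
    have h1 : aeval θ (q %ₘ f) = 0 := by
      have h2 := modByMonic_add_div q f
      have h3 := congrArg (aeval θ) h2
      rw [map_add, map_mul, hroot, zero_mul, add_zero, hx] at h3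
      exact h3
    rw [AdjoinRoot.mk_eq_zero, ← (modByMonic_eq_zero_iff_dvd hf)]
    by_contra hne
    have h4 := hmin _ hne h1
    have h5 := natDegree_modByMonic_lt q hf (by
      rintro rfl
      simp at hn)
    omega
  have hdom : IsDomain (AdjoinRoot f) := hTinj.isDomain Th
  have hfin : Module.Finite A[X] (AdjoinRoot f) := hf.finite_adjoinRoot
  -- cofactors
  have cof : ∀ r : AdjoinRoot f, r ≠ 0 → ∃ N : A[X], N ≠ 0 ∧ ∃ r' : AdjoinRoot f,
      AdjoinRoot.of f N = r * r' := by
    intro r hr
    have h1 : IsIntegral A[X] r := Algebra.IsIntegral.isIntegral r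
    have h2 : IsAlgebraic A[X] r := h1.isAlgebraic
    obtain ⟨N, hN, r', hr'⟩ := h2.exists_nonzero_dvd (mem_nonZeroDivisors_of_ne_zero hr)
    exact ⟨N, hN, r', hr'⟩
  -- separability
  obtain ⟨w0, hw0, u0, v0, huv⟩ : ∃ w0 : A[X], w0 ≠ 0 ∧ ∃ u0 v0 : A[X][X],
      u0 * f + v0 * derivative f = C w0 := by
    have hd0 : derivative f ≠ 0 := by
      intro h0
      apply hG02
      have h1 : aeval θ (G0 %ₘ f) = 0 := by
        have h2 := modByMonic_add_div G0 f
        have h3 := congrArg (aeval θ) h2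
        rw [map_add, map_mul, hroot, zero_mul, add_zero, hG01] at h3
        exact h3
      have h4 : G0 %ₘ f = 0 := by
        by_contra hne
        have h4 := hmin _ hne h1
        have h5 := natDegree_modByMonic_lt G0 hf (by
          rintro rfl
          simp at hn)
        omega
      have h5 := modByMonic_add_div G0 f
      rw [h4, zero_add] at h5
      rw [← h5, derivative_mul, h0, zero_mul, zero_add, map_mul, hroot, zero_mul]
    have h1 : AdjoinRoot.mk f (derivative f) ≠ 0 := by
      intro h0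
      have h2 := congrArg Th h0
      rw [hThmk, map_zero] at h2
      have h3 := hmin _ hd0 h2
      have h4 := natDegree_derivative_lt (p := f) (by omega)
      omega
    obtain ⟨w0, hw0, r', hr'⟩ := cof _ h1
    obtain ⟨v0, rfl⟩ := AdjoinRoot.mk_surjective r'
    have h5 : AdjoinRoot.mk f (C w0 - derivative f * v0) = 0 := by
      rw [map_sub, map_mul, ← hr', AdjoinRoot.mk_C, sub_self]
    rw [AdjoinRoot.mk_eq_zero] at h5
    obtain ⟨u0, hu0⟩ := h5
    refine ⟨w0, hw0, u0, v0, ?_⟩
    linear_combination -hu0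
  -- Bertini and Noether
  obtain ⟨D1, hD1, hirr⟩ := Pool.Agent.R410.LW.bn_poly (A := A) (k := FractionRing A)
    (kb := AlgebraicClosure (FractionRing A)) f hf hn
    (irr_of_min (FractionRing A) (AlgebraicClosure (FractionRing A)) θ f hf hn
      (by rw [← aeval_def]; exact hroot) (fun g hg h0 => hmin g hg (by rw [aeval_def]; exact h0)))
  -- the localisation
  set Om := FractionRing (PowerSeries (FractionRing A)) with hOm
  set κ : PowerSeries (FractionRing A) →+* Om := algebraMap _ _ with hκ
  have hκinj : Function.Injective κ := IsFractionRing.injective _ _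
  set b' : AdjoinRoot f := AdjoinRoot.of f b with hb'
  have hThb : κ (Th b') ≠ 0 := by
    rw [hb', hThof, Ne, map_eq_zero_iff _ hκinj, map_eq_zero_iff _ hjinj]
    exact hb
  have hb'0 : b' ≠ 0 := by
    intro h0
    rw [h0, map_zero, map_zero] at hThb
    exact hThb rfl
  let Rl := Localization.Away b'
  have hunit : IsUnit ((κ.comp Th) b') := IsUnit.mk0 _ hThb
  let Tl : Rl →+* Om := IsLocalization.Away.lift b' hunit
  have hTlalg : ∀ x : AdjoinRoot f, Tl (algebraMap _ Rl x) = κ (Th x) := fun x =>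
    IsLocalization.Away.lift_eq b' hunit x
  have hTlinj : Function.Injective Tl := by
    rw [injective_iff_map_eq_zero]
    intro x hx
    obtain ⟨n, a, ha⟩ := IsLocalization.Away.surj b' x
    have h1 := congrArg Tl ha
    rw [map_mul, hx, zero_mul, hTlalg] at h1
    have h2 : a = 0 := hTinj (hκinj (by rw [← h1, map_zero, map_zero]))
    rw [h2, map_zero] at ha
    have h3 : IsUnit (algebraMap (AdjoinRoot f) Rl b') := IsLocalization.Away.algebraMap_isUnit b'
    exact (h3.pow n).mul_left_eq_zero.1 ha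
  have hSsub : ∀ u ∈ S, κ u ∈ Tl.range := by
    intro u hu
    have h1 : S ≤ Tl.range.comap κ := by
      rw [hS, Subring.closure_le]
      rintro v ((⟨a, rfl⟩ | hv) | ⟨i, rfl⟩)
      · exact ⟨algebraMap _ Rl (AdjoinRoot.of f (C a)), by rw [hTlalg, hThof, hjC]⟩
      · rw [Set.mem_singleton_iff] at hv
        subst hv
        exact ⟨algebraMap _ Rl (AdjoinRoot.of f X), by rw [hTlalg, hThof, hjX]⟩
      · refine ⟨IsLocalization.Away.invSelf b' * algebraMap _ Rl (AdjoinRoot.mk f (P i)), ?_⟩
        have h2 : Tl (algebraMap _ Rl b') * Tl (IsLocalization.Away.invSelf b') = 1 := by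
          rw [← map_mul, IsLocalization.Away.mul_invSelf, map_one]
        rw [hTlalg] at h2
        rw [map_mul, hTlalg, hThmk, ← hP i, map_mul]
        have h3 : κ (Th b') = κ (j b) := by rw [hb', hThof]
        rw [h3] at h2
        rw [← mul_assoc, mul_comm (Tl _), h2, one_mul]
    exact h1 hu
  -- the numerator of `h`
  obtain ⟨N, hN, m, r, r', hr, hrr⟩ : ∃ N : A[X], N ≠ 0 ∧ ∃ (m : ℕ) (r r' : AdjoinRoot f),
      κ h * κ (Th b') ^ m = κ (Th r) ∧ AdjoinRoot.of f N = r * r' := by
    obtain ⟨x, hx⟩ := hSsub h hh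
    obtain ⟨m, r, hmr⟩ := IsLocalization.Away.surj b' x
    have h1 := congrArg Tl hmr
    rw [map_mul, hx, map_pow, hTlalg, hTlalg] at h1
    have h2 : r ≠ 0 := by
      rintro rfl
      rw [map_zero, map_zero, mul_eq_zero, map_eq_zero_iff _ hκinj] at h1
      rcases h1 with h1 | h1
      · exact hh0 h1
      · exact pow_ne_zero m hThb h1
    obtain ⟨N, hN, r', hr'⟩ := cof r h2
    exact ⟨N, hN, m, r, r', h1, hr'⟩
  -- the constants
  obtain ⟨dm, hdm⟩ : ∃ dm : ℕ, ∀ i, (f.coeff i).natDegree ≤ dm := by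
    refine ⟨(Finset.range (f.natDegree + 1)).sup fun i => (f.coeff i).natDegree, fun i => ?_⟩
    by_cases hi : i ∈ Finset.range (f.natDegree + 1)
    · exact Finset.le_sup (f := fun i => (f.coeff i).natDegree) hi
    · rw [coeff_eq_zero_of_natDegree_lt (by rw [Finset.mem_range] at hi; omega), natDegree_zero]
      exact Nat.zero_le _
  obtain ⟨W, hW⟩ : ∃ W : ℕ, W = Pool.Agent.R410.PW.WC f.natDegree dm w0.natDegree := ⟨_, rfl⟩
  refine ⟨D1 * b.leadingCoeff * N.leadingCoeff * w0.leadingCoeff,
    mul_ne_zero (mul_ne_zero (mul_ne_zero hD1 (leadingCoeff_ne_zero.2 hb))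
      (leadingCoeff_ne_zero.2 hN)) (leadingCoeff_ne_zero.2 hw0),
    16 * W ^ 2 + 4 * (f.natDegree * (b.natDegree + N.natDegree)) + 2 * f.natDegree, ?_⟩
  intro k _ _ _ φ hφ hq
  rw [map_mul, map_mul, map_mul, mul_ne_zero_iff, mul_ne_zero_iff, mul_ne_zero_iff] at hφ
  obtain ⟨⟨⟨hφ1, hφb⟩, hφN⟩, hφw⟩ := hφ
  have map_ne : ∀ p : A[X], φ p.leadingCoeff ≠ 0 → p.map φ ≠ 0 := by
    intro p hp h0
    apply hp
    have := congrArg (fun q => q.coeff p.natDegree) h0
    simpa using this
  obtain ⟨fk, hfk⟩ : ∃ fk, fk = f.map (mapRingHom φ) := ⟨_, rfl⟩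
  have hfkm : fk.Monic := by rw [hfk]; exact hf.map _
  have hfkd : fk.natDegree = f.natDegree := by rw [hfk]; exact hf.natDegree_map _
  obtain ⟨Z, hZ⟩ : ∃ Z : Finset k, Z = (b.map φ).roots.toFinset ∪ (N.map φ).roots.toFinset := ⟨_, rfl⟩
  have hZc : Z.card ≤ b.natDegree + N.natDegree := by
    rw [hZ]
    refine (Finset.card_union_le _ _).trans (add_le_add ?_ ?_)
    · exact (Multiset.toFinset_card_le _).trans ((card_roots' _).trans natDegree_map_le)
    · exact (Multiset.toFinset_card_le _).trans ((card_roots' _).trans natDegree_map_le)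
  have hcnt := count fk hfkm (by rw [hfkd]; exact hn) (u0.map (mapRingHom φ)) (v0.map (mapRingHom φ))
    (w0.map φ) (by
      have := congrArg (Polynomial.map (mapRingHom φ)) huv
      rw [Polynomial.map_add, Polynomial.map_mul, Polynomial.map_mul, map_C, coe_mapRingHom] at this
      rw [hfk, ← this, derivative_map]) (map_ne w0 hφw) w0.natDegree dm natDegree_map_le
    (by
      intro i
      rw [hfk, coeff_map, coe_mapRingHom]
      exact natDegree_map_le.trans (hdm i))
    (by
      have h1 := hirr (AlgebraicClosure k) ((algebraMap k (AlgebraicClosure k)).comp φ) (by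
        rw [RingHom.comp_apply, Ne, map_eq_zero_iff _ (algebraMap k (AlgebraicClosure k)).injective]
        exact hφ1)
      rw [hfk, Polynomial.map_map]
      convert h1 using 2
      rw [mapRingHom_comp]) Z
  rw [hfkd, ← hW] at hcnt
  refine ⟨Finset.univ.filter fun s : k => s ∉ Z ∧ ∃ y, evalEval s y fk = 0, ?_, ?_⟩
  · -- the numbers
    obtain ⟨t, ht⟩ : ∃ t, t = (Finset.univ.filter fun s : k => s ∉ Z ∧ ∃ y, evalEval s y fk = 0).card :=
      ⟨_, rfl⟩
    rw [← ht] at hcnt ⊢
    obtain ⟨q, hqq⟩ : ∃ q, q = Fintype.card k := ⟨_, rfl⟩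
    rw [← hqq] at hcnt hq ⊢
    have hs : √(q : ℝ) * √(q : ℝ) = q := Real.mul_self_sqrt (Nat.cast_nonneg _)
    have hs0 : 0 ≤ √(q : ℝ) := Real.sqrt_nonneg _
    have hq' : (16 * (W : ℝ) ^ 2 + 4 * (f.natDegree * (b.natDegree + N.natDegree)) + 2 * f.natDegree : ℝ) ≤ q := by
      exact_mod_cast hq
    have hW1 : 4 * (W : ℝ) ≤ √(q : ℝ) := by
      apply Real.le_sqrt_of_sq_le
      have : (0 : ℝ) ≤ 4 * (f.natDegree * (b.natDegree + N.natDegree)) + 2 * f.natDegree := by positivity
      nlinarith
    have hW2 : 4 * ((W : ℝ) * √(q : ℝ)) ≤ q := by nlinarith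
    have hZ2 : (f.natDegree : ℝ) * Z.card ≤ f.natDegree * (b.natDegree + N.natDegree) := by
      have : (Z.card : ℝ) ≤ b.natDegree + N.natDegree := by exact_mod_cast hZc
      exact mul_le_mul_of_nonneg_left this (Nat.cast_nonneg _)
    have h4 : 4 * ((f.natDegree : ℝ) * (b.natDegree + N.natDegree)) ≤ q := by
      have : (0 : ℝ) ≤ 16 * (W : ℝ) ^ 2 + 2 * f.natDegree := by positivity
      linarith
    have h5 : (q : ℝ) ≤ 2 * f.natDegree * t := by nlinarith
    have h6 : q ≤ 2 * f.natDegree * t := by exact_mod_cast h5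
    refine h6.trans (Nat.mul_le_mul_right _ ?_)
    omega
  · intro s hs
    rw [Finset.mem_filter] at hs
    obtain ⟨-, hsZ, y, hy⟩ := hs
    rw [hZ, Finset.mem_union, not_or, Multiset.mem_toFinset, Multiset.mem_toFinset,
      mem_roots (map_ne b hφb), mem_roots (map_ne N hφN), IsRoot.def, IsRoot.def] at hsZ
    obtain ⟨hbs, hNs⟩ := hsZ
    let Ph : AdjoinRoot f →+* k := AdjoinRoot.lift (eval₂RingHom φ s) y (by
      rw [hfk, ← eval₂_evalRingHom, eval₂_map] at hy
      rw [← hy]
      congr 1
      refine ringHom_ext (fun a => ?_) ?_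
      · simp
      · simp)
    have hPhof : ∀ p : A[X], Ph (AdjoinRoot.of f p) = (p.map φ).eval s := by
      intro p
      rw [eval_map]
      exact AdjoinRoot.lift_of _
    have hPhb : IsUnit (Ph b') := IsUnit.mk0 _ (by rw [hb', hPhof]; exact hbs)
    let Pl : Rl →+* k := IsLocalization.Away.lift b' hPhb
    have hPlalg : ∀ x : AdjoinRoot f, Pl (algebraMap _ Rl x) = Ph x := fun x =>
      IsLocalization.Away.lift_eq b' hPhb x
    let rho : S →+* Tl.range := (κ.comp S.subtype).codRestrict Tl.range fun u => hSsub u.1 u.2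
    let e : Rl ≃+* Tl.range := RingEquiv.ofBijective Tl.rangeRestrict
      ⟨fun x y hxy => hTlinj (congrArg Subtype.val hxy), Tl.rangeRestrict_surjective⟩
    have hkey : ∀ (g : S) (x : Rl), κ (g : PowerSeries (FractionRing A)) = Tl x →
        Pl (e.symm (rho g)) = Pl x := by
      intro g x hgx
      congr 1
      rw [RingEquiv.symm_apply_eq]
      apply Subtype.ext
      exact hgx
    refine ⟨Pl.comp (e.symm.toRingHom.comp rho), ?_, ?_, ?_⟩
    · intro a g hg
      have h1 := hkey g (algebraMap _ Rl (AdjoinRoot.of f (C a))) (by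
        rw [hTlalg, hThof, hjC, hg])
      have h2 : Pl (algebraMap _ Rl (AdjoinRoot.of f (C a))) = φ a := by
        rw [hPlalg, hPhof]
        simp
      exact h1.trans h2
    · intro g hg
      have h1 := hkey g (algebraMap _ Rl (AdjoinRoot.of f X)) (by
        rw [hTlalg, hThof, hjX, hg])
      have h2 : Pl (algebraMap _ Rl (AdjoinRoot.of f X)) = s := by
        rw [hPlalg, hPhof]
        simp
      exact h1.trans h2
    · intro g hg h0
      obtain ⟨x, hx⟩ := hSsub h hh
      have h1 := hkey g x (by rw [hg, hx])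
      have h2 : Pl x = 0 := by rw [← h1]; exact h0
      have h3 : x * (algebraMap _ Rl b') ^ m = algebraMap _ Rl r := by
        apply hTlinj
        rw [map_mul, map_pow, hx, hTlalg, hTlalg, hr]
      have h4 := congrArg Pl h3
      rw [map_mul, h2, zero_mul, hPlalg] at h4
      have h5 := congrArg Ph hrr
      rw [map_mul, ← h4, zero_mul, hPhof] at h5
      exact hNs h5

end Pool.Agent.K9h85.AH.G3P_

namespace Pool.Agent.K9h85.AH

/-- LEAF G3P -/
theorem g3p (h : S_SEP) : S_G3 := G3P_.g3p h

end Pool.Agent.K9h85.AH
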