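import Pool.Agent.K9h85.AH.Stm5

/-! The perfect closure of the ring of power series -/

set_option autoImplicit false

namespace Pool.Agent.K9h85.AH

theorem p3h85 : S_P3 := by
  intro p _ N _ _ _
  have hch : CharP (PowerSeries N) p :=
    charP_of_injective_algebraMap (R := N) (A := PowerSeries N) (FaithfulSMul.algebraMap_injective _ _) p
  have hof : Function.Injective (PerfectClosure.of (PowerSeries N) p) := by
    intro a b hab
    rw [PerfectClosure.of_apply, PerfectClosure.of_apply, PerfectClosure.mk_eq_iff] at hab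
    obtain ⟨z, hz⟩ := hab
    exact (frobenius_inj (PowerSeries N) p).iterate _ hz
  have hrad : ∀ a : PerfectClosure (PowerSeries N) p, ∃ (j : ℕ) (f : PowerSeries N),
      a ^ p ^ j = PerfectClosure.of (PowerSeries N) p f := by
    intro a
    obtain ⟨⟨n, f⟩, rfl⟩ := PerfectClosure.mk_surjective (PowerSeries N) p a
    refine ⟨n, f, ?_⟩
    rw [← PerfectClosure.iterate_frobenius_mk, iterate_frobenius]
  have hnt : Nontrivial (PerfectClosure (PowerSeries N) p) := hof.nontrivial
  have hnz : NoZeroDivisors (PerfectClosure (PowerSeries N) p) := by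
    refine ⟨fun {a b} hab => ?_⟩
    obtain ⟨i, f, hf⟩ := hrad a
    obtain ⟨j, g, hg⟩ := hrad b
    have h1 : PerfectClosure.of (PowerSeries N) p (f ^ p ^ j * g ^ p ^ i) = 0 := by
      rw [map_mul, map_pow, map_pow, ← hf, ← hg, ← pow_mul, ← pow_mul, mul_comm (p ^ j) (p ^ i),
        ← mul_pow, hab, zero_pow (by positivity [(Fact.out : p.Prime).pos])]
    have h2 : f ^ p ^ j * g ^ p ^ i = 0 := hof (by rw [h1, map_zero])
    rcases mul_eq_zero.1 h2 with h | h
    · left
      have h3 : f = 0 := pow_eq_zero_iff (pow_ne_zero _ (Fact.out : p.Prime).ne_zero) |>.1 h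
      rw [h3, map_zero] at hf
      exact pow_eq_zero_iff (pow_ne_zero _ (Fact.out : p.Prime).ne_zero) |>.1 hf
    · right
      have h3 : g = 0 := pow_eq_zero_iff (pow_ne_zero _ (Fact.out : p.Prime).ne_zero) |>.1 h
      rw [h3, map_zero] at hg
      exact pow_eq_zero_iff (pow_ne_zero _ (Fact.out : p.Prime).ne_zero) |>.1 hg
  have hdom : IsDomain (PerfectClosure (PowerSeries N) p) := NoZeroDivisors.to_isDomain _
  refine ⟨PerfectClosure (PowerSeries N) p, inferInstance, hdom, inferInstance, inferInstance,
    ⟨⟨PerfectClosure.of (PowerSeries N) p,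
      PerfectClosure.lift (PowerSeries N) p N (PowerSeries.constantCoeff (R := N)), hof, hrad, ?_⟩⟩⟩
  intro f
  have h := (PerfectClosure.lift (PowerSeries N) p N).symm_apply_apply
    (PowerSeries.constantCoeff (R := N))
  exact congrArg (fun φ => φ f) h

end Pool.Agent.K9h85.AH
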