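import Pool.Agent.K9h85.AH.Stm5

set_option autoImplicit false

/-!
# LEAF SEP: algebraic power series over perfect fields are separable (helper15)

With the Cartier operators `D j (∑ a_n X^n) = ∑ a_(pn+j)^(1/p) X^n`.
-/

namespace Pool.Agent.K9h85.AH

namespace SEP_

open Polynomial

variable (p : ℕ) [hp : Fact p.Prime] {K : Type} [Field K] [CharP K p] [PerfectRing K p]

/-- the Cartier operator -/
noncomputable def D (j : ℕ) : PowerSeries K →+ PowerSeries K where
  toFun f := PowerSeries.mk fun n => (frobeniusEquiv K p).symm (PowerSeries.coeff (p * n + j) f)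
  map_zero' := by ext n; simp
  map_add' f g := by ext n; simp

theorem coeff_D (j n : ℕ) (f : PowerSeries K) : PowerSeries.coeff n (D p j f) =
    (frobeniusEquiv K p).symm (PowerSeries.coeff (p * n + j) f) := by
  change PowerSeries.coeff n (PowerSeries.mk fun n => (frobeniusEquiv K p).symm
    (PowerSeries.coeff (p * n + j) f)) = _
  rw [PowerSeries.coeff_mk]

omit [PerfectRing K p] in
theorem coeff_pow_p (g : PowerSeries K) (a : ℕ) :
    PowerSeries.coeff a (g ^ p) = if p ∣ a then (PowerSeries.coeff (a / p) g) ^ p else 0 := by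
  have h1 : (PowerSeries.expand p hp.out.ne_zero g).map (frobenius K p) = g ^ p :=
    MvPowerSeries.map_frobenius_expand p hp.out.ne_zero
  rw [← h1, PowerSeries.coeff_map, PowerSeries.coeff_expand]
  split_ifs
  · rw [frobenius_def]
  · rw [map_zero]

theorem D_mul {j : ℕ} (hj : j < p) (g f : PowerSeries K) : D p j (g ^ p * f) = g * D p j f := by
  have hp0 : 0 < p := hp.out.pos
  ext n
  rw [coeff_D, PowerSeries.coeff_mul, PowerSeries.coeff_mul,
    Finset.Nat.sum_antidiagonal_eq_sum_range_succ
      (fun a b => PowerSeries.coeff a (g ^ p) * PowerSeries.coeff b f),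
    Finset.Nat.sum_antidiagonal_eq_sum_range_succ
      (fun a b => PowerSeries.coeff a g * PowerSeries.coeff b (D p j f))]
  have hsub : (Finset.range (n + 1)).image (fun k => p * k) ⊆ Finset.range (p * n + j + 1) := by
    intro k hk
    obtain ⟨k', hk', rfl⟩ := Finset.mem_image.mp hk
    rw [Finset.mem_range] at hk' ⊢
    have : p * k' ≤ p * n := Nat.mul_le_mul_left _ (by omega)
    change p * k' < _
    omega
  rw [← Finset.sum_subset hsub, Finset.sum_image (fun a _ b _ h => Nat.eq_of_mul_eq_mul_left hp0 h),
    map_sum]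
  · refine Finset.sum_congr rfl fun k hk => ?_
    have hk' : k ≤ n := by
      rw [Finset.mem_range] at hk
      omega
    have h1 : p * n + j - p * k = p * (n - k) + j := by
      have : p * n = p * k + p * (n - k) := by rw [← mul_add]; congr 1; omega
      omega
    rw [coeff_pow_p, if_pos (dvd_mul_right p k), Nat.mul_div_cancel_left _ hp0, h1, map_mul,
      coeff_D]
    congr 1
    rw [← frobenius_def, frobeniusEquiv_symm_apply_frobenius]
  · intro k hk hk2
    rw [coeff_pow_p, if_neg, zero_mul]
    rintro ⟨k', rfl⟩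
    apply hk2
    refine Finset.mem_image.mpr ⟨k', ?_, rfl⟩
    rw [Finset.mem_range] at hk ⊢
    by_contra hcon
    have : p * (n + 1) ≤ p * k' := Nat.mul_le_mul_left _ (by omega)
    rw [mul_add, mul_one] at this
    omega

/-- the Cartier operator on polynomials -/
noncomputable def DP (j : ℕ) (c : K[X]) : K[X] :=
  ∑ n ∈ Finset.range (c.natDegree + 1), monomial n ((frobeniusEquiv K p).symm (c.coeff (p * n + j)))

theorem coeff_DP (j n : ℕ) (c : K[X]) :
    (DP p j c).coeff n = (frobeniusEquiv K p).symm (c.coeff (p * n + j)) := by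
  unfold DP
  rw [finsetSum_coeff]
  simp only [coeff_monomial]
  rw [Finset.sum_ite_eq' (Finset.range (c.natDegree + 1)) n]
  split_ifs with h
  · rfl
  · rw [coeff_eq_zero_of_natDegree_lt, map_zero]
    rw [Finset.mem_range] at h
    have : n ≤ p * n := Nat.le_mul_of_pos_left _ hp.out.pos
    omega

theorem coe_DP (j : ℕ) (c : K[X]) : ((DP p j c : K[X]) : PowerSeries K) = D p j (c : PowerSeries K) := by
  ext n
  rw [coeff_D, Polynomial.coeff_coe, Polynomial.coeff_coe, coeff_DP]

end SEP_

open SEP_ Polynomial

theorem algMap_coe {K : Type} [Field K] (c : K[X]) :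
    algebraMap K[X] (PowerSeries K) c = (c : PowerSeries K) := by
  rw [PowerSeries.algebraMap_apply', Algebra.algebraMap_self, PowerSeries.map_id]
  rfl

theorem sep : S_SEP := by
  intro p hp K _ _ _ w hw
  have hp0 : 0 < p := hp.out.pos
  suffices H : ∀ d : ℕ, ∀ F : K[X][X], F ≠ 0 → F.natDegree = d → aeval w F = 0 →
      ∃ F : K[X][X], aeval w F = 0 ∧ aeval w (derivative F) ≠ 0 by
    obtain ⟨F, hF0, hF⟩ := hw
    exact H _ F hF0 rfl hF
  intro d
  induction d using Nat.strong_induction_on with
  | _ d IH =>
  intro F hF0 hd hF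
  by_cases h : aeval w (derivative F) = 0
  swap
  · exact ⟨F, hF, h⟩
  have hpos : F.natDegree ≠ 0 := by
    intro h0
    obtain ⟨c, hc⟩ := natDegree_eq_zero.mp h0
    rw [← hc, aeval_C, algMap_coe] at hF
    apply hF0
    rw [← hc]
    have : c = 0 := by
      apply Polynomial.coe_injective K
      rw [hF, Polynomial.coe_zero]
    rw [this, map_zero]
  by_cases h0 : derivative F = 0
  swap
  · exact IH _ (hd ▸ natDegree_derivative_lt hpos) (derivative F) h0 rfl h
  set G := contract p F with hG
  have hexp : expand K[X] p G = F := expand_contract p h0 hp0.ne'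
  have hdeg : F.natDegree = G.natDegree * p := by rw [← hexp, natDegree_expand]
  have hG0 : G ≠ 0 := by
    intro h1
    apply hF0
    rw [← hexp, h1, map_zero]
  obtain ⟨i0, hi0⟩ : ∃ i, G.coeff i ≠ 0 := by
    by_contra hcon
    push Not at hcon
    exact hG0 (Polynomial.ext (by simpa using hcon))
  obtain ⟨n0, hn0⟩ : ∃ n, (G.coeff i0).coeff n ≠ 0 := by
    by_contra hcon
    push Not at hcon
    exact hi0 (Polynomial.ext (by simpa using hcon))
  set j := n0 % p with hj
  have hjp : j < p := Nat.mod_lt _ hp0
  set H : K[X][X] := ∑ i ∈ Finset.range (G.natDegree + 1), monomial i (DP p j (G.coeff i)) with hH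
  have hHc : H.coeff i0 ≠ 0 := by
    rw [hH, finsetSum_coeff]
    simp only [coeff_monomial]
    rw [Finset.sum_ite_eq' (Finset.range (G.natDegree + 1)) i0, if_pos]
    · intro h1
      have h2 := congrArg (fun c : K[X] => c.coeff (n0 / p)) h1
      simp only [coeff_DP, coeff_zero] at h2
      rw [map_eq_zero_iff _ (frobeniusEquiv K p).symm.injective, hj, Nat.div_add_mod] at h2
      exact hn0 h2
    · rw [Finset.mem_range]
      have := le_natDegree_of_ne_zero hi0
      omega
  have hH0 : H ≠ 0 := by
    intro h1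
    apply hHc
    rw [h1, coeff_zero]
  have hHdeg : H.natDegree ≤ G.natDegree := by
    refine natDegree_sum_le_of_forall_le _ _ fun i hi => ?_
    refine (natDegree_monomial_le _).trans ?_
    rw [Finset.mem_range] at hi
    omega
  have hlt : H.natDegree < d := by
    rw [← hd, hdeg]
    have h1 : G.natDegree ≠ 0 := by
      intro h2
      rw [hdeg, h2, zero_mul] at hpos
      exact hpos rfl
    have h2 : G.natDegree * 1 < G.natDegree * p :=
      Nat.mul_lt_mul_of_pos_left hp.out.one_lt (Nat.pos_of_ne_zero h1)
    omega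
  refine IH _ hlt H hH0 rfl ?_
  have h5 : aeval w F = ∑ i ∈ Finset.range (G.natDegree + 1),
      (w ^ i) ^ p * ((G.coeff i : K[X]) : PowerSeries K) := by
    rw [← hexp, expand_aeval, aeval_eq_sum_range]
    refine Finset.sum_congr rfl fun i _ => ?_
    rw [Algebra.smul_def, algMap_coe, mul_comm, ← pow_mul, ← pow_mul, mul_comm p i]
  have h6 : aeval w H = D p j (aeval w F) := by
    rw [h5, map_sum, map_sum]
    refine Finset.sum_congr rfl fun i _ => ?_
    rw [D_mul p hjp, ← coe_DP, aeval_monomial, algMap_coe, mul_comm]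
  rw [h6, hF, map_zero]

end Pool.Agent.K9h85.AH
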