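import Pool.Agent.K9h85.AH.Stm5

set_option autoImplicit false

/-!
# LEAF T3: lifting the field generated by algebraically independent elements, characteristic `p`
(helper15)
-/

open MvPolynomial

namespace Pool.Agent.K9h85.AH

namespace T3_

section gd

variable {p : ℕ} [hp : Fact p.Prime] {N : Type} [Field N] {P : Type} [CommRing P] [CharP P p]
  {𝔭 : Perf p N P}

theorem gd_pow {a : P} {i : ℕ} (h : Gd 𝔭 (a ^ p ^ i)) : Gd 𝔭 a := by
  obtain ⟨j, f, h1, h2⟩ := h
  exact ⟨i + j, f, by rw [pow_add, pow_mul, h1], h2⟩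

theorem gd_common {a b : P} (ha : Gd 𝔭 a) (hb : Gd 𝔭 b) : ∃ (j : ℕ) (f g : PowerSeries N),
    a ^ p ^ j = 𝔭.ι f ∧ b ^ p ^ j = 𝔭.ι g ∧ IsAlgebraic (Polynomial N) f ∧
      IsAlgebraic (Polynomial N) g := by
  obtain ⟨i, f, h1, h2⟩ := ha
  obtain ⟨j, g, h3, h4⟩ := hb
  refine ⟨i + j, f ^ p ^ j, g ^ p ^ i, ?_, ?_, h2.pow _, h4.pow _⟩
  · rw [pow_add, pow_mul, h1, map_pow]
  · rw [add_comm, pow_add, pow_mul, h3, map_pow]

theorem gd_add {a b : P} (ha : Gd 𝔭 a) (hb : Gd 𝔭 b) : Gd 𝔭 (a + b) := by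
  obtain ⟨j, f, g, h1, h2, h3, h4⟩ := gd_common ha hb
  exact ⟨j, f + g, by rw [add_pow_char_pow, h1, h2, map_add], h3.add h4⟩

theorem gd_mul {a b : P} (ha : Gd 𝔭 a) (hb : Gd 𝔭 b) : Gd 𝔭 (a * b) := by
  obtain ⟨j, f, g, h1, h2, h3, h4⟩ := gd_common ha hb
  exact ⟨j, f * g, by rw [mul_pow, h1, h2, map_mul], h3.mul h4⟩

omit hp [CharP P p] in
theorem gd_C (c : N) : Gd 𝔭 (𝔭.ι (PowerSeries.C c)) := by
  refine ⟨0, PowerSeries.C c, by rw [pow_zero, pow_one], ?_⟩
  have h1 : (PowerSeries.C c : PowerSeries N) =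
      algebraMap (Polynomial N) (PowerSeries N) (Polynomial.C c) := by
    rw [PowerSeries.algebraMap_apply', Polynomial.coe_C, PowerSeries.map_C]
    rfl
  rw [h1]
  exact isAlgebraic_algebraMap _

theorem cc_ne {a : P} {j : ℕ} {f : PowerSeries N} (h : a ^ p ^ j = 𝔭.ι f) (h0 : 𝔭.cc a ≠ 0) :
    PowerSeries.constantCoeff f ≠ 0 := by
  rw [← 𝔭.cc_ι, ← h, map_pow]
  exact pow_ne_zero _ h0

omit hp [CharP P p] in
theorem alg_quot {L : Type} [Field L] (a u c : PowerSeries L) (hu : IsAlgebraic (Polynomial L) u)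
    (hc : IsAlgebraic (Polynomial L) c) (h0 : PowerSeries.constantCoeff u ≠ 0) (h : a * u = c) :
    IsAlgebraic (Polynomial L) a := by
  have h1 : u * u⁻¹ = 1 := PowerSeries.mul_inv_cancel u h0
  let _ : Invertible u := ⟨u⁻¹, by rw [mul_comm]; exact h1, h1⟩
  have h2 : a = c * ⅟u := by rw [← h, mul_assoc, mul_invOf_self, mul_one]
  rw [h2]
  exact hc.mul hu.invOf

theorem unit_of {a : P} (h0 : 𝔭.cc a ≠ 0) : IsUnit a := by
  obtain ⟨j, f, h⟩ := 𝔭.rad a
  have h1 : IsUnit f := by
    rw [PowerSeries.isUnit_iff_constantCoeff, isUnit_iff_ne_zero]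
    exact cc_ne h h0
  have h2 : IsUnit (a ^ p ^ j) := by
    rw [h]
    exact h1.map 𝔭.ι
  exact (isUnit_pow_iff (pow_ne_zero _ hp.out.ne_zero)).mp h2

theorem gd_quot {a u c : P} (hu : Gd 𝔭 u) (hc : Gd 𝔭 c) (h0 : 𝔭.cc u ≠ 0) (h : a * u = c) :
    Gd 𝔭 a := by
  obtain ⟨j, f, g, h1, h2, h3, h4⟩ := gd_common hu hc
  have h5 := cc_ne h1 h0
  have h6 : f * f⁻¹ = 1 := PowerSeries.mul_inv_cancel f h5
  refine ⟨j, g * f⁻¹, ?_, alg_quot (g * f⁻¹) f g h3 h4 h5 ?_⟩
  · have h7 : a ^ p ^ j * 𝔭.ι f = 𝔭.ι g := by rw [← h1, ← mul_pow, h, h2]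
    calc a ^ p ^ j = a ^ p ^ j * (𝔭.ι f * 𝔭.ι f⁻¹) := by rw [← map_mul, h6, map_one, mul_one]
      _ = 𝔭.ι (g * f⁻¹) := by rw [← mul_assoc, h7, map_mul]
  · rw [mul_assoc, mul_comm f⁻¹, h6, mul_one]

/-- the polynomial ring -/
theorem gd_eval {A : Type} [CommRing A] [Algebra A N] {s : Type} (b : s → P)
    (hb : ∀ v, Gd 𝔭 (b v)) (f : MvPolynomial s A) :
    Gd 𝔭 (eval₂Hom (𝔭.ι.comp ((PowerSeries.C (R := N)).comp (algebraMap A N))) b f) := by
  induction f using MvPolynomial.induction_on with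
  | C a =>
    rw [coe_eval₂Hom, eval₂_C]
    exact gd_C _
  | add p q hp hq => rw [map_add]; exact gd_add hp hq
  | mul_X p v hp =>
    rw [map_mul]
    refine gd_mul hp ?_
    rw [coe_eval₂Hom, eval₂_X]
    exact hb v

end gd

end T3_

open T3_

theorem t3 (hx : S_X3) : S_T3 := by
  intro p _ N _ _ _ R _ _ _ _ 𝔭 A _ _ _ hinj V _ x hgen s hs b hb0 hbG
  let P := MvPolynomial s A
  let φ : P →ₐ[A] N := aeval (fun v : s => x v)
  have hφ : Function.Injective φ := hs.1
  have hφC : ∀ a : A, φ (C a) = algebraMap A N a := fun a => aeval_C _ a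
  have hφX : ∀ v : s, φ (X v) = x v := fun v => aeval_X _ v
  let M₀ := FractionRing P
  have hφ' : Function.Injective (φ : P →+* N) := hφ
  let _ : Algebra P N := (φ : P →+* N).toAlgebra
  let _ : Algebra M₀ N := (IsFractionRing.lift hφ' : M₀ →+* N).toAlgebra
  have hML : ∀ q : P, algebraMap M₀ N (algebraMap P M₀ q) = φ q :=
    fun q => IsFractionRing.lift_algebraMap hφ' q
  have htow : IsScalarTower P M₀ N := IsScalarTower.of_algebraMap_eq fun q => (hML q).symm
  -- the lift
  let ψ : P →+* R := eval₂Hom (𝔭.ι.comp ((PowerSeries.C (R := N)).comp (algebraMap A N))) b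
  have hψC : ∀ a : A, ψ (C a) = 𝔭.ι (PowerSeries.C (algebraMap A N a)) := fun a => eval₂Hom_C _ _ a
  have hψX : ∀ v : s, ψ (X v) = b v := fun v => eval₂Hom_X' _ _ v
  have hψφ : ∀ q : P, 𝔭.cc (ψ q) = φ q := by
    have h1 : 𝔭.cc.comp ψ = (φ : P →+* N) := by
      apply MvPolynomial.ringHom_ext
      · intro a
        rw [RingHom.comp_apply, hψC, 𝔭.cc_ι, PowerSeries.constantCoeff_C]
        exact (hφC a).symm
      · intro v
        rw [RingHom.comp_apply, hψX, hb0]
        exact (hφX v).symm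
    intro q
    exact congrArg (fun f : P →+* N => f q) h1
  have hψ0 : ∀ q : P, q ≠ 0 → 𝔭.cc (ψ q) ≠ 0 := by
    intro q hq h
    rw [hψφ] at h
    exact hq (hφ (by rw [h, map_zero]))
  have hunit : ∀ y : nonZeroDivisors P, IsUnit (ψ y) :=
    fun y => unit_of (hψ0 y (nonZeroDivisors.coe_ne_zero y))
  let τ0 : M₀ →+* R := IsLocalization.lift (M := nonZeroDivisors P) hunit
  have hτ0 : ∀ q : P, τ0 (algebraMap P M₀ q) = ψ q := fun q => IsLocalization.lift_eq hunit q
  have hτ0c : 𝔭.cc.comp τ0 = algebraMap M₀ N := by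
    apply IsLocalization.ringHom_ext (nonZeroDivisors P)
    ext q
    · simp only [RingHom.comp_apply, hτ0, hψφ, hML]
    · simp only [RingHom.comp_apply, hτ0, hψφ, hML]
  have hτ0a : ∀ a : M₀, Gd 𝔭 (τ0 a) := by
    intro a
    obtain ⟨⟨f, q⟩, hpq⟩ := IsLocalization.surj (nonZeroDivisors P) a
    have h1 : τ0 a * ψ q = ψ f := by
      rw [← hτ0, ← hτ0, ← map_mul]
      exact congrArg τ0 hpq
    exact gd_quot (gd_eval b hbG _) (gd_eval b hbG _) (hψ0 q (nonZeroDivisors.coe_ne_zero q)) h1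
  have : ExpChar M₀ p := (algebraMap M₀ N).expChar (algebraMap M₀ N).injective p
  let M := perfectClosure M₀ N
  have : ExpChar M p := (algebraMap M N).expChar (algebraMap M N).injective p
  have : CharP M p := (algebraMap M N).charP (algebraMap M N).injective p
  have : PerfectRing M p := perfectClosure.perfectRing M₀ N p
  have : PerfectField M := PerfectRing.toPerfectField M p
  have hrad : IsPRadical (algebraMap M₀ M) p := inferInstance
  let τ : M →+* R := PerfectRing.lift (algebraMap M₀ M) τ0 p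
  have hτM : ∀ a : M₀, τ (algebraMap M₀ M a) = τ0 a :=
    fun a => PerfectRing.lift_comp_apply (algebraMap M₀ M) τ0 p a
  have hτc : ∀ a : M, 𝔭.cc (τ a) = algebraMap M N a := by
    have h1 : 𝔭.cc.comp τ = algebraMap M N := by
      apply IsPRadical.injective_comp_of_perfect N (algebraMap M₀ M) p
      change (𝔭.cc.comp τ).comp (algebraMap M₀ M) = (algebraMap M N).comp (algebraMap M₀ M)
      ext a
      rw [RingHom.comp_apply, RingHom.comp_apply, hτM]
      exact congrArg (fun f : M₀ →+* N => f a) hτ0c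
    intro a
    exact congrArg (fun f : M →+* N => f a) h1
  have hτG : ∀ a : M, Gd 𝔭 (τ a) := by
    intro a
    obtain ⟨n, y, hy⟩ := IsPRadical.pow_mem (algebraMap M₀ M) p a
    apply gd_pow (i := n)
    rw [← map_pow, ← hy, hτM]
    exact hτ0a y
  -- finite dimension
  have halg0 : ∀ y : N, IsAlgebraic M₀ y := by
    intro y
    have h1 := hs.isAlgebraic
    obtain ⟨q, hp0, hq⟩ := h1.isAlgebraic y
    let e := hs.1.aevalEquiv
    let q' : Polynomial P := q.map (e.symm : _ →+* P)
    have hp' : q' ≠ 0 := by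
      rw [Ne, Polynomial.map_eq_zero_iff e.symm.injective]
      exact hp0
    have hev : Polynomial.aeval y q' = 0 := by
      have h2 : (algebraMap P N).comp (e.symm : _ →+* P) =
          algebraMap (Algebra.adjoin A (Set.range fun v : s => x v)) N := by
        ext z
        obtain ⟨w, rfl⟩ := e.surjective z
        change φ (e.symm (e w)) = _
        rw [AlgEquiv.symm_apply_apply]
        exact (AlgebraicIndependent.algebraMap_aevalEquiv hs.1 w).symm
      rw [Polynomial.aeval_def, Polynomial.eval₂_map, h2]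
      exact hq
    refine ⟨q'.map (algebraMap P M₀), ?_, ?_⟩
    · rw [Ne, Polynomial.map_eq_zero_iff (IsFractionRing.injective P M₀)]
      exact hp'
    · rw [Polynomial.aeval_map_algebraMap]
      exact hev
  have halg : ∀ y : N, IsAlgebraic M y := fun y => (halg0 y).tower_top M
  have hfin : FiniteDimensional M N := by
    let L1 := IntermediateField.adjoin M (Set.range x)
    have h1 : FiniteDimensional M L1 := by
      have : Finite (Set.range x) := Set.finite_range x
      exact IntermediateField.finiteDimensional_adjoin fun y _ => (halg y).isIntegral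
    have hpf : PerfectField L1 := Algebra.IsAlgebraic.perfectField M
    have : ExpChar L1 p := (algebraMap L1 N).expChar (algebraMap L1 N).injective p
    have hpr : PerfectRing L1 p := PerfectField.toPerfectRing p
    have h2 : L1 = ⊤ := by
      rw [eq_top_iff]
      intro a _
      have hin : ∀ f : MvPolynomial V A, aeval x f ∈ L1 := by
        intro f
        induction f using MvPolynomial.induction_on with
        | C c =>
          rw [aeval_C]
          have h3 : algebraMap A N c = algebraMap M N (algebraMap M₀ M (algebraMap P M₀ (C c))) := by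
            change _ = algebraMap M₀ N (algebraMap P M₀ (C c))
            rw [hML, hφC]
          rw [h3]
          exact IntermediateField.algebraMap_mem _ _
        | add f g hf hg => rw [map_add]; exact add_mem hf hg
        | mul_X f v hf =>
          rw [map_mul, aeval_X]
          exact mul_mem hf (IntermediateField.subset_adjoin M _ (Set.mem_range_self v))
      obtain ⟨j, f, g, hg, hfg⟩ := hgen a
      have h3 : a ^ p ^ j = aeval x f / aeval x g := by
        rw [eq_div_iff hg]; exact hfg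
      have h4 : a ^ p ^ j ∈ L1 := by
        rw [h3]
        exact div_mem (hin f) (hin g)
      obtain ⟨c, hc⟩ := (iterateFrobeniusEquiv L1 p j).surjective ⟨a ^ p ^ j, h4⟩
      rw [iterateFrobeniusEquiv_def] at hc
      have h5 : (c : N) ^ p ^ j = a ^ p ^ j := congrArg Subtype.val hc
      have h6 : (c : N) = a := iterateFrobenius_inj N p j (by
        rw [iterateFrobenius_def, iterateFrobenius_def]; exact h5)
      rw [← h6]
      exact c.2
    rw [h2] at h1
    exact IntermediateField.topEquiv.toLinearEquiv.finiteDimensional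
  have : Algebra.IsSeparable M N := inferInstance
  obtain ⟨σ, hσ1, hσ2, hσ3⟩ := hx p N R 𝔭 M τ hτc hτG
  refine ⟨σ, fun a => ?_, hσ2, fun v => ?_, hσ3⟩
  · have h3 : algebraMap A N a = algebraMap M N (algebraMap M₀ M (algebraMap P M₀ (C a))) := by
      change _ = algebraMap M₀ N (algebraMap P M₀ (C a))
      rw [hML, hφC]
    have h4 : σ (algebraMap A N a) = ψ (C a) := by rw [h3, hσ1, hτM, hτ0]
    rw [h4, hψC]
  · have h3 : x v = algebraMap M N (algebraMap M₀ M (algebraMap P M₀ (X v))) := by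
      change _ = algebraMap M₀ N (algebraMap P M₀ (X v))
      rw [hML, hφX]
    rw [h3, hσ1, hτM, hτ0, hψX]

end Pool.Agent.K9h85.AH
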