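import Pool.Agent.K9h85.AH.Stm5

/-!
# Leaf X3 of the project AH (helper32): Hensel extension in characteristic `p`
-/

set_option autoImplicit false

open Polynomial

namespace Pool.Agent.K9h85.AH

namespace X3_

section

variable {p : ℕ} {N : Type} [Field N] {P : Type} [CommRing P]

/-- the algebraic power series in `P` -/
noncomputable def iB (𝔭 : Perf p N P) :
    Subalgebra.algebraicClosure (Polynomial N) (PowerSeries N) →+* P :=
  𝔭.ι.comp (algebraMap (Subalgebra.algebraicClosure (Polynomial N) (PowerSeries N))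
    (PowerSeries N))

theorem gd_range (𝔭 : Perf p N P) {y : P} (h : Gd 𝔭 y) : ∃ j, y ^ p ^ j ∈ Set.range (iB 𝔭) := by
  obtain ⟨j, f, h1, h2⟩ := h
  exact ⟨j, ⟨f, h2⟩, h1.symm⟩

theorem range_mono (𝔭 : Perf p N P) {y : P} {j J : ℕ} (h : y ^ p ^ j ∈ Set.range (iB 𝔭))
    (hj : j ≤ J) : y ^ p ^ J ∈ Set.range (iB 𝔭) := by
  obtain ⟨b, hb⟩ := h
  refine ⟨b ^ p ^ (J - j), ?_⟩
  rw [map_pow, hb, ← pow_mul, ← pow_add, Nat.add_sub_cancel' hj]

theorem uniform [Fact p.Prime] [CharP P p] (𝔭 : Perf p N P) (h : P[X])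
    (hh : ∀ i, Gd 𝔭 (h.coeff i)) (J₀ : ℕ) : ∃ J, J₀ ≤ J ∧
      ∃ q : (Subalgebra.algebraicClosure (Polynomial N) (PowerSeries N))[X],
        q.map (iB 𝔭) = h.map (iterateFrobenius P p J) := by
  choose j hj using fun i => gd_range 𝔭 (hh i)
  refine ⟨J₀ + ∑ i ∈ Finset.range (h.natDegree + 1), j i, Nat.le_add_right _ _, ?_⟩
  have h1 : h.map (iterateFrobenius P p (J₀ + ∑ i ∈ Finset.range (h.natDegree + 1), j i)) ∈
      lifts (iB 𝔭) := by
    rw [lifts_iff_coeff_lifts]
    intro i
    rw [coeff_map, iterateFrobenius_def]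
    by_cases hi : i ≤ h.natDegree
    · refine range_mono 𝔭 (hj i) ?_
      have := Finset.single_le_sum (f := j) (fun _ _ => Nat.zero_le _)
        (Finset.mem_range.2 (by omega : i < h.natDegree + 1))
      omega
    · rw [coeff_eq_zero_of_natDegree_lt (by omega),
        zero_pow (pow_ne_zero _ (Fact.out : p.Prime).ne_zero)]
      exact ⟨0, map_zero _⟩
  exact (mem_lifts _).1 h1

end

end X3_

open X3_

theorem x3 : S_X3 := by
  intro p _ N _ _ _ P _ _ _ _ 𝔭 M _ _ _ _ τ hτ hGd
  let pb := Field.powerBasisOfFiniteOfSeparable M N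
  have hint : IsIntegral M pb.gen := Algebra.IsIntegral.isIntegral _
  have hgm : (minpoly M pb.gen).Monic := minpoly.monic hint
  have hsep : (minpoly M pb.gen).Separable := Algebra.IsSeparable.isSeparable M pb.gen
  have hcc : 𝔭.cc.comp τ = algebraMap M N := RingHom.ext hτ
  have hcci : 𝔭.cc.comp 𝔭.ι = PowerSeries.constantCoeff := RingHom.ext 𝔭.cc_ι
  have hco : ∀ (q : M[X]) (i : ℕ), Gd 𝔭 ((q.map τ).coeff i) := fun q i => by
    rw [coeff_map]
    exact hGd _
  obtain ⟨J, -, q, hq⟩ := uniform 𝔭 ((minpoly M pb.gen).map τ) (hco _) 0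
  obtain ⟨gJ, hgJdef⟩ : ∃ gJ : (PowerSeries N)[X],
    gJ = q.map (algebraMap (Subalgebra.algebraicClosure (Polynomial N) (PowerSeries N))
      (PowerSeries N)) := ⟨_, rfl⟩
  have hgJ : gJ.map 𝔭.ι = ((minpoly M pb.gen).map τ).map (iterateFrobenius P p J) := by
    rw [← hq, hgJdef, Polynomial.map_map]
    rfl
  have hgJm : gJ.Monic := monic_of_injective 𝔭.inj (by rw [hgJ]; exact (hgm.map τ).map _)
  have hgc : gJ.map (PowerSeries.constantCoeff (R := N)) =
      ((minpoly M pb.gen).map (algebraMap M N)).map (iterateFrobenius N p J) := by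
    rw [← hcci, ← Polynomial.map_map, hgJ, ← hcc]
    ext i
    simp only [coeff_map, RingHom.comp_apply, iterateFrobenius_def, map_pow]
  have hev : ∀ (h : (PowerSeries N)[X]) (b : PowerSeries N),
      PowerSeries.constantCoeff (h.eval b) =
        (h.map (PowerSeries.constantCoeff (R := N))).eval (PowerSeries.constantCoeff b) := by
    intro h b
    rw [eval_map, eval₂_at_apply]
  have hFr : ∀ h : M[X], ((h.map (algebraMap M N)).map (iterateFrobenius N p J)).eval
      (pb.gen ^ p ^ J) = (aeval pb.gen h) ^ p ^ J := by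
    intro h
    rw [← iterateFrobenius_def, eval_map, eval₂_at_apply, iterateFrobenius_def, eval_map]
    rfl
  -- Hensel
  have hH : HenselianRing (PowerSeries N) (Ideal.span {(PowerSeries.X : PowerSeries N)}) :=
    IsAdicComplete.henselianRing _ _
  obtain ⟨ΘJ, hroot, hΘ⟩ := hH.is_henselian gJ hgJm
    (PowerSeries.C (pb.gen ^ p ^ J)) (by
      rw [Ideal.mem_span_singleton, PowerSeries.X_dvd_iff, hev, PowerSeries.constantCoeff_C, hgc,
        hFr, minpoly.aeval, zero_pow (pow_ne_zero _ (Fact.out : p.Prime).ne_zero)]) (by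
      refine IsUnit.map _ ?_
      rw [PowerSeries.isUnit_iff_constantCoeff, hev, PowerSeries.constantCoeff_C, ← derivative_map,
        hgc, derivative_map, derivative_map, hFr]
      exact ((hsep.aeval_derivative_ne_zero (minpoly.aeval M pb.gen)).isUnit).pow _)
  have hΘc : PowerSeries.constantCoeff ΘJ = pb.gen ^ p ^ J := by
    rw [Ideal.mem_span_singleton, PowerSeries.X_dvd_iff, map_sub, PowerSeries.constantCoeff_C,
      sub_eq_zero] at hΘ
    exact hΘ
  obtain ⟨Θ, hΘ1⟩ := (bijective_iterateFrobenius P p J).2 (𝔭.ι ΘJ)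
  have hΘcc : 𝔭.cc Θ = pb.gen := by
    apply (bijective_iterateFrobenius N p J).1
    rw [iterateFrobenius_def, iterateFrobenius_def, ← map_pow, ← iterateFrobenius_def, hΘ1,
      𝔭.cc_ι, hΘc]
  let : Algebra M P := τ.toAlgebra
  have hΘr : aeval Θ (minpoly M pb.gen) = 0 := by
    apply (bijective_iterateFrobenius P p J).1
    rw [map_zero]
    have h1 : aeval Θ (minpoly M pb.gen) = ((minpoly M pb.gen).map τ).eval Θ := by
      rw [eval_map]
      rfl
    rw [h1, ← eval₂_at_apply, ← eval_map, ← hgJ, hΘ1, eval_map, eval₂_at_apply]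
    have h2 : gJ.eval ΘJ = 0 := hroot
    rw [h2, map_zero]
  let σ : N →ₐ[M] P := pb.lift Θ hΘr
  have hσ1 : ∀ a : M, σ (algebraMap M N a) = τ a := fun a => σ.commutes a
  have hσg : σ pb.gen = Θ := pb.lift_gen Θ hΘr
  have hσc : ∀ a : N, 𝔭.cc (σ a) = a := by
    let φ : N →ₐ[M] N :=
      { toRingHom := 𝔭.cc.comp (σ : N →+* P)
        commutes' := fun a => by
          show 𝔭.cc (σ (algebraMap M N a)) = algebraMap M N a
          rw [hσ1, hτ] }
    have h1 : φ = AlgHom.id M N := by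
      apply pb.algHom_ext
      show 𝔭.cc (σ pb.gen) = pb.gen
      rw [hσg, hΘcc]
    intro a
    exact congrArg (fun f : N →ₐ[M] N => f a) h1
  refine ⟨(σ : N →+* P), hσ1, hσc, ?_⟩
  intro a
  -- algebraicity
  obtain ⟨j', f, hf⟩ := 𝔭.rad (σ a)
  obtain ⟨J', hJ', q', hq'⟩ := uniform 𝔭 ((minpoly M a).map τ) (hco _) j'
  have hia : IsIntegral M a := Algebra.IsIntegral.isIntegral a
  have hpow : (σ a) ^ p ^ J' = 𝔭.ι (f ^ p ^ (J' - j')) := by
    rw [map_pow, ← hf, ← pow_mul, ← pow_add, Nat.add_sub_cancel' hJ']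
  have hm' : q'.Monic := by
    refine monic_of_injective (f := iB 𝔭) (𝔭.inj.comp Subtype.val_injective) ?_
    rw [hq']
    exact ((minpoly.monic hia).map τ).map _
  have h2 : IsIntegral (Subalgebra.algebraicClosure (Polynomial N) (PowerSeries N))
      (f ^ p ^ (J' - j')) := by
    refine ⟨q', hm', ?_⟩
    apply 𝔭.inj
    rw [map_zero, hom_eval₂, ← hpow]
    have h3 : eval₂ (𝔭.ι.comp (algebraMap (Subalgebra.algebraicClosure (Polynomial N)
        (PowerSeries N)) (PowerSeries N))) ((σ a) ^ p ^ J') q' =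
        (q'.map (iB 𝔭)).eval ((σ a) ^ p ^ J') := by
      rw [eval_map]
      rfl
    rw [h3, hq', ← iterateFrobenius_def, eval_map, eval₂_at_apply]
    have h4 : ((minpoly M a).map τ).eval (σ a) = 0 := by
      rw [eval_map]
      have h5 : aeval (σ a) (minpoly M a) = 0 := by
        rw [aeval_algHom_apply, minpoly.aeval, map_zero]
      exact h5
    rw [h4, map_zero]
  exact ⟨J', f ^ p ^ (J' - j'), hpow, IsAlgebraic.restrictScalars (Polynomial N) h2.isAlgebraic⟩

end Pool.Agent.K9h85.AH
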