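import Pool.Agent.K9h85.AH.Stm7

/-! The zigzag over a perfect field (leaf ZIG3) -/

set_option autoImplicit false

open MvPolynomial

namespace Pool.Agent.K9h85.AH

theorem exists_basis3 {A N V : Type} [CommRing A] [IsDomain A] [Field N] [Algebra A N] [Finite V]
    (p : ℕ) [Fact p.Prime] (x : V → N)
    (hgen : ∀ a : N, ∃ (j : ℕ) (f g : MvPolynomial V A),
      aeval x g ≠ 0 ∧ a ^ p ^ j * aeval x g = aeval x f)
    (s0 : Set V) (h0 : AlgebraicIndependent A (fun v : s0 => x v)) :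
    ∃ s : Set V, s0 ⊆ s ∧ IsTranscendenceBasis A (fun v : s => x v) := by
  classical
  obtain ⟨s, hs⟩ : ∃ s : Set V, Maximal (fun s : Set V => s0 ⊆ s ∧ AlgebraicIndepOn A x s) s := by
    apply Set.Finite.exists_maximal
    · exact Set.toFinite _
    · exact ⟨s0, subset_rfl, h0⟩
  have hind : AlgebraicIndependent A (fun v : s => x v) := hs.1.2
  refine ⟨s, hs.1.1, ?_⟩
  rw [hind.isTranscendenceBasis_iff_isAlgebraic]
  rw [← Set.image_eq_range]
  have hxv : ∀ v, IsAlgebraic (Algebra.adjoin A (x '' s)) (x v) := by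
    intro v
    by_contra hcon
    have h1 : AlgebraicIndepOn A x (insert v s) := hs.1.2.insert hcon
    have h2 := hs.2 ⟨hs.1.1.trans (Set.subset_insert v s), h1⟩ (Set.subset_insert v s)
    have h3 : v ∈ s := h2 (Set.mem_insert v s)
    apply hcon
    exact isAlgebraic_algebraMap
      (⟨x v, Algebra.subset_adjoin ⟨v, h3, rfl⟩⟩ : Algebra.adjoin A (x '' s))
  have hf : ∀ f : MvPolynomial V A, IsAlgebraic (Algebra.adjoin A (x '' s)) (aeval x f) := by
    intro f
    induction f using MvPolynomial.induction_on with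
    | C a =>
      rw [aeval_C, IsScalarTower.algebraMap_apply A (Algebra.adjoin A (x '' s)) N]
      exact isAlgebraic_algebraMap _
    | add p q hp hq =>
      rw [map_add]
      exact hp.add hq
    | mul_X p v hp =>
      rw [map_mul, aeval_X]
      exact hp.mul (hxv v)
  constructor
  intro a
  obtain ⟨j, f, g, hg, hfg⟩ := hgen a
  have h1 : a ^ p ^ j = aeval x f * (aeval x g)⁻¹ := by
    rw [← hfg, mul_assoc, mul_inv_cancel₀ hg, mul_one]
  have hp : 0 < p ^ j := pow_pos (Fact.out : p.Prime).pos j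
  refine IsAlgebraic.of_pow hp ?_
  rw [h1]
  exact (hf f).mul (hf g).inv

theorem gd_iota {p : ℕ} {N : Type} [Field N] {P : Type} [CommRing P] (𝔭 : Perf p N P)
    {f : PowerSeries N} (hf : IsAlgebraic (Polynomial N) f) : Gd 𝔭 (𝔭.ι f) :=
  ⟨0, f, by rw [pow_zero, pow_one], hf⟩

theorem zig3 (ht : S_T3) : S_ZIG3 := by
  intro p _ n m s c0 N _ _ _ P _ _ _ _ 𝔭 A _ _ _ hinj x hx hI
  classical
  obtain ⟨y, hy⟩ : ∃ y : ℕ → Fin m → P, y = fun i c =>
      𝔭.ι (PowerSeries.C (x (Sum.inl (pa n 1, c))) +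
        if i % 2 = 1 ∧ c = c0 then PowerSeries.X else 0) := ⟨_, rfl⟩
  have hyc : ∀ i c, 𝔭.cc (y i c) = x (Sum.inl (pa n 1, c)) := by
    intro i c
    rw [hy]
    simp only
    rw [𝔭.cc_ι, map_add, PowerSeries.constantCoeff_C]
    split_ifs
    · rw [PowerSeries.constantCoeff_X, add_zero]
    · rw [map_zero, add_zero]
  have hya : ∀ i c, Gd 𝔭 (y i c) := by
    intro i c
    rw [hy]
    simp only
    refine gd_iota 𝔭 ?_
    split_ifs
    · exact (algC' _).add algX'
    · rw [add_zero]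
      exact algC' _
  let St := {σ : N →+* P // (∀ a : A, σ (algebraMap A N a) =
    𝔭.ι (PowerSeries.C (algebraMap A N a))) ∧ (∀ a, 𝔭.cc (σ a) = a) ∧ ∀ a, Gd 𝔭 (σ a)}
  have hstep : ∀ (i : ℕ) (σ : St), ∃ σ' : St, ∀ v ∈ pr n m (lb' i),
      σ'.1 (x (Sum.inl v)) = if v.1 = pa n 1 then y (i + 1) v.2 else σ.1 (x (Sum.inl v)) := by
    intro i σ
    obtain ⟨sb, hsb, hb⟩ := exists_basis3 p x hx _ (hI (lb' i))
    obtain ⟨σ', h1, h2, h3, h4⟩ := ht p N P 𝔭 A hinj _ x hx sb hb
      (fun v => Sum.elim (fun w : Fin (n + 3) × Fin m =>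
        if w.1 = pa n 1 then y (i + 1) w.2 else σ.1 (x (Sum.inl w)))
          (fun u => σ.1 (x (Sum.inr u))) v.1) (by
        rintro ⟨v | v, hv⟩
        · simp only [Sum.elim_inl]
          split_ifs with h
          · rw [hyc, ← h]
          · exact σ.2.2.1 _
        · simp only [Sum.elim_inr]
          exact σ.2.2.1 _) (by
        rintro ⟨v | v, hv⟩
        · simp only [Sum.elim_inl]
          split_ifs with h
          · exact hya _ _
          · exact σ.2.2.2 _
        · simp only [Sum.elim_inr]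
          exact σ.2.2.2 _)
    exact ⟨⟨σ', h1, h2, h4⟩, fun v hv => h3 ⟨Sum.inl v, hsb (Set.mem_image_of_mem _ hv)⟩⟩
  choose nxt hnxt using hstep
  let s0 : St := ⟨𝔭.ι.comp PowerSeries.C, fun a => rfl,
    fun a => (𝔭.cc_ι _).trans (PowerSeries.constantCoeff_C a), fun a => gd_iota 𝔭 (algC' a)⟩
  let W : ℕ → St := fun i => Nat.rec s0 nxt i
  have hW : ∀ i (j : Fin 3), j ≠ lb' i → ∀ c, (W (i + 1)).1 (x (Sum.inl (pa n j, c))) =
      if j = 1 then y (i + 1) c else (W i).1 (x (Sum.inl (pa n j, c))) := by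
    intro i j hj c
    have h1 := hnxt i (W i) (pa n j, c) (pa_mem hj c)
    refine h1.trans ?_
    by_cases h : j = 1
    · exact (if_pos (congrArg (pa n) h)).trans (if_pos h).symm
    · rw [if_neg (fun h2 => h (pa_inj h2)), if_neg h]
  have hy1 : ∀ i c, (W i).1 (x (Sum.inl (pa n 1, c))) = y i c := by
    intro i c
    cases i with
    | zero =>
      show 𝔭.ι (PowerSeries.C (x (Sum.inl (pa n 1, c)))) = y 0 c
      rw [hy]
      simp
    | succ i =>
      rw [hW i 1 (by rw [lb']; split_ifs <;> decide) c, if_pos rfl]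
  have hx0 : ∀ j c, (W (2 * j + 1)).1 (x (Sum.inl (pa n 0, c))) =
      (W (2 * j)).1 (x (Sum.inl (pa n 0, c))) := by
    intro j c
    rw [hW (2 * j) 0 (by rw [lb', if_pos (by omega)]; decide) c, if_neg (by decide)]
  have hx2 : ∀ j c, (W (2 * j + 2)).1 (x (Sum.inl (pa n 2, c))) =
      (W (2 * j + 1)).1 (x (Sum.inl (pa n 2, c))) := by
    intro j c
    rw [hW (2 * j + 1) 2 (by rw [lb', if_neg (by omega)]; decide) c, if_neg (by decide)]
  exact ⟨fun i => (W i).1, fun i => (W i).2.1, fun i => (W i).2.2.1, fun i => (W i).2.2.2,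
    fun a => rfl, fun i c => by rw [hy1, hy], hx0, hx2⟩

end Pool.Agent.K9h85.AH
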