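import Pool.Agent.K9h85.AH.Stm8

/-! Leaf ROB (second copy) -/

set_option autoImplicit false

open MvPolynomial

namespace Pool.Agent.K9h85.AH.Rob24

open Pool.Agent.K9h85.AH

structure WalkN {n m l s : ℕ} {k : Type} [Field k] (lam : Fin (n + 3) → Fin l) (c0 : Fin m)
    (e : ℕ) (b : Fin m → k) (a : k) (y : ℕ → (Fin (n + 3) × Fin m) ⊕ Fin s → k) : Prop where
  dis : ∀ i ≤ e, ∀ j ≤ e, ∀ q q', q ≠ q' → lam q = lam q' →
    ∃ c, y i (Sum.inl (q, c)) ≠ y j (Sum.inl (q', c))
  mid : ∀ i ≤ e, ∀ c, y i (Sum.inl (pa n 1, c)) = b c + if i % 2 = 1 ∧ c = c0 then a else 0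
  fst : ∀ j, 2 * j + 1 ≤ e → ∀ c,
    y (2 * j + 1) (Sum.inl (pa n 0, c)) = y (2 * j) (Sum.inl (pa n 0, c))
  snd : ∀ j, 2 * j + 2 ≤ e → ∀ c,
    y (2 * j + 2) (Sum.inl (pa n 2, c)) = y (2 * j + 1) (Sum.inl (pa n 2, c))

/-- the shift of a coordinate -/
def sh {m l : ℕ} {k : Type} [Field k] (c0 : Fin m) (t : k) :
    (Fin l × (Fin m → k)) ≃ (Fin l × (Fin m → k)) :=
  Equiv.prodCongr (Equiv.refl _) (Equiv.addRight fun c => if c = c0 then t else 0)

lemma sh_apply {m l : ℕ} {k : Type} [Field k] (c0 : Fin m) (t : k) (a : Fin l) (b : Fin m → k) :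
    sh c0 t (a, b) = (a, fun c => b c + if c = c0 then t else 0) := rfl

section

variable {n m l s : ℕ} {k : Type} [Field k] [DecidableEq k] {lam : Fin (n + 3) → Fin l}
  {c0 : Fin m} {e : ℕ} {b : Fin m → k} {a : k} {y : ℕ → (Fin (n + 3) × Fin m) ⊕ Fin s → k}

/-- the edges -/
def ww (lam : Fin (n + 3) → Fin l) (y : ℕ → (Fin (n + 3) × Fin m) ⊕ Fin s → k) (j : ℕ) :
    Finset (Fin l × (Fin m → k)) := edge lam (fun v => y j (Sum.inl v))

/-- the common vertices -/
def wv (lam : Fin (n + 3) → Fin l) (y : ℕ → (Fin (n + 3) × Fin m) ⊕ Fin s → k) (j : ℕ) :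
    Fin l × (Fin m → k) :=
  if j % 2 = 0 then (lam (pa n 0), fun c => y j (Sum.inl (pa n 0, c)))
    else (lam (pa n 2), fun c => y j (Sum.inl (pa n 2, c)))

lemma ww_mem (q : Fin (n + 3)) (i : ℕ) :
    ((lam q, fun c => y i (Sum.inl (q, c))) : Fin l × (Fin m → k)) ∈ ww lam y i := by
  rw [ww, edge]
  exact Finset.mem_image_of_mem _ (Finset.mem_univ q)

lemma WalkN.ne (h : WalkN lam c0 e b a y) {i j : ℕ} (hi : i ≤ e) (hj : j ≤ e)
    {q q' : Fin (n + 3)} (hq : q ≠ q') :
    ((lam q, fun c => y i (Sum.inl (q, c))) : Fin l × (Fin m → k)) ≠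
      (lam q', fun c => y j (Sum.inl (q', c))) := by
  intro h0
  obtain ⟨h1, h2⟩ := Prod.mk.inj h0
  obtain ⟨c, hc⟩ := h.dis i hi j hj q q' hq h1
  exact hc (congrFun h2 c)

lemma WalkN.bb (h : WalkN lam c0 e b a y) {j : ℕ} (hj : j ≤ e) :
    (if j % 2 = 0 then ((lam (pa n 1), b) : Fin l × (Fin m → k))
      else sh c0 a (lam (pa n 1), b)) = (lam (pa n 1), fun c => y j (Sum.inl (pa n 1, c))) := by
  by_cases hj2 : j % 2 = 0
  · rw [if_pos hj2]
    congr 1
    funext c
    rw [h.mid j hj, if_neg (fun h => by omega), add_zero]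
  · rw [if_neg hj2, sh_apply]
    congr 1
    funext c
    rw [h.mid j hj]
    have hj' : j % 2 = 1 := by omega
    simp only [hj', true_and]

lemma WalkN.card (h : WalkN lam c0 e b a y) {j : ℕ} (hj : j ≤ e) : (ww lam y j).card = n + 3 :=
  edge_card lam _ fun q q' hq hl => h.dis j hj j hj q q' hq hl

lemma WalkN.v (h : WalkN lam c0 e b a y) {j : ℕ} (hj : j < e) :
    wv lam y j ∈ ww lam y j ∧ wv lam y j ∈ ww lam y (j + 1) ∧
      wv lam y j ≠ (lam (pa n 1), b) ∧ wv lam y j ≠ sh c0 a (lam (pa n 1), b) := by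
  have hb0 := h.bb (j := 0) (Nat.zero_le _)
  have hb1 := h.bb (j := 1) (by omega)
  rw [if_pos rfl] at hb0
  rw [if_neg (by norm_num)] at hb1
  have h01 : pa n 0 ≠ pa n 1 := fun h => absurd (pa_inj h) (by decide)
  have h21 : pa n 2 ≠ pa n 1 := fun h => absurd (pa_inj h) (by decide)
  rcases Nat.even_or_odd' j with ⟨t, rfl | rfl⟩
  · have hv : wv lam y (2 * t) = (lam (pa n 0), fun c => y (2 * t) (Sum.inl (pa n 0, c))) :=
      if_pos (by omega)
    have hv' : wv lam y (2 * t) = (lam (pa n 0), fun c => y (2 * t + 1) (Sum.inl (pa n 0, c))) := by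
      rw [hv]
      congr 1
      funext c
      exact (h.fst t (by omega) c).symm
    refine ⟨?_, ?_, ?_, ?_⟩
    · rw [hv]
      exact ww_mem _ _
    · rw [hv']
      exact ww_mem _ _
    · rw [hv, hb0]
      exact h.ne (by omega) (by omega) h01
    · rw [hv, hb1]
      exact h.ne (by omega) (by omega) h01
  · have hv : wv lam y (2 * t + 1) = (lam (pa n 2), fun c => y (2 * t + 1) (Sum.inl (pa n 2, c))) :=
      if_neg (by omega)
    have hv' : wv lam y (2 * t + 1) =
        (lam (pa n 2), fun c => y (2 * t + 1 + 1) (Sum.inl (pa n 2, c))) := by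
      rw [hv]
      congr 1
      funext c
      exact (h.snd t (by omega) c).symm
    refine ⟨?_, ?_, ?_, ?_⟩
    · rw [hv]
      exact ww_mem _ _
    · rw [hv']
      exact ww_mem _ _
    · rw [hv, hb0]
      exact h.ne (by omega) (by omega) h21
    · rw [hv, hb1]
      exact h.ne (by omega) (by omega) h21

lemma WalkN.vv (h : WalkN lam c0 e b a y) {j : ℕ} (hj : j + 1 < e) :
    wv lam y j ≠ wv lam y (j + 1) := by
  have h02 : pa n 0 ≠ pa n 2 := fun h => absurd (pa_inj h) (by decide)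
  rw [wv, wv]
  by_cases hj2 : j % 2 = 0
  · rw [if_pos hj2, if_neg (by omega)]
    exact h.ne (by omega) (by omega) h02
  · rw [if_neg hj2, if_pos (by omega)]
    exact h.ne (by omega) (by omega) h02.symm

end

/-- edges with two common vertices -/
lemma two_common {V : Type} [DecidableEq V] {r : ℕ} (a a' : V) (haa : a ≠ a') (S : Finset (Finset V))
    (hS : ∀ u ∈ S, u.card = r + 2 ∧ a ∈ u ∧ a' ∈ u) : (S.biUnion id).card ≤ r * S.card + 2 := by
  have h1 : S.biUnion id ⊆ {a, a'} ∪ S.biUnion (fun u => u \ {a, a'}) := by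
    intro z hz
    rw [Finset.mem_biUnion] at hz
    obtain ⟨u, hu, hzu⟩ := hz
    by_cases hza : z ∈ ({a, a'} : Finset V)
    · exact Finset.mem_union_left _ hza
    · exact Finset.mem_union_right _ (Finset.mem_biUnion.2 ⟨u, hu, Finset.mem_sdiff.2 ⟨hzu, hza⟩⟩)
  refine (Finset.card_le_card h1).trans ((Finset.card_union_le _ _).trans ?_)
  have h2 : ({a, a'} : Finset V).card = 2 := Finset.card_pair haa
  have h3 : (S.biUnion (fun u => u \ {a, a'})).card ≤ S.card * r := by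
    refine Finset.card_biUnion_le_card_mul _ _ _ fun u hu => ?_
    obtain ⟨hu1, hu2, hu3⟩ := hS u hu
    have hsub : ({a, a'} : Finset V) ⊆ u := by
      intro z hz
      rw [Finset.mem_insert, Finset.mem_singleton] at hz
      rcases hz with rfl | rfl
      · exact hu2
      · exact hu3
    rw [Finset.card_sdiff_of_subset hsub, h2, hu1]
    omega
  rw [h2, mul_comm r]
  omega

/-- counting pairs -/
lemma count_pairs {k α : Type} [Fintype k] [Nonempty k] [DecidableEq k] [DecidableEq α] {m : ℕ}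
    (Es : Finset α) (T : α → Finset k) (R : α → k → Prop) (f : α → Fin m → k) (C e M : ℕ)
    (hT : ∀ u ∈ Es, Fintype.card k ≤ C * (T u).card)
    (hbad : ∀ t : k, ∀ U ⊆ Es, (∀ u ∈ U, t ∈ T u ∧ ¬ R u t) → U.card ≤ M)
    (hE : C * (M + e * Fintype.card k ^ m) < Es.card) :
    ∃ (b : Fin m → k) (s : k), ∃ Ps ⊆ Es, e ≤ Ps.card ∧ ∀ u ∈ Ps, s ∈ T u ∧ R u s ∧ f u = b := by
  classical
  by_contra hcon
  push Not at hcon
  have h1 : ∀ (b : Fin m → k) (s : k),
      (Es.filter fun u => s ∈ T u ∧ R u s ∧ f u = b).card ≤ e := by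
    intro b s
    by_contra h
    push Not at h
    obtain ⟨u, hu, hu2⟩ := hcon b s (Es.filter fun u => s ∈ T u ∧ R u s ∧ f u = b)
      (Finset.filter_subset _ _) h.le
    rw [Finset.mem_filter] at hu
    exact hu2 hu.2.1 hu.2.2.1 hu.2.2.2
  have h2 : ∑ u ∈ Es, (T u).card ≤ ∑ s : k, (M + ∑ b : Fin m → k,
      (Es.filter fun u => s ∈ T u ∧ R u s ∧ f u = b).card) := by
    have h3 : ∑ u ∈ Es, (T u).card = ∑ s : k, (Es.filter fun u => s ∈ T u).card := by
      have h4 : ∀ s : k, (Es.filter fun u => s ∈ T u).card = ∑ u ∈ Es, if s ∈ T u then 1 else 0 :=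
        fun s => Finset.card_filter _ _
      rw [Finset.sum_congr rfl fun s _ => h4 s, Finset.sum_comm]
      refine Finset.sum_congr rfl fun u _ => ?_
      simp
    rw [h3]
    refine Finset.sum_le_sum fun s _ => ?_
    have h5 : (Es.filter fun u => s ∈ T u) ⊆ (Es.filter fun u => s ∈ T u ∧ ¬ R u s) ∪
        (Finset.univ : Finset (Fin m → k)).biUnion
          fun b => Es.filter fun u => s ∈ T u ∧ R u s ∧ f u = b := by
      intro u hu
      rw [Finset.mem_filter] at hu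
      by_cases hR : R u s
      · exact Finset.mem_union_right _ (Finset.mem_biUnion.2 ⟨f u, Finset.mem_univ _,
          Finset.mem_filter.2 ⟨hu.1, hu.2, hR, rfl⟩⟩)
      · exact Finset.mem_union_left _ (Finset.mem_filter.2 ⟨hu.1, hu.2, hR⟩)
    refine (Finset.card_le_card h5).trans ((Finset.card_union_le _ _).trans ?_)
    refine add_le_add (hbad s _ (Finset.filter_subset _ _) fun u hu => ?_) Finset.card_biUnion_le
    rw [Finset.mem_filter] at hu
    exact hu.2
  have h3 : ∑ u ∈ Es, (T u).card ≤ Fintype.card k * (M + Fintype.card k ^ m * e) := by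
    refine h2.trans ?_
    have h4 : ∀ s ∈ (Finset.univ : Finset k), (M + ∑ b : Fin m → k,
        (Es.filter fun u => s ∈ T u ∧ R u s ∧ f u = b).card) ≤ M + Fintype.card k ^ m * e := by
      intro s _
      refine add_le_add le_rfl ((Finset.sum_le_card_nsmul _ _ e fun b _ => h1 b s).trans ?_)
      rw [Finset.card_univ, Fintype.card_fun, Fintype.card_fin, smul_eq_mul]
    refine (Finset.sum_le_card_nsmul _ _ _ h4).trans ?_
    rw [Finset.card_univ, smul_eq_mul]
  have h4 : Es.card * Fintype.card k ≤ C * ∑ u ∈ Es, (T u).card := by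
    rw [Finset.mul_sum, ← smul_eq_mul, ← Finset.sum_const]
    exact Finset.sum_le_sum hT
  have hq : 0 < Fintype.card k := Fintype.card_pos
  have h5 : Es.card * Fintype.card k ≤ C * (M + e * Fintype.card k ^ m) * Fintype.card k := by
    calc Es.card * Fintype.card k ≤ C * ∑ u ∈ Es, (T u).card := h4
      _ ≤ C * (Fintype.card k * (M + Fintype.card k ^ m * e)) := Nat.mul_le_mul_left _ h3
      _ = C * (M + e * Fintype.card k ^ m) * Fintype.card k := by ring
  have h6 := Nat.le_of_mul_le_mul_right h5 hq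
  omega

lemma small_card' {k : Type} [Fintype k] [DecidableEq k] {l m : ℕ}
    (Es : Finset (Finset (Fin l × (Fin m → k)))) (C : ℕ) (h : Fintype.card k < C) :
    Es.card ≤ 2 ^ (l * C ^ m) := by
  refine (Finset.card_le_univ Es).trans ?_
  rw [Fintype.card_finset, Fintype.card_prod, Fintype.card_fun, Fintype.card_fin, Fintype.card_fin]
  exact Nat.pow_le_pow_right (by norm_num)
    (Nat.mul_le_mul_left _ (Nat.pow_le_pow_left h.le _))

theorem rob (h1 : S_CHG) (h2 : S_CB2) : S_ROB := by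
  intro n m s l lam c0 e A B _ _ _ x hWalks
  classical
  obtain ⟨D, hD, C, hC⟩ := hWalks
  obtain ⟨M, hM⟩ : ∃ M : ℕ, M = (e + 1) * ((n + 3) * ((n + 3) * e) ^ e) := ⟨_, rfl⟩
  refine ⟨D, hD, C * (M + e) + 2 ^ (l * C ^ m), ?_⟩
  intro k _ _ _ φ0 Es Bad hEs hcard
  have hq : 0 < Fintype.card k := Fintype.card_pos
  have hm : 1 ≤ m := by
    rcases Nat.eq_zero_or_pos m with h | h
    · subst h
      exact c0.elim0
    · exact h
  have hqm : Fintype.card k ^ m ≤ Fintype.card k ^ (2 * m - 1) :=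
    Nat.pow_le_pow_right hq (by omega)
  have hq2 : 0 < Fintype.card k ^ (2 * m - 1) := pow_pos hq _
  rcases Nat.eq_zero_or_pos e with he0 | he0
  · refine ⟨∅, by rw [he0, Finset.card_empty], ?_, fun u hu => absurd hu (Finset.notMem_empty _)⟩
    rw [Finset.biUnion_empty, Finset.card_empty]
    exact Nat.zero_le _
  by_cases hCk : Fintype.card k < C
  · exfalso
    have h3 := small_card' Es C hCk
    have h4 : 2 ^ (l * C ^ m) ≤ (C * (M + e) + 2 ^ (l * C ^ m)) *
        (Bad.card + Fintype.card k ^ (2 * m - 1)) :=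
      (Nat.le_add_left _ _).trans (Nat.le_mul_of_pos_right _ (by omega))
    omega
  push Not at hCk
  by_contra hcon
  -- the good edges
  obtain ⟨G, hG⟩ : ∃ G : Finset (Finset (Fin l × (Fin m → k))), G = Finset.univ.filter fun u =>
    u ∉ Bad ∧ u.card = n + 3 ∧ ∃ y : (Fin (n + 3) × Fin m) ⊕ Fin s → k,
      u = edge lam (fun v => y (Sum.inl v)) ∧
        ∀ f : MvPolynomial ((Fin (n + 3) × Fin m) ⊕ Fin s) A, aeval x f = 0 →
          eval₂ φ0 y f = 0 := ⟨_, rfl⟩
  have hGm : ∀ u, u ∈ G ↔ (u ∉ Bad ∧ u.card = n + 3 ∧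
      ∃ y : (Fin (n + 3) × Fin m) ⊕ Fin s → k, u = edge lam (fun v => y (Sum.inl v)) ∧
        ∀ f : MvPolynomial ((Fin (n + 3) × Fin m) ⊕ Fin s) A, aeval x f = 0 →
          eval₂ φ0 y f = 0) := by
    intro u
    rw [hG, Finset.mem_filter]
    exact ⟨fun h => h.2, fun h => ⟨Finset.mem_univ _, h⟩⟩
  have hno : ∀ S ⊆ G, S.card = e → ¬ (S.biUnion id).card ≤ (n + 1) * e + 3 := by
    intro S hS hSe hSu
    exact hcon ⟨S, hSe, hSu, fun u hu => (hGm u).1 (hS hu)⟩
  have hpair : ∀ a a' : Fin l × (Fin m → k), a ≠ a' →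
      (G.filter fun g => a ∈ g ∧ a' ∈ g).card ≤ e := by
    intro a a' haa
    by_contra h
    push Not at h
    obtain ⟨S, hS, hSe⟩ := Finset.exists_subset_card_eq h.le
    refine hno S (hS.trans (Finset.filter_subset _ _)) hSe ?_
    have h3 := two_common (r := n + 1) a a' haa S (by
      intro u hu
      have h4 := Finset.mem_filter.1 (hS hu)
      exact ⟨((hGm u).1 h4.1).2.1, h4.2⟩)
    rw [hSe] at h3
    omega
  -- the walks
  have hex : ∀ u ∈ Es, ∃ (T : Finset k) (b : Fin m → k), Fintype.card k ≤ C * T.card ∧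
      ∀ a ∈ T, a ≠ 0 ∧ ∃ y : ℕ → (Fin (n + 3) × Fin m) ⊕ Fin s → k,
        WalkN lam c0 e b a y ∧ u = ww lam y 0 ∧
        ∀ i ≤ e, ∀ f : MvPolynomial ((Fin (n + 3) × Fin m) ⊕ Fin s) A,
          aeval x f = 0 → eval₂ φ0 (y i) f = 0 := by
    intro u hu
    obtain ⟨-, -, φ, hφ0, hφD, rfl⟩ := hEs u hu
    obtain ⟨T, hT, hTs⟩ := hC k φ hφD hCk
    refine ⟨T, fun c => φ (x (Sum.inl (pa n 1, c))), hT, fun a ha => ?_⟩
    obtain ⟨ha0, y, hy1, hy2, hy3, hy4, hy5, hy6⟩ := hTs a ha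
    refine ⟨ha0, y, ⟨hy3, hy4, hy5, hy6⟩, ?_, ?_⟩
    · rw [ww]
      congr 1
      funext v
      exact (hy2 _).symm
    · intro i hi f hf
      have h3 := hy1 i hi f hf
      rw [hφ0] at h3
      exact h3
  choose! T b hT hTy using hex
  have hTy' : ∀ u ∈ Es, ∀ a ∈ T u, a ≠ 0 := fun u hu a ha => (hTy u hu a ha).1
  have hTy2 : ∀ u ∈ Es, ∀ a ∈ T u, ∃ y : ℕ → (Fin (n + 3) × Fin m) ⊕ Fin s → k,
        WalkN lam c0 e (b u) a y ∧ u = ww lam y 0 ∧
        ∀ i ≤ e, ∀ f : MvPolynomial ((Fin (n + 3) × Fin m) ⊕ Fin s) A,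
          aeval x f = 0 → eval₂ φ0 (y i) f = 0 := fun u hu a ha => (hTy u hu a ha).2
  choose! y hy1 hy2 hy3 using hTy2
  have hgood : ∀ u ∈ Es, ∀ a ∈ T u, ∀ i ≤ e, ww lam (y u a) i ∉ Bad → ww lam (y u a) i ∈ G := by
    intro u hu a ha i hi hb
    exact (hGm _).2 ⟨hb, (hy1 u hu a ha).card hi, y u a i, rfl, hy3 u hu a ha i hi⟩
  obtain ⟨b', a, Ps, hPs, hPe, hPa⟩ := count_pairs Es T
    (fun u a => ∀ j ≤ e, ww lam (y u a) j ∉ Bad) b C e (M * Bad.card) hT (by
      intro t U hU hUt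
      have h3 := h1 (Fin l × (Fin m → k)) (n + 3) e (sh c0 t) G Bad U
        (fun u => ww lam (y u t)) (fun u => (lam (pa n 1), b u)) (fun u => wv lam (y u t))
        (by omega) he0 hpair
        (fun u hu => (hy2 u (hU hu) t (hUt u hu).1).symm)
        (fun u hu j hj => (((hy1 u (hU hu) t (hUt u hu).1).card hj)).le)
        (fun u hu j hj => by
          have h4 := (hy1 u (hU hu) t (hUt u hu).1).bb hj
          rw [h4]
          exact ww_mem _ _)
        (fun u hu j hj => (hy1 u (hU hu) t (hUt u hu).1).v hj)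
        (fun u hu => by
          have h4 := (hUt u hu).2
          push Not at h4
          have h5 : ∃ j, j ≤ e ∧ ww lam (y u t) j ∈ Bad := h4
          refine ⟨Nat.find h5, (Nat.find_spec h5).1, (Nat.find_spec h5).2, fun i hi => ?_⟩
          have h6 := Nat.find_min h5 hi
          have hie : i ≤ e := hi.le.trans (Nat.find_spec h5).1
          exact hgood u (hU hu) t (hUt u hu).1 i hie fun h7 => h6 ⟨hie, h7⟩)
      rw [hM]
      exact h3) (by
    refine lt_of_le_of_lt ?_ hcard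
    have h3 : M * Bad.card + e * Fintype.card k ^ m ≤
        (M + e) * (Bad.card + Fintype.card k ^ (2 * m - 1)) := by
      have h4 : e * Fintype.card k ^ m ≤ e * Fintype.card k ^ (2 * m - 1) :=
        Nat.mul_le_mul_left _ hqm
      have h5 : (M + e) * (Bad.card + Fintype.card k ^ (2 * m - 1)) = M * Bad.card +
        M * Fintype.card k ^ (2 * m - 1) + e * Bad.card + e * Fintype.card k ^ (2 * m - 1) := by
        ring
      rw [h5]
      have h6 : 0 ≤ M * Fintype.card k ^ (2 * m - 1) := Nat.zero_le _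
      have h7 : 0 ≤ e * Bad.card := Nat.zero_le _
      omega
    calc C * (M * Bad.card + e * Fintype.card k ^ m) ≤
          C * ((M + e) * (Bad.card + Fintype.card k ^ (2 * m - 1))) := Nat.mul_le_mul_left _ h3
      _ = C * (M + e) * (Bad.card + Fintype.card k ^ (2 * m - 1)) := by ring
      _ ≤ (C * (M + e) + 2 ^ (l * C ^ m)) * (Bad.card + Fintype.card k ^ (2 * m - 1)) :=
          Nat.mul_le_mul_right _ (Nat.le_add_right _ _))
  have hPne : Ps.Nonempty := by
    rw [← Finset.card_pos]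
    omega
  obtain ⟨P0, hP0⟩ := hPne
  have ha0 : a ≠ 0 := hTy' P0 (hPs hP0) a (hPa P0 hP0).1
  have hw : ∀ Q ∈ Ps, WalkN lam c0 e b' a (y Q a) := by
    intro Q hQ
    have h3 := hy1 Q (hPs hQ) a (hPa Q hQ).1
    rw [(hPa Q hQ).2.2] at h3
    exact h3
  obtain ⟨S, hS1, hS2, hS3⟩ := h2 (Fin l × (Fin m → k)) (n + 3) e (by omega) (lam (pa n 1), b')
    (sh c0 a (lam (pa n 1), b')) (by
      rw [sh_apply]
      intro h
      have h3 := congrFun (Prod.mk.inj h).2 c0
      simp only [if_true] at h3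
      exact ha0 (by simpa using h3.symm)) Ps (fun Q => ww lam (y Q a)) (fun Q => wv lam (y Q a)) hPe
    (fun Q hQ => (hy2 Q (hPs hQ) a (hPa Q hQ).1).symm)
    (fun Q hQ j hj => (hw Q hQ).card hj)
    (fun Q hQ j hj => by
      have h4 := (hw Q hQ).bb hj
      rw [h4]
      exact ww_mem _ _)
    (fun Q hQ j hj => (hw Q hQ).v hj)
    (fun Q hQ j hj => (hw Q hQ).vv hj)
  refine hno S ?_ hS1 ?_
  · intro u hu
    obtain ⟨Q, hQ, j, hj, rfl⟩ := hS3 u hu
    exact hgood Q (hPs hQ) a (hPa Q hQ).1 j hj ((hPa Q hQ).2.1 j hj)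
  · rw [show n + 3 - 2 = n + 1 by omega] at hS2
    exact hS2

end Pool.Agent.K9h85.AH.Rob24
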