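import Pool.Agent.K9h85.AH.Stm8

/-! Leaf W0: walks of edges in characteristic zero -/

set_option autoImplicit false

open MvPolynomial

namespace Pool.Agent.K9h85.AH

theorem zig0 (ht : S_T) (n m s : ℕ) (c0 : Fin m) {A L : Type} [CommRing A] [IsDomain A]
    [Field L] [CharZero L] [Algebra A L] (hinj : Function.Injective (algebraMap A L))
    (x : (Fin (n + 3) × Fin m) ⊕ Fin s → L)
    (hx : ∀ a : L, ∃ f g : MvPolynomial ((Fin (n + 3) × Fin m) ⊕ Fin s) A,
      aeval x g ≠ 0 ∧ a * aeval x g = aeval x f)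
    (hI : ∀ i : Fin 3, AlgebraicIndependent A
      (fun v : (Sum.inl '' pr n m i : Set ((Fin (n + 3) × Fin m) ⊕ Fin s)) => x v)) :
    ∃ W : ℕ → (L →+* PowerSeries L),
      (∀ i (a : A), W i (algebraMap A L a) = PowerSeries.C (algebraMap A L a)) ∧
      (∀ i a, PowerSeries.constantCoeff (W i a) = a) ∧
      (∀ i a, IsAlgebraic (Polynomial L) (W i a)) ∧
      (∀ a, W 0 a = PowerSeries.C a) ∧
      (∀ i c, W i (x (Sum.inl (pa n 1, c))) = PowerSeries.C (x (Sum.inl (pa n 1, c))) +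
        if i % 2 = 1 ∧ c = c0 then PowerSeries.X else 0) ∧
      (∀ j c, W (2 * j + 1) (x (Sum.inl (pa n 0, c))) = W (2 * j) (x (Sum.inl (pa n 0, c)))) ∧
      (∀ j c, W (2 * j + 2) (x (Sum.inl (pa n 2, c))) = W (2 * j + 1) (x (Sum.inl (pa n 2, c)))) := by
  classical
  obtain ⟨y, hy⟩ : ∃ y : ℕ → Fin m → PowerSeries L, y = fun i c =>
      PowerSeries.C (x (Sum.inl (pa n 1, c))) +
        if i % 2 = 1 ∧ c = c0 then PowerSeries.X else 0 := ⟨_, rfl⟩
  have hyc : ∀ i c, PowerSeries.constantCoeff (y i c) = x (Sum.inl (pa n 1, c)) := by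
    intro i c
    rw [hy]
    simp only
    rw [map_add, PowerSeries.constantCoeff_C]
    split_ifs
    · rw [PowerSeries.constantCoeff_X, add_zero]
    · rw [map_zero, add_zero]
  have hya : ∀ i c, IsAlgebraic (Polynomial L) (y i c) := by
    intro i c
    rw [hy]
    simp only
    split_ifs
    · exact (algC' _).add algX'
    · rw [add_zero]
      exact algC' _
  let St := {σ : L →+* PowerSeries L // (∀ a : A, σ (algebraMap A L a) =
    PowerSeries.C (algebraMap A L a)) ∧ (∀ a, PowerSeries.constantCoeff (σ a) = a) ∧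
    ∀ a, IsAlgebraic (Polynomial L) (σ a)}
  have hstep : ∀ (i : ℕ) (σ : St), ∃ σ' : St, ∀ v ∈ pr n m (lb' i),
      σ'.1 (x (Sum.inl v)) = if v.1 = pa n 1 then y (i + 1) v.2 else σ.1 (x (Sum.inl v)) := by
    intro i σ
    obtain ⟨sb, hsb, hb⟩ := exists_basis x hx _ (hI (lb' i))
    obtain ⟨σ', h1, h2, h3, h4⟩ := ht A L hinj _ x hx sb hb
      (fun v => Sum.elim (fun w : Fin (n + 3) × Fin m =>
        if w.1 = pa n 1 then y (i + 1) w.2 else σ.1 (x (Sum.inl w)))
          (fun u => σ.1 (x (Sum.inr u))) v.1) (by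
        rintro ⟨v | v, hv⟩
        · simp only [Sum.elim_inl]
          split_ifs with h
          · rw [hyc, ← h]
          · exact σ.2.2.1 _
        · simp only [Sum.elim_inr]
          exact σ.2.2.1 _) (by
        rintro ⟨v | v, hv⟩
        · simp only [Sum.elim_inl]
          split_ifs with h
          · exact hya _ _
          · exact σ.2.2.2 _
        · simp only [Sum.elim_inr]
          exact σ.2.2.2 _)
    exact ⟨⟨σ', h1, h2, h4⟩, fun v hv => h3 ⟨Sum.inl v, hsb (Set.mem_image_of_mem _ hv)⟩⟩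
  choose nxt hnxt using hstep
  let s0 : St := ⟨PowerSeries.C, fun a => rfl, fun a => PowerSeries.constantCoeff_C a,
    fun a => algC' a⟩
  let W : ℕ → St := fun i => Nat.rec s0 nxt i
  have hW : ∀ i (j : Fin 3), j ≠ lb' i → ∀ c, (W (i + 1)).1 (x (Sum.inl (pa n j, c))) =
      if j = 1 then y (i + 1) c else (W i).1 (x (Sum.inl (pa n j, c))) := by
    intro i j hj c
    have h1 := hnxt i (W i) (pa n j, c) (pa_mem hj c)
    refine h1.trans ?_
    by_cases h : j = 1
    · exact (if_pos (congrArg (pa n) h)).trans (if_pos h).symm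
    · rw [if_neg (fun h2 => h (pa_inj h2)), if_neg h]
  have hy1 : ∀ i c, (W i).1 (x (Sum.inl (pa n 1, c))) = y i c := by
    intro i c
    cases i with
    | zero =>
      show PowerSeries.C (x (Sum.inl (pa n 1, c))) = y 0 c
      rw [hy]
      simp
    | succ i =>
      rw [hW i 1 (by rw [lb']; split_ifs <;> decide) c, if_pos rfl]
  have hx0 : ∀ j c, (W (2 * j + 1)).1 (x (Sum.inl (pa n 0, c))) =
      (W (2 * j)).1 (x (Sum.inl (pa n 0, c))) := by
    intro j c
    rw [hW (2 * j) 0 (by rw [lb', if_pos (by omega)]; decide) c, if_neg (by decide)]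
  have hx2 : ∀ j c, (W (2 * j + 2)).1 (x (Sum.inl (pa n 2, c))) =
      (W (2 * j + 1)).1 (x (Sum.inl (pa n 2, c))) := by
    intro j c
    rw [hW (2 * j + 1) 2 (by rw [lb', if_neg (by omega)]; decide) c, if_neg (by decide)]
  exact ⟨fun i => (W i).1, fun i => (W i).2.1, fun i => (W i).2.2.1, fun i => (W i).2.2.2,
    fun a => rfl, fun i c => by rw [hy1, hy], hx0, hx2⟩

theorem w0 (ht : S_T) : S_W0 := by
  intro n m s l lam c0 e A B _ _ _ _ _ _ hinj x hx hdis hI
  classical
  have hinj0 : Function.Injective (algebraMap B (FractionRing B)) := IsFractionRing.injective B _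
  have hCZ : CharZero (FractionRing B) := charZero_of_injective_algebraMap hinj0
  have hinjL : Function.Injective (algebraMap A (FractionRing B)) := by
    rw [IsScalarTower.algebraMap_eq A B (FractionRing B)]
    exact hinj0.comp hinj
  have hae : ∀ f : MvPolynomial ((Fin (n + 3) × Fin m) ⊕ Fin s) A,
      aeval (fun v => algebraMap B (FractionRing B) (x v)) f =
        algebraMap B (FractionRing B) (aeval x f) := by
    intro f
    exact MvPolynomial.aeval_algebraMap_apply (FractionRing B) x f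
  obtain ⟨W, hWA, hWc, hWa, hWz, hW1, hW0, hW2⟩ := zig0 ht n m s c0 hinjL
    (fun v => algebraMap B (FractionRing B) (x v)) (by
      intro a
      obtain ⟨b1, b2, hb2, hab⟩ := IsFractionRing.div_surjective (A := B) a
      obtain ⟨f1, hf1⟩ := hx b1
      obtain ⟨f2, hf2⟩ := hx b2
      have hb2'' : algebraMap B (FractionRing B) b2 ≠ 0 := by
        rw [Ne, map_eq_zero_iff _ hinj0]
        exact nonZeroDivisors.ne_zero hb2
      refine ⟨f1, f2, ?_, ?_⟩
      · rw [hae, hf2]
        exact hb2''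
      · rw [hae, hae, hf1, hf2, ← hab, div_mul_cancel₀ _ hb2'']) hI
  have hdis' : ∀ q q', ∃ c : Fin m, q ≠ q' → lam q = lam q' →
      x (Sum.inl (q, c)) ≠ x (Sum.inl (q', c)) := by
    intro q q'
    by_cases h : q ≠ q' ∧ lam q = lam q'
    · obtain ⟨c, hc⟩ := hdis q q' h.1 h.2
      exact ⟨c, fun _ _ => hc⟩
    · exact ⟨c0, fun h1 h2 => absurd ⟨h1, h2⟩ h⟩
  choose cc hcc using hdis'
  obtain ⟨D, hD, C, hC⟩ := engine2 (A := A) x (fun i : Fin (e + 1) => W i) (fun i => hWA i)
    (fun i => hWa i)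
    ((Finset.univ.filter (fun q : (Fin (e + 1) × Fin (e + 1)) × (Fin (n + 3) × Fin (n + 3)) =>
        q.2.1 ≠ q.2.2 ∧ lam q.2.1 = lam q.2.2)).image
        fun q => ((q.1.1, Sum.inl (q.2.1, cc q.2.1 q.2.2)),
          (q.1.2, Sum.inl (q.2.2, cc q.2.1 q.2.2)))) (by
      intro t ht
      rw [Finset.mem_image] at ht
      obtain ⟨⟨⟨i, j⟩, ⟨q, q'⟩⟩, hq, rfl⟩ := ht
      rw [Finset.mem_filter] at hq
      intro h
      have h1 := congrArg (PowerSeries.constantCoeff (R := FractionRing B)) h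
      rw [hWc, hWc] at h1
      exact hcc q q' hq.2.1 hq.2.2 (hinj0 h1))
  refine ⟨D, hD, C, ?_⟩
  intro k _ _ _ φ hφ hq
  obtain ⟨T, hT, hTs⟩ := hC k φ hφ hq
  refine ⟨T, hT, fun a ha => ?_⟩
  obtain ⟨ha0, y, hy1, hy2, hy3, hy4, hy5⟩ := hTs a ha
  have hval : ∀ j ≤ e, ((Fin.ofNat (e + 1) j : Fin (e + 1)) : ℕ) = j := by
    intro j hj
    simp only [Fin.val_ofNat]
    exact Nat.mod_eq_of_lt (by omega)
  refine ⟨ha0, fun i => y (Fin.ofNat (e + 1) i), fun i _ f hf => hy1 _ f hf, ?_, ?_, ?_, ?_, ?_⟩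
  · intro v
    apply hy4
    rw [hval 0 (by omega)]
    exact hWz _
  · intro i _ j _ q q' hq hl
    refine ⟨cc q q', hy2 ((Fin.ofNat (e + 1) i, Sum.inl (q, cc q q')),
      (Fin.ofNat (e + 1) j, Sum.inl (q', cc q q'))) ?_⟩
    exact Finset.mem_image.2 ⟨((Fin.ofNat (e + 1) i, Fin.ofNat (e + 1) j), (q, q')),
      Finset.mem_filter.2 ⟨Finset.mem_univ _, hq, hl⟩, rfl⟩
  · intro i hi c
    by_cases h : i % 2 = 1 ∧ c = c0
    · rw [if_pos h]
      apply hy5
      rw [hval i hi, hW1, if_pos h]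
    · rw [if_neg h, add_zero]
      apply hy4
      rw [hval i hi, hW1, if_neg h, add_zero]
  · intro j hj c
    apply hy3
    rw [hval _ hj, hval (2 * j) (by omega)]
    exact hW0 j c
  · intro j hj c
    apply hy3
    rw [hval _ hj, hval (2 * j + 1) (by omega)]
    exact hW2 j c

end Pool.Agent.K9h85.AH
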