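import Pool.Agent.K9h85.AH.Stm8
import Pool.Agent.K9h85.AH.C3Pre

/-! Leaf WP (helper62): walks for many specialisations, in characteristic `p` (first half of `c3a`) -/

set_option autoImplicit false

open MvPolynomial

namespace Pool.Agent.K9h85.AH

theorem wp (hp : S_P3) (hz : S_ZIG3) (he : S_ENG3) : S_WP := by
  intro p _ n m s l lam c0 e A B _ _ _ _ _ _ hinj x hgen hdis hI
  classical
  obtain ⟨B', iB1, iB2, iB3, iB4, i0, hi0, hrad⟩ := c3_perf p B
  have hcN : CharP (FractionRing B') p := c3_frac_charP p B'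
  have hpN : PerfectRing (FractionRing B') p := c3_frac_perf p B'
  obtain ⟨P, iP1, iP2, iP3, iP4, ⟨𝔭⟩⟩ := hp p (FractionRing B')
  have hinj' : Function.Injective (algebraMap B' (FractionRing B')) := IsFractionRing.injective B' _
  obtain ⟨g0, hg0⟩ : ∃ g : B →+* FractionRing B', g = (algebraMap B' (FractionRing B')).comp i0 :=
    ⟨_, rfl⟩
  have hg0a : ∀ b, g0 b = algebraMap B' (FractionRing B') (i0 b) := fun b => by rw [hg0]; rfl
  have hg0i : Function.Injective g0 := by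
    rw [hg0]
    exact hinj'.comp hi0
  letI algN : Algebra A (FractionRing B') := (g0.comp (algebraMap A B)).toAlgebra
  have halgN : ∀ a : A, algebraMap A (FractionRing B') a = g0 (algebraMap A B a) := fun a => rfl
  let G : B →ₐ[A] FractionRing B' := { g0 with commutes' := fun a => rfl }
  have hG : ∀ b, G b = g0 b := fun b => rfl
  have haev : ∀ f : MvPolynomial ((Fin (n + 3) × Fin m) ⊕ Fin s) A,
      aeval (fun v => g0 (x v)) f = g0 (aeval x f) := by
    intro f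
    have h1 := MvPolynomial.comp_aeval_apply G (f := x) f
    exact h1.symm
  have hgenN : ∀ a : FractionRing B', ∃ (j : ℕ) (f g : MvPolynomial ((Fin (n + 3) × Fin m) ⊕ Fin s) A),
      aeval (fun v => g0 (x v)) g ≠ 0 ∧
        a ^ p ^ j * aeval (fun v => g0 (x v)) g = aeval (fun v => g0 (x v)) f := by
    intro a
    obtain ⟨a1, a2, ha2, rfl⟩ := IsFractionRing.div_surjective (A := B') a
    obtain ⟨j1, c1, h1⟩ := hrad a1
    obtain ⟨j2, c2, h2⟩ := hrad a2
    have ha20 : a2 ≠ 0 := nonZeroDivisors.ne_zero ha2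
    have hc2 : c2 ≠ 0 := by
      rintro rfl
      rw [map_zero] at h2
      exact ha20 (eq_zero_of_pow_eq_zero h2)
    obtain ⟨f, hf⟩ := hgen (c1 ^ p ^ j2)
    obtain ⟨g, hg⟩ := hgen (c2 ^ p ^ j1)
    have hne : g0 (c2 ^ p ^ j1) ≠ 0 := by
      rw [Ne, map_eq_zero_iff _ hg0i]
      exact pow_ne_zero _ hc2
    have e1 : g0 (c1 ^ p ^ j2) = (algebraMap B' (FractionRing B') a1) ^ p ^ (j1 + j2) := by
      rw [map_pow, hg0a, ← h1, map_pow, ← pow_mul, ← pow_add]
    have e2 : g0 (c2 ^ p ^ j1) = (algebraMap B' (FractionRing B') a2) ^ p ^ (j1 + j2) := by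
      rw [map_pow, hg0a, ← h2, map_pow, ← pow_mul, ← pow_add, add_comm]
    refine ⟨j1 + j2, f, g, ?_, ?_⟩
    · rw [haev, hg]
      exact hne
    · rw [haev, haev, hf, hg, div_pow, ← e1, ← e2, div_mul_cancel₀ _ hne]
  have hIN : ∀ i : Fin 3, AlgebraicIndependent A
      (fun v : (Sum.inl '' pr n m i : Set ((Fin (n + 3) × Fin m) ⊕ Fin s)) => g0 (x v)) := by
    intro i
    have h1 := hI i
    have h2 : AlgebraicIndependent A
        (fun v : (Sum.inl '' pr n m i : Set ((Fin (n + 3) × Fin m) ⊕ Fin s)) => x v) :=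
      AlgebraicIndependent.of_comp (IsScalarTower.toAlgHom A B (FractionRing B)) h1
    exact h2.map' (f := G) hg0i
  obtain ⟨W, hWA, hWc, hWg, hW00, hW1, hW0, hW2⟩ := hz p n m s c0 (FractionRing B') P 𝔭 A
    (by
      intro a b hab
      exact hinj (hg0i hab)) (fun v => g0 (x v)) hgenN hIN
  have hdis' : ∀ q q', ∃ c : Fin m, q ≠ q' → lam q = lam q' →
      x (Sum.inl (q, c)) ≠ x (Sum.inl (q', c)) := by
    intro q q'
    by_cases h : q ≠ q' ∧ lam q = lam q'
    · obtain ⟨c, hc⟩ := hdis q q' h.1 h.2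
      exact ⟨c, fun _ _ => hc⟩
    · exact ⟨c0, fun h1 h2 => absurd ⟨h1, h2⟩ h⟩
  choose cc hcc using hdis'
  obtain ⟨D, hD, C1, hC1⟩ := he p A B B' i0 hi0 hrad P 𝔭 ((Fin (n + 3) × Fin m) ⊕ Fin s) x
    (Fin (e + 1)) (fun i => W i) (fun i a => by
      have h1 := hWA i a
      rw [halgN, hg0a] at h1
      exact h1) (fun i a => hWg i a)
    ((Finset.univ.filter (fun t : (Fin (e + 1) × Fin (e + 1)) × (Fin (n + 3) × Fin (n + 3)) =>
        t.2.1 ≠ t.2.2 ∧ lam t.2.1 = lam t.2.2)).image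
        fun t => ((t.1.1, Sum.inl (t.2.1, cc t.2.1 t.2.2)),
          (t.1.2, Sum.inl (t.2.2, cc t.2.1 t.2.2)))) (by
      intro t ht
      rw [Finset.mem_image] at ht
      obtain ⟨⟨⟨i, j⟩, ⟨q, q'⟩⟩, hq, rfl⟩ := ht
      rw [Finset.mem_filter] at hq
      intro h
      have h1 := congrArg 𝔭.cc h
      simp only at h1
      rw [hWc, hWc] at h1
      exact hcc q q' hq.2.1 hq.2.2 (hi0 (hinj' h1)))
  refine ⟨D, hD, C1, ?_⟩
  intro k _ _ _ φ hφD hCk
  haveI : Nonempty (B →+* k) := ⟨φ⟩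
  obtain ⟨T, hT1, hT2⟩ := hC1 k φ hφD hCk
  refine ⟨T, hT1, ?_⟩
  intro a ha
  obtain ⟨ha0, y, hy1, hy2, hy3, hy4, hy5⟩ := hT2 a ha
  obtain ⟨idx, hidx⟩ : ∃ idx : ℕ → Fin (e + 1), ∀ j ≤ e, (idx j : ℕ) = j :=
    ⟨fun j => ⟨min j e, by omega⟩, fun j hj => by simp only; omega⟩
  refine ⟨ha0, fun j => y (idx j), ?_, ?_, ?_, ?_, ?_, ?_⟩
  · intro i _ f hf
    exact hy1 (idx i) f hf
  · intro v
    apply hy4
    rw [hidx 0 (Nat.zero_le _)]
    exact hW00 _
  · intro i _ j _ q q' hq hl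
    refine ⟨cc q q', ?_⟩
    refine hy2 ((idx i, Sum.inl (q, cc q q')), (idx j, Sum.inl (q', cc q q'))) ?_
    refine Finset.mem_image.2 ⟨((idx i, idx j), (q, q')), ?_, rfl⟩
    exact Finset.mem_filter.2 ⟨Finset.mem_univ _, hq, hl⟩
  · intro j hj c
    have h4 := hW1 j c
    rw [hg0a] at h4
    split_ifs with h5
    · apply hy5
      rw [hidx j hj, h4, if_pos h5]
    · rw [add_zero]
      apply hy4
      rw [hidx j hj, h4, if_neg h5, add_zero]
  · intro j hj c
    apply hy3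
    rw [hidx (2 * j) (by omega), hidx (2 * j + 1) hj]
    have h4 := hW0 j c
    rw [hg0a] at h4
    exact h4
  · intro j hj c
    apply hy3
    rw [hidx (2 * j + 1) (by omega), hidx (2 * j + 2) hj]
    have h4 := hW2 j c
    rw [hg0a] at h4
    exact h4

end Pool.Agent.K9h85.AH
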