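import Pool.Agent.K9h85.AH.FinR
import Pool.Agent.K9h85.AH.P3h85
import Pool.Agent.K9h85.AH.X3
import Pool.Agent.K9h85.AH.T3
import Pool.Agent.K9h85.AH.SEP
import Pool.Agent.K9h85.AH.G3P
import Pool.Agent.K9h85.AH.Eng3
import Pool.Agent.K9h85.AH.Zig3
import Pool.Agent.K9h85.AH.CB2
import Pool.Agent.K9h85.AH.WP
import Pool.Agent.K9h85.AH.W0
import Pool.Agent.K9h85.AH.CHG
import Pool.Agent.K9h85.AH.Rob24
import Pool.Agent.K9h85.AH.X
import Pool.Agent.K9h85.AH.T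
import Pool.Agent.K9h85.AH.SZ

/-! The robust theorem for unions of definable hypergraphs over all finite fields -/

set_option autoImplicit false

open MvPolynomial

namespace Pool.Agent.K9h85.AH

theorem robust (r m s l d e : ℕ) (hr : 3 ≤ r) (hm : 1 ≤ m) :
    ∃ C : ℕ, ∀ (k : Type) [Field k] [Fintype k] [DecidableEq k],
      ∀ (L : ℕ) (G : Fin L → (Fin r → Fin l) → Set (MvPolynomial ((Fin r × Fin m) ⊕ Fin s) k)),
      (∀ i lam, ∀ f ∈ G i lam, f.totalDegree ≤ d) →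
      ∀ H : Set (Finset (Fin l × (Fin m → k))), H ⊆ (⋃ i, Edges (G i)) →
      C * L * (((⋃ i, Edges (G i)) \ H).ncard + Fintype.card k ^ (2 * m - 1)) < H.ncard →
      ∃ i, ∃ S : Finset (Finset (Fin l × (Fin m → k))), (∀ u ∈ S, u ∈ H ∧ u ∈ Edges (G i)) ∧
        S.card = e ∧ (S.biUnion id).card ≤ (r - 2) * e + 3 :=
  finR (w0 (t x)) (wp p3h85 (zig3 (t3 x3)) (eng3 (g3p sep))) (Rob24.rob chg CB2_.cb2) sz r m s l d e hr hm

end Pool.Agent.K9h85.AH
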