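import Pool.Agent.K9h85.AH.NoeR
import Pool.Agent.K9h85.AH.UN

/-! The robust theorem for unions of definable hypergraphs -/

set_option autoImplicit false

open MvPolynomial

namespace Pool.Agent.K9h85.AH

theorem mainR (hw0 : S_W0) (hwp : S_WP) (hrob : S_ROB) (hsz : S_SZ) (r m s l d e : ℕ) (hr : 3 ≤ r)
    (hm : 1 ≤ m) :
    ∃ C : ℕ, ∀ (k : Type) [Field k] [Fintype k] [DecidableEq k],
      ∀ G : (Fin r → Fin l) → Set (MvPolynomial ((Fin r × Fin m) ⊕ Fin s) k),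
      (∀ lam, ∀ f ∈ G lam, f.totalDegree ≤ d) → ∀ Bad : Finset (Finset (Fin l × (Fin m → k))),
      C * (Bad.card + Fintype.card k ^ (2 * m - 1)) <
        (Edges G \ (Bad : Set (Finset (Fin l × (Fin m → k))))).ncard →
      ∃ S : Finset (Finset (Fin l × (Fin m → k))), (∀ u ∈ S, u ∉ Bad ∧ u ∈ Edges G) ∧ S.card = e ∧
        (S.biUnion id).card ≤ (r - 2) * e + 3 := by
  classical
  obtain ⟨n, rfl⟩ : ∃ n, r = n + 3 := ⟨r - 3, by omega⟩
  obtain ⟨R, _, _, Q, hQ⟩ := un ((Fin (n + 3) × Fin m) ⊕ Fin s) d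
  have h1 : ∀ lam : Fin (n + 3) → Fin l, ConclR lam e Q :=
    fun lam => noeR hw0 hwp hrob hsz lam e ⟨0, hm⟩ Q
  choose Cl hCl using h1
  refine ⟨∑ lam, Cl lam, fun k _ _ _ G hG Bad hcard => ?_⟩
  have h2 : ∀ lam, ∃ φ : R →+* k, ∀ y : (Fin (n + 3) × Fin m) ⊕ Fin s → k,
      (∀ f ∈ Q, eval₂ φ y f = 0) ↔ ∀ f ∈ G lam, eval y f = 0 := fun lam => hQ k (G lam) (hG lam)
  choose φ hφ using h2
  have hr2 : n + 3 - 2 = n + 1 := by omega
  by_cases hex : ∃ lam, HasR lam e (φ lam) Q Bad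
  · obtain ⟨lam, S, h3, h4, h5⟩ := hex
    refine ⟨S, fun u hu => ?_, h3, by rw [hr2]; exact h4⟩
    obtain ⟨hb, h6, y, h7, -, h8⟩ := h5 u hu
    exact ⟨hb, h6, lam, y, (hφ lam y).1 h7, h8⟩
  · exfalso
    push Not at hex
    have h3 : ∀ lam, ((HsP lam (φ lam) Q fun _ => True) \
        (Bad : Set (Finset (Fin l × (Fin m → k))))).ncard ≤
        Cl lam * (Bad.card + Fintype.card k ^ (2 * m - 1)) := by
      intro lam
      rcases hCl lam k (φ lam) Bad with h | h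
      · exact absurd h (hex lam)
      · exact h
    have h4 : Edges G \ (Bad : Set (Finset (Fin l × (Fin m → k)))) ⊆
        ⋃ lam ∈ (Finset.univ : Finset (Fin (n + 3) → Fin l)),
        ((HsP lam (φ lam) Q fun _ => True) \ (Bad : Set (Finset (Fin l × (Fin m → k))))) := by
      rintro u ⟨⟨hu, lam, y, hy, rfl⟩, hb⟩
      simp only [Set.mem_iUnion]
      exact ⟨lam, Finset.mem_univ _, ⟨hu, y, (hφ lam y).2 hy, trivial, rfl⟩, hb⟩
    have h5 := (Set.ncard_le_ncard h4 (Set.toFinite _)).trans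
      (Finset.set_ncard_biUnion_le Finset.univ fun lam => ((HsP lam (φ lam) Q fun _ => True) \
        (Bad : Set (Finset (Fin l × (Fin m → k))))))
    have h6 := h5.trans (Finset.sum_le_sum fun lam _ => h3 lam)
    rw [← Finset.sum_mul] at h6
    omega

/-- subsets `E'` of unions of `L` definable hypergraphs that miss few edges -/
theorem finR (hw0 : S_W0) (hwp : S_WP) (hrob : S_ROB) (hsz : S_SZ) (r m s l d e : ℕ) (hr : 3 ≤ r)
    (hm : 1 ≤ m) :
    ∃ C : ℕ, ∀ (k : Type) [Field k] [Fintype k] [DecidableEq k],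
      ∀ (L : ℕ) (G : Fin L → (Fin r → Fin l) → Set (MvPolynomial ((Fin r × Fin m) ⊕ Fin s) k)),
      (∀ i lam, ∀ f ∈ G i lam, f.totalDegree ≤ d) →
      ∀ H : Set (Finset (Fin l × (Fin m → k))), H ⊆ (⋃ i, Edges (G i)) →
      C * L * (((⋃ i, Edges (G i)) \ H).ncard + Fintype.card k ^ (2 * m - 1)) < H.ncard →
      ∃ i, ∃ S : Finset (Finset (Fin l × (Fin m → k))), (∀ u ∈ S, u ∈ H ∧ u ∈ Edges (G i)) ∧
        S.card = e ∧ (S.biUnion id).card ≤ (r - 2) * e + 3 := by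
  classical
  obtain ⟨C, hC⟩ := mainR hw0 hwp hrob hsz r m s l d e hr hm
  refine ⟨C, fun k _ _ _ L G hG H hH hcard => ?_⟩
  obtain ⟨Bad, hBad⟩ : ∃ Bad : Finset (Finset (Fin l × (Fin m → k))),
      (Bad : Set (Finset (Fin l × (Fin m → k)))) = (⋃ i, Edges (G i)) \ H :=
    ⟨(Set.toFinite _).toFinset, (Set.toFinite _).coe_toFinset⟩
  have hBc : Bad.card = ((⋃ i, Edges (G i)) \ H).ncard := by
    rw [← hBad, Set.ncard_coe_finset]
  have hin : ∀ i u, u ∈ Edges (G i) → u ∉ Bad → u ∈ H := by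
    intro i u hu hb
    by_contra h
    apply hb
    rw [← Finset.mem_coe, hBad]
    exact ⟨Set.mem_iUnion.2 ⟨i, hu⟩, h⟩
  by_contra hcon
  push Not at hcon
  have h1 : ∀ i, (Edges (G i) \ (Bad : Set (Finset (Fin l × (Fin m → k))))).ncard ≤
      C * (Bad.card + Fintype.card k ^ (2 * m - 1)) := by
    intro i
    by_contra h2
    rw [not_le] at h2
    obtain ⟨S, h3, h4, h5⟩ := hC k (G i) (hG i) Bad h2
    have h6 := hcon i S (fun u hu => ⟨hin i u (h3 u hu).2 (h3 u hu).1, (h3 u hu).2⟩) h4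
    omega
  have h4 : H ⊆ ⋃ i ∈ (Finset.univ : Finset (Fin L)),
      (Edges (G i) \ (Bad : Set (Finset (Fin l × (Fin m → k))))) := by
    intro u hu
    obtain ⟨i, hi⟩ := Set.mem_iUnion.1 (hH hu)
    simp only [Set.mem_iUnion]
    refine ⟨i, Finset.mem_univ _, hi, ?_⟩
    rw [hBad]
    exact fun h => h.2 hu
  have h5 := (Set.ncard_le_ncard h4 (Set.toFinite _)).trans
    (Finset.set_ncard_biUnion_le (Finset.univ : Finset (Fin L)) fun i =>
      (Edges (G i) \ (Bad : Set (Finset (Fin l × (Fin m → k))))))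
  have h6 := h5.trans (Finset.sum_le_card_nsmul _ _ _ fun i _ => h1 i)
  rw [Finset.card_univ, Fintype.card_fin, smul_eq_mul, hBc] at h6
  have h7 : L * (C * (((⋃ i, Edges (G i)) \ H).ncard + Fintype.card k ^ (2 * m - 1))) =
      C * L * (((⋃ i, Edges (G i)) \ H).ncard + Fintype.card k ^ (2 * m - 1)) := by
    ring
  omega

end Pool.Agent.K9h85.AH
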