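import Pool.Agent.K9h85.AH.Conf

/-! Noetherian induction -/

set_option autoImplicit false

open MvPolynomial

namespace Pool.Agent.K9h85.AH

/-- the zeros of the ideal `Q` over `k` -/
def Zs {V R k : Type} [CommRing R] [Field k] (φ : R →+* k) (Q : Ideal (MvPolynomial V R)) :
    Set (V → k) := {y | ∀ f ∈ Q, eval₂ φ y f = 0}

theorem mem_Zs {V R k : Type} [CommRing R] [Field k] (φ : R →+* k) (Q : Ideal (MvPolynomial V R))
    (y : V → k) : y ∈ Zs φ Q ↔ ∀ f ∈ Q, eval₂ φ y f = 0 := Iff.rfl

/-- the conclusion for the ideal `Q` -/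
def Concl (n m e : ℕ) {R : Type} [CommRing R]
    (Q : Ideal (MvPolynomial (Fin (n + 3) × Fin m) R)) : Prop :=
  ∃ C : ℕ, ∀ (k : Type) [Field k] [Fintype k] [DecidableEq k] (φ : R →+* k), C < ringChar k →
    (∃ S : Finset (Fin (n + 3) × Fin m → k), S.card = e ∧ nv S ≤ (n + 1) * e + 3 ∧
      ∀ y ∈ S, y ∈ Zs φ Q) ∨ (Zs φ Q).ncard ≤ C * Fintype.card k ^ (2 * m - 1)

/-- the conclusion for the zeros of `Q` that are zeros of `d` -/
def ConclD (n m e : ℕ) {R : Type} [CommRing R]
    (Q : Ideal (MvPolynomial (Fin (n + 3) × Fin m) R))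
    (d : MvPolynomial (Fin (n + 3) × Fin m) R) : Prop :=
  ∃ C : ℕ, ∀ (k : Type) [Field k] [Fintype k] [DecidableEq k] (φ : R →+* k), C < ringChar k →
      (∃ S : Finset (Fin (n + 3) × Fin m → k), S.card = e ∧ nv S ≤ (n + 1) * e + 3 ∧
        ∀ y ∈ S, y ∈ Zs φ Q) ∨
      ({y | y ∈ Zs φ Q ∧ eval₂ φ y d = 0} : Set (Fin (n + 3) × Fin m → k)).ncard ≤
        C * Fintype.card k ^ (2 * m - 1)

/-- the pair coordinates -/
def prEquiv (n m : ℕ) (i : Fin 3) : pr n m i ≃ {j : Fin 3 // j ≠ i} × Fin m where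
  toFun v := (⟨⟨v.1.1.val, v.2.1⟩, fun h => v.2.2 (congrArg Fin.val h)⟩, v.1.2)
  invFun w := ⟨(pa n w.1.1, w.2), pa_mem w.1.2 w.2⟩
  left_inv _ := Subtype.ext (Prod.ext (Fin.ext rfl) rfl)
  right_inv _ := rfl

theorem card_pr (n m : ℕ) (i : Fin 3) [Fintype (pr n m i)] : Fintype.card (pr n m i) = 2 * m := by
  classical
  rw [Fintype.card_congr (prEquiv n m i), Fintype.card_prod, Fintype.card_fin]
  congr 1
  rw [Fintype.card_subtype_compl, Fintype.card_fin, Fintype.card_subtype_eq]

theorem ringChar_le_card' (k : Type) [Field k] [Fintype k] : ringChar k ≤ Fintype.card k := by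
  have h1 : ringChar k ∣ Fintype.card k := by
    rw [← ringChar.spec]
    exact Nat.cast_card_eq_zero k
  exact Nat.le_of_dvd Fintype.card_pos h1

theorem lift_ex {P B k : Type} [CommRing P] [CommRing B] [CommRing k] (π : P →+* B)
    (hπ : Function.Surjective π) (g : P →+* k) (h : ∀ f, π f = 0 → g f = 0) :
    ∃ ψ : B →+* k, ∀ f, ψ (π f) = g f :=
  ⟨RingHom.liftOfSurjective π hπ ⟨g, fun f hf => h f hf⟩, fun f =>
    RingHom.liftOfSurjective_comp_apply π hπ ⟨g, fun f hf => h f hf⟩ f⟩

theorem degree_map {V R k : Type} [CommRing R] [Field k] (φ : R →+* k) (f : MvPolynomial V R) :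
    (map φ f).totalDegree ≤ f.totalDegree := by
  rw [totalDegree, totalDegree]
  exact Finset.sup_mono (support_map_subset _ _)

theorem card_fib {α β : Type} [DecidableEq α] [DecidableEq β] (s : Finset α) (t : Finset β)
    (f : α → β) (e : ℕ) (h1 : ∀ a ∈ s, f a ∈ t)
    (h2 : ∀ b, (s.filter fun a => f a = b).card < e) : s.card ≤ e * t.card :=
  Finset.card_le_mul_card_image_of_maps_to h1 e fun b _ => (h2 b).le

theorem concl_add {n m e : ℕ} {R : Type} [CommRing R]
    (Q : Ideal (MvPolynomial (Fin (n + 3) × Fin m) R))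
    (ih : ∀ J : Ideal (MvPolynomial (Fin (n + 3) × Fin m) R), Q < J → Concl n m e J)
    (d : MvPolynomial (Fin (n + 3) × Fin m) R) (hd : d ∉ Q) : ConclD n m e Q d := by
  classical
  have hlt : Q < Q ⊔ Ideal.span {d} := by
    refine lt_of_le_of_ne le_sup_left fun h => hd ?_
    rw [h]
    exact Ideal.mem_sup_right (Ideal.subset_span rfl)
  obtain ⟨C, hC⟩ := ih _ hlt
  refine ⟨C, fun k _ _ _ φ hk => ?_⟩
  have hsub : ∀ y, y ∈ Zs φ Q → eval₂ φ y d = 0 → y ∈ Zs φ (Q ⊔ Ideal.span {d}) := by
    intro y hy hyd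
    have h5 : Q ⊔ Ideal.span {d} ≤ RingHom.ker (eval₂Hom φ y) := by
      rw [sup_le_iff, Ideal.span_le]
      refine ⟨fun f hf => hy f hf, ?_⟩
      rintro f hf
      rw [Set.mem_singleton_iff] at hf
      rw [hf]
      exact hyd
    exact fun f hf => h5 hf
  rcases hC k φ hk with ⟨S, h1, h2, h3⟩ | h
  · left
    exact ⟨S, h1, h2, fun y hy f hf => h3 y hy f (Ideal.mem_sup_left hf)⟩
  · right
    refine le_trans (Set.ncard_le_ncard ?_ (Set.toFinite _)) h
    rintro y ⟨hy1, hy2⟩
    exact hsub y hy1 hy2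

/-- a prime ideal in characteristic zero, the first three parts pairwise independent -/
theorem prime_indep (ht : S_T) (hd : S_D) {R B : Type} [CommRing R] [CommRing B] [IsDomain B]
    [CharZero B] (n m e : ℕ) (c0 : Fin m) (π : MvPolynomial (Fin (n + 3) × Fin m) R →+* B)
    (hπ : Function.Surjective π)
    (A : Type) [CommRing A] [IsDomain A] [Algebra A B] (hinj : Function.Injective (algebraMap A B))
    (ρ : R →+* A) (hρC : ∀ r, algebraMap A B (ρ r) = π (C r))
    (hI : ∀ i : Fin 3, AlgebraicIndependent A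
      (fun v : pr n m i => algebraMap B (FractionRing B) (π (X v))))
    (Q : Ideal (MvPolynomial (Fin (n + 3) × Fin m) R)) (hQ : ∀ f, f ∈ Q ↔ π f = 0)
    (hadd : ∀ d, d ∉ Q → ConclD n m e Q d) : Concl n m e Q := by
  classical
  have hinj0 : Function.Injective (algebraMap B (FractionRing B)) := IsFractionRing.injective _ _
  obtain ⟨x, hxd⟩ : ∃ x : Fin (n + 3) × Fin m → B, x = fun v => π (X v) := ⟨_, rfl⟩
  have hI' : ∀ i : Fin 3, AlgebraicIndependent A
      (fun v : pr n m i => algebraMap B (FractionRing B) (x v)) := by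
    rw [hxd]
    exact hI
  have hlift : ∀ f0 : MvPolynomial (Fin (n + 3) × Fin m) R, aeval x (map ρ f0) = π f0 := by
    intro f0
    induction f0 using MvPolynomial.induction_on with
    | C r => rw [map_C, aeval_C, hρC]
    | add p q hp hq => rw [map_add, map_add, map_add, hp, hq]
    | mul_X p v hp => rw [map_mul, map_mul, map_mul, hp, map_X, aeval_X, hxd]
  have h1' : ∀ f0 : MvPolynomial (Fin (n + 3) × Fin m) R,
      aeval (fun v => algebraMap B (FractionRing B) (x v)) (map ρ f0) =
        algebraMap B (FractionRing B) (π f0) := by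
    intro f0
    rw [← hlift f0]
    exact aeval_algebraMap_apply _ _ _
  have hx : ∀ a : FractionRing B, ∃ f g : MvPolynomial (Fin (n + 3) × Fin m) A,
      aeval (fun v => algebraMap B (FractionRing B) (x v)) g ≠ 0 ∧
        a * aeval (fun v => algebraMap B (FractionRing B) (x v)) g =
          aeval (fun v => algebraMap B (FractionRing B) (x v)) f := by
    intro a
    obtain ⟨b, c, hc, rfl⟩ := IsFractionRing.div_surjective (A := B) a
    obtain ⟨f0, rfl⟩ := hπ b
    obtain ⟨g0, rfl⟩ := hπ c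
    have h2 : algebraMap B (FractionRing B) (π g0) ≠ 0 :=
      IsFractionRing.to_map_ne_zero_of_mem_nonZeroDivisors hc
    refine ⟨map ρ f0, map ρ g0, ?_, ?_⟩
    · rw [h1']
      exact h2
    · rw [h1', h1', div_mul_cancel₀ _ h2]
  have hconf : HasConf n m e A B x := by
    by_cases hTB : ∀ i : Fin 3, IsTranscendenceBasis A
        (fun v : pr n m i => algebraMap B (FractionRing B) (x v))
    · exact conf_a ht hd c0 e hinj x hx hTB
    · push Not at hTB
      obtain ⟨i, hi⟩ := hTB
      exact conf_b ht e hinj x hx i (hI' i) hi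
  obtain ⟨D, hD, C0, hC0⟩ := hconf
  obtain ⟨d, rfl⟩ := hπ D
  have hdQ : d ∉ Q := fun h => hD ((hQ d).1 h)
  obtain ⟨C1, hC1⟩ := hadd d hdQ
  refine ⟨C0 + C1, fun k _ _ _ φ hk => ?_⟩
  by_cases hex : ∃ y ∈ Zs φ Q, eval₂ φ y d ≠ 0
  · left
    obtain ⟨y, hy, hyd⟩ := hex
    have hlt := ringChar_le_card' k
    obtain ⟨ψ, hψ⟩ := lift_ex π hπ (eval₂Hom φ y) (fun f hf => hy f ((hQ f).2 hf))
    obtain ⟨S, h1, h2, h3⟩ := hC0 k ψ (by
      rw [hψ]
      exact hyd) (by omega)
    refine ⟨S, h1, h2, fun y' hy' f hf => ?_⟩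
    have h4 := h3 y' hy' (map ρ f) (by
      rw [hlift]
      exact (hQ f).1 hf)
    rw [eval₂_map] at h4
    have h5 : (ψ.comp (algebraMap A B)).comp ρ = φ := by
      refine RingHom.ext fun r => ?_
      rw [RingHom.comp_apply, RingHom.comp_apply, hρC, hψ, coe_eval₂Hom, eval₂_C]
    rw [h5] at h4
    exact h4
  · push Not at hex
    rcases hC1 k φ (by omega) with h | h
    · exact Or.inl h
    · right
      refine le_trans (Set.ncard_le_ncard ?_ (Set.toFinite _)) (h.trans ?_)
      · intro y hy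
        exact ⟨hy, hex y hy⟩
      · exact Nat.mul_le_mul_right _ (Nat.le_add_left _ _)

/-- an ideal which contains a polynomial in the coordinates of two parts -/
theorem prime_dep (hsz : S_SZ) {R : Type} [CommRing R] (n m e : ℕ) (c0 : Fin m) (i : Fin 3)
    (Q : Ideal (MvPolynomial (Fin (n + 3) × Fin m) R)) (f0 : MvPolynomial (pr n m i) R)
    (hf0 : rename (Subtype.val : pr n m i → Fin (n + 3) × Fin m) f0 ∈ Q) (μ : pr n m i →₀ ℕ)
    (hadd : ConclD n m e Q (C (coeff μ f0))) : Concl n m e Q := by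
  classical
  obtain ⟨C1, hC1⟩ := hadd
  refine ⟨e * f0.totalDegree + C1, fun k _ _ _ φ hk => ?_⟩
  by_cases hφ : φ (coeff μ f0) = 0
  · rcases hC1 k φ (by omega) with h | h
    · exact Or.inl h
    · right
      refine le_trans (Set.ncard_le_ncard ?_ (Set.toFinite _)) (h.trans ?_)
      · intro y hy
        refine ⟨hy, ?_⟩
        rw [eval₂_C]
        exact hφ
      · exact Nat.mul_le_mul_right _ (Nat.le_add_left _ _)
  obtain ⟨Es, hEs⟩ : ∃ Es : Finset (Fin (n + 3) × Fin m → k),
      Es = Finset.univ.filter fun y => y ∈ Zs φ Q := ⟨_, rfl⟩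
  have hmE : ∀ y, y ∈ Es ↔ y ∈ Zs φ Q := by
    intro y
    rw [hEs, Finset.mem_filter]
    exact ⟨fun h => h.2, fun h => ⟨Finset.mem_univ _, h⟩⟩
  by_cases hfib : ∃ z : pr n m i → k, e ≤
      (Es.filter fun y => (fun v : pr n m i => y v) = z).card
  · left
    obtain ⟨z, hz⟩ := hfib
    obtain ⟨S, hS, hSc⟩ := Finset.exists_subset_card_eq hz
    refine ⟨S, hSc, ?_, ?_⟩
    · refine nv_fibre S e hSc.le i ?_
      intro y hy y' hy' v hv
      have h1 := (Finset.mem_filter.1 (hS hy)).2
      have h2 := (Finset.mem_filter.1 (hS hy')).2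
      have h3 := congrFun (h1.trans h2.symm) ⟨v, hv⟩
      exact h3
    · intro y hy
      exact (hmE y).1 (Finset.mem_filter.1 (hS hy)).1
  · right
    push Not at hfib
    have hfm : map φ f0 ≠ 0 := by
      intro h
      apply hφ
      rw [← coeff_map, h, coeff_zero]
    have h1 := hsz k (pr n m i) (map φ f0) hfm
    rw [card_pr] at h1
    have hm : 0 < m := lt_of_le_of_lt (Nat.zero_le _) c0.2
    have h2 : (Finset.univ.filter fun y : pr n m i → k => eval y (map φ f0) = 0).card ≤
        f0.totalDegree * Fintype.card k ^ (2 * m - 1) := by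
      have h3 : Fintype.card k ^ (2 * m) = Fintype.card k ^ (2 * m - 1) * Fintype.card k := by
        rw [← pow_succ]
        congr 1
        omega
      rw [h3, ← mul_assoc] at h1
      refine (Nat.le_of_mul_le_mul_right h1 Fintype.card_pos).trans ?_
      exact Nat.mul_le_mul_right _ (degree_map _ _)
    have h4 : Zs φ Q = (Es : Set (Fin (n + 3) × Fin m → k)) := by
      ext y
      rw [Finset.mem_coe, hmE]
    rw [h4, Set.ncard_coe_finset]
    have h5 := card_fib Es (Finset.univ.filter fun y : pr n m i → k => eval y (map φ f0) = 0)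
      (fun y => (fun v : pr n m i => y v)) e (by
        intro y hy
        rw [hmE] at hy
        rw [Finset.mem_filter]
        refine ⟨Finset.mem_univ _, ?_⟩
        have h7 := hy _ hf0
        rw [eval₂_rename] at h7
        rw [eval_map]
        exact h7) (fun b => hfib b)
    refine h5.trans ?_
    refine (Nat.mul_le_mul_left _ h2).trans ?_
    rw [← mul_assoc]
    exact Nat.mul_le_mul_right _ (Nat.le_add_right _ _)

theorem prime_case (ht : S_T) (hd : S_D) (hsz : S_SZ) {R B : Type} [CommRing R] [CommRing B]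
    [IsDomain B] [CharZero B] (n m e : ℕ) (c0 : Fin m)
    (π : MvPolynomial (Fin (n + 3) × Fin m) R →+* B) (hπ : Function.Surjective π)
    (Q : Ideal (MvPolynomial (Fin (n + 3) × Fin m) R)) (hQ : ∀ f, f ∈ Q ↔ π f = 0)
    (hadd : ∀ d, d ∉ Q → ConclD n m e Q d) : Concl n m e Q := by
  classical
  have hinj0 : Function.Injective (algebraMap B (FractionRing B)) := IsFractionRing.injective _ _
  let ρ : R →+* (π.comp C).range := (π.comp C).rangeRestrict
  have hρ : Function.Surjective ρ := RingHom.rangeRestrict_surjective _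
  have hinj : Function.Injective (algebraMap (π.comp C).range B) := Subtype.val_injective
  have hρC : ∀ r : R, algebraMap (π.comp C).range B (ρ r) = π (C r) := fun r => rfl
  by_cases hI : ∀ i : Fin 3, AlgebraicIndependent (π.comp C).range
      (fun v : pr n m i => algebraMap B (FractionRing B) (π (X v)))
  · exact prime_indep ht hd n m e c0 π hπ (π.comp C).range hinj ρ hρC hI Q hQ hadd
  · push Not at hI
    obtain ⟨i, hi⟩ := hI
    rw [algebraicIndependent_iff] at hi
    push Not at hi
    obtain ⟨f, hf, hf0⟩ := hi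
    obtain ⟨f0, rfl⟩ := MvPolynomial.map_surjective ρ hρ f
    obtain ⟨μ, hμ⟩ := MvPolynomial.ne_zero_iff.1 hf0
    rw [coeff_map] at hμ
    have hdQ : (C (coeff μ f0) : MvPolynomial (Fin (n + 3) × Fin m) R) ∉ Q := by
      intro h
      apply hμ
      apply hinj
      rw [map_zero, hρC]
      exact (hQ _).1 h
    refine prime_dep hsz n m e c0 i Q f0 ?_ μ (hadd _ hdQ)
    rw [hQ]
    apply hinj0
    rw [map_zero, ← hf]
    have h1 : ∀ g : MvPolynomial (pr n m i) R,
        algebraMap B (FractionRing B) (π (rename (Subtype.val : pr n m i → Fin (n + 3) × Fin m) g)) =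
        aeval (fun v : pr n m i => algebraMap B (FractionRing B) (π (X v))) (map ρ g) := by
      intro g
      induction g using MvPolynomial.induction_on with
      | C r => rw [rename_C, map_C, aeval_C, ← hρC,
          IsScalarTower.algebraMap_apply (π.comp C).range B (FractionRing B)]
      | add p q hp hq => rw [map_add, map_add, map_add, map_add, map_add, hp, hq]
      | mul_X p v hp => rw [map_mul, map_mul, map_mul, map_mul, map_mul, hp, rename_X, map_X, aeval_X]
    exact h1 f0

theorem noe (ht : S_T) (hd : S_D) (hsz : S_SZ) {R : Type} [CommRing R] [IsNoetherianRing R]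
    (n m e : ℕ) (c0 : Fin m) (Q₀ : Ideal (MvPolynomial (Fin (n + 3) × Fin m) R)) :
    Concl n m e Q₀ := by
  classical
  refine IsNoetherian.induction (R := MvPolynomial (Fin (n + 3) × Fin m) R)
    (M := MvPolynomial (Fin (n + 3) × Fin m) R)
    (P := fun Q : Ideal (MvPolynomial (Fin (n + 3) × Fin m) R) => Concl n m e Q) ?_ Q₀
  intro (Q : Ideal (MvPolynomial (Fin (n + 3) × Fin m) R)) ih
  have hadd := concl_add Q ih
  by_cases htop : Q = ⊤
  · refine ⟨0, fun k _ _ _ φ _ => Or.inr ?_⟩
    have h1 : Zs φ Q = ∅ := by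
      rw [Set.eq_empty_iff_forall_notMem]
      intro y hy
      have h2 := hy 1 (by rw [htop]; trivial)
      rw [← C_1, eval₂_C, map_one] at h2
      exact one_ne_zero h2
    rw [h1, Set.ncard_empty]
    exact Nat.zero_le _
  by_cases hprime : Q.IsPrime
  swap
  · obtain ⟨x, y, hxy, hx, hy⟩ : ∃ x y : MvPolynomial (Fin (n + 3) × Fin m) R,
        x * y ∈ Q ∧ x ∉ Q ∧ y ∉ Q := by
      by_contra hcon
      push Not at hcon
      exact hprime ⟨htop, fun {x y} h => by
        by_contra h'
        push Not at h'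
        exact h'.2 (hcon x y h h'.1)⟩
    obtain ⟨C1, hC1⟩ := hadd x hx
    obtain ⟨C2, hC2⟩ := hadd y hy
    refine ⟨C1 + C2, fun k _ _ _ φ hk => ?_⟩
    rcases hC1 k φ (by omega) with h | h1
    · exact Or.inl h
    rcases hC2 k φ (by omega) with h | h2
    · exact Or.inl h
    right
    rw [add_mul]
    refine le_trans (le_trans (Set.ncard_le_ncard ?_ (Set.toFinite _)) (Set.ncard_union_le
      {z | z ∈ Zs φ Q ∧ eval₂ φ z x = 0} {z | z ∈ Zs φ Q ∧ eval₂ φ z y = 0})) (Nat.add_le_add h1 h2)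
    intro z hz
    have h4 := hz _ hxy
    rw [eval₂_mul, mul_eq_zero] at h4
    rcases h4 with h4 | h4
    · exact Or.inl ⟨hz, h4⟩
    · exact Or.inr ⟨hz, h4⟩
  -- prime ideals
  have hdom : IsDomain (MvPolynomial (Fin (n + 3) × Fin m) R ⧸ Q) := Ideal.Quotient.isDomain Q
  by_cases hch : CharZero (MvPolynomial (Fin (n + 3) × Fin m) R ⧸ Q)
  · exact prime_case ht hd hsz n m e c0 (Ideal.Quotient.mk Q) Ideal.Quotient.mk_surjective Q
      (fun f => Ideal.Quotient.eq_zero_iff_mem.symm) hadd
  · obtain ⟨p, hp0, hp⟩ : ∃ p : ℕ, p ≠ 0 ∧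
        ((p : ℕ) : MvPolynomial (Fin (n + 3) × Fin m) R ⧸ Q) = 0 := by
      by_contra hcon
      push Not at hcon
      exact hch (charZero_of_inj_zero fun n hn => by
        by_contra hne
        exact hcon n hne hn)
    refine ⟨p, fun k _ _ _ φ hk => Or.inr ?_⟩
    have h1 : Zs φ Q = ∅ := by
      rw [Set.eq_empty_iff_forall_notMem]
      intro y hy
      have h3 : ((p : ℕ) : MvPolynomial (Fin (n + 3) × Fin m) R) ∈ Q := by
        rw [← Ideal.Quotient.eq_zero_iff_mem, map_natCast]
        exact hp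
      have h4 := hy _ h3
      rw [← map_natCast (C : R →+* MvPolynomial (Fin (n + 3) × Fin m) R), eval₂_C, map_natCast,
        ringChar.spec] at h4
      have := Nat.le_of_dvd (Nat.pos_of_ne_zero hp0) h4
      omega
    rw [h1, Set.ncard_empty]
    exact Nat.zero_le _

end Pool.Agent.K9h85.AH
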