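import Pool.Agent.K9h85.AH.Stm7

/-! Noetherian induction without a condition on the characteristic -/

set_option autoImplicit false

open MvPolynomial


namespace Pool.Agent.K9h85.AH

/-- the conclusion for the ideal `Q` -/
def Concl3 {n m s l : ℕ} (lam : Fin (n + 3) → Fin l) (e : ℕ) {R : Type} [CommRing R]
    (Q : Ideal (MvPolynomial ((Fin (n + 3) × Fin m) ⊕ Fin s) R)) : Prop :=
  ∃ C : ℕ, ∀ (k : Type) [Field k] [Fintype k] [DecidableEq k] (φ : R →+* k),
    Has lam e φ Q ∨ (HsP lam φ Q fun _ => True).ncard ≤ C * Fintype.card k ^ (2 * m - 1)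

/-- the conclusion for the zeros of `Q` that are zeros of `d` -/
def ConclD3 {n m s l : ℕ} (lam : Fin (n + 3) → Fin l) (e : ℕ) {R : Type} [CommRing R]
    (Q : Ideal (MvPolynomial ((Fin (n + 3) × Fin m) ⊕ Fin s) R))
    (d : MvPolynomial ((Fin (n + 3) × Fin m) ⊕ Fin s) R) : Prop :=
  ∃ C : ℕ, ∀ (k : Type) [Field k] [Fintype k] [DecidableEq k] (φ : R →+* k),
    Has lam e φ Q ∨
      (HsP lam φ Q fun y => eval₂ φ y d = 0).ncard ≤ C * Fintype.card k ^ (2 * m - 1)

theorem hasConf3_of_2 {n m s l e : ℕ} {lam : Fin (n + 3) → Fin l} {A B : Type} [CommRing A]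
    [CommRing B] [IsDomain B] [CharZero B] [Algebra A B]
    {x : (Fin (n + 3) × Fin m) ⊕ Fin s → B} (h : HasConf2 n m s l e lam A B x) :
    HasConf3 n m s l e lam A B x := by
  obtain ⟨D, hD, C, hC⟩ := h
  refine ⟨D * ((C.factorial : ℕ) : B), mul_ne_zero hD (Nat.cast_ne_zero.2 (Nat.factorial_ne_zero _)), 0, ?_⟩
  intro k _ _ _ φ0 Es hEs hlt
  obtain ⟨u, hu⟩ : Es.Nonempty := by
    rw [← Finset.card_pos]
    omega
  obtain ⟨-, φ, hφ0, hφ, -⟩ := hEs u hu
  rw [map_mul, map_natCast, mul_ne_zero_iff] at hφ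
  have h1 : C < ringChar k := by
    by_contra hle
    rw [not_lt] at hle
    apply hφ.2
    rw [ringChar.spec]
    refine Nat.dvd_factorial ?_ hle
    rcases CharP.char_is_prime_or_zero k (ringChar k) with h | h
    · exact h.pos
    · exact absurd h (CharP.ringChar_ne_zero_of_finite k)
  have hlt' := ringChar_le_card' k
  obtain ⟨S, h2, h3, h4⟩ := hC k φ hφ.1 (by omega)
  refine ⟨S, h2, h3, fun u hu => ?_⟩
  obtain ⟨h5, y, h6, h7⟩ := h4 u hu
  refine ⟨h5, y, h6, fun f hf => ?_⟩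
  rw [← hφ0]
  exact h7 f hf

theorem concl_add3 {n m s l : ℕ} (lam : Fin (n + 3) → Fin l) (e : ℕ) {R : Type} [CommRing R]
    (Q : Ideal (MvPolynomial ((Fin (n + 3) × Fin m) ⊕ Fin s) R))
    (ih : ∀ J : Ideal (MvPolynomial ((Fin (n + 3) × Fin m) ⊕ Fin s) R), Q < J → Concl3 lam e J)
    (d : MvPolynomial ((Fin (n + 3) × Fin m) ⊕ Fin s) R) (hd : d ∉ Q) : ConclD3 lam e Q d := by
  classical
  have hlt : Q < Q ⊔ Ideal.span {d} := by
    refine lt_of_le_of_ne le_sup_left fun h => hd ?_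
    rw [h]
    exact Ideal.mem_sup_right (Ideal.subset_span rfl)
  obtain ⟨C, hC⟩ := ih _ hlt
  refine ⟨C, fun k _ _ _ φ => ?_⟩
  have hsub : ∀ y, y ∈ Zs φ Q → eval₂ φ y d = 0 → y ∈ Zs φ (Q ⊔ Ideal.span {d}) := by
    intro y hy hyd
    have h5 : Q ⊔ Ideal.span {d} ≤ RingHom.ker (eval₂Hom φ y) := by
      rw [sup_le_iff, Ideal.span_le]
      refine ⟨fun f hf => hy f hf, ?_⟩
      rintro f hf
      rw [Set.mem_singleton_iff] at hf
      rw [hf]
      exact hyd
    exact fun f hf => h5 hf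
  rcases hC k φ with ⟨S, h1, h2, h3⟩ | h
  · left
    exact ⟨S, h1, h2, fun u hu => HsP_mono (fun y hy _ =>
      ⟨fun f hf => hy f (Ideal.mem_sup_left hf), trivial⟩) (h3 u hu)⟩
  · right
    refine le_trans (Set.ncard_le_ncard ?_ (Set.toFinite _)) h
    exact HsP_mono fun y hy hyd => ⟨hsub y hy hyd, trivial⟩

/-- from configurations to the conclusion -/
theorem concl_of_conf {R B : Type} [CommRing R] [CommRing B] [IsDomain B]
    {n m s l : ℕ} (lam : Fin (n + 3) → Fin l) (e : ℕ)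
    (π : MvPolynomial ((Fin (n + 3) × Fin m) ⊕ Fin s) R →+* B)
    (hπ : Function.Surjective π)
    (A : Type) [CommRing A] [Algebra A B]
    (ρ : R →+* A) (hρ : Function.Surjective ρ) (hρC : ∀ r, algebraMap A B (ρ r) = π (C r))
    (Q : Ideal (MvPolynomial ((Fin (n + 3) × Fin m) ⊕ Fin s) R)) (hQ : ∀ f, f ∈ Q ↔ π f = 0)
    (hadd : ∀ d, d ∉ Q → ConclD3 lam e Q d)
    (hconf : HasConf3 n m s l e lam A B fun v => π (X v)) : Concl3 lam e Q := by
  classical
  have hlift : ∀ f0 : MvPolynomial ((Fin (n + 3) × Fin m) ⊕ Fin s) R,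
      aeval (fun v => π (X v)) (map ρ f0) = π f0 := by
    intro f0
    induction f0 using MvPolynomial.induction_on with
    | C r => rw [map_C, aeval_C, hρC]
    | add p q hp hq => rw [map_add, map_add, map_add, hp, hq]
    | mul_X p v hp => rw [map_mul, map_mul, map_mul, hp, map_X, aeval_X]
  obtain ⟨D, hD, C0, hC0⟩ := hconf
  obtain ⟨d, rfl⟩ := hπ D
  have hdQ : d ∉ Q := fun h => hD ((hQ d).1 h)
  obtain ⟨C1, hC1⟩ := hadd d hdQ
  refine ⟨C0 + C1, fun k _ _ _ φ => ?_⟩
  rcases hC1 k φ with h | h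
  · exact Or.inl h
  by_cases hex : ∃ y ∈ Zs φ Q, eval₂ φ y d ≠ 0
  swap
  · push Not at hex
    right
    refine le_trans (Set.ncard_le_ncard ?_ (Set.toFinite _)) (h.trans ?_)
    · exact HsP_mono fun y hy _ => ⟨hy, hex y hy⟩
    · exact Nat.mul_le_mul_right _ (Nat.le_add_left _ _)
  obtain ⟨y0, hy0, -⟩ := hex
  obtain ⟨ψ0, hψ0⟩ := lift_ex π hπ (eval₂Hom φ y0) (fun f hf => hy0 f ((hQ f).2 hf))
  have h00 : (ψ0.comp (algebraMap A B)).comp ρ = φ := by
    refine RingHom.ext fun r => ?_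
    rw [RingHom.comp_apply, RingHom.comp_apply, hρC, hψ0, coe_eval₂Hom, eval₂_C]
  obtain ⟨Es, hEs⟩ : ∃ Es : Finset (Finset (Fin l × (Fin m → k))),
      (Es : Set (Finset (Fin l × (Fin m → k)))) = HsP lam φ Q fun y => eval₂ φ y d ≠ 0 :=
    ⟨(Set.toFinite _).toFinset, (Set.toFinite _).coe_toFinset⟩
  have hE : ∀ u ∈ Es, u.card = n + 3 ∧ ∃ ψ : B →+* k,
      ψ.comp (algebraMap A B) = ψ0.comp (algebraMap A B) ∧ ψ (π d) ≠ 0 ∧
      u = edge lam (fun v => ψ (π (X (Sum.inl v)))) := by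
    intro u hu
    rw [← Finset.mem_coe, hEs] at hu
    obtain ⟨h1, y, hy, hyd, rfl⟩ := hu
    obtain ⟨ψ, hψ⟩ := lift_ex π hπ (eval₂Hom φ y) (fun f hf => hy f ((hQ f).2 hf))
    refine ⟨h1, ψ, ?_, ?_, ?_⟩
    · refine RingHom.ext fun a => ?_
      obtain ⟨r, rfl⟩ := hρ a
      rw [RingHom.comp_apply, RingHom.comp_apply, hρC, hψ, hψ0, coe_eval₂Hom, coe_eval₂Hom,
        eval₂_C, eval₂_C]
    · rw [hψ]
      exact hyd
    · congr 1
      funext v
      rw [hψ, coe_eval₂Hom, eval₂_X]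
  by_cases hlt : C0 * Fintype.card k ^ (2 * m - 1) < Es.card
  · left
    obtain ⟨S, h1, h2, h3⟩ := hC0 k (ψ0.comp (algebraMap A B)) Es hE hlt
    refine ⟨S, h1, h2, fun u hu => ?_⟩
    obtain ⟨h6, y', h7, h8⟩ := h3 u hu
    refine ⟨h6, y', fun f hf => ?_, trivial, h7⟩
    have h4 := h8 (map ρ f) (by
      rw [hlift]
      exact (hQ f).1 hf)
    rw [eval₂_map, h00] at h4
    exact h4
  · right
    rw [not_lt] at hlt
    have h5 : (HsP lam φ Q fun _ => True) ⊆ (HsP lam φ Q fun y => eval₂ φ y d ≠ 0) ∪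
        (HsP lam φ Q fun y => eval₂ φ y d = 0) := by
      rintro u ⟨hu, y, hy, -, rfl⟩
      by_cases h6 : eval₂ φ y d = 0
      · exact Or.inr ⟨hu, y, hy, h6, rfl⟩
      · exact Or.inl ⟨hu, y, hy, h6, rfl⟩
    refine (Set.ncard_le_ncard h5 (Set.toFinite _)).trans ((Set.ncard_union_le _ _).trans ?_)
    rw [← hEs, Set.ncard_coe_finset, add_mul]
    exact Nat.add_le_add hlt h

/-- a prime ideal, the first three parts pairwise independent -/
theorem prime_indep3 (ht : S_T) (h3 : S_C3A) {R B : Type} [CommRing R] [CommRing B] [IsDomain B]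
    {n m s l : ℕ} (lam : Fin (n + 3) → Fin l) (e : ℕ) (c0 : Fin m)
    (π : MvPolynomial ((Fin (n + 3) × Fin m) ⊕ Fin s) R →+* B)
    (hπ : Function.Surjective π)
    (A : Type) [CommRing A] [IsDomain A] [Algebra A B] (hinj : Function.Injective (algebraMap A B))
    (ρ : R →+* A) (hρ : Function.Surjective ρ) (hρC : ∀ r, algebraMap A B (ρ r) = π (C r))
    (hdis : ∀ p p', p ≠ p' → lam p = lam p' →
      ∃ c, π (X (Sum.inl (p, c))) ≠ π (X (Sum.inl (p', c))))
    (hI : ∀ i : Fin 3, AlgebraicIndependent A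
      (fun v : (Sum.inl '' pr n m i : Set ((Fin (n + 3) × Fin m) ⊕ Fin s)) =>
        algebraMap B (FractionRing B) (π (X v))))
    (Q : Ideal (MvPolynomial ((Fin (n + 3) × Fin m) ⊕ Fin s) R)) (hQ : ∀ f, f ∈ Q ↔ π f = 0)
    (hadd : ∀ d, d ∉ Q → ConclD3 lam e Q d) : Concl3 lam e Q := by
  classical
  obtain ⟨x, hxd⟩ : ∃ x : (Fin (n + 3) × Fin m) ⊕ Fin s → B, x = fun v => π (X v) := ⟨_, rfl⟩
  have hI' : ∀ i : Fin 3, AlgebraicIndependent A
      (fun v : (Sum.inl '' pr n m i : Set ((Fin (n + 3) × Fin m) ⊕ Fin s)) =>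
        algebraMap B (FractionRing B) (x v)) := by
    rw [hxd]
    exact hI
  have hdis' : ∀ p p', p ≠ p' → lam p = lam p' → ∃ c, x (Sum.inl (p, c)) ≠ x (Sum.inl (p', c)) := by
    rw [hxd]
    exact hdis
  have hlift : ∀ f0 : MvPolynomial ((Fin (n + 3) × Fin m) ⊕ Fin s) R,
      aeval x (map ρ f0) = π f0 := by
    intro f0
    induction f0 using MvPolynomial.induction_on with
    | C r => rw [map_C, aeval_C, hρC]
    | add p q hp hq => rw [map_add, map_add, map_add, hp, hq]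
    | mul_X p v hp => rw [map_mul, map_mul, map_mul, hp, map_X, aeval_X, hxd]
  have h1' : ∀ f0 : MvPolynomial ((Fin (n + 3) × Fin m) ⊕ Fin s) R,
      aeval (fun v => algebraMap B (FractionRing B) (x v)) (map ρ f0) =
        algebraMap B (FractionRing B) (π f0) := by
    intro f0
    rw [← hlift f0]
    exact aeval_algebraMap_apply _ _ _
  have hx : ∀ a : FractionRing B, ∃ f g : MvPolynomial ((Fin (n + 3) × Fin m) ⊕ Fin s) A,
      aeval (fun v => algebraMap B (FractionRing B) (x v)) g ≠ 0 ∧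
        a * aeval (fun v => algebraMap B (FractionRing B) (x v)) g =
          aeval (fun v => algebraMap B (FractionRing B) (x v)) f := by
    intro a
    obtain ⟨b, c, hc, rfl⟩ := IsFractionRing.div_surjective (A := B) a
    obtain ⟨f0, rfl⟩ := hπ b
    obtain ⟨g0, rfl⟩ := hπ c
    have h2 : algebraMap B (FractionRing B) (π g0) ≠ 0 :=
      IsFractionRing.to_map_ne_zero_of_mem_nonZeroDivisors hc
    refine ⟨map ρ f0, map ρ g0, ?_, ?_⟩
    · rw [h1']
      exact h2
    · rw [h1', h1', div_mul_cancel₀ _ h2]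
  have hconf : HasConf3 n m s l e lam A B x := by
    obtain ⟨p, hp⟩ := CharP.exists B
    rcases CharP.char_is_prime_or_zero B p with hpp | h0
    · have : Fact p.Prime := ⟨hpp⟩
      refine h3 p n m s l lam c0 e A B hinj x (fun b => ?_) hdis' hI'
      obtain ⟨f0, rfl⟩ := hπ b
      exact ⟨map ρ f0, hlift f0⟩
    · subst h0
      have : CharZero B := CharP.charP_to_charZero B
      refine hasConf3_of_2 ?_
      by_cases hal : ∀ (i : Fin 3) (v : Fin (n + 3) × Fin m),
        IsAlgebraic (Algebra.adjoin A ((fun v => algebraMap B (FractionRing B) (x v)) ''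
          (Sum.inl '' pr n m i))) (algebraMap B (FractionRing B) (x (Sum.inl v)))
      · exact conf_a2 ht lam c0 e hinj x hx hdis' hI' hal
      · push Not at hal
        obtain ⟨i, v1, hi⟩ := hal
        exact conf_b2 ht lam c0 e hinj x hx hdis' i (hI' i) v1 hi
  rw [hxd] at hconf
  exact concl_of_conf lam e π hπ A ρ hρ hρC Q hQ hadd hconf

/-- an ideal which contains a polynomial in the coordinates of two parts -/
theorem prime_dep3 (hsz : S_SZ) {R : Type} [CommRing R] {n m s l : ℕ}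
    (lam : Fin (n + 3) → Fin l) (e : ℕ) (c0 : Fin m) (i : Fin 3)
    (Q : Ideal (MvPolynomial ((Fin (n + 3) × Fin m) ⊕ Fin s) R)) (f0 : MvPolynomial (pr n m i) R)
    (hf0 : rename (fun v : pr n m i => (Sum.inl v.1 : (Fin (n + 3) × Fin m) ⊕ Fin s)) f0 ∈ Q)
    (μ : pr n m i →₀ ℕ)
    (hadd : ConclD3 lam e Q (C (coeff μ f0))) : Concl3 lam e Q := by
  classical
  obtain ⟨C1, hC1⟩ := hadd
  obtain ⟨N, hN⟩ : ∃ N : ℕ, N = e * (n + 3) ^ (n + 3) := ⟨_, rfl⟩
  refine ⟨N * f0.totalDegree + C1, fun k _ _ _ φ => ?_⟩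
  by_cases hφ : φ (coeff μ f0) = 0
  · rcases hC1 k φ with h | h
    · exact Or.inl h
    · right
      refine le_trans (Set.ncard_le_ncard ?_ (Set.toFinite _)) (h.trans ?_)
      · refine HsP_mono fun y hy _ => ⟨hy, ?_⟩
        rw [eval₂_C]
        exact hφ
      · exact Nat.mul_le_mul_right _ (Nat.le_add_left _ _)
  obtain ⟨Es, hEs⟩ : ∃ Es : Finset (Fin (n + 3) × Fin m → k),
      Es = Finset.univ.filter fun z => (edge lam z).card = n + 3 ∧
        ∃ y : (Fin (n + 3) × Fin m) ⊕ Fin s → k, y ∈ Zs φ Q ∧ z = fun v => y (Sum.inl v) := ⟨_, rfl⟩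
  have hmE : ∀ z, z ∈ Es ↔ (edge lam z).card = n + 3 ∧
      ∃ y : (Fin (n + 3) × Fin m) ⊕ Fin s → k, y ∈ Zs φ Q ∧ z = fun v => y (Sum.inl v) := by
    intro z
    rw [hEs, Finset.mem_filter]
    exact ⟨fun h => h.2, fun h => ⟨Finset.mem_univ _, h⟩⟩
  by_cases hfib : ∃ w : pr n m i → k, N ≤
      (Es.filter fun z => (fun v : pr n m i => z v) = w).card
  · left
    obtain ⟨w, hw⟩ := hfib
    obtain ⟨Ys', h1, h2, h3⟩ := fibre_conf lam (Es.filter fun z => (fun v : pr n m i => z v) = w)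
      (fun z hz => ((hmE z).1 (Finset.mem_filter.1 hz).1).1) i (by
        intro y hy y' hy' v hv
        have h1 := (Finset.mem_filter.1 hy).2
        have h2 := (Finset.mem_filter.1 hy').2
        have h3 := congrFun (h1.trans h2.symm) ⟨v, hv⟩
        exact h3) e (by
        rw [← hN]
        exact hw)
    refine ⟨Ys'.image (edge lam), h2, h3, ?_⟩
    intro u hu
    rw [Finset.mem_image] at hu
    obtain ⟨z, hz, rfl⟩ := hu
    obtain ⟨h4, y, hy, rfl⟩ := (hmE z).1 (Finset.mem_filter.1 (h1 hz)).1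
    exact ⟨h4, y, hy, trivial, rfl⟩
  · right
    push Not at hfib
    have hfm : map φ f0 ≠ 0 := by
      intro h
      apply hφ
      rw [← coeff_map, h, coeff_zero]
    have h1 := hsz k (pr n m i) (map φ f0) hfm
    rw [card_pr] at h1
    have hm : 0 < m := lt_of_le_of_lt (Nat.zero_le _) c0.2
    have h2 : (Finset.univ.filter fun y : pr n m i → k => eval y (map φ f0) = 0).card ≤
        f0.totalDegree * Fintype.card k ^ (2 * m - 1) := by
      have h3 : Fintype.card k ^ (2 * m) = Fintype.card k ^ (2 * m - 1) * Fintype.card k := by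
        rw [← pow_succ]
        congr 1
        omega
      rw [h3, ← mul_assoc] at h1
      refine (Nat.le_of_mul_le_mul_right h1 Fintype.card_pos).trans ?_
      exact Nat.mul_le_mul_right _ (degree_map _ _)
    have h4 : (HsP lam φ Q fun _ => True) ⊆ ((Es.image (edge lam) :
        Finset (Finset (Fin l × (Fin m → k)))) : Set (Finset (Fin l × (Fin m → k)))) := by
      rintro u ⟨hu, y, hy, -, rfl⟩
      rw [Finset.mem_coe]
      exact Finset.mem_image_of_mem _ ((hmE _).2 ⟨hu, y, hy, rfl⟩)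
    have h5 := card_fib Es (Finset.univ.filter fun y : pr n m i → k => eval y (map φ f0) = 0)
      (fun z => (fun v : pr n m i => z v)) N (by
        intro z hz
        rw [hmE] at hz
        obtain ⟨-, y, hy, rfl⟩ := hz
        rw [Finset.mem_filter]
        refine ⟨Finset.mem_univ _, ?_⟩
        have h7 := hy _ hf0
        rw [eval₂_rename] at h7
        rw [eval_map]
        exact h7) (fun b => hfib b)
    refine (Set.ncard_le_ncard h4 (Set.toFinite _)).trans ?_
    rw [Set.ncard_coe_finset]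
    refine Finset.card_image_le.trans (h5.trans ?_)
    refine (Nat.mul_le_mul_left _ h2).trans ?_
    rw [← mul_assoc]
    exact Nat.mul_le_mul_right _ (Nat.le_add_right _ _)

theorem prime_case3 (ht : S_T) (hsz : S_SZ) (h3a : S_C3A) {R B : Type} [CommRing R] [CommRing B]
    [IsDomain B] {n m s l : ℕ} (lam : Fin (n + 3) → Fin l) (e : ℕ) (c0 : Fin m)
    (π : MvPolynomial ((Fin (n + 3) × Fin m) ⊕ Fin s) R →+* B) (hπ : Function.Surjective π)
    (Q : Ideal (MvPolynomial ((Fin (n + 3) × Fin m) ⊕ Fin s) R)) (hQ : ∀ f, f ∈ Q ↔ π f = 0)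
    (hadd : ∀ d, d ∉ Q → ConclD3 lam e Q d) : Concl3 lam e Q := by
  classical
  by_cases hdis : ∀ p p', p ≠ p' → lam p = lam p' →
      ∃ c, π (X (Sum.inl (p, c))) ≠ π (X (Sum.inl (p', c)))
  swap
  · push Not at hdis
    obtain ⟨p, p', hpp, hl, hc⟩ := hdis
    refine ⟨0, fun k _ _ _ φ => Or.inr ?_⟩
    have h1 : (HsP lam φ Q fun _ => True) = ∅ := by
      rw [Set.eq_empty_iff_forall_notMem]
      rintro u ⟨hu, y, hy, -, rfl⟩
      obtain ⟨c, hc'⟩ := edge_card_inj lam _ hu p p' hpp hl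
      apply hc'
      have h2 : (X (Sum.inl (p, c)) - X (Sum.inl (p', c)) :
          MvPolynomial ((Fin (n + 3) × Fin m) ⊕ Fin s) R) ∈ Q := by
        rw [hQ, map_sub, hc c, sub_self]
      have h3 := hy _ h2
      rw [eval₂_sub, eval₂_X, eval₂_X, sub_eq_zero] at h3
      exact h3
    rw [h1, Set.ncard_empty]
    exact Nat.zero_le _
  have hinj0 : Function.Injective (algebraMap B (FractionRing B)) := IsFractionRing.injective _ _
  let ρ : R →+* (π.comp C).range := (π.comp C).rangeRestrict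
  have hρ : Function.Surjective ρ := RingHom.rangeRestrict_surjective _
  have hinj : Function.Injective (algebraMap (π.comp C).range B) := Subtype.val_injective
  have hρC : ∀ r : R, algebraMap (π.comp C).range B (ρ r) = π (C r) := fun r => rfl
  by_cases hI : ∀ i : Fin 3, AlgebraicIndependent (π.comp C).range
      (fun v : pr n m i => algebraMap B (FractionRing B) (π (X (Sum.inl v.1))))
  · refine prime_indep3 ht h3a lam e c0 π hπ (π.comp C).range hinj ρ hρ hρC hdis (fun i => ?_) Q hQ hadd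
    have h1 := (hI i).comp (fun w : (Sum.inl '' pr n m i : Set ((Fin (n + 3) × Fin m) ⊕ Fin s)) =>
      (⟨Classical.choose w.2, (Classical.choose_spec w.2).1⟩ : pr n m i)) (by
        intro w w' hww
        have h2 := (Classical.choose_spec w.2).2
        have h3 := (Classical.choose_spec w'.2).2
        have h4 := congrArg Subtype.val hww
        simp only at h4
        rw [h4, h3] at h2
        exact (Subtype.ext h2).symm)
    have h5 : (fun v : (Sum.inl '' pr n m i : Set ((Fin (n + 3) × Fin m) ⊕ Fin s)) =>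
        algebraMap B (FractionRing B) (π (X v))) =
        (fun v : pr n m i => algebraMap B (FractionRing B) (π (X (Sum.inl v.1)))) ∘
          (fun w : (Sum.inl '' pr n m i : Set ((Fin (n + 3) × Fin m) ⊕ Fin s)) =>
            (⟨Classical.choose w.2, (Classical.choose_spec w.2).1⟩ : pr n m i)) := by
      funext w
      simp only [Function.comp_apply]
      rw [(Classical.choose_spec w.2).2]
    rw [h5]
    exact h1
  · push Not at hI
    obtain ⟨i, hi⟩ := hI
    rw [algebraicIndependent_iff] at hi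
    push Not at hi
    obtain ⟨f, hf, hf0⟩ := hi
    obtain ⟨f0, rfl⟩ := MvPolynomial.map_surjective ρ hρ f
    obtain ⟨μ, hμ⟩ := MvPolynomial.ne_zero_iff.1 hf0
    rw [coeff_map] at hμ
    have hdQ : (C (coeff μ f0) : MvPolynomial ((Fin (n + 3) × Fin m) ⊕ Fin s) R) ∉ Q := by
      intro h
      apply hμ
      apply hinj
      rw [map_zero, hρC]
      exact (hQ _).1 h
    refine prime_dep3 hsz lam e c0 i Q f0 ?_ μ (hadd _ hdQ)
    rw [hQ]
    apply hinj0
    rw [map_zero, ← hf]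
    have h1 : ∀ g : MvPolynomial (pr n m i) R,
        algebraMap B (FractionRing B) (π (rename
          (fun v : pr n m i => (Sum.inl v.1 : (Fin (n + 3) × Fin m) ⊕ Fin s)) g)) =
        aeval (fun v : pr n m i => algebraMap B (FractionRing B) (π (X (Sum.inl v.1)))) (map ρ g) := by
      intro g
      induction g using MvPolynomial.induction_on with
      | C r => rw [rename_C, map_C, aeval_C, ← hρC,
          IsScalarTower.algebraMap_apply (π.comp C).range B (FractionRing B)]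
      | add p q hp hq => rw [map_add, map_add, map_add, map_add, map_add, hp, hq]
      | mul_X p v hp => rw [map_mul, map_mul, map_mul, map_mul, map_mul, hp, rename_X, map_X, aeval_X]
    exact h1 f0

theorem noe3' (ht : S_T) (hsz : S_SZ) (h3a : S_C3A) {R : Type} [CommRing R] [IsNoetherianRing R]
    {n m s l : ℕ} (lam : Fin (n + 3) → Fin l) (e : ℕ) (c0 : Fin m)
    (Q₀ : Ideal (MvPolynomial ((Fin (n + 3) × Fin m) ⊕ Fin s) R)) : Concl3 lam e Q₀ := by
  classical
  refine IsNoetherian.induction (R := MvPolynomial ((Fin (n + 3) × Fin m) ⊕ Fin s) R)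
    (M := MvPolynomial ((Fin (n + 3) × Fin m) ⊕ Fin s) R)
    (P := fun Q : Ideal (MvPolynomial ((Fin (n + 3) × Fin m) ⊕ Fin s) R) => Concl3 lam e Q) ?_ Q₀
  intro (Q : Ideal (MvPolynomial ((Fin (n + 3) × Fin m) ⊕ Fin s) R)) ih
  have hadd := concl_add3 lam e Q ih
  by_cases htop : Q = ⊤
  · refine ⟨0, fun k _ _ _ φ => Or.inr ?_⟩
    have h1 : (HsP lam φ Q fun _ => True) = ∅ := by
      rw [Set.eq_empty_iff_forall_notMem]
      rintro u ⟨hu, y, hy, -, rfl⟩
      have h2 := hy 1 (by rw [htop]; trivial)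
      rw [← C_1, eval₂_C, map_one] at h2
      exact one_ne_zero h2
    rw [h1, Set.ncard_empty]
    exact Nat.zero_le _
  by_cases hprime : Q.IsPrime
  swap
  · obtain ⟨x, y, hxy, hx, hy⟩ : ∃ x y : MvPolynomial ((Fin (n + 3) × Fin m) ⊕ Fin s) R,
        x * y ∈ Q ∧ x ∉ Q ∧ y ∉ Q := by
      by_contra hcon
      push Not at hcon
      exact hprime ⟨htop, fun {x y} h => by
        by_contra h'
        push Not at h'
        exact h'.2 (hcon x y h h'.1)⟩
    obtain ⟨C1, hC1⟩ := hadd x hx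
    obtain ⟨C2, hC2⟩ := hadd y hy
    refine ⟨C1 + C2, fun k _ _ _ φ => ?_⟩
    rcases hC1 k φ with h | h1
    · exact Or.inl h
    rcases hC2 k φ with h | h2
    · exact Or.inl h
    right
    rw [add_mul]
    refine le_trans (le_trans (Set.ncard_le_ncard ?_ (Set.toFinite _)) (Set.ncard_union_le
      (HsP lam φ Q fun z => eval₂ φ z x = 0) (HsP lam φ Q fun z => eval₂ φ z y = 0)))
      (Nat.add_le_add h1 h2)
    rintro u ⟨hu, z, hz, -, rfl⟩
    have h4 := hz _ hxy
    rw [eval₂_mul, mul_eq_zero] at h4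
    rcases h4 with h4 | h4
    · exact Or.inl ⟨hu, z, hz, h4, rfl⟩
    · exact Or.inr ⟨hu, z, hz, h4, rfl⟩
  -- prime ideals
  have hdom : IsDomain (MvPolynomial ((Fin (n + 3) × Fin m) ⊕ Fin s) R ⧸ Q) :=
    Ideal.Quotient.isDomain Q
  exact prime_case3 ht hsz h3a lam e c0 (Ideal.Quotient.mk Q) Ideal.Quotient.mk_surjective Q
    (fun f => Ideal.Quotient.eq_zero_iff_mem.symm) hadd

theorem noe3 (ht : S_T) (hsz : S_SZ) (h3a : S_C3A) : S_NOE3 :=
  fun _ _ _ _ _ _ _ lam e c0 Q => noe3' ht hsz h3a lam e c0 Q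

end Pool.Agent.K9h85.AH
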