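import Pool.Agent.K9h85.AH.Stm6

/-! The exponent is best possible for `m ≤ 3`, `3 ≤ e ≤ 5`, all `r` -/

set_option autoImplicit false

open MvPolynomial

namespace Pool.Agent.K9h85.AH

section

variable {k : Type} [Field k] [DecidableEq k]

/-- the equations -/
noncomputable def Gt {r m : ℕ} (c : Fin r → k) (i0 i1 : Fin r)
    (P : MvPolynomial ((Fin r × Fin m) ⊕ Fin 0) k)
    (lam : Fin r → Fin r) : Set (MvPolynomial ((Fin r × Fin m) ⊕ Fin 0) k) :=
  {f | (lam = id ∧ (f = P ∨ ∃ p j, f = X (Sum.inl (p, j)) - X (Sum.inl (i0, j)) -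
    C (c p) * (X (Sum.inl (i1, j)) - X (Sum.inl (i0, j))))) ∨ (lam ≠ id ∧ f = 1)}

theorem deg_lin3 {r m : ℕ} (c : Fin r → k) (i0 i1 p : Fin r) (j : Fin m) :
    (X (Sum.inl (p, j)) - X (Sum.inl (i0, j)) -
      C (c p) * (X (Sum.inl (i1, j)) - X (Sum.inl (i0, j))) :
      MvPolynomial ((Fin r × Fin m) ⊕ Fin 0) k).totalDegree ≤ 2 := by
  have hX : ∀ v : (Fin r × Fin m) ⊕ Fin 0,
      (X v : MvPolynomial ((Fin r × Fin m) ⊕ Fin 0) k).totalDegree ≤ 1 := by
    intro v
    rw [totalDegree_X]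
  refine (totalDegree_sub _ _).trans (max_le ((totalDegree_sub _ _).trans (max_le
    ((hX _).trans (by omega)) ((hX _).trans (by omega)))) ?_)
  refine (totalDegree_mul _ _).trans ?_
  rw [totalDegree_C]
  have := (totalDegree_sub (X (Sum.inl (i1, j)) : MvPolynomial ((Fin r × Fin m) ⊕ Fin 0) k)
    (X (Sum.inl (i0, j)))).trans (max_le (hX _) (hX _))
  omega

theorem edgeOf_id3 {r m : ℕ} (c : Fin r → k) (i0 i1 : Fin r)
    (y : (Fin r × Fin m) ⊕ Fin 0 → k)
    (h : ∀ p j, y (Sum.inl (p, j)) - y (Sum.inl (i0, j)) -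
      c p * (y (Sum.inl (i1, j)) - y (Sum.inl (i0, j))) = 0) :
    edgeOf (id : Fin r → Fin r) y = tup c (fun j => y (Sum.inl (i0, j)))
      (fun j => y (Sum.inl (i1, j)) - y (Sum.inl (i0, j))) := by
  unfold edgeOf tup
  congr 1
  funext p
  simp only [id]
  congr 1
  funext j
  simp only [Pi.add_apply, Pi.smul_apply, smul_eq_mul]
  linear_combination h p j

theorem gen3 (h1 : S_RSR) (hDC : S_DC) [Fintype k] {r : ℕ} (hr : 3 ≤ r) (c : Fin r → k)
    (hc : Function.Injective c) (i0 i1 : Fin r) (hc0 : c i0 = 0) (hc1 : c i1 = 1) (m' : ℕ)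
    (Q : (Fin m' → k) → k) (P : MvPolynomial ((Fin r × Fin (m' + 1)) ⊕ Fin 0) k)
    (hP : P.totalDegree ≤ 2)
    (hPe : ∀ y, eval y P = 0 ↔ y (Sum.inl (i1, Fin.last m')) - y (Sum.inl (i0, Fin.last m')) =
      Q fun j => y (Sum.inl (i1, j.castSucc)) - y (Sum.inl (i0, j.castSucc)))
    (hQ : ∀ u v w, ∀ α β : k, α ≠ 0 → β ≠ 0 → α + β ≠ 0 → α • u + β • v = (α + β) • w →
      α * Q u + β * Q v = (α + β) * Q w → u = v) :
    ∃ G : (Fin r → Fin r) → Set (MvPolynomial ((Fin r × Fin (m' + 1)) ⊕ Fin 0) k),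
      (∀ lam, ∀ f ∈ G lam, f.totalDegree ≤ 2) ∧
      (Edges G).ncard = Fintype.card k ^ (2 * (m' + 1) - 1) ∧
      ∀ e, 3 ≤ e → e ≤ 5 → ∀ S : Finset (Finset (Fin r × (Fin (m' + 1) → k))),
        (∀ u ∈ S, u ∈ Edges G) → S.card = e → (r - 2) * e + 3 < (S.biUnion id).card := by
  classical
  obtain ⟨A, hA⟩ : ∃ A : Set (Fin (m' + 1) → k), A = {a | a (Fin.last m') =
    Q fun j => a j.castSucc} := ⟨_, rfl⟩
  have hAm : ∀ a, a ∈ A ↔ a (Fin.last m') = Q fun j => a j.castSucc := by
    intro a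
    rw [hA]
    rfl
  obtain ⟨r1, r2, r3⟩ := h1 r (m' + 1) k c hr hc A (by
    intro a ha b hb z hz α β hα hβ hαβ habz
    rw [hAm] at ha hb hz
    have h3 : (fun i : Fin m' => a i.castSucc) = fun i => b i.castSucc := by
      refine hQ _ _ (fun i => z i.castSucc) α β hα hβ hαβ ?_ ?_
      · funext i
        exact congrFun habz i.castSucc
      · rw [← ha, ← hb, ← hz]
        exact congrFun habz (Fin.last m')
    funext i
    refine Fin.lastCases ?_ (fun j => ?_) i
    · rw [ha, hb, h3]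
    · exact congrFun h3 j)
  have hE : Edges (Gt c i0 i1 P) = {u | ∃ x, ∃ a ∈ A, u = tup c x a} := by
    ext u
    constructor
    · rintro ⟨-, lam, y, hy, rfl⟩
      by_cases hl : lam = id
      · subst hl
        have h2 : ∀ p j, y (Sum.inl (p, j)) - y (Sum.inl (i0, j)) -
            c p * (y (Sum.inl (i1, j)) - y (Sum.inl (i0, j))) = 0 := by
          intro p j
          have h3 := hy _ (Or.inl ⟨rfl, Or.inr ⟨p, j, rfl⟩⟩)
          simpa using h3
        refine ⟨_, _, ?_, edgeOf_id3 c i0 i1 y h2⟩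
        rw [hAm]
        exact (hPe y).1 (hy _ (Or.inl ⟨rfl, Or.inl rfl⟩))
      · exfalso
        have h3 := hy _ (Or.inr ⟨hl, rfl⟩)
        rw [map_one] at h3
        exact one_ne_zero h3
    · rintro ⟨x, a, ha, rfl⟩
      have e0 : ∀ j, x j + c i0 * a j = x j := by
        intro j
        rw [hc0, zero_mul, add_zero]
      have e1 : ∀ j, x j + c i1 * a j = x j + a j := by
        intro j
        rw [hc1, one_mul]
      refine ⟨r1 x a, id, Sum.elim (fun v => x v.2 + c v.1 * a v.2) (fun _ => 0), ?_, ?_⟩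
      · rintro f (⟨-, rfl | ⟨p, j, rfl⟩⟩ | ⟨h, -⟩)
        · rw [hPe]
          simp only [Sum.elim_inl, e0, e1, add_sub_cancel_left]
          exact (hAm a).1 ha
        · simp only [map_sub, map_mul, eval_X, eval_C, Sum.elim_inl, e0, e1]
          ring
        · exact absurd rfl h
      · rw [edgeOf_id3 c i0 i1]
        · congr 1
          · funext j
            simp only [Sum.elim_inl, e0]
          · funext j
            simp only [Sum.elim_inl, e0, e1, add_sub_cancel_left]
        · intro p j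
          simp only [Sum.elim_inl, e0, e1]
          ring
  refine ⟨Gt c i0 i1 P, ?_, ?_, ?_⟩
  · rintro lam f (⟨-, rfl | ⟨p, j, rfl⟩⟩ | ⟨-, rfl⟩)
    · exact hP
    · exact deg_lin3 c i0 i1 p j
    · rw [totalDegree_one]
      omega
  · rw [hE]
    have h4 : {u | ∃ x, ∃ a ∈ A, u = tup c x a} =
        Set.range (fun w : (Fin (m' + 1) → k) × (Fin m' → k) =>
          tup c w.1 (Fin.snoc w.2 (Q w.2) : Fin (m' + 1) → k)) := by
      ext u
      constructor
      · rintro ⟨x, a, ha, rfl⟩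
        refine ⟨(x, fun j => a j.castSucc), ?_⟩
        simp only
        congr 1
        funext i
        refine Fin.lastCases ?_ (fun j => ?_) i
        · rw [Fin.snoc_last]
          exact ((hAm a).1 ha).symm
        · rw [Fin.snoc_castSucc]
      · rintro ⟨⟨x, w⟩, rfl⟩
        refine ⟨x, _, ?_, rfl⟩
        rw [hAm]
        simp only [Fin.snoc_last, Fin.snoc_castSucc]
    rw [h4, Set.ncard_range_of_injective, Nat.card_eq_fintype_card, Fintype.card_prod,
      Fintype.card_fun, Fintype.card_fun, Fintype.card_fin, Fintype.card_fin, ← pow_add]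
    · congr 1
      omega
    · rintro ⟨x, w⟩ ⟨x', w'⟩ hww
      obtain ⟨h5, h6⟩ := r2 _ _ _ _ hww
      refine Prod.ext h5 ?_
      funext j
      have h7 := congrFun h6 j.castSucc
      simpa using h7
  · have hcr : ∀ u ∈ Edges (Gt c i0 i1 P), u.card = r := fun u hu => hu.1
    have k3 : ∀ S : Finset (Finset (Fin r × (Fin (m' + 1) → k))),
        (∀ u ∈ S, u ∈ Edges (Gt c i0 i1 P)) → S.card = 3 →
        (r - 2) * 3 + 3 < (S.biUnion id).card := by
      intro S hS hcard
      refine r3 S (fun u hu => ?_) hcard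
      have h5 := hS u hu
      rw [hE] at h5
      exact h5
    have k4 : ∀ S : Finset (Finset (Fin r × (Fin (m' + 1) → k))),
        (∀ u ∈ S, u ∈ Edges (Gt c i0 i1 P)) → S.card = 4 →
        (r - 2) * 4 + 3 < (S.biUnion id).card := by
      intro S hS hcard
      by_contra hlt
      rw [not_lt] at hlt
      obtain ⟨T, h5, h6, h7⟩ := hDC _ r 4 S (fun u hu => hcr u (hS u hu)) hcard hr (by omega)
        (by omega) hlt
      exact absurd h7 (not_le.2 (k3 T (fun u hu => hS u (h5 hu)) h6))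
    have k5 : ∀ S : Finset (Finset (Fin r × (Fin (m' + 1) → k))),
        (∀ u ∈ S, u ∈ Edges (Gt c i0 i1 P)) → S.card = 5 →
        (r - 2) * 5 + 3 < (S.biUnion id).card := by
      intro S hS hcard
      by_contra hlt
      rw [not_lt] at hlt
      obtain ⟨T, h5, h6, h7⟩ := hDC _ r 5 S (fun u hu => hcr u (hS u hu)) hcard hr (by omega)
        (by omega) hlt
      exact absurd h7 (not_le.2 (k4 T (fun u hu => hS u (h5 hu)) h6))
    intro e h3 h5
    interval_cases e
    · exact k3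
    · exact k4
    · exact k5

end

theorem rs3 (h1 : S_RSR) (hDC : S_DC) : S_RS3 := by
  intro r m hr hm1 hm3 k _ _ _ hq
  classical
  obtain ⟨i0, hi0⟩ : ∃ i0 : Fin r, i0 = ⟨0, by omega⟩ := ⟨_, rfl⟩
  obtain ⟨i1, hi1⟩ : ∃ i1 : Fin r, i1 = ⟨1, by omega⟩ := ⟨_, rfl⟩
  have hi : i1 ≠ i0 := by
    rw [hi0, hi1]
    simp
  obtain ⟨c', hc'⟩ : ∃ c' : Fin r → k, Function.Injective c' := by
    obtain ⟨f⟩ := Function.Embedding.nonempty_of_card_le (α := Fin r) (β := k)
      (by rw [Fintype.card_fin]; exact hq)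
    exact ⟨f, f.injective⟩
  have hd : c' i1 - c' i0 ≠ 0 := sub_ne_zero.2 fun h => hi (hc' h)
  obtain ⟨c, hc, hc0, hc1⟩ : ∃ c : Fin r → k, Function.Injective c ∧ c i0 = 0 ∧ c i1 = 1 := by
    refine ⟨fun p => (c' p - c' i0) / (c' i1 - c' i0), ?_, ?_, ?_⟩
    · intro p p' hpp
      have h2 : (c' p - c' i0) / (c' i1 - c' i0) = (c' p' - c' i0) / (c' i1 - c' i0) := hpp
      rw [div_left_inj' hd] at h2
      exact hc' (sub_left_injective h2)
    · simp
    · exact div_self hd
  have hX : ∀ (m : ℕ) (v : (Fin r × Fin m) ⊕ Fin 0),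
      (X v : MvPolynomial ((Fin r × Fin m) ⊕ Fin 0) k).totalDegree ≤ 1 := by
    intro m v
    rw [totalDegree_X]
  have hD : ∀ (m : ℕ) (v w : (Fin r × Fin m) ⊕ Fin 0),
      (X v - X w : MvPolynomial ((Fin r × Fin m) ⊕ Fin 0) k).totalDegree ≤ 1 :=
    fun m v w => (totalDegree_sub _ _).trans (max_le (hX m v) (hX m w))
  have hD2 : ∀ (m : ℕ) (v w v' w' : (Fin r × Fin m) ⊕ Fin 0),
      ((X v - X w) * (X v' - X w') : MvPolynomial ((Fin r × Fin m) ⊕ Fin 0) k).totalDegree ≤ 2 := by
    intro m v w v' w'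
    refine (totalDegree_mul _ _).trans ?_
    have := hD m v w
    have := hD m v' w'
    omega
  interval_cases m
  · refine gen3 h1 hDC hr c hc i0 i1 hc0 hc1 0 (fun _ => 0)
      (X (Sum.inl (i1, 0)) - X (Sum.inl (i0, 0))) ((hD 1 _ _).trans (by omega)) ?_ ?_
    · intro y
      simp
    · intro u v w _ _ _ _ _ _ _
      exact Subsingleton.elim _ _
  · refine gen3 h1 hDC hr c hc i0 i1 hc0 hc1 1 (fun u => u 0 * u 0)
      ((X (Sum.inl (i1, 1)) - X (Sum.inl (i0, 1))) -
        (X (Sum.inl (i1, 0)) - X (Sum.inl (i0, 0))) * (X (Sum.inl (i1, 0)) - X (Sum.inl (i0, 0))))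
      ?_ ?_ ?_
    · exact (totalDegree_sub _ _).trans (max_le ((hD 2 _ _).trans (by omega)) (hD2 2 _ _ _ _))
    · intro y
      simp only [map_sub, map_mul, eval_X, sub_eq_zero]
      exact Iff.rfl
    · intro u v w α β hα hβ hαβ h3 h4
      have h5 := congrFun h3 0
      simp only [Pi.add_apply, Pi.smul_apply, smul_eq_mul] at h5 h4
      have h6 : α * β * ((u 0 - v 0) * (u 0 - v 0)) = 0 := by
        linear_combination (α + β) * h4 - (α * u 0 + β * v 0 + (α + β) * w 0) * h5
      have h7 : u 0 - v 0 = 0 := by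
        rcases mul_eq_zero.1 h6 with h8 | h8
        · exact absurd h8 (mul_ne_zero hα hβ)
        · exact mul_self_eq_zero.1 h8
      funext i
      rw [Subsingleton.elim i 0]
      exact sub_eq_zero.1 h7
  · obtain ⟨g, hg⟩ : ∃ g : k, ∀ t : k, t * t + t ≠ g := by
      by_contra hcon
      push Not at hcon
      have h2 : Function.Surjective fun t : k => t * t + t := fun g => hcon g
      have h3 := Finite.injective_iff_surjective.2 h2
      have h4 : (0 : k) = -1 := h3 (by simp)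
      exact one_ne_zero (by linear_combination h4 : (1 : k) = 0)
    have hani : ∀ a b : k, a * a + a * b - g * (b * b) = 0 → a = 0 ∧ b = 0 := by
      intro a b hab
      have h8 : b = 0 := by
        by_contra hne
        refine hg (a / b) ?_
        field_simp
        linear_combination hab
      rw [h8] at hab
      have h9 : a * a = 0 := by linear_combination hab
      exact ⟨mul_self_eq_zero.1 h9, h8⟩
    refine gen3 h1 hDC hr c hc i0 i1 hc0 hc1 2
      (fun u => u 0 * u 0 + u 0 * u 1 - g * (u 1 * u 1))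
      ((X (Sum.inl (i1, 2)) - X (Sum.inl (i0, 2))) -
        ((X (Sum.inl (i1, 0)) - X (Sum.inl (i0, 0))) * (X (Sum.inl (i1, 0)) - X (Sum.inl (i0, 0))) +
        (X (Sum.inl (i1, 0)) - X (Sum.inl (i0, 0))) * (X (Sum.inl (i1, 1)) - X (Sum.inl (i0, 1))) -
        C g * ((X (Sum.inl (i1, 1)) - X (Sum.inl (i0, 1))) *
          (X (Sum.inl (i1, 1)) - X (Sum.inl (i0, 1))))))
      ?_ ?_ ?_
    · refine (totalDegree_sub _ _).trans (max_le ((hD 3 _ _).trans (by omega)) ?_)
      refine (totalDegree_sub _ _).trans (max_le ((totalDegree_add _ _).trans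
        (max_le (hD2 3 _ _ _ _) (hD2 3 _ _ _ _))) ?_)
      refine (totalDegree_mul _ _).trans ?_
      rw [totalDegree_C]
      have := hD2 3 (Sum.inl (i1, 1)) (Sum.inl (i0, 1)) (Sum.inl (i1, 1)) (Sum.inl (i0, 1))
      omega
    · intro y
      simp only [map_sub, map_add, map_mul, eval_X, eval_C, sub_eq_zero]
      exact Iff.rfl
    · intro u v w α β hα hβ hαβ h3 h4
      have h5 := congrFun h3 0
      have h6 := congrFun h3 1
      simp only [Pi.add_apply, Pi.smul_apply, smul_eq_mul] at h5 h6 h4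
      have h7 : α * β * ((u 0 - v 0) * (u 0 - v 0) + (u 0 - v 0) * (u 1 - v 1) -
          g * ((u 1 - v 1) * (u 1 - v 1))) = 0 := by
        linear_combination (α + β) * h4 +
          (-(α * u 0 + β * v 0 + (α + β) * w 0) - (α + β) * w 1) * h5 +
          (-(α * u 0 + β * v 0) + g * (α * u 1 + β * v 1 + (α + β) * w 1)) * h6
      obtain ⟨h8, h9⟩ := hani _ _ ((mul_eq_zero.1 h7).resolve_left (mul_ne_zero hα hβ))
      funext i
      fin_cases i
      · exact sub_eq_zero.1 h8
      · exact sub_eq_zero.1 h9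

end Pool.Agent.K9h85.AH
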