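import Mathlib
import Pool.Agent.K9h85.AH.Def5

/-!
# Project AH (helper85): the exponent is best possible for all `r`, `3 ≤ e ≤ 5`, `m ≤ 3`, all finite fields

Edges `{(i, x + c i a) | i < r}`, `a ∈ A`, where `c` is injective and `A` has no three different points `a, b, z` with
`α a + β b = (α + β) z`; `A` = a paraboloid.
-/

set_option autoImplicit false

open MvPolynomial

namespace Pool.Agent.K9h85.AH

/-- the edge `{(i, x + c i a) | i < r}` -/
def tup {r m : ℕ} {k : Type} [Field k] [DecidableEq k] (c : Fin r → k) (x a : Fin m → k) :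
    Finset (Fin r × (Fin m → k)) := Finset.univ.image fun i : Fin r => (i, x + c i • a)

/-- LEAF RSR (file AH/RSR.lean, theorem `rsr : S_RSR`; compare AH/RS1.lean).
Proof.  The map `i ↦ (i, _)` is injective, so there are `r` vertices, one for each `i`.  Two common vertices (for `i ≠ j`,
as each edge has only one vertex for each `i`) give `(c i - c j) • (a - a') = 0`, so `a = a'`, `x = x'`: two different
edges have at most one common vertex.  Let `u, v, w` be three different edges with a union of at most
`3 (r - 2) + 3 = 3 r - 3` vertices.  Inclusion-exclusion: any two have exactly one common vertex and there is no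
common vertex of all three.  So the common vertices of `u, v` (for the index `i`), of `v, w` (index `j`) and of `u, w`
(index `h`) have three different indices (if `i = j` then the vertex of `v` for `i` is common to all three, and so on).
`x + c i a = x' + c i a'`, `x' + c j a' = x'' + c j a''`, `x + c h a = x'' + c h a''` give
`(c i - c h) a + (c j - c i) a' = (c j - c h) a''`, so `a = a'` by the assumption (`α = c i - c h`, `β = c j - c i`,
`α + β = c j - c h`), and then `x = x'`, `u = v`, a contradiction. -/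
def S_RSR : Prop :=
  ∀ (r m : ℕ) (k : Type) [Field k] [DecidableEq k] (c : Fin r → k), 3 ≤ r → Function.Injective c →
    ∀ A : Set (Fin m → k), (∀ a ∈ A, ∀ b ∈ A, ∀ z ∈ A, ∀ α β : k, α ≠ 0 → β ≠ 0 → α + β ≠ 0 →
      α • a + β • b = (α + β) • z → a = b) →
    (∀ x a : Fin m → k, (tup c x a).card = r) ∧
    (∀ x a x' a' : Fin m → k, tup c x a = tup c x' a' → x = x' ∧ a = a') ∧
    ∀ S : Finset (Finset (Fin r × (Fin m → k))), (∀ u ∈ S, ∃ x, ∃ a ∈ A, u = tup c x a) →
      S.card = 3 → (r - 2) * 3 + 3 < (S.biUnion id).card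

/-- LEAF DC (file AH/DC.lean, theorem `dc : S_DC`).
Proof.  Let `U` be the union, `n₁` the number of the vertices which are in exactly one edge.  Suppose that for each
edge `u` the union `U u` of the others has at least `(r - 2) (e - 1) + 4` elements.  A vertex of `U` is in all the `U u`, or
(`n₁` of them) in all but one: `∑ u ∈ S, |U u| = e |U| - n₁` (in fact `+ n₁ = `; `|U| - |U u|` is the number of the vertices
only in `u`, and these sets are disjoint with a union of size `n₁`).  Count incidences: `n₁ + 2 (|U| - n₁) ≤ r e`.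
So `e ((r - 2) (e - 1) + 4) ≤ (e - 2) |U| + r e ≤ (e - 2) ((r - 2) e + 3) + r e`, that is `6 ≤ e`, a contradiction.
(`T = S.erase u` for a suitable `u`.) -/
def S_DC : Prop :=
  ∀ (V : Type) [DecidableEq V] (r e : ℕ) (S : Finset (Finset V)), (∀ u ∈ S, u.card = r) →
    S.card = e → 3 ≤ r → 3 ≤ e → e ≤ 5 → (S.biUnion id).card ≤ (r - 2) * e + 3 →
    ∃ T ⊆ S, T.card = e - 1 ∧ (T.biUnion id).card ≤ (r - 2) * (e - 1) + 3

/-- LEAF RS3 (file AH/RS3.lean, theorem `rs3 (h : S_RSR) (h' : S_DC) : S_RS3`; helper85).  -/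
def S_RS3 : Prop :=
  ∀ (r m : ℕ), 3 ≤ r → 1 ≤ m → m ≤ 3 → ∀ (k : Type) [Field k] [Fintype k] [DecidableEq k],
    r ≤ Fintype.card k →
    ∃ G : (Fin r → Fin r) → Set (MvPolynomial ((Fin r × Fin m) ⊕ Fin 0) k),
      (∀ lam, ∀ f ∈ G lam, f.totalDegree ≤ 2) ∧ (Edges G).ncard = Fintype.card k ^ (2 * m - 1) ∧
      ∀ e, 3 ≤ e → e ≤ 5 → ∀ S : Finset (Finset (Fin r × (Fin m → k))), (∀ u ∈ S, u ∈ Edges G) →
        S.card = e → (r - 2) * e + 3 < (S.biUnion id).card

end Pool.Agent.K9h85.AH
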