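import Mathlib
import Pool.Agent.K9h85.AH.Stm6

set_option autoImplicit false

/-! Leaf RSR: edges `{(i, x + c i a) | i < r}`: no three edges on `3 r - 3` vertices. -/

namespace Pool.Agent.K9h85.AH

theorem rsr : S_RSR := by
  intro r m k _ _ c hr hc A hA
  have mem : ∀ (x a : Fin m → k) (i : Fin r) (y : Fin m → k),
      (i, y) ∈ tup c x a ↔ y = x + c i • a := by
    intro x a i y
    unfold tup
    rw [Finset.mem_image]
    constructor
    · rintro ⟨j, _, hj⟩
      have h1 := (Prod.mk.inj hj).1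
      have h2 := (Prod.mk.inj hj).2
      rw [← h2, h1]
    · rintro rfl
      exact ⟨i, Finset.mem_univ _, rfl⟩
  have two : ∀ (x a x' a' : Fin m → k) (i j : Fin r), i ≠ j → x + c i • a = x' + c i • a' →
      x + c j • a = x' + c j • a' → x = x' ∧ a = a' := by
    intro x a x' a' i j hij h1 h2
    have hcij : c i - c j ≠ 0 := sub_ne_zero.2 (fun h => hij (hc h))
    have ha : a = a' := by
      funext t
      have e1 := congrFun h1 t
      have e2 := congrFun h2 t
      simp only [Pi.add_apply, Pi.smul_apply, smul_eq_mul] at e1 e2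
      have e3 : (c i - c j) * a t = (c i - c j) * a' t := by linear_combination e1 - e2
      exact mul_left_cancel₀ hcij e3
    subst ha
    exact ⟨add_right_cancel h1, rfl⟩
  have card : ∀ x a : Fin m → k, (tup c x a).card = r := by
    intro x a
    unfold tup
    rw [Finset.card_image_of_injective, Finset.card_univ, Fintype.card_fin]
    intro i j hij
    exact (Prod.mk.inj hij).1
  have inj : ∀ x a x' a' : Fin m → k, tup c x a = tup c x' a' → x = x' ∧ a = a' := by
    intro x a x' a' h
    have e : ∀ i : Fin r, x + c i • a = x' + c i • a' := by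
      intro i
      rw [← mem x' a' i, ← h, mem]
    exact two x a x' a' ⟨0, by omega⟩ ⟨1, by omega⟩ (by simp) (e _) (e _)
  refine ⟨card, inj, ?_⟩
  have share : ∀ x a x' a' : Fin m → k, tup c x a ≠ tup c x' a' →
      (tup c x a ∩ tup c x' a').card ≤ 1 := by
    intro x a x' a' hne
    rw [Finset.card_le_one]
    rintro ⟨i, y⟩ h1 ⟨j, z⟩ h2
    rw [Finset.mem_inter, mem, mem] at h1 h2
    by_cases hij : i = j
    · subst hij
      rw [h1.1, h2.1]
    · exfalso
      apply hne
      obtain ⟨e1, e2⟩ := two x a x' a' i j hij (h1.1.symm.trans h1.2) (h2.1.symm.trans h2.2)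
      rw [e1, e2]
  intro S hS hcS
  obtain ⟨u, v, w, huv, huw, hvw, rfl⟩ := Finset.card_eq_three.1 hcS
  obtain ⟨x, a, ha, hu⟩ := hS u (by simp)
  obtain ⟨x', a', ha', hv⟩ := hS v (by simp)
  obtain ⟨x'', a'', ha'', hw⟩ := hS w (by simp)
  have hbi : (({u, v, w} : Finset (Finset (Fin r × (Fin m → k)))).biUnion id) = u ∪ v ∪ w := by
    rw [Finset.biUnion_insert, Finset.biUnion_insert, Finset.singleton_biUnion, Finset.union_assoc]
    rfl
  rw [hbi]
  have c1 := Finset.card_union_add_card_inter (u ∪ v) w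
  have c2 := Finset.card_union_add_card_inter u v
  have c3 : ((u ∪ v) ∩ w).card = ((u ∩ w) ∪ (v ∩ w)).card := by
    rw [Finset.union_inter_distrib_right]
  have c4 := Finset.card_union_le (u ∩ w) (v ∩ w)
  have cu : u.card = r := by rw [hu]; exact card _ _
  have cv : v.card = r := by rw [hv]; exact card _ _
  have cw : w.card = r := by rw [hw]; exact card _ _
  have suv : (u ∩ v).card ≤ 1 := by rw [hu, hv]; exact share _ _ _ _ (by rw [← hu, ← hv]; exact huv)
  have suw : (u ∩ w).card ≤ 1 := by rw [hu, hw]; exact share _ _ _ _ (by rw [← hu, ← hw]; exact huw)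
  have svw : (v ∩ w).card ≤ 1 := by rw [hv, hw]; exact share _ _ _ _ (by rw [← hv, ← hw]; exact hvw)
  by_contra hlt
  have n1 : 0 < (u ∩ v).card := by omega
  have n2 : 0 < (u ∩ w).card := by omega
  have n3 : 0 < (v ∩ w).card := by omega
  have n4 : 2 ≤ ((u ∩ w) ∪ (v ∩ w)).card := by omega
  obtain ⟨⟨i, y1⟩, h1⟩ := Finset.card_pos.1 n1
  obtain ⟨⟨h, y2⟩, h2⟩ := Finset.card_pos.1 n2
  obtain ⟨⟨j, y3⟩, h3⟩ := Finset.card_pos.1 n3
  have hne : ((h, y2) : Fin r × (Fin m → k)) ≠ (j, y3) := by
    intro he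
    have h4 : ((u ∩ w) ∪ (v ∩ w)).card ≤ 1 := by
      rw [Finset.card_le_one]
      have aux : ∀ s ∈ (u ∩ w) ∪ (v ∩ w), s = (h, y2) := by
        intro s hs
        rcases Finset.mem_union.1 hs with hs | hs
        · exact Finset.card_le_one.1 suw s hs _ h2
        · rw [he]
          exact Finset.card_le_one.1 svw s hs _ h3
      intro s hs t ht
      rw [aux s hs, aux t ht]
    omega
  have h1' := h1
  have h2' := h2
  have h3' := h3
  rw [Finset.mem_inter, hu, hv, mem, mem] at h1'
  rw [Finset.mem_inter, hu, hw, mem, mem] at h2'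
  rw [Finset.mem_inter, hv, hw, mem, mem] at h3'
  have hhj : h ≠ j := by
    rintro rfl
    apply hne
    rw [h2'.2, h3'.2]
  have hih : i ≠ h := by
    rintro rfl
    have e1 : y1 = y2 := by rw [h1'.1, h2'.1]
    subst e1
    have e2 : ((i, y1) : Fin r × (Fin m → k)) ∈ v ∩ w :=
      Finset.mem_inter.2 ⟨(Finset.mem_inter.1 h1).2, (Finset.mem_inter.1 h2).2⟩
    exact hne (Finset.card_le_one.1 svw _ e2 _ h3)
  have hij : i ≠ j := by
    rintro rfl
    have e1 : y1 = y3 := by rw [h1'.2, h3'.1]
    subst e1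
    have e2 : ((i, y1) : Fin r × (Fin m → k)) ∈ u ∩ w :=
      Finset.mem_inter.2 ⟨(Finset.mem_inter.1 h1).1, (Finset.mem_inter.1 h3).2⟩
    exact hne (Finset.card_le_one.1 suw _ h2 _ e2)
  have g1 : x + c i • a = x' + c i • a' := h1'.1.symm.trans h1'.2
  have g2 : x + c h • a = x'' + c h • a'' := h2'.1.symm.trans h2'.2
  have g3 : x' + c j • a' = x'' + c j • a'' := h3'.1.symm.trans h3'.2
  have haa : a = a' := by
    refine hA a ha a' ha' a'' ha'' (c i - c h) (c j - c i) (sub_ne_zero.2 fun e => hih (hc e))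
      (sub_ne_zero.2 fun e => hij (hc e).symm) ?_ ?_
    · have : c i - c h + (c j - c i) = c j - c h := by ring
      rw [this]
      exact sub_ne_zero.2 fun e => hhj (hc e).symm
    · funext t
      have e1 := congrFun g1 t
      have e2 := congrFun g2 t
      have e3 := congrFun g3 t
      simp only [Pi.add_apply, Pi.smul_apply, smul_eq_mul] at e1 e2 e3 ⊢
      linear_combination e1 - e2 + e3
  subst haa
  apply huv
  rw [hu, hv, add_right_cancel g1]

end Pool.Agent.K9h85.AH
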