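import Mathlib

/-!
# Project AH (helper85): hypergraphs defined by a polynomial equation over a finite field

`k` a finite field with `q` elements, `F ∈ k[x, y, z]` of degree at most `d`.  Edges: the zeros of `F`
in `k ^ 3`, a zero has the three vertices `(i, x i)`.  GOAL: if the characteristic is large in terms of
`d`, `e` and `F` has more than `C q` zeros then some `e` zeros span at most `e + 3` vertices; every zero
at which no partial derivative vanishes is in at least `q / C` such sets.
-/

set_option autoImplicit false

open MvPolynomial

namespace Pool.Agent.K9h85.AH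

/-- the number of vertices of a set of triples: the sum over the three coordinates of the number of
the values of the coordinate -/
def verts {k : Type} [DecidableEq k] (S : Finset (Fin 3 → k)) : ℕ :=
  ∑ i, (S.image fun x => x i).card

/-- LEAF B (file AH/B.lean, theorem `b : S_B`).
Proof.  `C_0 = 0` (a nonzero constant has no zeros).  Strong induction on the bound `d` of the degree.  Let
`F` be of degree at most `d` with more than `C_d q` zeros, and suppose that the conclusion fails.  (1) `e`
zeros on a line parallel to an axis span at most `e + 2` vertices, so every such line contains less than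
`e` zeros.  (2) If `F = F₁ F₂` with nonunits, one of the factors (nonzero, of smaller degree:
`totalDegree_mul_of_isDomain`) has more than `C_d q / 2` zeros: apply the induction hypothesis to it
(its conclusion implies the conclusion for `F`), if `C_d ≥ 2 C_(d-1)`.  (3) So `F` is irreducible.
All zeros are degenerate, so for some `i` the polynomial `pderiv i F` vanishes at a third of the zeros.
If `pderiv i F = 0` then (characteristic > d) `F` does not depend on `x i`, and any zero gives a whole
line of `q ≥ e` zeros, against (1).  Otherwise regard `F`, `pderiv i F` as polynomials in `x i` over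
`k[other two variables]` (`finSuccEquiv` for `i = 0`; after `rename` by a permutation for the other
`i`).  `F` is irreducible of positive degree in `x i`, hence primitive and irreducible over the field of
fractions (Gauss), `pderiv i F ≠ 0` has smaller degree, so the resultant `w` is not zero
(`Polynomial.resultant_eq_zero_iff`, `resultant_map_map`), it is in the ideal generated by the two
(`exists_mul_add_mul_eq_C_resultant`), it has total degree at most `2 d ^ 2` (or any other bound in terms
of `d`: determinant of a matrix of size at most `2 d` with entries of degree at most `d`), so it has at most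
`2 d ^ 2 q` zeros in `k ^ 2` (Schwartz-Zippel), and by (1) `F`, `pderiv i F` have at most
`2 d ^ 2 e q` common zeros. -/
def S_B : Prop :=
  ∀ d e : ℕ, ∃ C : ℕ, ∀ (k : Type) [Field k] [Fintype k] [DecidableEq k], C < ringChar k →
    ∀ F : MvPolynomial (Fin 3) k, F ≠ 0 → F.totalDegree ≤ d →
      C * Fintype.card k < (Finset.univ.filter fun x : Fin 3 → k => eval x F = 0).card →
      (∃ S : Finset (Fin 3 → k), S.card = e ∧ (∀ x ∈ S, eval x F = 0) ∧ verts S ≤ e + 3) ∨
      ∃ G : MvPolynomial (Fin 3) k, G.totalDegree ≤ d ∧ (∀ x, eval x G = 0 → eval x F = 0) ∧
        ∃ x, eval x G = 0 ∧ ∀ i, eval x (pderiv i G) ≠ 0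

/-- LEAF H (file AH/H.lean, theorem `h : S_H`).
Proof.  `Pool.Agent.H470.hensel` (starting file H470/Hensel.lean; Hensel's lemma for power series without
`Monic`).  Start with `x 0 = C (a 0)`, `z 0 = C (a 2)`; given `x n`, `z n` with constant terms `a 0`,
`a 2`: `z (n + 1)` is the root `T = z` of `F (x n, C (a 1) + X, T)` with constant term `a 2`, and
`x (n + 1)` the root of `F (T, C (a 1), z (n + 1))` with constant term `a 0` (the derivative in `T` at
the constant terms is the partial derivative of `F` at `a`, not zero).  Each is a root of a nonzero
polynomial over the ring generated by the earlier ones, so it is algebraic over `K[X]`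
(`IsAlgebraic.restrictScalars`/ transitivity via the algebraic closure of `K[X]` in the power series).
Coefficients of `X` (1-jets): by induction on `F` the coefficient of `X` in `F (x, y, z)` is
`∑ i, (pderiv i F)(constant terms) * (coefficient of X)`; so with `F_i = eval a (pderiv i F)` the coefficient
of `X` in `x n` is `n F_1 / F_0`, in `z n` it is `- n F_1 / F_2`; hence injectivity in characteristic 0. -/
def S_H : Prop :=
  ∀ (K : Type) [Field K] [CharZero K] (F : MvPolynomial (Fin 3) K) (a : Fin 3 → K),
    eval a F = 0 → (∀ i, eval a (pderiv i F) ≠ 0) →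
    ∃ x z : ℕ → PowerSeries K,
      x 0 = PowerSeries.C (a 0) ∧ z 0 = PowerSeries.C (a 2) ∧
      (∀ n, aeval ![x n, PowerSeries.C (a 1), z n] F = 0) ∧
      (∀ n, aeval ![x n, PowerSeries.C (a 1) + PowerSeries.X, z (n + 1)] F = 0) ∧
      (∀ n, IsAlgebraic (Polynomial K) (x n)) ∧ (∀ n, IsAlgebraic (Polynomial K) (z n)) ∧
      (∀ n, PowerSeries.constantCoeff (x n) = a 0) ∧ (∀ n, PowerSeries.constantCoeff (z n) = a 2) ∧
      Function.Injective x ∧ Function.Injective z

/-- PART G (mine): specialisation of algebraic power series to finite fields -/
def S_G : Prop :=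
  ∀ (A : Type) [CommRing A] [IsDomain A] [CharZero A] (ι : Type) [Finite ι]
    (w : ι → PowerSeries (FractionRing A)),
    (∀ i, IsAlgebraic (Polynomial (FractionRing A)) (w i)) →
    ∀ S : Subring (PowerSeries (FractionRing A)),
    S = Subring.closure (Set.range (fun a : A => PowerSeries.C (algebraMap A (FractionRing A) a)) ∪
      {PowerSeries.X} ∪ Set.range w) →
    ∀ h ∈ S, h ≠ 0 →
    ∃ D : A, D ≠ 0 ∧ ∃ C : ℕ, ∀ (k : Type) [Field k] [Fintype k] [DecidableEq k] (φ : A →+* k),
      φ D ≠ 0 → C ≤ Fintype.card k → ∃ T : Finset k, Fintype.card k ≤ C * T.card ∧ ∀ s ∈ T,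
        ∃ ψ : S →+* k, (∀ (a : A) (g : S), (g : PowerSeries (FractionRing A)) =
            PowerSeries.C (algebraMap A (FractionRing A) a) → ψ g = φ a) ∧
          (∀ g : S, (g : PowerSeries (FractionRing A)) = PowerSeries.X → ψ g = s) ∧
          (∀ g : S, (g : PowerSeries (FractionRing A)) = h → ψ g ≠ 0)

end Pool.Agent.K9h85.AH
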