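import Mathlib

/-!
# Project AH (helper85), all finite fields: characteristic `p`

The theorem of Fin2 (`r`-partite case) without any condition on the characteristic.  In characteristic `p` we
work over perfect fields `N` and in a perfect ring `P` over `N[[X]]` (think of the union of the
`N[[X ^ (1 / p ^ j)]]`).
-/

set_option autoImplicit false

open MvPolynomial

namespace Pool.Agent.K9h85.AH

/-- a radical extension `P` of `N[[X]]` with an extension of the constant coefficient -/
structure Perf (p : ℕ) (N : Type) [Field N] (P : Type) [CommRing P] where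
  ι : PowerSeries N →+* P
  cc : P →+* N
  inj : Function.Injective ι
  rad : ∀ a : P, ∃ (j : ℕ) (f : PowerSeries N), a ^ p ^ j = ι f
  cc_ι : ∀ f, cc (ι f) = PowerSeries.constantCoeff f

/-- `a` is a root of an algebraic power series -/
def Gd {p : ℕ} {N : Type} [Field N] {P : Type} [CommRing P] (𝔭 : Perf p N P) (a : P) : Prop :=
  ∃ (j : ℕ) (f : PowerSeries N), a ^ p ^ j = 𝔭.ι f ∧ IsAlgebraic (Polynomial N) f

/-- LEAF P3 (file AH/P3.lean, theorem `p3 : S_P3`).
Proof.  `P = PerfectClosure (PowerSeries N) p`, `ι = PerfectClosure.of`, `cc = PerfectClosure.lift` of the constant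
coefficient (`N` is perfect); injective as `PowerSeries N` is reduced; `P` is a domain: if `a b = 0` take
`p ^ j`-th powers which come from `PowerSeries N`. -/
def S_P3 : Prop :=
  ∀ (p : ℕ) [Fact p.Prime] (N : Type) [Field N] [CharP N p] [PerfectRing N p],
    ∃ (P : Type) (_ : CommRing P) (_ : IsDomain P) (_ : CharP P p) (_ : PerfectRing P p),
      Nonempty (Perf p N P)

/-- LEAF X3 (file AH/X3.lean, theorem `x3 : S_X3`; compare AH/X.lean).
Proof.  Power basis `θ` of `N / M`, `g = minpoly M θ`.  There is one `j` such that all the coefficients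
of `g.map τ` have their `p ^ j`-th powers in `ι (N[[X]])` (finitely many coefficients; use `Gd` with
algebraic ones), so the polynomial `g_j` over `N[[X]]` with `(g.map τ).map (frobenius ^ j) = g_j.map ι`.  Modulo
`X` it is `g.map (frobenius ^ j)` with the simple root `θ ^ p ^ j` (`g` separable, Frobenius injective), Hensel
(as in AH/X.lean) gives a root `Θ_j` in `N[[X]]`, and `Θ` in `P` with `Θ ^ p ^ j = ι Θ_j` (perfect) is a root of
`g.map τ` (`P` is reduced), `cc Θ = θ` (injectivity of Frobenius on `N`).  Extend by the power basis.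
`Gd (σ a)`: `σ a` is a polynomial in `Θ` with coefficients in `τ M`; the elements with `Gd` form a subring
(common `j`: `Gd` is stable under enlarging `j`; sums and products of algebraic elements), and `Gd Θ`: `Θ_j` is a
root of the monic `g_j` whose coefficients are algebraic over `Polynomial N`
(`Subalgebra.algebraicClosure`, `IsAlgebraic.restrictScalars` as in AH/X.lean). -/
def S_X3 : Prop :=
  ∀ (p : ℕ) [Fact p.Prime] (N : Type) [Field N] [CharP N p] [PerfectRing N p] (P : Type) [CommRing P]
    [IsDomain P] [CharP P p] [PerfectRing P p] (𝔭 : Perf p N P) (M : Type) [Field M] [Algebra M N]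
    [FiniteDimensional M N] [Algebra.IsSeparable M N] (τ : M →+* P),
    (∀ a, 𝔭.cc (τ a) = algebraMap M N a) → (∀ a, Gd 𝔭 (τ a)) →
    ∃ σ : N →+* P, (∀ a : M, σ (algebraMap M N a) = τ a) ∧ (∀ a, 𝔭.cc (σ a) = a) ∧ ∀ a, Gd 𝔭 (σ a)

/-- LEAF T3 (file AH/T3.lean, theorem `t3 (hx : S_X3) : S_T3`; compare AH/T.lean).
Proof.  `M₀ = FractionRing (MvPolynomial s A)`, embedded in `N` by `x`, mapped to `P` by `b` and
`ι ∘ C` (a nonzero polynomial goes to an element `a` with `cc a ≠ 0`; such an `a` is a unit: `a ^ p ^ j = ι f`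
with `f` a unit).  `M` = the elements of `N` with a `p ^ j`-th power in `M₀` (`perfectClosure M₀ N`, an
intermediate field, perfect as `N` is perfect); `PerfectRing.lift` (Mathlib.FieldTheory.IsPerfectClosure) extends
`M₀ → P` to `τ : M → P`; `cc ∘ τ` = inclusion (uniqueness, or take powers), `Gd (τ a)`.  `N` is finite and
separable over `M`: `M (x v : v ∈ V)` is finite over `M` (all `x v` are algebraic over `M`:
`IsTranscendenceBasis.isAlgebraic`), perfect (algebraic over a perfect field) and `N` is purely inseparable over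
it by the assumption on generation, so it is `N`; separable since `M` is perfect.  Apply `hx`. -/
def S_T3 : Prop :=
  ∀ (p : ℕ) [Fact p.Prime] (N : Type) [Field N] [CharP N p] [PerfectRing N p] (P : Type) [CommRing P]
    [IsDomain P] [CharP P p] [PerfectRing P p] (𝔭 : Perf p N P) (A : Type) [CommRing A] [IsDomain A]
    [Algebra A N], Function.Injective (algebraMap A N) → ∀ (V : Type) [Finite V] (x : V → N),
    (∀ a : N, ∃ (j : ℕ) (f g : MvPolynomial V A), aeval x g ≠ 0 ∧ a ^ p ^ j * aeval x g = aeval x f) →
    ∀ s : Set V, IsTranscendenceBasis A (fun v : s => x v) → ∀ b : s → P,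
    (∀ v, 𝔭.cc (b v) = x v) → (∀ v, Gd 𝔭 (b v)) →
    ∃ σ : N →+* P, (∀ a : A, σ (algebraMap A N a) = 𝔭.ι (PowerSeries.C (algebraMap A N a))) ∧
      (∀ a, 𝔭.cc (σ a) = a) ∧ (∀ v : s, σ (x v) = b v) ∧ ∀ a, Gd 𝔭 (σ a)

/-- LEAF SEP (file AH/SEP.lean, theorem `sep : S_SEP`).  Algebraic power series over a perfect field are
separable: every algebraic `w` is a simple root of some polynomial over `Polynomial K`.
Proof.  Characteristic 0 or `p`.  Take a nonzero `F` over `K[X]` with `aeval w F = 0` of least degree.  If
`aeval w F.derivative ≠ 0` done.  Otherwise `F.derivative = 0` by minimality, so (characteristic `p`)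
`F = ∑ i, c_i Y ^ (p i)`.  Write `c_i = ∑ (j < p), X ^ j * c_ij ^ p` (`K` perfect).  Then
`∑ (j < p), X ^ j (∑ i, c_ij w ^ i) ^ p = 0`, and a power series is uniquely `∑ (j < p), X ^ j * g_j ^ p` (look at the
exponents modulo `p`), so `∑ i, c_ij w ^ i = 0` for all `j`, and one of these polynomials is nonzero, of smaller
degree, a contradiction. -/
def S_SEP : Prop :=
  ∀ (p : ℕ) [Fact p.Prime] (K : Type) [Field K] [CharP K p] [PerfectRing K p] (w : PowerSeries K),
    IsAlgebraic (Polynomial K) w → ∃ F : Polynomial (Polynomial K), Polynomial.aeval w F = 0 ∧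
      Polynomial.aeval w (Polynomial.derivative F) ≠ 0

/-- LEAF CB (file AH/CB.lean, theorem `cb : S_CB`).  Walks in a bipartite multigraph: `a : α` is an edge from
`vx a` to `vz a`.
Proof.  The walk of `P` has the vertices `v 0 = vz (u 0)`, `v 1 = vx (u 0) = vx (u 1)`, `v 2 = vz (u 1) = vz (u 2)`, …
in `X ⊕ Z`; `u j` has the ends `v j`, `v (j + 1)`.  (i) If `v 0, …, v e` are distinct then `u 0, …, u (e - 1)` are
`e` distinct edges (`u j = u j'` with `j < j'` forces `j' = j + 1`, excluded) with `e + 1` vertices.  (ii) Otherwise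
let `i ≤ e` be least with `v i` in `{v 0, …, v (i - 1)}`; `F P = {u 0, …, u (i - 1)}` has `i` edges (same argument) and
the `i` vertices `v 0, …, v (i - 1)`.  For every finite set `S` of edges with vertex set `V S`: the number of
vertices of `F P` outside `V S` is at most the number of edges of `F P` outside `S` (if some `v t` is
in `V S`, assign `u (j - 1)` to `v j` for `j > t` and `u j` for `j < t`; otherwise `u j` to `v j`), and for the
prefixes `{u 0, …, u (j - 1)}` at most this number plus one (assign `u (a - 1)` to `v a`, `a ≥ 1`).  So add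
the `F P`, `P` in `Ps`, one after the other as long as the union `S` has less than `e` edges (`|V S| ≤ |S|`);
as the union of all contains `Ps`, some `S ∪ F P` has at least `e` edges; add the prefix of `F P` for which the
union has exactly `e` edges: at most `e + 1` vertices. -/
def S_CB : Prop :=
  ∀ (α X Z : Type) [DecidableEq α] [DecidableEq X] [DecidableEq Z] (vx : α → X) (vz : α → Z) (e : ℕ)
    (Ps : Finset α) (u : α → ℕ → α), e ≤ Ps.card → (∀ P ∈ Ps, u P 0 = P) →
    (∀ P ∈ Ps, ∀ j, 2 * j + 1 ≤ e → vx (u P (2 * j)) = vx (u P (2 * j + 1))) →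
    (∀ P ∈ Ps, ∀ j, 2 * j + 2 ≤ e → vz (u P (2 * j + 1)) = vz (u P (2 * j + 2))) →
    (∀ P ∈ Ps, ∀ j, j + 1 ≤ e → u P j ≠ u P (j + 1)) →
    ∃ S : Finset α, S.card = e ∧ (∀ a ∈ S, ∃ P ∈ Ps, ∃ j ≤ e, a = u P j) ∧
      (S.image vx).card + (S.image vz).card ≤ e + 1

end Pool.Agent.K9h85.AH
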