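import Mathlib
import Pool.Agent.K9h85.AH.Stm5
import Pool.Agent.K9h85.AH.Conf2
import Pool.Agent.K9h85.AH.Noe2
import Pool.Agent.K9h85.AH.Def5

/-!
# Project AH (helper85), all finite fields, second part: engine, walks, configurations, Noetherian induction

Names: `pr n m i` = coordinates of the two parts other than `i`, `pa n j` = index of the part `j` (see AH/Zig.lean),
`edge lam z` = the edge (AH/Edge.lean), `Zs`, `Has`, `HsP` (AH/Noe.lean, AH/Noe2.lean), `Perf`, `Gd` (AH/Stm5.lean).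
-/

set_option autoImplicit false

open MvPolynomial

namespace Pool.Agent.K9h85.AH

/-- LEAF G3P (file AH/G3P.lean, theorem `g3p (h : S_SEP) : S_G3`).  The statement `S_G` (AH/Stm.lean) for perfect domains
of characteristic `p`; adapt AH/G1.lean, G2.lean, G3.lean: characteristic zero is used there only for the primitive
element of a finite extension of `K (X)` in `K ((X))`, `K = FractionRing A`, which is separable by `S_SEP`
(`K` is perfect, as `A` is). -/
def S_G3 : Prop :=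
  ∀ (p : ℕ) [Fact p.Prime] (A : Type) [CommRing A] [IsDomain A] [CharP A p] [PerfectRing A p]
    (ι : Type) [Finite ι] (w : ι → PowerSeries (FractionRing A)),
    (∀ i, IsAlgebraic (Polynomial (FractionRing A)) (w i)) →
    ∀ S : Subring (PowerSeries (FractionRing A)),
    S = Subring.closure (Set.range (fun a : A => PowerSeries.C (algebraMap A (FractionRing A) a)) ∪
      {PowerSeries.X} ∪ Set.range w) →
    ∀ h ∈ S, h ≠ 0 →
    ∃ D : A, D ≠ 0 ∧ ∃ C : ℕ, ∀ (k : Type) [Field k] [Fintype k] [DecidableEq k] (φ : A →+* k),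
      φ D ≠ 0 → C ≤ Fintype.card k → ∃ T : Finset k, Fintype.card k ≤ C * T.card ∧ ∀ s ∈ T,
        ∃ ψ : S →+* k, (∀ (a : A) (g : S), (g : PowerSeries (FractionRing A)) =
            PowerSeries.C (algebraMap A (FractionRing A) a) → ψ g = φ a) ∧
          (∀ g : S, (g : PowerSeries (FractionRing A)) = PowerSeries.X → ψ g = s) ∧
          (∀ g : S, (g : PowerSeries (FractionRing A)) = h → ψ g ≠ 0)

/-- LEAF ENG3 (file AH/Eng3.lean, theorem `eng3 (hg : S_G3) : S_ENG3`; compare `engine2` in AH/Zig2.lean).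
`B'` = perfect closure of `B` (`hB'`), `N = FractionRing B'`.
Proof.  One `J` with `σ i (x v) ^ p ^ J = 𝔭.ι (w i v)`, `w i v` algebraic (finitely many `i, v`; enlarge the exponents
by Frobenius).  `S_G3` for `A := B'`, the family `w`, `h = X * ∏ t ∈ pairs, (w t.1.1 t.1.2 - w t.2.1 t.2.2)` gives
`D' : B'`; `D' ^ p ^ j` comes from `D : B`.  `φ : B →+* k` extends to `φ' : B' →+* k` (`k` is perfect of
characteristic `p`; `PerfectClosure.lift`-like: or use the hypothesis `hlift`), `φ' D' ≠ 0`.  `y i v` is the `p ^ J`-th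
root of `ψ (w i v)` in `k`.  Every assertion is checked after taking `p ^ J`-th powers (`ι` and Frobenius are
injective). -/
def S_ENG3 : Prop :=
  ∀ (p : ℕ) [Fact p.Prime] (A B B' : Type) [CommRing A] [CommRing B] [IsDomain B] [CommRing B']
    [IsDomain B'] [CharP B' p] [PerfectRing B' p] [Algebra A B] (i0 : B →+* B'),
    Function.Injective i0 → (∀ b : B', ∃ (j : ℕ) (c : B), b ^ p ^ j = i0 c) →
    ∀ (P : Type) [CommRing P] [IsDomain P] [CharP P p] [PerfectRing P p]
    (𝔭 : Perf p (FractionRing B') P) (V : Type) [Finite V] (x : V → B) (ι : Type) [Finite ι]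
    (σ : ι → (FractionRing B' →+* P)),
    (∀ i (a : A), σ i (algebraMap B' (FractionRing B') (i0 (algebraMap A B a))) =
      𝔭.ι (PowerSeries.C (algebraMap B' (FractionRing B') (i0 (algebraMap A B a))))) →
    (∀ i a, Gd 𝔭 (σ i a)) →
    ∀ (pairs : Finset ((ι × V) × (ι × V))), (∀ t ∈ pairs,
      σ t.1.1 (algebraMap B' (FractionRing B') (i0 (x t.1.2))) ≠
        σ t.2.1 (algebraMap B' (FractionRing B') (i0 (x t.2.2)))) →
    ∃ D : B, D ≠ 0 ∧ ∃ C : ℕ, ∀ (k : Type) [Field k] [Fintype k] [DecidableEq k] (φ : B →+* k),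
      φ D ≠ 0 → C ≤ Fintype.card k → ∃ T : Finset k, Fintype.card k ≤ C * T.card ∧ ∀ s ∈ T, s ≠ 0 ∧
        ∃ y : ι → V → k,
          (∀ i, ∀ f : MvPolynomial V A, aeval x f = 0 → eval₂ (φ.comp (algebraMap A B)) (y i) f = 0) ∧
          (∀ t ∈ pairs, y t.1.1 t.1.2 ≠ y t.2.1 t.2.2) ∧
          (∀ i j v, σ i (algebraMap B' (FractionRing B') (i0 (x v))) =
            σ j (algebraMap B' (FractionRing B') (i0 (x v))) → y i v = y j v) ∧
          (∀ i v, σ i (algebraMap B' (FractionRing B') (i0 (x v))) =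
            𝔭.ι (PowerSeries.C (algebraMap B' (FractionRing B') (i0 (x v)))) → y i v = φ (x v)) ∧
          (∀ i v, σ i (algebraMap B' (FractionRing B') (i0 (x v))) =
            𝔭.ι (PowerSeries.C (algebraMap B' (FractionRing B') (i0 (x v))) + PowerSeries.X) →
              y i v = φ (x v) + s)

/-- LEAF ZIG3 (file AH/Zig3.lean, theorem `zig3 (ht : S_T3) : S_ZIG3`; adapt `zig2` in AH/Zig2.lean, without the
derivations, and `exists_basis` in AH/Zig.lean: a set of algebraically independent `x v` is contained in a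
transcendence basis among the `x v`, since every `a : N` is algebraic over `A [x]`). -/
def S_ZIG3 : Prop :=
  ∀ (p : ℕ) [Fact p.Prime] (n m s : ℕ) (c0 : Fin m) (N : Type) [Field N] [CharP N p]
    [PerfectRing N p] (P : Type) [CommRing P] [IsDomain P] [CharP P p] [PerfectRing P p]
    (𝔭 : Perf p N P) (A : Type) [CommRing A] [IsDomain A] [Algebra A N],
    Function.Injective (algebraMap A N) → ∀ (x : (Fin (n + 3) × Fin m) ⊕ Fin s → N),
    (∀ a : N, ∃ (j : ℕ) (f g : MvPolynomial ((Fin (n + 3) × Fin m) ⊕ Fin s) A),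
      aeval x g ≠ 0 ∧ a ^ p ^ j * aeval x g = aeval x f) →
    (∀ i : Fin 3, AlgebraicIndependent A
      (fun v : (Sum.inl '' pr n m i : Set ((Fin (n + 3) × Fin m) ⊕ Fin s)) => x v)) →
    ∃ W : ℕ → (N →+* P),
      (∀ i (a : A), W i (algebraMap A N a) = 𝔭.ι (PowerSeries.C (algebraMap A N a))) ∧
      (∀ i a, 𝔭.cc (W i a) = a) ∧ (∀ i a, Gd 𝔭 (W i a)) ∧
      (∀ a, W 0 a = 𝔭.ι (PowerSeries.C a)) ∧
      (∀ i c, W i (x (Sum.inl (pa n 1, c))) = 𝔭.ι (PowerSeries.C (x (Sum.inl (pa n 1, c))) +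
        if i % 2 = 1 ∧ c = c0 then PowerSeries.X else 0)) ∧
      (∀ j c, W (2 * j + 1) (x (Sum.inl (pa n 0, c))) = W (2 * j) (x (Sum.inl (pa n 0, c)))) ∧
      (∀ j c, W (2 * j + 2) (x (Sum.inl (pa n 2, c))) = W (2 * j + 1) (x (Sum.inl (pa n 2, c))))

/-- LEAF CB2 (file AH/CB2.lean, theorem `cb2 : S_CB2`).  Walks `w P 0 = P, w P 1, …, w P e` of edges; the edges
`w P j`, `w P (j + 1)` have the common vertex `v P j`; all edges contain `b0` (`j` even) or `b1` (`j` odd).
Proof.  For a finite set `T` of edges let `f T = |⋃ T ∪ {b0, b1}| - (r - 2) |T|` (in `ℤ`).  `f ∅ ≤ 2`.  Let `f T ≤ 2`,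
`|T| < e`, and add the edges of a walk one after the other, `T_j = T ∪ {w 0, …, w j}`.  The first edge contains `b0`:
`f` grows by at most 1.  A later new edge `w j` contains the two different vertices `v (j - 1)`, `b_j` which are already
there: `f` does not grow.  If `|T_j| = e` for some `j ≤ e` then `S = T_j` has `|⋃ S| ≤ (r - 2) e + 3`.  Otherwise
some `w j` is in `T_(j-1)` (`T_(-1) = T`); take the first such `j`.  If `j = 0` then `f T_0 = f T ≤ 2`.  If `j ≥ 1` and `w j`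
is in `T_(j-2)`: when the new edge `w (j - 1)` was added, its vertices `v (j - 1)` (in `w j`), `b_(j-1)` and, if `j ≥ 2`,
`v (j - 2)`, all different, were already there; if `w j = w (j - 1)` then its vertices `b0`, `b1` and, if `j ≥ 2`, `v (j - 2)` were
already there: so `f T_(j-1) ≤ 2` (if `j = 1` then `f` did not grow at the first edge, if `j ≥ 2` it has decreased by 1).  So
`f T_e ≤ 2`, `P ∈ T_e`.  After all `P` in `Ps` we would have `|T| ≥ |Ps| ≥ e`. -/
def S_CB2 : Prop :=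
  ∀ (V : Type) [DecidableEq V] (r e : ℕ), 3 ≤ r → ∀ (b0 b1 : V), b0 ≠ b1 →
    ∀ (Ps : Finset (Finset V)) (w : Finset V → ℕ → Finset V) (v : Finset V → ℕ → V), e ≤ Ps.card →
    (∀ P ∈ Ps, w P 0 = P) → (∀ P ∈ Ps, ∀ j ≤ e, (w P j).card = r) →
    (∀ P ∈ Ps, ∀ j ≤ e, (if j % 2 = 0 then b0 else b1) ∈ w P j) →
    (∀ P ∈ Ps, ∀ j < e, v P j ∈ w P j ∧ v P j ∈ w P (j + 1) ∧ v P j ≠ b0 ∧ v P j ≠ b1) →
    (∀ P ∈ Ps, ∀ j, j + 1 < e → v P j ≠ v P (j + 1)) →
    ∃ S : Finset (Finset V), S.card = e ∧ (S.biUnion id).card ≤ (r - 2) * e + 3 ∧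
      ∀ u ∈ S, ∃ P ∈ Ps, ∃ j ≤ e, u = w P j

/-- the conclusion about configurations, for many edges -/
def HasConf3 (n m s l e : ℕ) (lam : Fin (n + 3) → Fin l) (A B : Type) [CommRing A] [CommRing B]
    [Algebra A B] (x : (Fin (n + 3) × Fin m) ⊕ Fin s → B) : Prop :=
  ∃ D : B, D ≠ 0 ∧ ∃ C : ℕ, ∀ (k : Type) [Field k] [Fintype k] [DecidableEq k] (φ0 : A →+* k)
    (Es : Finset (Finset (Fin l × (Fin m → k)))),
    (∀ u ∈ Es, u.card = n + 3 ∧ ∃ φ : B →+* k, φ.comp (algebraMap A B) = φ0 ∧ φ D ≠ 0 ∧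
      u = edge lam (fun v => φ (x (Sum.inl v)))) →
    C * Fintype.card k ^ (2 * m - 1) < Es.card →
    ∃ S : Finset (Finset (Fin l × (Fin m → k))), S.card = e ∧
      (S.biUnion id).card ≤ (n + 1) * e + 3 ∧ ∀ u ∈ S, u.card = n + 3 ∧
        ∃ y : (Fin (n + 3) × Fin m) ⊕ Fin s → k, u = edge lam (fun v => y (Sum.inl v)) ∧
          ∀ f : MvPolynomial ((Fin (n + 3) × Fin m) ⊕ Fin s) A, aeval x f = 0 → eval₂ φ0 y f = 0

/-- LEAF C3A (file AH/C3A.lean, theorem `c3a (hp : S_P3) (hz : S_ZIG3) (he : S_ENG3) (hcb : S_CB2) : S_C3A`;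
compare `conf_a2` in AH/Conf2.lean).
Proof.  `B' = PerfectClosure B p`, `N = FractionRing B'` (perfect), `P`, `𝔭` from `hp`, `W` from `hz`, `he` with
`ι = Fin (e + 1)`, `σ i = W i` and the pairs `((i, (q, c)), (j, (q', c)))` for `q ≠ q'`, `lam q = lam q'`, `c = cc q q'` a
coordinate with `x (q, c) ≠ x (q', c)` (constant coefficients; as in `conf_a2`) gives `D`, `C1`.  `C` is large.  If
`card k < C1` then `Es.card ≤ 2 ^ (l * C1 ^ m)`-like bound is at most `C`.  Otherwise for `u ∈ Es` there are `φ_u` and a set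
`T_u` of at least `q / C1` elements `s`.  So there are more than `(C / C1) q ^ (2 m)` pairs `(u, s)`, and only `q ^ (m + 1)`
values `(φ_u (x (pa n 1, ·)), s)`: at least `e` edges `u` (the set `Ps`) have the same value `(b, s)` (`m ≥ 1`).
`w u j = edge lam (y j)` for the `y` of `u`, `s`; `w u 0 = u` as `W 0 (x v) = ι (C (x v))`; `b0 = (lam (pa n 1), b)`,
`b1 = (lam (pa n 1), b + s e_c0)`; `v u j = (lam (pa n 0), y j (pa n 0, ·))` for `j` even, `(lam (pa n 2), y j (pa n 2, ·))`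
for `j` odd; vertices of different parts are different: by the pairs also for different `i, j`.  `hcb` with `r = n + 3`. -/
def S_C3A : Prop :=
  ∀ (p : ℕ) [Fact p.Prime] (n m s l : ℕ) (lam : Fin (n + 3) → Fin l) (_c0 : Fin m) (e : ℕ)
    (A B : Type) [CommRing A] [IsDomain A] [CommRing B] [IsDomain B] [CharP B p] [Algebra A B],
    Function.Injective (algebraMap A B) → ∀ (x : (Fin (n + 3) × Fin m) ⊕ Fin s → B),
    (∀ b : B, ∃ f : MvPolynomial ((Fin (n + 3) × Fin m) ⊕ Fin s) A, aeval x f = b) →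
    (∀ q q', q ≠ q' → lam q = lam q' → ∃ c, x (Sum.inl (q, c)) ≠ x (Sum.inl (q', c))) →
    (∀ i : Fin 3, AlgebraicIndependent A
      (fun v : (Sum.inl '' pr n m i : Set ((Fin (n + 3) × Fin m) ⊕ Fin s)) =>
        algebraMap B (FractionRing B) (x v))) →
    HasConf3 n m s l e lam A B x

/-- LEAF NOE3 (file AH/Noe3.lean, theorem `noe3 (ht : S_T) (hsz : S_SZ) (h : S_C3A) : S_NOE3`).
Adapt AH/Noe2.lean: no condition on `ringChar` (`Concl3`, `ConclD3`; `concl_add2`, `prime_dep2` do not need it); for a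
prime `Q` with quotient `B` of characteristic zero: `conf_a2` / `conf_b2` give `HasConf2` with `D`, `C0`; take the element
`d = D * C0 !` (the image of `C0 !` in `B` is not zero): where `d` does not vanish, `C0 < ringChar k ≤ card k`.  For a prime `Q`
with quotient of characteristic `p`: `HasConf3` from `h`.  In all cases the points where `d` vanishes are
treated by `hadd d`. -/
def S_NOE3 : Prop :=
  ∀ (R : Type) [CommRing R] [IsNoetherianRing R] (n m s l : ℕ) (lam : Fin (n + 3) → Fin l) (e : ℕ)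
    (_c0 : Fin m) (Q : Ideal (MvPolynomial ((Fin (n + 3) × Fin m) ⊕ Fin s) R)),
    ∃ C : ℕ, ∀ (k : Type) [Field k] [Fintype k] [DecidableEq k] (φ : R →+* k),
      Has lam e φ Q ∨ (HsP lam φ Q fun _ => True).ncard ≤ C * Fintype.card k ^ (2 * m - 1)

/-- LEAF FIN4 (file AH/Fin4.lean, theorem `fin4 (h : S_NOE3) : S_FIN4`; adapt AH/Fin2.lean and AH/Fin3.lean). -/
def S_FIN4 : Prop :=
  ∀ (r m s l d e : ℕ), 3 ≤ r → 1 ≤ m →
    ∃ C : ℕ, ∀ (k : Type) [Field k] [Fintype k] [DecidableEq k],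
      ∀ (L : ℕ) (G : Fin L → (Fin r → Fin l) → Set (MvPolynomial ((Fin r × Fin m) ⊕ Fin s) k)),
      (∀ i lam, ∀ f ∈ G i lam, f.totalDegree ≤ d) →
      C * L * Fintype.card k ^ (2 * m - 1) < (⋃ i, Edges (G i)).ncard →
      ∃ i, ∃ S : Finset (Finset (Fin l × (Fin m → k))), (∀ u ∈ S, u ∈ Edges (G i)) ∧ S.card = e ∧
        (S.biUnion id).card ≤ (r - 2) * e + 3

end Pool.Agent.K9h85.AH
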