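import Mathlib
import Pool.Agent.K9h85.AH.Noe3

/-!
# Project AH (helper85): the robust version (subhypergraphs that miss few edges)
-/

set_option autoImplicit false

open MvPolynomial

namespace Pool.Agent.K9h85.AH

/-- walks of edges through the specialisations of a generic point -/
def Walks (n m s l e : ℕ) (lam : Fin (n + 3) → Fin l) (c0 : Fin m) (A B : Type) [CommRing A]
    [CommRing B] [Algebra A B] (x : (Fin (n + 3) × Fin m) ⊕ Fin s → B) : Prop :=
  ∃ D : B, D ≠ 0 ∧ ∃ C : ℕ, ∀ (k : Type) [Field k] [Fintype k] [DecidableEq k] (φ : B →+* k),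
    φ D ≠ 0 → C ≤ Fintype.card k → ∃ T : Finset k, Fintype.card k ≤ C * T.card ∧ ∀ t ∈ T, t ≠ 0 ∧
      ∃ y : ℕ → (Fin (n + 3) × Fin m) ⊕ Fin s → k,
        (∀ i ≤ e, ∀ f : MvPolynomial ((Fin (n + 3) × Fin m) ⊕ Fin s) A, aeval x f = 0 →
          eval₂ (φ.comp (algebraMap A B)) (y i) f = 0) ∧
        (∀ v, y 0 v = φ (x v)) ∧
        (∀ i ≤ e, ∀ j ≤ e, ∀ q q', q ≠ q' → lam q = lam q' →
          ∃ c, y i (Sum.inl (q, c)) ≠ y j (Sum.inl (q', c))) ∧
        (∀ i ≤ e, ∀ c, y i (Sum.inl (pa n 1, c)) =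
          φ (x (Sum.inl (pa n 1, c))) + if i % 2 = 1 ∧ c = c0 then t else 0) ∧
        (∀ j, 2 * j + 1 ≤ e → ∀ c,
          y (2 * j + 1) (Sum.inl (pa n 0, c)) = y (2 * j) (Sum.inl (pa n 0, c))) ∧
        (∀ j, 2 * j + 2 ≤ e → ∀ c,
          y (2 * j + 2) (Sum.inl (pa n 2, c)) = y (2 * j + 1) (Sum.inl (pa n 2, c)))

/-- LEAF WP (file AH/WP.lean, theorem `wp (hp : S_P3) (hz : S_ZIG3) (he : S_ENG3) : S_WP`): the first half of the
proof of `c3a` (AH/C3A.lean). -/
def S_WP : Prop :=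
  ∀ (p : ℕ) [Fact p.Prime] (n m s l : ℕ) (lam : Fin (n + 3) → Fin l) (c0 : Fin m) (e : ℕ)
    (A B : Type) [CommRing A] [IsDomain A] [CommRing B] [IsDomain B] [CharP B p] [Algebra A B],
    Function.Injective (algebraMap A B) → ∀ (x : (Fin (n + 3) × Fin m) ⊕ Fin s → B),
    (∀ b : B, ∃ f : MvPolynomial ((Fin (n + 3) × Fin m) ⊕ Fin s) A, aeval x f = b) →
    (∀ q q', q ≠ q' → lam q = lam q' → ∃ c, x (Sum.inl (q, c)) ≠ x (Sum.inl (q', c))) →
    (∀ i : Fin 3, AlgebraicIndependent A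
      (fun v : (Sum.inl '' pr n m i : Set ((Fin (n + 3) × Fin m) ⊕ Fin s)) =>
        algebraMap B (FractionRing B) (x v))) →
    Walks n m s l e lam c0 A B x

/-- LEAF W0 (file AH/W0.lean, theorem `w0 (ht : S_T) : S_W0`): characteristic zero; the first half of the proof of
`zig2` (AH/Zig2.lean; without the derivations, so without `hal`; `W 0 = C`), then `engine2` as in `conf_a2`
(AH/Conf2.lean) with `ι = Fin (e + 1)`. -/
def S_W0 : Prop :=
  ∀ (n m s l : ℕ) (lam : Fin (n + 3) → Fin l) (c0 : Fin m) (e : ℕ)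
    (A B : Type) [CommRing A] [IsDomain A] [CommRing B] [IsDomain B] [CharZero B] [Algebra A B],
    Function.Injective (algebraMap A B) → ∀ (x : (Fin (n + 3) × Fin m) ⊕ Fin s → B),
    (∀ b : B, ∃ f : MvPolynomial ((Fin (n + 3) × Fin m) ⊕ Fin s) A, aeval x f = b) →
    (∀ q q', q ≠ q' → lam q = lam q' → ∃ c, x (Sum.inl (q, c)) ≠ x (Sum.inl (q', c))) →
    (∀ i : Fin 3, AlgebraicIndependent A
      (fun v : (Sum.inl '' pr n m i : Set ((Fin (n + 3) × Fin m) ⊕ Fin s)) =>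
        algebraMap B (FractionRing B) (x v))) →
    Walks n m s l e lam c0 A B x

/-- LEAF CHG (file AH/CHG.lean, theorem `chg : S_CHG`), Mathlib only.  Walks whose first bad edge is `w u j`.
Proof.  For `j ≤ e`, `β : V`, `u'`: the number of the `u ∈ U` with `w u j = u'`, `b u = β`, `w u i ∈ G` for `i < j` is at most
`(r * e) ^ j` (induction on `j`: `w u (j - 1) ∈ G` contains a vertex `v` of `u'` (`r` choices), different from
`β`, `σ β`, and `β` or `σ β` according to the parity of `j - 1`: at most `e` such sets in `G`).  `β ∈ u'` or `σ β ∈ u'`: at most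
`r` values of `β`.  Sum over `j ≤ e`, `u' ∈ Bad`. -/
def S_CHG : Prop :=
  ∀ (V : Type) [DecidableEq V] (r e : ℕ) (σ : V ≃ V) (G Bad U : Finset (Finset V))
    (w : Finset V → ℕ → Finset V) (b : Finset V → V) (v : Finset V → ℕ → V),
    1 ≤ r → 1 ≤ e →
    (∀ a a' : V, a ≠ a' → (G.filter fun g => a ∈ g ∧ a' ∈ g).card ≤ e) →
    (∀ u ∈ U, w u 0 = u) → (∀ u ∈ U, ∀ j ≤ e, (w u j).card ≤ r) →
    (∀ u ∈ U, ∀ j ≤ e, (if j % 2 = 0 then b u else σ (b u)) ∈ w u j) →
    (∀ u ∈ U, ∀ j < e, v u j ∈ w u j ∧ v u j ∈ w u (j + 1) ∧ v u j ≠ b u ∧ v u j ≠ σ (b u)) →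
    (∀ u ∈ U, ∃ j ≤ e, w u j ∈ Bad ∧ ∀ i < j, w u i ∈ G) →
    U.card ≤ (e + 1) * (r * (r * e) ^ e) * Bad.card

/-- configurations outside of `Bad`, for many edges -/
def HasConfR (n m s l e : ℕ) (lam : Fin (n + 3) → Fin l) (A B : Type) [CommRing A] [CommRing B]
    [Algebra A B] (x : (Fin (n + 3) × Fin m) ⊕ Fin s → B) : Prop :=
  ∃ D : B, D ≠ 0 ∧ ∃ C : ℕ, ∀ (k : Type) [Field k] [Fintype k] [DecidableEq k] (φ0 : A →+* k)
    (Es Bad : Finset (Finset (Fin l × (Fin m → k)))),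
    (∀ u ∈ Es, u ∉ Bad ∧ u.card = n + 3 ∧ ∃ φ : B →+* k, φ.comp (algebraMap A B) = φ0 ∧ φ D ≠ 0 ∧
      u = edge lam (fun v => φ (x (Sum.inl v)))) →
    C * (Bad.card + Fintype.card k ^ (2 * m - 1)) < Es.card →
    ∃ S : Finset (Finset (Fin l × (Fin m → k))), S.card = e ∧
      (S.biUnion id).card ≤ (n + 1) * e + 3 ∧ ∀ u ∈ S, u ∉ Bad ∧ u.card = n + 3 ∧
        ∃ y : (Fin (n + 3) × Fin m) ⊕ Fin s → k, u = edge lam (fun v => y (Sum.inl v)) ∧
          ∀ f : MvPolynomial ((Fin (n + 3) × Fin m) ⊕ Fin s) A, aeval x f = 0 → eval₂ φ0 y f = 0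

/-- LEAF ROB (file AH/Rob.lean, theorem `rob (h1 : S_CHG) (h2 : S_CB2) : S_ROB`; compare the second half of `c3a` in
AH/C3A.lean).
Proof.  `e = 0`: `S = ∅`.  Suppose there is no such `S`.  Let `G` be the finite set of all the edges `u ∉ Bad`, `u.card = n + 3`,
`∃ y, …`.  `e` edges of `G` with two common vertices have a union of at most `(n + 1) e + 2` vertices, so the number of
edges of `G` with two given vertices is at most `e` (less than `e`).  For `u ∈ Es` let `φ_u`, `T_u` be as in `Walks`, and for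
`t ∈ T_u` the walk `w j = edge lam (y j)`, `j ≤ e`, in `G ∪ Bad`.  For each `t` the set `U_t` of the `u` with `t ∈ T_u` for which
some `w j ∈ Bad` has at most `M * Bad.card` elements by `h1` (`σ` = the shift by `t` of the coordinate `c0`).  So more than
`Es.card * q / C1 - q * M * Bad.card ≥ Es.card * q / (2 C1)` pairs `(u, t)` have walks in `G`; by the pigeonhole principle `e` of
them (different `u`) have the same `(φ_u (x (pa n 1, ·)), t)`; `h2` gives `S ⊆ G`.  (`q < C1`: `Es.card` is bounded by a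
constant.) -/
def S_ROB : Prop :=
  ∀ (n m s l : ℕ) (lam : Fin (n + 3) → Fin l) (c0 : Fin m) (e : ℕ)
    (A B : Type) [CommRing A] [CommRing B] [Algebra A B]
    (x : (Fin (n + 3) × Fin m) ⊕ Fin s → B),
    Walks n m s l e lam c0 A B x → HasConfR n m s l e lam A B x

end Pool.Agent.K9h85.AH
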