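import Pool.Agent.K9h85.AH.Zig
import Pool.Agent.K9h85.AH.Eng
import Pool.Agent.K9h85.AH.D

/-! The zigzag for a field generated by the coordinates of a generic point, with further coordinates -/

set_option autoImplicit false

open MvPolynomial

namespace Pool.Agent.K9h85.AH

theorem der_alg {A L : Type} [CommRing A] [IsDomain A] [Field L] [CharZero L] [Algebra A L]
    (S0 : Set L) (D : Derivation A L L) (hD : ∀ a ∈ S0, D a = 0) (a : L)
    (ha : IsAlgebraic (Algebra.adjoin A S0) a) : D a = 0 := by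
  classical
  have hzero : ∀ b ∈ Algebra.adjoin A S0, D b = 0 := by
    intro b hb
    have h1 : Set.EqOn D (0 : Derivation A L L) S0 := by
      intro a ha
      simpa using hD a ha
    have h2 := Derivation.eqOn_adjoin h1 hb
    simpa using h2
  let D' : Derivation (Algebra.adjoin A S0) L L := Derivation.mk'
    { toFun := D
      map_add' := map_add D
      map_smul' := by
        intro b a
        have h1 : b • a = (b : L) * a := rfl
        have h2 : b • D a = (b : L) * D a := rfl
        rw [h1, RingHom.id_apply, h2, D.leibniz, hzero b b.2]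
        simp }
    (by
      intro a b
      exact D.leibniz a b)
  have hD' : ∀ a, D' a = D a := fun _ => rfl
  rw [← hD']
  obtain ⟨p, hp, hpa⟩ := ha
  have hex : ∃ n : ℕ, ∃ r : Polynomial (Algebra.adjoin A S0),
      r ≠ 0 ∧ Polynomial.aeval a r = 0 ∧ r.natDegree = n := ⟨_, p, hp, hpa, rfl⟩
  obtain ⟨r, hr, hra, hrn⟩ := Nat.find_spec hex
  refine d_aux _ L ?_ D' a r hr hra ?_
  · exact Subtype.val_injective
  · intro s hs hsa
    rw [hrn]
    exact Nat.find_min' hex ⟨s, hs, hsa, rfl⟩

theorem zig2 (ht : S_T) (n m s : ℕ) (c0 : Fin m) {A L : Type} [CommRing A] [IsDomain A]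
    [Field L] [CharZero L] [Algebra A L] (hinj : Function.Injective (algebraMap A L))
    (x : (Fin (n + 3) × Fin m) ⊕ Fin s → L)
    (hx : ∀ a : L, ∃ f g : MvPolynomial ((Fin (n + 3) × Fin m) ⊕ Fin s) A,
      aeval x g ≠ 0 ∧ a * aeval x g = aeval x f)
    (hI : ∀ i : Fin 3, AlgebraicIndependent A
      (fun v : (Sum.inl '' pr n m i : Set ((Fin (n + 3) × Fin m) ⊕ Fin s)) => x v))
    (hal : ∀ (i : Fin 3) (v : Fin (n + 3) × Fin m),
      IsAlgebraic (Algebra.adjoin A (x '' (Sum.inl '' pr n m i))) (x (Sum.inl v))) :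
    ∃ W : ℕ → (L →+* PowerSeries L),
      (∀ i (a : A), W i (algebraMap A L a) = PowerSeries.C (algebraMap A L a)) ∧
      (∀ i a, PowerSeries.constantCoeff (W i a) = a) ∧
      (∀ i a, IsAlgebraic (Polynomial L) (W i a)) ∧
      (∀ i c, W i (x (Sum.inl (pa n 1, c))) = PowerSeries.C (x (Sum.inl (pa n 1, c))) +
        if i % 2 = 1 ∧ c = c0 then PowerSeries.X else 0) ∧
      (∀ j c, W (2 * j + 1) (x (Sum.inl (pa n 0, c))) = W (2 * j) (x (Sum.inl (pa n 0, c)))) ∧
      (∀ j c, W (2 * j + 2) (x (Sum.inl (pa n 2, c))) = W (2 * j + 1) (x (Sum.inl (pa n 2, c)))) ∧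
      ∃ c1, Function.Injective fun j => W (2 * j) (x (Sum.inl (pa n 0, c1))) := by
  classical
  obtain ⟨y, hy⟩ : ∃ y : ℕ → Fin m → PowerSeries L, y = fun i c =>
      PowerSeries.C (x (Sum.inl (pa n 1, c))) +
        if i % 2 = 1 ∧ c = c0 then PowerSeries.X else 0 := ⟨_, rfl⟩
  have hyc : ∀ i c, PowerSeries.constantCoeff (y i c) = x (Sum.inl (pa n 1, c)) := by
    intro i c
    rw [hy]
    simp only
    rw [map_add, PowerSeries.constantCoeff_C]
    split_ifs
    · rw [PowerSeries.constantCoeff_X, add_zero]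
    · rw [map_zero, add_zero]
  have hya : ∀ i c, IsAlgebraic (Polynomial L) (y i c) := by
    intro i c
    rw [hy]
    simp only
    split_ifs
    · exact (algC' _).add algX'
    · rw [add_zero]
      exact algC' _
  let St := {σ : L →+* PowerSeries L // (∀ a : A, σ (algebraMap A L a) =
    PowerSeries.C (algebraMap A L a)) ∧ (∀ a, PowerSeries.constantCoeff (σ a) = a) ∧
    ∀ a, IsAlgebraic (Polynomial L) (σ a)}
  have hstep : ∀ (i : ℕ) (σ : St), ∃ σ' : St, ∀ v ∈ pr n m (lb' i),
      σ'.1 (x (Sum.inl v)) = if v.1 = pa n 1 then y (i + 1) v.2 else σ.1 (x (Sum.inl v)) := by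
    intro i σ
    obtain ⟨sb, hsb, hb⟩ := exists_basis x hx _ (hI (lb' i))
    obtain ⟨σ', h1, h2, h3, h4⟩ := ht A L hinj _ x hx sb hb
      (fun v => Sum.elim (fun w : Fin (n + 3) × Fin m =>
        if w.1 = pa n 1 then y (i + 1) w.2 else σ.1 (x (Sum.inl w)))
          (fun u => σ.1 (x (Sum.inr u))) v.1) (by
        rintro ⟨v | v, hv⟩
        · simp only [Sum.elim_inl]
          split_ifs with h
          · rw [hyc, ← h]
          · exact σ.2.2.1 _
        · simp only [Sum.elim_inr]
          exact σ.2.2.1 _) (by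
        rintro ⟨v | v, hv⟩
        · simp only [Sum.elim_inl]
          split_ifs with h
          · exact hya _ _
          · exact σ.2.2.2 _
        · simp only [Sum.elim_inr]
          exact σ.2.2.2 _)
    exact ⟨⟨σ', h1, h2, h4⟩, fun v hv => h3 ⟨Sum.inl v, hsb (Set.mem_image_of_mem _ hv)⟩⟩
  choose nxt hnxt using hstep
  let s0 : St := ⟨PowerSeries.C, fun a => rfl, fun a => PowerSeries.constantCoeff_C a,
    fun a => algC' a⟩
  let W : ℕ → St := fun i => Nat.rec s0 nxt i
  have hW : ∀ i (j : Fin 3), j ≠ lb' i → ∀ c, (W (i + 1)).1 (x (Sum.inl (pa n j, c))) =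
      if j = 1 then y (i + 1) c else (W i).1 (x (Sum.inl (pa n j, c))) := by
    intro i j hj c
    have h1 := hnxt i (W i) (pa n j, c) (pa_mem hj c)
    refine h1.trans ?_
    by_cases h : j = 1
    · exact (if_pos (congrArg (pa n) h)).trans (if_pos h).symm
    · rw [if_neg (fun h2 => h (pa_inj h2)), if_neg h]
  have hy1 : ∀ i c, (W i).1 (x (Sum.inl (pa n 1, c))) = y i c := by
    intro i c
    cases i with
    | zero =>
      show PowerSeries.C (x (Sum.inl (pa n 1, c))) = y 0 c
      rw [hy]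
      simp
    | succ i =>
      rw [hW i 1 (by rw [lb']; split_ifs <;> decide) c, if_pos rfl]
  have hx0 : ∀ j c, (W (2 * j + 1)).1 (x (Sum.inl (pa n 0, c))) =
      (W (2 * j)).1 (x (Sum.inl (pa n 0, c))) := by
    intro j c
    rw [hW (2 * j) 0 (by rw [lb', if_pos (by omega)]; decide) c, if_neg (by decide)]
  have hx2 : ∀ j c, (W (2 * j + 2)).1 (x (Sum.inl (pa n 2, c))) =
      (W (2 * j + 1)).1 (x (Sum.inl (pa n 2, c))) := by
    intro j c
    rw [hW (2 * j + 1) 2 (by rw [lb', if_neg (by omega)]; decide) c, if_neg (by decide)]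
  refine ⟨fun i => (W i).1, fun i => (W i).2.1, fun i => (W i).2.2.1, fun i => (W i).2.2.2,
    fun i c => by rw [hy1, hy], hx0, hx2, ?_⟩
  -- the first coefficients
  obtain ⟨κ, hκ⟩ : ∃ κ : ℕ → Derivation A L L, ∀ i a, κ i a = PowerSeries.coeff 1 ((W i).1 a) :=
    ⟨fun i => jet (W i).1 (W i).2.1 (W i).2.2.1, fun i a => rfl⟩
  have hκy : ∀ i c, κ i (x (Sum.inl (pa n 1, c))) = if i % 2 = 1 ∧ c = c0 then 1 else 0 := by
    intro i c
    rw [hκ, hy1, hy]
    simp only
    rw [map_add, PowerSeries.coeff_C, if_neg one_ne_zero, zero_add]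
    split_ifs
    · exact PowerSeries.coeff_one_X
    · exact map_zero _
  have hκ00 : ∀ a, κ 0 a = 0 := by
    intro a
    rw [hκ]
    show PowerSeries.coeff 1 (PowerSeries.C a) = 0
    rw [PowerSeries.coeff_C, if_neg one_ne_zero]
  have hκ0 : ∀ j c, κ (2 * j + 1) (x (Sum.inl (pa n 0, c))) = κ (2 * j) (x (Sum.inl (pa n 0, c))) := by
    intro j c
    rw [hκ, hκ, hx0]
  have hκ2 : ∀ j c, κ (2 * j + 2) (x (Sum.inl (pa n 2, c))) =
      κ (2 * j + 1) (x (Sum.inl (pa n 2, c))) := by
    intro j c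
    rw [hκ, hκ, hx2]
  have hvan : ∀ (l : Fin 3) (D : Derivation A L L), (∀ j : Fin 3, j ≠ l → ∀ c,
      D (x (Sum.inl (pa n j, c))) = 0) → ∀ v, D (x (Sum.inl v)) = 0 := by
    intro l D hD v
    refine der_alg _ D ?_ _ (hal l v)
    rintro _ ⟨_, ⟨w, hw, rfl⟩, rfl⟩
    obtain ⟨j, hj, c, rfl⟩ := (mem_pr w).1 hw
    exact hD j hj c
  have hmain : ∀ j : ℕ, (∀ v, κ (2 * j) (x (Sum.inl v)) = (j • κ 2) (x (Sum.inl v))) ∧
      ∀ v, κ (2 * j + 1) (x (Sum.inl v)) = (j • κ 2 + κ 1) (x (Sum.inl v)) := by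
    have hodd : ∀ j : ℕ, (∀ v, κ (2 * j) (x (Sum.inl v)) = (j • κ 2) (x (Sum.inl v))) →
        ∀ v, κ (2 * j + 1) (x (Sum.inl v)) = (j • κ 2 + κ 1) (x (Sum.inl v)) := by
      intro j hj v
      have h9 := hvan 2 (κ (2 * j + 1) - (j • κ 2 + κ 1)) (by
        intro l hl c
        have hl' : l = 0 ∨ l = 1 := by
          fin_cases l
          · exact Or.inl rfl
          · exact Or.inr rfl
          · exact absurd rfl hl
        rcases hl' with rfl | rfl
        · rw [Derivation.sub_apply, Derivation.add_apply, hκ0, hj]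
          have h1 := hκ0 0 c
          rw [mul_zero, zero_add, hκ00] at h1
          rw [h1]
          ring
        · rw [Derivation.sub_apply, Derivation.add_apply, Derivation.smul_apply, hκy, hκy, hκy]
          by_cases hc : c = c0
          · rw [if_pos ⟨by omega, hc⟩, if_neg (by omega), if_pos ⟨by omega, hc⟩]
            simp
          · rw [if_neg (fun h => hc h.2), if_neg (fun h => hc h.2), if_neg (fun h => hc h.2)]
            simp) v
      rw [Derivation.sub_apply, sub_eq_zero] at h9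
      exact h9
    intro j
    induction j with
    | zero =>
      have h0 : ∀ v, κ (2 * 0) (x (Sum.inl v)) = (0 • κ 2) (x (Sum.inl v)) := by
        intro v
        rw [zero_smul, mul_zero, hκ00]
        rfl
      exact ⟨h0, hodd 0 h0⟩
    | succ j ih =>
      have h2 : ∀ v, κ (2 * (j + 1)) (x (Sum.inl v)) = ((j + 1) • κ 2) (x (Sum.inl v)) := by
        intro v
        have h9 := hvan 0 (κ (2 * (j + 1)) - (j + 1) • κ 2) (by
          intro l hl c
          have hl' : l = 1 ∨ l = 2 := by
            fin_cases l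
            · exact absurd rfl hl
            · exact Or.inl rfl
            · exact Or.inr rfl
          rcases hl' with rfl | rfl
          · rw [Derivation.sub_apply, Derivation.smul_apply, hκy, hκy, if_neg (by omega),
              if_neg (by omega)]
            simp
          · rw [Derivation.sub_apply, show 2 * (j + 1) = 2 * j + 2 by ring, hκ2, ih.2,
              Derivation.add_apply, Derivation.smul_apply, Derivation.smul_apply]
            have h1 := hκ2 0 c
            rw [mul_zero, zero_add, zero_add] at h1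
            rw [← h1, add_smul, one_smul, sub_self]) v
        rw [Derivation.sub_apply, sub_eq_zero] at h9
        exact h9
      exact ⟨h2, hodd (j + 1) h2⟩
  have h10 : ∀ c, κ 1 (x (Sum.inl (pa n 0, c))) = 0 := by
    intro c
    have h1 := hκ0 0 c
    rw [mul_zero, zero_add, hκ00] at h1
    exact h1
  have h12 : ∀ c, κ 2 (x (Sum.inl (pa n 2, c))) = κ 1 (x (Sum.inl (pa n 2, c))) := by
    intro c
    have h1 := hκ2 0 c
    rw [mul_zero, zero_add, zero_add] at h1
    exact h1
  obtain ⟨c1, hc1⟩ : ∃ c1, κ 2 (x (Sum.inl (pa n 0, c1))) ≠ 0 := by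
    by_contra hcon
    push Not at hcon
    have h2 := hvan 2 (κ 2) (by
      intro l hl c
      have hl' : l = 0 ∨ l = 1 := by
        fin_cases l
        · exact Or.inl rfl
        · exact Or.inr rfl
        · exact absurd rfl hl
      rcases hl' with rfl | rfl
      · exact hcon c
      · rw [hκy, if_neg (by omega)])
    have h3 := hvan 1 (κ 1) (by
      intro l hl c
      have hl' : l = 0 ∨ l = 2 := by
        fin_cases l
        · exact Or.inl rfl
        · exact absurd rfl hl
        · exact Or.inr rfl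
      rcases hl' with rfl | rfl
      · exact h10 c
      · rw [← h12, h2])
    have h4 := hκy 1 c0
    rw [h3, if_pos ⟨rfl, rfl⟩] at h4
    exact zero_ne_one h4
  refine ⟨c1, fun i j hij => ?_⟩
  have h2 := congrArg (PowerSeries.coeff 1) hij
  simp only at h2
  rw [← hκ, ← hκ, (hmain i).1, (hmain j).1, Derivation.smul_apply, Derivation.smul_apply,
    nsmul_eq_mul, nsmul_eq_mul] at h2
  exact_mod_cast mul_right_cancel₀ hc1 h2

theorem engine2 {A B : Type} [CommRing A] [CommRing B] [IsDomain B] [CharZero B] [Algebra A B]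
    {V : Type} [Finite V] (x : V → B) {ι : Type} [Finite ι]
    (σ : ι → (FractionRing B →+* PowerSeries (FractionRing B)))
    (hA : ∀ i (a : A), σ i (algebraMap A (FractionRing B) a) =
      PowerSeries.C (algebraMap A (FractionRing B) a))
    (halg : ∀ i a, IsAlgebraic (Polynomial (FractionRing B)) (σ i a))
    (pairs : Finset ((ι × V) × (ι × V))) (hpairs : ∀ t ∈ pairs,
      σ t.1.1 (algebraMap B (FractionRing B) (x t.1.2)) ≠
        σ t.2.1 (algebraMap B (FractionRing B) (x t.2.2))) :
    ∃ D : B, D ≠ 0 ∧ ∃ C : ℕ, ∀ (k : Type) [Field k] [Fintype k] [DecidableEq k] (φ : B →+* k),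
      φ D ≠ 0 → C ≤ Fintype.card k → ∃ T : Finset k, Fintype.card k ≤ C * T.card ∧ ∀ s ∈ T, s ≠ 0 ∧
        ∃ y : ι → V → k,
          (∀ i, ∀ f : MvPolynomial V A, aeval x f = 0 → eval₂ (φ.comp (algebraMap A B)) (y i) f = 0) ∧
          (∀ t ∈ pairs, y t.1.1 t.1.2 ≠ y t.2.1 t.2.2) ∧
          (∀ i j v, σ i (algebraMap B (FractionRing B) (x v)) =
            σ j (algebraMap B (FractionRing B) (x v)) → y i v = y j v) ∧
          (∀ i v, σ i (algebraMap B (FractionRing B) (x v)) =
            PowerSeries.C (algebraMap B (FractionRing B) (x v)) → y i v = φ (x v)) ∧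
          (∀ i v, σ i (algebraMap B (FractionRing B) (x v)) =
            PowerSeries.C (algebraMap B (FractionRing B) (x v)) + PowerSeries.X →
              y i v = φ (x v) + s) := by
  classical
  set L := FractionRing B with hL
  set i0 : B →+* L := algebraMap B L with hi0
  set cA : B →+* PowerSeries L := (PowerSeries.C (R := L)).comp i0 with hcA
  obtain ⟨S, hS⟩ : ∃ S : Subring (PowerSeries L), S = Subring.closure
      (Set.range (fun a : B => PowerSeries.C (algebraMap B L a)) ∪ {PowerSeries.X} ∪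
        Set.range fun iv : ι × V => σ iv.1 (i0 (x iv.2))) := ⟨_, rfl⟩
  have hpS : ∀ (i : ι) v, σ i (i0 (x v)) ∈ S := by
    intro i v
    rw [hS]
    exact Subring.subset_closure (Or.inr ⟨(i, v), rfl⟩)
  have hXS : (PowerSeries.X : PowerSeries L) ∈ S := by
    rw [hS]
    exact Subring.subset_closure (Or.inl (Or.inr rfl))
  have hAS : ∀ a, cA a ∈ S := by
    intro a
    rw [hS]
    exact Subring.subset_closure (Or.inl (Or.inl ⟨a, rfl⟩))
  let iS : B →+* S := cA.codRestrict S hAS
  let ps : ι → V → S := fun i v => ⟨σ i (i0 (x v)), hpS i v⟩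
  have hzero : ∀ (i : ι) (f : MvPolynomial V A), aeval x f = 0 →
      eval₂ (iS.comp (algebraMap A B)) (ps i) f = 0 := by
    intro i f hf
    apply S.subtype_injective
    rw [map_zero, eval₂_comp_left]
    have h1 : eval₂ ((σ i).comp (i0.comp (algebraMap A B))) (fun v => σ i (i0 (x v))) f = 0 := by
      have h2 : σ i (i0 (aeval x f)) = 0 := by rw [hf, map_zero, map_zero]
      rw [aeval_def, eval₂_comp_left, eval₂_comp_left] at h2
      exact h2
    have h4 : S.subtype.comp (iS.comp (algebraMap A B)) =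
        (σ i).comp (i0.comp (algebraMap A B)) := by
      refine RingHom.ext fun a => ?_
      have h3 := hA i a
      rw [IsScalarTower.algebraMap_apply A B (FractionRing B)] at h3
      exact h3.symm
    rw [h4]
    exact h1
  -- the element `h`
  obtain ⟨hel, hhel⟩ : ∃ hel : S, hel = (⟨PowerSeries.X, hXS⟩ : S) *
      ∏ t ∈ pairs, (ps t.1.1 t.1.2 - ps t.2.1 t.2.2) := ⟨_, rfl⟩
  have hne : hel ≠ 0 := by
    rw [hhel]
    refine mul_ne_zero ?_ ?_
    · intro h1
      exact PowerSeries.X_ne_zero (congrArg Subtype.val h1)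
    · rw [Finset.prod_ne_zero_iff]
      intro t ht h1
      apply hpairs t ht
      have h3 := congrArg Subtype.val h1
      exact sub_eq_zero.1 h3
  obtain ⟨D, hD, C, hC⟩ := g B (ι × V) (fun iv => σ iv.1 (i0 (x iv.2)))
    (fun iv => halg iv.1 _) S hS hel.1 hel.2 (fun h1 => hne (Subtype.ext h1))
  refine ⟨D, hD, C, ?_⟩
  intro k _ _ _ φ hφ hq
  obtain ⟨T0, hT0, hψ⟩ := hC k φ hφ hq
  refine ⟨T0, hT0, fun s hs => ?_⟩
  obtain ⟨ψ, hψA, hψX, hψh⟩ := hψ s hs
  have hψi : ψ.comp iS = φ := RingHom.ext fun a => hψA a (iS a) rfl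
  have hψhel : ψ hel ≠ 0 := hψh hel rfl
  rw [hhel, map_mul, map_prod, mul_ne_zero_iff, Finset.prod_ne_zero_iff] at hψhel
  obtain ⟨hs0, hdif⟩ := hψhel
  rw [hψX ⟨PowerSeries.X, hXS⟩ rfl] at hs0
  refine ⟨hs0, fun i v => ψ (ps i v), ?_, ?_, ?_, ?_, ?_⟩
  · intro i f hf
    have h1 := hzero i f hf
    have h2 : ψ (eval₂ (iS.comp (algebraMap A B)) (ps i) f) = 0 := by rw [h1, map_zero]
    rw [eval₂_comp_left, ← RingHom.comp_assoc, hψi] at h2
    exact h2
  · intro t ht h1
    apply hdif t ht
    rw [map_sub, sub_eq_zero]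
    exact h1
  · intro i j v hij
    show ψ (ps i v) = ψ (ps j v)
    congr 1
    exact Subtype.ext hij
  · intro i v hi
    show ψ (ps i v) = _
    have h1 : ps i v = iS (x v) := Subtype.ext hi
    rw [h1, hψA _ (iS _) rfl]
  · intro i v hi
    show ψ (ps i v) = _
    have h1 : ps i v = iS (x v) + ⟨PowerSeries.X, hXS⟩ := Subtype.ext hi
    rw [h1, map_add, hψX ⟨PowerSeries.X, hXS⟩ rfl, hψA _ (iS _) rfl]

end Pool.Agent.K9h85.AH
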